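import Mathlib
import Pool.Agent.EllPR.CA
import Pool.Agent.EllPR.Newton
import Pool.Agent.AHI.Ev

/-!
# Effectively computable functions: more closure properties

`CA O f b` (file `EllPR/CA.lean`): `f` is Lipschitz near `b` and its values at Gaussian rational
points near `b` are effectively computable (primitive recursive relative to `O`).

Proofs.  `ca_mono`: `PR.mono`.  `ca_near`: take the radii minus the distance of `b'` to `b`.
`ca_conj`: `conj` is an isometry, on codes it is `(p, q, r, s, t) ↦ (p, q, s, r, t)` (primitive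
recursive); so `CA O (fun v : Fin 1 → ℂ => conj (v 0)) b` directly from the definition (the Lipschitz
condition with `K = 1`), then `CA.comp`.  `ca_re`, `ca_im`: `(z + conj z) / 2`,
`(z - conj z) / (2 I)`.  `ca_prod`: induction.  `ca_det`: `Matrix.det_apply'`.  `ca_ev`: the
definition of `ev` is a finite sum of products; all coefficients in the sum belong to `P.coeffs`.
`isPR_of_algebraic`: a simple root of a polynomial with coefficients in `EF O` (minimal polynomial over
`EF O`; characteristic `0`): `newton` with `ι = Unit`.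
-/

namespace Pool.Agent.AHE

open Pool.Agent.EllPR Filter
open scoped Topology ComplexConjugate

variable {O : Set (ℕ → ℕ)} {ι : Type} [Fintype ι] {b : ι → ℂ}

theorem ca_mono {O' : Set (ℕ → ℕ)} (h : O ⊆ O') {f : (ι → ℂ) → ℂ} (hf : CA O f b) :
    CA O' f b := by
  obtain ⟨r, hr, C, A, hA, h1⟩ := hf.eff
  exact ⟨hf.lip, r, hr, C, A, hA.mono h, h1⟩

theorem ca_near {f : (ι → ℂ) → ℂ} (hf : CA O f b) : ∀ᶠ b' in 𝓝 b, CA O f b' := by
  obtain ⟨r1, hr1, K, h1⟩ := hf.lip
  obtain ⟨r2, hr2, C, A, hA, h2⟩ := hf.eff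
  filter_upwards [Metric.ball_mem_nhds b (lt_min hr1 hr2)] with b' hb'
  rw [Metric.mem_ball, dist_eq_norm] at hb'
  have h3 : ‖b' - b‖ < r1 := hb'.trans_le (min_le_left _ _)
  have h4 : ‖b' - b‖ < r2 := hb'.trans_le (min_le_right _ _)
  have key : ∀ (x : ι → ℂ) (r : ℝ), ‖x - b'‖ < r - ‖b' - b‖ → ‖x - b‖ < r := by
    intro x r hx
    have h5 : x - b = (x - b') + (b' - b) := by abel
    rw [h5]
    refine (norm_add_le _ _).trans_lt ?_
    linarith
  exact ⟨⟨r1 - ‖b' - b‖, sub_pos.2 h3, K, fun x y hx hy => h1 x y (key x r1 hx) (key y r1 hy)⟩,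
    ⟨r2 - ‖b' - b‖, sub_pos.2 h4, C, A, hA, fun n x hx => h2 n x (key _ r2 hx)⟩⟩

/-- the conjugate on codes -/
private def CaA_cj (x : T) : T := (x.1, x.2.1, x.2.2.2.1, x.2.2.1, x.2.2.2.2)

private theorem CaA_cj_primrec : Primrec CaA_cj :=
  T.pr1.pair (T.pr2.pair (T.pr4.pair (T.pr3.pair T.pr5)))

private theorem CaA_val_cj (x : T) : val (CaA_cj x) = conj (val x) := by
  obtain ⟨p, q, r, s, t⟩ := x
  simp only [val, CaA_cj, map_div₀, map_add, map_sub, map_mul, map_natCast, map_one,
    Complex.conj_I]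
  ring

theorem ca_conj {f : (ι → ℂ) → ℂ} (hf : CA O f b) : CA O (fun v => conj (f v)) b := by
  refine CA.unary (fun v => conj (v 0)) hf ⟨⟨1, one_pos, 1, fun x y _ _ => ?_⟩,
    ⟨1, one_pos, 0, fun p => CaA_cj (p.2 0), ?_, fun n x _ => ?_⟩⟩
  · rw [← map_sub, Complex.norm_conj, one_mul]
    exact norm_le_pi_norm (x - y) 0
  · exact (PR.of_primrec CaA_cj_primrec).comp ((pr_apply 0).comp PR.snd)
  · rw [CaA_val_cj]
    change ‖conj (val (x 0)) - conj (val (x 0))‖ ≤ _
    rw [sub_self, norm_zero, zero_div]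

private theorem CaA_two : IsPR O 2 := by
  have h := (IsPR.ratCast (O := O) 2)
  simpa using h

theorem ca_re {f : (ι → ℂ) → ℂ} (hf : CA O f b) : CA O (fun v => ((f v).re : ℂ)) b := by
  have h := (hf.add (ca_conj hf)).div (CA.const CaA_two b) two_ne_zero
  refine h.congr one_pos fun v _ => ?_
  rw [Complex.add_conj]
  push_cast
  ring

theorem ca_im {f : (ι → ℂ) → ℂ} (hf : CA O f b) : CA O (fun v => ((f v).im : ℂ)) b := by
  have h2 : (2 * Complex.I : ℂ) ≠ 0 := mul_ne_zero two_ne_zero Complex.I_ne_zero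
  have h := (hf.sub (ca_conj hf)).div (CA.const (IsPR.mul CaA_two IsPR.I) b) h2
  refine h.congr one_pos fun v _ => ?_
  rw [Complex.sub_conj, div_eq_iff h2]
  push_cast
  ring

theorem ca_prod {κ : Type} (s : Finset κ) {f : κ → (ι → ℂ) → ℂ} (hf : ∀ k ∈ s, CA O (f k) b) :
    CA O (fun v => ∏ k ∈ s, f k v) b := by
  classical
  induction s using Finset.induction_on with
  | empty =>
    simpa using CA.const IsPR.one b
  | insert k s hk ih =>
    have h1 := (hf k (Finset.mem_insert_self _ _)).mul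
      (ih fun j hj => hf j (Finset.mem_insert_of_mem hj))
    simpa only [Finset.prod_insert hk] using h1

theorem ca_det {q : ℕ} {M : Fin q → Fin q → (ι → ℂ) → ℂ} (h : ∀ a c, CA O (M a c) b) :
    CA O (fun v => Matrix.det (Matrix.of fun a c => M a c v)) b := by
  have h1 : CA O (fun v => ∑ σ : Equiv.Perm (Fin q), ((Equiv.Perm.sign σ : ℤ) : ℂ) *
      ∏ i, M (σ i) i v) b := by
    refine CA.sum _ fun σ _ => (CA.const ?_ b).mul (ca_prod _ fun i _ => h _ _)
    rw [← mem_EF]
    exact intCast_mem (EF O) _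
  refine h1.congr one_pos fun v _ => ?_
  rw [Matrix.det_apply']
  rfl

theorem ca_listSum {α : Type} (l : List α) {f : α → (ι → ℂ) → ℂ} (h : ∀ x ∈ l, CA O (f x) b) :
    CA O (fun v => (l.map fun x => f x v).sum) b := by
  induction l with
  | nil => simpa using CA.const IsPR.zero b
  | cons a l ih =>
    have h1 := (h a List.mem_cons_self).add (ih fun x hx => h x (List.mem_cons_of_mem _ hx))
    simpa only [List.map_cons, List.sum_cons] using h1

theorem ca_ev {n : ℕ} {X : Finset ℂ} {P : MvPolynomial (Fin n) ℂ} (hP : P.coeffs ⊆ X)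
    {Θ : X → (ι → ℂ) → ℂ} {Z : Fin n → (ι → ℂ) → ℂ} (hΘ : ∀ x, CA O (Θ x) b)
    (hZ : ∀ l, CA O (Z l) b) :
    CA O (fun v => AHI.ev P (AHI.ext X fun x => Θ x v) fun l => Z l v) b := by
  unfold AHI.ev
  refine CA.sum _ fun u hu => ?_
  refine CA.mul ?_ (ca_prod _ fun i _ => (hZ i).pow _)
  have hc : MvPolynomial.coeff u P ∈ X :=
    hP (by rw [MvPolynomial.mem_coeffs_iff]; exact ⟨u, hu, rfl⟩)
  simp only [AHI.ext, dif_pos hc]
  exact hΘ _

/-- polynomials with coefficients in the field `EF O` -/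
theorem ca_eval {n : ℕ} {P : MvPolynomial (Fin n) ℂ} (hP : ∀ c ∈ P.coeffs, IsPR O c)
    {Z : Fin n → (ι → ℂ) → ℂ} (hZ : ∀ l, CA O (Z l) b) :
    CA O (fun v => MvPolynomial.eval (fun l => Z l v) P) b := by
  simp only [MvPolynomial.eval_eq']
  refine CA.sum _ fun u hu => ?_
  refine CA.mul (CA.const (hP _ ?_) b) (ca_prod _ fun i _ => (hZ i).pow _)
  rw [MvPolynomial.mem_coeffs_iff]
  exact ⟨u, hu, rfl⟩

/-- the field of the numbers which are primitive recursive relative to `O` is algebraically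
closed -/
theorem isPR_of_algebraic {x : ℂ} (hx : IsAlgebraic (EF O) x) : IsPR O x := by
  have hint : IsIntegral (EF O) x := hx.isIntegral
  set p : Polynomial (EF O) := minpoly (EF O) x with hp
  have hsep : p.Separable := (minpoly.irreducible hint).separable
  set c : ℂ := Polynomial.aeval x (Polynomial.derivative p) with hc
  have hc0 : c ≠ 0 := by
    intro h0
    exact hsep.aeval_derivative_ne_zero (minpoly.aeval (EF O) x) h0
  let e : (Unit → ℂ) ≃L[ℂ] (Unit → ℂ) :=
    (LinearEquiv.smulOfNeZero ℂ (Unit → ℂ) c hc0).toContinuousLinearEquiv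
  have he : ∀ v k, e v k = c * v k := fun v k => rfl
  refine newton (O := O) (ι := Unit) (G := fun v _ => Polynomial.aeval (v ()) p)
    (b := fun _ => x) e ?_ ?_ (fun k => ?_) ()
  · rw [hasStrictFDerivAt_pi']
    intro k
    have h1 : HasStrictDerivAt (fun z : ℂ => Polynomial.aeval z p) c ((fun _ : Unit => x) ()) :=
      Polynomial.hasStrictDerivAt_aeval p x
    have h2 := h1.comp_hasStrictFDerivAt (fun _ : Unit => x)
      (ContinuousLinearMap.proj (R := ℂ) (φ := fun _ : Unit => ℂ) ()).hasStrictFDerivAt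
    have h3 : c • (ContinuousLinearMap.proj (R := ℂ) (φ := fun _ : Unit => ℂ) ()) =
        (ContinuousLinearMap.proj k).comp (e : (Unit → ℂ) →L[ℂ] (Unit → ℂ)) := by
      ext v
      simp [he]
    rw [h3] at h2
    exact h2
  · funext k
    exact minpoly.aeval (EF O) x
  · simp only [Polynomial.aeval_eq_sum_range]
    refine CA.sum _ fun i _ => ?_
    have h1 : ∀ v : Unit → ℂ, p.coeff i • v () ^ i = ((p.coeff i : EF O) : ℂ) * v () ^ i :=
      fun v => rfl
    simp only [h1]
    exact (CA.const (p.coeff i).2 _).mul ((CA.proj () _).pow i)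

end Pool.Agent.AHE
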