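import Mathlib
import Pool.Agent.AHE.CaA

/-!
# The derivative of an effectively computable `C^2` function is effectively computable

Proof.  Let `D x = fderiv ℝ f x e`.  `D` is Lipschitz near `b` since `f` is `C^2` at `b`
(`ContDiffAt.exists_lipschitzOnWith` for `fderiv ℝ f`, or `ContDiffAt.fderiv_right`).  Effectivity: for
`x` near `b` and `n` large, `‖(n + 1) (f (x + e / (n + 1)) - f x) - D x‖ ≤ C / (n + 1)` (Taylor; mean
value inequality for `s ↦ f (x + s e) - s D x`, whose derivative is bounded by `C' s`).  If `x = vv X` and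
`e` has Gaussian rational coordinates `val (E k)`, then `x + e / (n + 1)` is the value of a code which
is primitive recursive in `(n, X)` (`T.add`, `T.mul`, `T.inv`, `T.ofNat`), and with
`A` the effective evaluation of `f` with error `1 / (m + 1)` the code
`(n + 1) (A ((n + 1)^2, x + e / (n + 1)) - A ((n + 1)^2, x))` has error at most
`C / (n + 1) + 2 (n + 1) / ((n + 1)^2 + 1)`.  For the finitely many small `n` (where `x + e / (n + 1)` may
leave the good ball) use `n + n0` instead of `n`.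

`ca_deriv_complex`: `fderiv ℝ f x e = fderiv ℂ f x e` where `f` is complex differentiable.
-/

namespace Pool.Agent.AHE

open Pool.Agent.EllPR Filter
open scoped Topology ContDiff

/-- a ball on which `f` is differentiable and its derivative is Lipschitz -/
private theorem CaDer_ball {ι : Type} [Fintype ι] {f : (ι → ℂ) → ℂ} {b : ι → ℂ}
    (h2 : ContDiffAt ℝ 2 f b) : ∃ r : ℝ, 0 < r ∧ ∃ K : ℝ, 0 ≤ K ∧
      (∀ x, ‖x - b‖ < r → DifferentiableAt ℝ f x) ∧
      ∀ x y, ‖x - b‖ < r → ‖y - b‖ < r → ‖fderiv ℝ f x - fderiv ℝ f y‖ ≤ K * ‖x - y‖ := by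
  have h1 : ContDiffAt ℝ 1 (fderiv ℝ f) b := h2.fderiv_right (by norm_num)
  obtain ⟨K, s, hs, hK⟩ := h1.exists_lipschitzOnWith
  have h3 : ∀ᶠ x in 𝓝 b, ContDiffAt ℝ 2 f x := h2.eventually (by decide)
  obtain ⟨r1, hr1, hrs⟩ := Metric.mem_nhds_iff.1 hs
  obtain ⟨r2, hr2, hd⟩ := Metric.eventually_nhds_iff.1 h3
  refine ⟨min r1 r2, lt_min hr1 hr2, K, K.2, fun x hx => ?_, fun x y hx hy => ?_⟩
  · exact (hd (by rw [dist_eq_norm]; exact hx.trans_le (min_le_right _ _))).differentiableAt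
      (by norm_num)
  · have h4 := hK.dist_le_mul x (hrs (by
        rw [Metric.mem_ball, dist_eq_norm]; exact hx.trans_le (min_le_left _ _))) y (hrs (by
        rw [Metric.mem_ball, dist_eq_norm]; exact hy.trans_le (min_le_left _ _)))
    rwa [dist_eq_norm, dist_eq_norm] at h4

/-- the difference quotient -/
private theorem CaDer_quot {ι : Type} [Fintype ι] {f : (ι → ℂ) → ℂ} {b : ι → ℂ} {r K : ℝ}
    (hK : 0 ≤ K) (hd : ∀ x, ‖x - b‖ < r → DifferentiableAt ℝ f x)
    (hl : ∀ x y, ‖x - b‖ < r → ‖y - b‖ < r → ‖fderiv ℝ f x - fderiv ℝ f y‖ ≤ K * ‖x - y‖)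
    {x v : ι → ℂ} (hx : ‖x - b‖ < r) (hv : ‖x + v - b‖ < r) :
    ‖f (x + v) - f x - fderiv ℝ f x v‖ ≤ K * ‖v‖ * ‖v‖ := by
  have hseg : segment ℝ x (x + v) ⊆ Metric.ball b r := by
    refine (convex_ball b r).segment_subset ?_ ?_
    · rwa [Metric.mem_ball, dist_eq_norm]
    · rwa [Metric.mem_ball, dist_eq_norm]
  have h1 := (convex_segment (𝕜 := ℝ) x (x + v)).norm_image_sub_le_of_norm_hasFDerivWithin_le'
    (f := f) (f' := fun y => fderiv ℝ f y) (φ := fderiv ℝ f x) (C := K * ‖v‖)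
    (fun y hy => (hd y (by
      have := hseg hy
      rwa [Metric.mem_ball, dist_eq_norm] at this)).hasFDerivAt.hasFDerivWithinAt)
    (fun y hy => by
      have h2 := hseg hy
      rw [Metric.mem_ball, dist_eq_norm] at h2
      refine (hl y x h2 hx).trans (mul_le_mul_of_nonneg_left ?_ hK)
      obtain ⟨t, ht, rfl⟩ := segment_eq_image_lineMap ℝ x (x + v) ▸ hy
      rw [AffineMap.lineMap_apply]
      simp only [vsub_eq_sub, add_sub_cancel_left, vadd_eq_add, add_sub_cancel_right]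
      rw [norm_smul, Real.norm_eq_abs, abs_of_nonneg ht.1]
      exact mul_le_of_le_one_left (norm_nonneg v) ht.2)
    (left_mem_segment ℝ x (x + v)) (right_mem_segment ℝ x (x + v))
  rwa [add_sub_cancel_left] at h1

theorem ca_fderiv {O : Set (ℕ → ℕ)} {ι : Type} [Fintype ι] {f : (ι → ℂ) → ℂ} {b : ι → ℂ}
    (hf : CA O f b) (h2 : ContDiffAt ℝ 2 f b) {e : ι → ℂ} (he : ∀ k, ∃ x : T, val x = e k) :
    CA O (fun x => fderiv ℝ f x e) b := by
  obtain ⟨r, hr, K, hK, hd, hl⟩ := CaDer_ball h2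
  constructor
  · refine ⟨r, hr, K * ‖e‖, fun x y hx hy => ?_⟩
    have h1 : fderiv ℝ f x e - fderiv ℝ f y e = (fderiv ℝ f x - fderiv ℝ f y) e := rfl
    rw [h1]
    refine ((fderiv ℝ f x - fderiv ℝ f y).le_opNorm e).trans ?_
    calc ‖fderiv ℝ f x - fderiv ℝ f y‖ * ‖e‖ ≤ K * ‖x - y‖ * ‖e‖ :=
          mul_le_mul_of_nonneg_right (hl x y hx hy) (norm_nonneg _)
      _ = K * ‖e‖ * ‖x - y‖ := by ring
  · obtain ⟨re, hre, A, hA, hA1⟩ := hf.eff'
    choose E hE using he
    obtain ⟨r0, hr0⟩ : ∃ r0 : ℝ, r0 = min r re := ⟨_, rfl⟩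
    have hr0p : 0 < r0 := by rw [hr0]; exact lt_min hr hre
    have hr0r : r0 ≤ r := by rw [hr0]; exact min_le_left _ _
    have hr0e : r0 ≤ re := by rw [hr0]; exact min_le_right _ _
    obtain ⟨n0, hn0⟩ := exists_nat_gt (2 * ‖e‖ / r0)
    -- the code of the moved point
    obtain ⟨Y, hYd⟩ : ∃ Y : ℕ × Vec ι T → Vec ι T, Y = fun p k =>
      T.add (p.2 k) (T.mul (E k) (T.inv (T.ofNat (p.1 + n0 + 1)))) := ⟨_, rfl⟩
    have hN : PR O fun p : ℕ × Vec ι T => p.1 + n0 + 1 :=
      (PR.of_primrec (Primrec.succ.comp (T.padd Primrec.id (Primrec.const n0)))).comp PR.fst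
    have hY : PR O Y := by
      rw [hYd]
      refine PR.vec fun k => ?_
      refine PR.comp₂ T.primrec_add (PR.vec_apply PR.snd k) ?_
      exact PR.comp₂ T.primrec_mul (PR.const (E k)) ((PR.of_primrec T.primrec_inv).comp
        ((PR.of_primrec T.primrec_ofNat).comp hN))
    have hYv : ∀ (n : ℕ) (x : Vec ι T), vv (Y (n, x)) =
        vv x + (((n + n0 + 1 : ℕ) : ℝ)⁻¹) • e := by
      intro n x
      funext k
      rw [hYd]
      change val (T.add (x k) (T.mul (E k) (T.inv (T.ofNat (n + n0 + 1))))) = _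
      rw [T.val_add, T.val_mul, T.val_inv, T.val_ofNat, hE]
      simp only [Pi.add_apply, Pi.smul_apply, Complex.real_smul, vv]
      push_cast
      ring
    refine ⟨r0 / 2, by positivity, K * ‖e‖ ^ 2 + 2, fun p =>
      T.mul (T.ofNat (p.1 + n0 + 1)) (T.add (A ((p.1 + n0 + 1) * (p.1 + n0 + 1), Y p))
        (T.neg (A ((p.1 + n0 + 1) * (p.1 + n0 + 1), p.2)))), ?_, ?_⟩
    · refine PR.comp₂ T.primrec_mul ((PR.of_primrec T.primrec_ofNat).comp hN) ?_
      refine PR.comp₂ T.primrec_add ?_ ?_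
      · exact hA.comp ((hN.mul hN).pair hY)
      · exact (PR.of_primrec T.primrec_neg).comp (hA.comp ((hN.mul hN).pair PR.snd))
    · intro n X hX
      obtain ⟨N, hNd⟩ : ∃ N : ℕ, N = n + n0 + 1 := ⟨_, rfl⟩
      change ‖fderiv ℝ f (vv X) e - val (T.mul (T.ofNat (n + n0 + 1))
        (T.add (A ((n + n0 + 1) * (n + n0 + 1), Y (n, X)))
        (T.neg (A ((n + n0 + 1) * (n + n0 + 1), X)))))‖ ≤ _
      rw [← hNd, T.val_mul, T.val_add, T.val_neg, T.val_ofNat]
      have hN0 : (0 : ℝ) < N := by rw [hNd]; positivity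
      have hNn : (n : ℝ) + 1 ≤ N := by
        rw [hNd]
        push_cast
        linarith [Nat.cast_nonneg (α := ℝ) n0]
      obtain ⟨v, hvd⟩ : ∃ v : ι → ℂ, v = ((N : ℝ)⁻¹) • e := ⟨_, rfl⟩
      have hvY : vv (Y (n, X)) = vv X + v := by
        rw [hYv, hvd, hNd]
      have hvn : ‖v‖ = ‖e‖ / N := by
        rw [hvd, norm_smul, Real.norm_eq_abs, abs_of_pos (inv_pos.2 hN0)]
        ring
      have hv2 : ‖v‖ < r0 / 2 := by
        rw [hvn, div_lt_iff₀ hN0]
        rw [div_lt_iff₀ hr0p] at hn0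
        have h3 : (n0 : ℝ) ≤ N := by
          rw [hNd]
          push_cast
          linarith [Nat.cast_nonneg (α := ℝ) n]
        nlinarith
      have hx0 : ‖vv X - b‖ < r0 := by linarith
      have hy0 : ‖vv X + v - b‖ < r0 := by
        have h3 : vv X + v - b = (vv X - b) + v := by abel
        rw [h3]
        refine (norm_add_le _ _).trans_lt ?_
        linarith
      have q1 := CaDer_quot hK hd hl (hx0.trans_le hr0r) (hy0.trans_le hr0r)
      have a1 := hA1 (N * N) X (hx0.trans_le hr0e)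
      have a2 := hA1 (N * N) (Y (n, X)) (by rw [hvY]; exact hy0.trans_le hr0e)
      rw [hvY] at a2
      have e1 : fderiv ℝ f (vv X) e = (N : ℂ) * fderiv ℝ f (vv X) v := by
        rw [hvd, ContinuousLinearMap.map_smul, Complex.real_smul]
        have : (N : ℂ) ≠ 0 := by exact_mod_cast hN0.ne'
        push_cast
        field_simp
      have e2 : fderiv ℝ f (vv X) e - (N : ℂ) * (val (A (N * N, Y (n, X))) + -val (A (N * N, X))) =
          (N : ℂ) * (-(f (vv X + v) - f (vv X) - fderiv ℝ f (vv X) v) +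
            (f (vv X + v) - val (A (N * N, Y (n, X)))) - (f (vv X) - val (A (N * N, X)))) := by
        rw [e1]
        ring
      rw [e2, norm_mul, Complex.norm_natCast]
      have h5 : ‖-(f (vv X + v) - f (vv X) - fderiv ℝ f (vv X) v) +
            (f (vv X + v) - val (A (N * N, Y (n, X)))) - (f (vv X) - val (A (N * N, X)))‖ ≤
          K * ‖v‖ * ‖v‖ + 1 / (((N * N : ℕ) : ℝ) + 1) + 1 / (((N * N : ℕ) : ℝ) + 1) := by
        refine (norm_sub_le _ _).trans (add_le_add ((norm_add_le _ _).trans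
          (add_le_add ?_ a2)) a1)
        rw [norm_neg]
        exact q1
      refine (mul_le_mul_of_nonneg_left h5 hN0.le).trans ?_
      rw [hvn]
      have h6 : 1 / (((N * N : ℕ) : ℝ) + 1) ≤ 1 / ((N : ℝ) * N) := by
        apply one_div_le_one_div_of_le (by positivity)
        push_cast
        linarith
      calc (N : ℝ) * (K * (‖e‖ / N) * (‖e‖ / N) + 1 / (((N * N : ℕ) : ℝ) + 1) +
            1 / (((N * N : ℕ) : ℝ) + 1))
          ≤ (N : ℝ) * (K * (‖e‖ / N) * (‖e‖ / N) + 1 / ((N : ℝ) * N) + 1 / ((N : ℝ) * N)) := by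
            gcongr
        _ = (K * ‖e‖ ^ 2 + 2) / N := by
            field_simp
            ring
        _ ≤ (K * ‖e‖ ^ 2 + 2) / ((n : ℝ) + 1) :=
            div_le_div_of_nonneg_left (by positivity) (by positivity) hNn

theorem ca_fderiv_complex {O : Set (ℕ → ℕ)} {ι : Type} [Fintype ι] {f : (ι → ℂ) → ℂ} {b : ι → ℂ}
    (hf : CA O f b) (h2 : ContDiffAt ℂ 2 f b) {e : ι → ℂ} (he : ∀ k, ∃ x : T, val x = e k) :
    CA O (fun x => fderiv ℂ f x e) b := by
  refine (ca_fderiv hf (h2.restrict_scalars ℝ) he).congr' ?_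
  have h3 : ∀ᶠ x in 𝓝 b, ContDiffAt ℂ 2 f x := h2.eventually (by decide)
  filter_upwards [h3] with x hx
  have h4 : DifferentiableAt ℂ f x := hx.differentiableAt (by norm_num)
  rw [h4.fderiv_restrictScalars ℝ]
  rfl

end Pool.Agent.AHE
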