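import Mathlib
import Pool.Agent.AHE.CaA

/-!
# Fixed points depending on parameters are effectively computable

`u p` is the fixed point near `u p0` of the contraction `a ↦ H (p, a)`, `H` effectively computable.

Proof.  Put `K` a Lipschitz constant of the components of `H` near `(p0, u p0)`.  Lipschitz condition:
`‖u p - u p'‖ ≤ ‖H (p, u p) - H (p, u p')‖ + ‖H (p, u p') - H (p', u p')‖
≤ ‖u p - u p'‖ / 2 + K ‖p - p'‖`.  Effectivity (follow the proof of `EllPR.newton`, lines 100-260 of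
`EllPR/Newton.lean`): fix a vector of codes `x0` with `‖vv x0 - u p0‖` small; for the code `x` of the
parameter `p = vv x` put `a_0 = x0`, `a_(j+1) = A (C 2^j, (x, a_j))`, where `A` is the effective
evaluation of the components of `H` with error `1 / (n + 1)` and `C` is large; then by induction
`‖vv a_j - u p‖ ≤ ρ (3/4)^j` or so (first `‖vv a_j - u p‖ ≤ ρ / 2^j * (j + 1)`, any summable rate is
fine, `a_j` stays in the ball where all estimates hold), and `(3/4)^j ≤ C' / (j + 1)`.  The function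
`(n, x) ↦ a_n` is primitive recursive relative to `O` by `PR.rec` with parameter `x` (type
`Vec κ T`).  The radius for `p` must be so small that `u p` and all `a_j` stay in the good ball.
-/

namespace Pool.Agent.AHE

open Pool.Agent.EllPR Filter
open scoped Topology

private theorem CaFix_min {ι : Type} [Fintype ι] (f : ι → ℝ) (hf : ∀ k, 0 < f k) :
    ∃ r0 : ℝ, 0 < r0 ∧ ∀ k, r0 ≤ f k := by
  by_cases hne : Nonempty ι
  · refine ⟨Finset.univ.inf' Finset.univ_nonempty f, ?_, fun k => Finset.inf'_le _ (Finset.mem_univ k)⟩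
    rw [Finset.lt_inf'_iff]
    exact fun k _ => hf k
  · exact ⟨1, one_pos, fun k => absurd ⟨k⟩ hne⟩

private theorem CaFix_lt {κ ι : Type} [Fintype κ] [Fintype ι] {p p' : κ → ℂ} {a a' : ι → ℂ} {R : ℝ}
    (hp : ‖p - p'‖ < R) (ha : ‖a - a'‖ < R) :
    ‖(Sum.elim p a : κ ⊕ ι → ℂ) - Sum.elim p' a'‖ < R := by
  rw [pi_norm_lt_iff ((norm_nonneg _).trans_lt hp)]
  rintro (i | i)
  · exact (norm_le_pi_norm (p - p') i).trans_lt hp
  · exact (norm_le_pi_norm (a - a') i).trans_lt ha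

private theorem CaFix_le {κ ι : Type} [Fintype κ] [Fintype ι] (p p' : κ → ℂ) (a : ι → ℂ) :
    ‖(Sum.elim p a : κ ⊕ ι → ℂ) - Sum.elim p' a‖ ≤ ‖p - p'‖ := by
  rw [pi_norm_le_iff_of_nonneg (norm_nonneg _)]
  rintro (i | i)
  · exact norm_le_pi_norm (p - p') i
  · simp

private theorem CaFix_pow (j : ℕ) : (3 / 4 : ℝ) ^ j ≤ 3 / ((j : ℝ) + 1) := by
  have h1 : (1 : ℝ) + j * (1 / 3) ≤ (1 + 1 / 3) ^ j := one_add_mul_le_pow (by norm_num) j
  have h2 : (3 / 4 : ℝ) ^ j * (1 + 1 / 3) ^ j = 1 := by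
    rw [← mul_pow]
    norm_num
  have h3 : (0 : ℝ) < (3 / 4 : ℝ) ^ j := by positivity
  rw [le_div_iff₀ (by positivity)]
  have h4 : (3 / 4 : ℝ) ^ j * ((j : ℝ) + 1) ≤ (3 / 4 : ℝ) ^ j * (3 * (1 + 1 / 3) ^ j) := by
    apply mul_le_mul_of_nonneg_left _ h3.le
    linarith
  calc (3 / 4 : ℝ) ^ j * ((j : ℝ) + 1) ≤ (3 / 4 : ℝ) ^ j * (3 * (1 + 1 / 3) ^ j) := h4
    _ = 3 * ((3 / 4 : ℝ) ^ j * (1 + 1 / 3) ^ j) := by ring
    _ = 3 := by rw [h2, mul_one]

theorem ca_fix {O : Set (ℕ → ℕ)} {κ ι : Type} [Fintype κ] [Fintype ι]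
    {H : (κ ⊕ ι → ℂ) → (ι → ℂ)} {u : (κ → ℂ) → (ι → ℂ)} {p0 : κ → ℂ}
    (hH : ∀ k, CA O (fun v => H v k) (Sum.elim p0 (u p0))) {r : ℝ} (hr : 0 < r)
    (hc : ∀ p, ‖p - p0‖ < r → ∀ a c, ‖a - u p0‖ < r → ‖c - u p0‖ < r →
      ‖H (Sum.elim p a) - H (Sum.elim p c)‖ ≤ 1 / 2 * ‖a - c‖)
    (hu : ∀ p, ‖p - p0‖ < r → ‖u p - u p0‖ < r ∧ H (Sum.elim p (u p)) = u p) (k : ι) :
    CA O (fun p => u p k) p0 := by
  classical
  choose rL hrL KL hKL hL using fun k => (hH k).lip'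
  choose rA hrA A hA hA1 using fun k => (hH k).eff'
  obtain ⟨r1, hr1, hr1L⟩ := CaFix_min rL hrL
  obtain ⟨r2, hr2, hr2A⟩ := CaFix_min rA hrA
  obtain ⟨R, hR, hRr, hRL, hRA⟩ : ∃ R : ℝ, 0 < R ∧ R ≤ r ∧ (∀ k, R ≤ rL k) ∧ ∀ k, R ≤ rA k :=
    ⟨min r (min r1 r2), lt_min hr (lt_min hr1 hr2), min_le_left _ _,
      fun k => ((min_le_right _ _).trans (min_le_left _ _)).trans (hr1L k),
      fun k => ((min_le_right _ _).trans (min_le_right _ _)).trans (hr2A k)⟩
  -- the Lipschitz constant of `H`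
  obtain ⟨K, hK0, hKk⟩ : ∃ K : ℝ, 0 < K ∧ ∀ k, KL k ≤ K := by
    have h0 : 0 ≤ ∑ k, KL k := Finset.sum_nonneg fun k _ => hKL k
    exact ⟨1 + ∑ k, KL k, by linarith, fun k =>
      (Finset.single_le_sum (f := KL) (fun j _ => hKL j) (Finset.mem_univ k)).trans (by linarith)⟩
  have hlip : ∀ v w : κ ⊕ ι → ℂ, ‖v - Sum.elim p0 (u p0)‖ < R → ‖w - Sum.elim p0 (u p0)‖ < R →
      ‖H v - H w‖ ≤ K * ‖v - w‖ := by
    intro v w hv hw
    rw [pi_norm_le_iff_of_nonneg (by positivity)]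
    intro k
    exact (hL k v w (hv.trans_le (hRL k)) (hw.trans_le (hRL k))).trans
      (mul_le_mul_of_nonneg_right (hKk k) (norm_nonneg _))
  have h00 : ∀ {S : ℝ}, 0 < S → ‖p0 - p0‖ < S := fun hS => by rw [sub_self, norm_zero]; exact hS
  have h01 : ∀ {S : ℝ}, 0 < S → ‖u p0 - u p0‖ < S := fun hS => by rw [sub_self, norm_zero]; exact hS
  -- the basic estimate
  have hbase : ∀ p p' : κ → ℂ, ‖p - p0‖ < R → ‖p' - p0‖ < R → ‖u p' - u p0‖ < R →
      ‖u p - u p'‖ ≤ 2 * K * ‖p - p'‖ := by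
    intro p p' hp hp' hup'
    obtain ⟨h1, h2⟩ := hu p (hp.trans_le hRr)
    obtain ⟨h3, h4⟩ := hu p' (hp'.trans_le hRr)
    have e : u p - u p' = (H (Sum.elim p (u p)) - H (Sum.elim p (u p'))) +
        (H (Sum.elim p (u p')) - H (Sum.elim p' (u p'))) := by
      rw [h2, h4]
      abel
    have h5 := hc p (hp.trans_le hRr) (u p) (u p') h1 h3
    have h6 := hlip (Sum.elim p (u p')) (Sum.elim p' (u p')) (CaFix_lt hp hup') (CaFix_lt hp' hup')
    have h7 : K * ‖(Sum.elim p (u p') : κ ⊕ ι → ℂ) - Sum.elim p' (u p')‖ ≤ K * ‖p - p'‖ :=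
      mul_le_mul_of_nonneg_left (CaFix_le p p' (u p')) hK0.le
    have h8 : ‖u p - u p'‖ ≤ 1 / 2 * ‖u p - u p'‖ + K * ‖p - p'‖ := by
      conv_lhs => rw [e]
      exact (norm_add_le _ _).trans (add_le_add h5 (h6.trans h7))
    linarith
  -- the radius for the parameter
  obtain ⟨ρ, hρ, hρR⟩ : ∃ ρ : ℝ, 0 < ρ ∧ 2 * ρ = R := ⟨R / 2, by positivity, by ring⟩
  obtain ⟨s, hs, hsR, hsK⟩ : ∃ s : ℝ, 0 < s ∧ s ≤ R ∧ 2 * K * s ≤ ρ / 2 := by
    refine ⟨min R (ρ / (4 * K)), lt_min hR (by positivity), min_le_left _ _, ?_⟩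
    have h1 : min R (ρ / (4 * K)) ≤ ρ / (4 * K) := min_le_right _ _
    rw [le_div_iff₀ (by positivity)] at h1
    linarith
  have hup : ∀ p : κ → ℂ, ‖p - p0‖ < s → ‖u p - u p0‖ < ρ / 2 := by
    intro p hp
    have h1 := hbase p p0 (hp.trans_le hsR) (h00 hR) (h01 hR)
    have h2 : 2 * K * ‖p - p0‖ < 2 * K * s := mul_lt_mul_of_pos_left hp (by positivity)
    linarith
  refine ⟨⟨s, hs, 2 * K, fun p p' hp hp' => ?_⟩, ?_⟩
  · have h1 := hbase p p' (hp.trans_le hsR) (hp'.trans_le hsR) ((hup p' hp').trans (by linarith))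
    exact (norm_le_pi_norm (u p - u p') k).trans h1
  -- the precision
  obtain ⟨C, hC⟩ := exists_nat_ge (4 / ρ + 1)
  have hC1 : (1 : ℝ) ≤ C := le_trans (by
    have : 0 ≤ 4 / ρ := by positivity
    linarith) hC
  have hCpos : (0 : ℝ) < C := by linarith
  have hCρ : 1 / (C : ℝ) ≤ ρ / 4 := by
    have h1 : 4 / ρ ≤ C := by linarith
    rw [div_le_iff₀ hρ] at h1
    rw [div_le_div_iff₀ hCpos (by norm_num)]
    linarith
  obtain ⟨x0, hx0⟩ := T.exists_val_vec (u p0) (half_pos hρ)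
  -- the iteration
  let cmb : Vec κ T × (ℕ × Vec ι T) → Vec (κ ⊕ ι) T := fun q => Sum.elim q.1 q.2.2
  have hcmb : PR O cmb := by
    apply PR.vec
    rintro (i | i)
    · exact PR.vec_apply PR.fst i
    · exact PR.vec_apply (PR.snd.comp PR.snd) i
  let step : Vec κ T × (ℕ × Vec ι T) → Vec ι T := fun q l => A l (C * 2 ^ q.2.1, cmb q)
  have hstep : PR O step := by
    apply PR.vec
    intro l
    exact (hA l).comp (((PR.const C).mul ((PR.of_primrec primrec_pow2).comp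
      (PR.fst.comp PR.snd))).pair hcmb)
  let X : Vec κ T → ℕ → Vec ι T := fun x n => Nat.rec x0 (fun y IH => step (x, (y, IH))) n
  have hX : PR O fun q : ℕ × Vec κ T => X q.2 q.1 := by
    have h1 := (PR.rec (O := O) (F := fun _ : Vec κ T => x0) (G := step) (PR.const _) hstep).comp
      ((PR.snd (O := O) (α := ℕ) (β := Vec κ T)).pair PR.fst)
    exact h1
  have hX0 : ∀ x, X x 0 = x0 := fun x => rfl
  have hXs : ∀ x j, X x (j + 1) = step (x, (j, X x j)) := fun x j => rfl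
  have hmain : ∀ x : Vec κ T, ‖vv x - p0‖ < s → ∀ j, ‖vv (X x j) - u (vv x)‖ ≤ ρ * (3 / 4) ^ j := by
    intro x hx j
    have hux := hup (vv x) hx
    have hxR : ‖vv x - p0‖ < R := hx.trans_le hsR
    obtain ⟨hu1, hu2⟩ := hu (vv x) (hxR.trans_le hRr)
    induction j with
    | zero =>
      rw [hX0, pow_zero, mul_one]
      have e : vv x0 - u (vv x) = (vv x0 - u p0) - (u (vv x) - u p0) := by abel
      rw [e]
      refine (norm_sub_le _ _).trans ?_
      linarith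
    | succ j ih =>
      have hpj : (3 / 4 : ℝ) ^ j ≤ 1 := pow_le_one₀ (by norm_num) (by norm_num)
      have hpj0 : (0 : ℝ) < (3 / 4 : ℝ) ^ j := by positivity
      have h1 : ‖vv (X x j) - u (vv x)‖ ≤ ρ := ih.trans (mul_le_of_le_one_right hρ.le hpj)
      have h2 : ‖vv (X x j) - u p0‖ < R := by
        have e : vv (X x j) - u p0 = (vv (X x j) - u (vv x)) + (u (vv x) - u p0) := by abel
        rw [e]
        refine (norm_add_le _ _).trans_lt ?_
        linarith
      have h2j : (0 : ℝ) < 2 ^ j := by positivity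
      have e1 : vv (cmb (x, (j, X x j))) = Sum.elim (vv x) (vv (X x j)) := by
        funext i
        rcases i with i | i <;> rfl
      have ha : ‖vv (X x (j + 1)) - H (Sum.elim (vv x) (vv (X x j)))‖ ≤ 1 / ((C : ℝ) * 2 ^ j) := by
        rw [pi_norm_le_iff_of_nonneg (by positivity)]
        intro l
        rw [hXs]
        have h3 := hA1 l (C * 2 ^ j) (cmb (x, (j, X x j))) (by
          rw [e1]
          exact (CaFix_lt hxR h2).trans_le (hRA l))
        rw [e1] at h3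
        rw [← norm_neg]
        have e2 : -((vv (step (x, (j, X x j))) - H (Sum.elim (vv x) (vv (X x j)))) l) =
            H (Sum.elim (vv x) (vv (X x j))) l - val (A l (C * 2 ^ j, cmb (x, (j, X x j)))) := by
          rw [Pi.sub_apply, neg_sub]
          rfl
        rw [e2]
        refine h3.trans ?_
        apply one_div_le_one_div_of_le (by positivity)
        push_cast
        linarith
      have hb := hc (vv x) (hxR.trans_le hRr) (vv (X x j)) (u (vv x)) (h2.trans_le hRr) hu1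
      rw [hu2] at hb
      have e3 : vv (X x (j + 1)) - u (vv x) = (vv (X x (j + 1)) - H (Sum.elim (vv x) (vv (X x j)))) +
          (H (Sum.elim (vv x) (vv (X x j))) - u (vv x)) := by abel
      rw [e3]
      refine (norm_add_le _ _).trans ?_
      have h4 : 1 / ((C : ℝ) * 2 ^ j) ≤ ρ / 4 * (3 / 4) ^ j := by
        have h5 : 1 / ((C : ℝ) * 2 ^ j) = 1 / (C : ℝ) * (1 / 2) ^ j := by
          rw [one_div_pow]
          field_simp
        rw [h5]
        exact mul_le_mul hCρ (pow_le_pow_left₀ (by norm_num) (by norm_num) j) (by positivity)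
          (by positivity)
      have h6 : 1 / 2 * ‖vv (X x j) - u (vv x)‖ ≤ 1 / 2 * (ρ * (3 / 4) ^ j) :=
        mul_le_mul_of_nonneg_left ih (by norm_num)
      calc ‖vv (X x (j + 1)) - H (Sum.elim (vv x) (vv (X x j)))‖ +
            ‖H (Sum.elim (vv x) (vv (X x j))) - u (vv x)‖
          ≤ ρ / 4 * (3 / 4) ^ j + 1 / 2 * (ρ * (3 / 4) ^ j) :=
            add_le_add (ha.trans h4) (hb.trans h6)
        _ = ρ * (3 / 4) ^ (j + 1) := by rw [pow_succ]; ring
  refine ⟨s, hs, ρ * 3, fun q => X q.2 q.1 k, PR.vec_apply hX k, fun n x hx => ?_⟩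
  have h1 : ‖u (vv x) k - val (X x n k)‖ ≤ ‖vv (X x n) - u (vv x)‖ := by
    rw [← norm_neg, neg_sub]
    exact norm_le_pi_norm (vv (X x n) - u (vv x)) k
  refine (h1.trans (hmain x hx n)).trans ?_
  rw [mul_div_assoc]
  exact mul_le_mul_of_nonneg_left (CaFix_pow n) hρ.le

end Pool.Agent.AHE
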