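import Mathlib
import Pool.Agent.AHE.CaFix

/-!
# The implicit function theorem for effectively computable functions

`u p` solves `G (p, u p) = 0` near `p0`, is continuous at `p0`, and the (real) derivative of `G` at
`(p0, u p0)` is injective on the vectors `(0, v)`.  Then `u` is effectively computable at `p0`.

Proof.  The real linear map `D v = L (0, v)` of `ι → ℂ` is injective, hence bijective; let `D⁻¹` be its
inverse.  Choose Gaussian rational matrices `m, m'` such that the real linear map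
`M w = (∑ l, m k l * w l + m' k l * conj (w l))_k` satisfies `‖M w - D⁻¹ w‖ ≤ ε ‖w‖` (every real linear
map of `ι → ℂ` has this form with complex coefficients; `T.exists_val_near`) with `ε` so small that
`‖v - M (D v)‖ ≤ 1/4 ‖v‖`.  Put `H (p, a) = a - M (G (p, a))`: its components are effectively
computable (`ca_conj`, `CA.mul`, `CA.sub`, `CA.sum`, constants `isPR_val`), and by strict
differentiability `‖H (p, a) - H (p, c)‖ ≤ 1/2 ‖a - c‖` near `(p0, u p0)`.  `u p` is near `u p0`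
(continuity) and `H (p, u p) = u p`.  Apply `ca_fix`.
-/

namespace Pool.Agent.AHE

open Pool.Agent.EllPR Filter
open scoped Topology ComplexConjugate

private theorem CaImp_nat {O : Set (ℕ → ℕ)} (n : ℕ) : IsPR O (n : ℂ) := by
  rw [← mem_EF]
  exact natCast_mem (EF O) n

/-- `ca_fix` for continuous `u`: scale `u` by a small rational factor. -/
private theorem CaImp_fix {O : Set (ℕ → ℕ)} {κ ι : Type} [Fintype κ] [Fintype ι]
    {H : (κ ⊕ ι → ℂ) → (ι → ℂ)} {u : (κ → ℂ) → (ι → ℂ)} {p0 : κ → ℂ}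
    (hH : ∀ k, CA O (fun v => H v k) (Sum.elim p0 (u p0))) {r : ℝ} (hr : 0 < r)
    (hc : ∀ p, ‖p - p0‖ < r → ∀ a c, ‖a - u p0‖ < r → ‖c - u p0‖ < r →
      ‖H (Sum.elim p a) - H (Sum.elim p c)‖ ≤ 1 / 2 * ‖a - c‖)
    (hu : ContinuousAt u p0) (hf : ∀ᶠ p in 𝓝 p0, H (Sum.elim p (u p)) = u p) (k : ι) :
    CA O (fun p => u p k) p0 := by
  obtain ⟨s, hs, h1⟩ : ∃ s : ℝ, 0 < s ∧ ∀ p, ‖p - p0‖ < s →
      ‖u p - u p0‖ < r ∧ H (Sum.elim p (u p)) = u p := by
    have h2 : ∀ᶠ p in 𝓝 p0, ‖u p - u p0‖ < r := by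
      filter_upwards [hu (Metric.ball_mem_nhds _ hr)] with p hp
      have hp' : dist (u p) (u p0) < r := hp
      rwa [dist_eq_norm] at hp'
    obtain ⟨s, hs, h3⟩ := Metric.eventually_nhds_iff.1 (h2.and hf)
    exact ⟨s, hs, fun p hp => h3 (by rwa [dist_eq_norm])⟩
  obtain ⟨N, hN⟩ := exists_nat_gt (r / s)
  have hN0 : (0 : ℝ) < N := lt_trans (by positivity) hN
  have hN1 : (1 : ℝ) ≤ N := by
    have : 0 < N := by exact_mod_cast hN0
    exact_mod_cast this
  have hNc : (N : ℂ) ≠ 0 := by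
    have : (N : ℝ) ≠ 0 := hN0.ne'
    exact_mod_cast this
  have hnN : ‖(N : ℂ)‖ = N := Complex.norm_natCast N
  have hrs : r / N ≤ s := by
    rw [div_lt_iff₀ hs] at hN
    rw [div_le_iff₀ hN0]
    linarith
  have hrr : r / N ≤ r := div_le_self hr.le hN1
  have hsc : ∀ a : ι → ℂ, ‖a - (N : ℂ)⁻¹ • u p0‖ < r / N → ‖(N : ℂ) • a - u p0‖ < r := by
    intro a ha
    have e : (N : ℂ) • a - u p0 = (N : ℂ) • (a - (N : ℂ)⁻¹ • u p0) := by
      rw [smul_sub, smul_smul, mul_inv_cancel₀ hNc, one_smul]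
    rw [e, norm_smul, hnN]
    rw [lt_div_iff₀ hN0] at ha
    linarith
  have key := ca_fix (O := O) (κ := κ) (ι := ι)
    (H := fun v => (N : ℂ)⁻¹ • H (Sum.elim (fun i => v (Sum.inl i)) ((N : ℂ) • fun i => v (Sum.inr i))))
    (u := fun p => (N : ℂ)⁻¹ • u p) (p0 := p0) ?_ (r := r / N) (by positivity) ?_ ?_ k
  · have h4 := (CA.const (CaImp_nat N) p0).mul key
    refine h4.congr one_pos fun p _ => ?_
    show (N : ℂ) * ((N : ℂ)⁻¹ * u p k) = u p k
    rw [← mul_assoc, mul_inv_cancel₀ hNc, one_mul]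
  · intro k
    have h5 : IsPR O ((N : ℂ)⁻¹) := by
      rw [← mem_EF]
      exact inv_mem (natCast_mem (EF O) N)
    have hb : (fun i : κ ⊕ ι => (Sum.elim (fun i => (Sum.elim p0 ((N : ℂ)⁻¹ • u p0) : κ ⊕ ι → ℂ) (Sum.inl i))
        ((N : ℂ) • fun i => (Sum.elim p0 ((N : ℂ)⁻¹ • u p0) : κ ⊕ ι → ℂ) (Sum.inr i)) : κ ⊕ ι → ℂ) i) =
        Sum.elim p0 (u p0) := by
      funext i
      rcases i with i | i
      · rfl
      · show (N : ℂ) * ((N : ℂ)⁻¹ * u p0 i) = u p0 i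
        rw [← mul_assoc, mul_inv_cancel₀ hNc, one_mul]
    have h6 := CA.comp (O := O) (ι := κ ⊕ ι) (κ := κ ⊕ ι) (g := fun w => H w k)
      (F := fun i v => (Sum.elim (fun i => v (Sum.inl i)) ((N : ℂ) • fun i => v (Sum.inr i)) : κ ⊕ ι → ℂ) i)
      (b := Sum.elim p0 ((N : ℂ)⁻¹ • u p0)) (by rw [hb]; exact hH k) (by
        rintro (i | i)
        · exact CA.proj (Sum.inl i) _
        · exact (CA.const (CaImp_nat N) _).mul (CA.proj (Sum.inr i) _))
    exact (CA.const h5 _).mul h6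
  · intro p hp a c ha hc'
    show ‖(N : ℂ)⁻¹ • H (Sum.elim p ((N : ℂ) • a)) - (N : ℂ)⁻¹ • H (Sum.elim p ((N : ℂ) • c))‖ ≤ _
    have h7 := hc p (hp.trans_le hrr) ((N : ℂ) • a) ((N : ℂ) • c) (hsc a ha) (hsc c hc')
    rw [← smul_sub, norm_smul, hnN] at h7
    rw [← smul_sub, norm_smul, norm_inv, hnN]
    calc (N : ℝ)⁻¹ * ‖H (Sum.elim p ((N : ℂ) • a)) - H (Sum.elim p ((N : ℂ) • c))‖
        ≤ (N : ℝ)⁻¹ * (1 / 2 * (N * ‖a - c‖)) := mul_le_mul_of_nonneg_left h7 (by positivity)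
      _ = 1 / 2 * ‖a - c‖ := by
        field_simp
  · intro p hp
    obtain ⟨h8, h9⟩ := h1 p (hp.trans_le hrs)
    constructor
    · show ‖(N : ℂ)⁻¹ • u p - (N : ℂ)⁻¹ • u p0‖ < r / N
      rw [← smul_sub, norm_smul, norm_inv, hnN, lt_div_iff₀ hN0]
      calc (N : ℝ)⁻¹ * ‖u p - u p0‖ * N = ‖u p - u p0‖ := by field_simp
        _ < r := h8
    · show (N : ℂ)⁻¹ • H (Sum.elim p ((N : ℂ) • ((N : ℂ)⁻¹ • u p))) = (N : ℂ)⁻¹ • u p
      rw [smul_smul, mul_inv_cancel₀ hNc, one_smul, h9]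

/-- a real linear map given by two complex matrices -/
private noncomputable def CaImp_M {ι : Type} [Fintype ι] (m m' : ι → ι → ℂ) (w : ι → ℂ) : ι → ℂ :=
  fun k => ∑ l, (m k l * w l + m' k l * conj (w l))

private theorem CaImp_M_sub {ι : Type} [Fintype ι] (m m' : ι → ι → ℂ) (w w' : ι → ℂ) :
    CaImp_M m m' (w - w') = CaImp_M m m' w - CaImp_M m m' w' := by
  funext k
  simp only [CaImp_M, Pi.sub_apply]
  rw [← Finset.sum_sub_distrib]
  refine Finset.sum_congr rfl fun l _ => ?_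
  rw [map_sub]
  ring

private theorem CaImp_lin {ι : Type} [Fintype ι] (E : (ι → ℂ) →L[ℝ] (ι → ℂ)) :
    ∃ m m' : ι → ι → ℂ, ∀ w, E w = CaImp_M m m' w := by
  classical
  refine ⟨fun k l => (E (Pi.single l 1) k - Complex.I * E (Pi.single l Complex.I) k) / 2,
    fun k l => (E (Pi.single l 1) k + Complex.I * E (Pi.single l Complex.I) k) / 2, fun w => ?_⟩
  have e1 : w = ∑ l, ((w l).re • (Pi.single l 1 : ι → ℂ) + (w l).im • (Pi.single l Complex.I : ι → ℂ)) := by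
    funext j
    rw [Finset.sum_apply, Finset.sum_eq_single j]
    · simp only [Pi.add_apply, Pi.smul_apply, Pi.single_eq_same, Complex.real_smul, mul_one]
      exact (Complex.re_add_im (w j)).symm
    · intro l _ hl
      simp [Pi.single_eq_of_ne (Ne.symm hl)]
    · intro h
      exact absurd (Finset.mem_univ j) h
  funext k
  have e2 : E w = ∑ l, ((w l).re • E (Pi.single l 1) + (w l).im • E (Pi.single l Complex.I)) := by
    conv_lhs => rw [e1]
    rw [map_sum]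
    refine Finset.sum_congr rfl fun l _ => ?_
    rw [map_add, map_smul, map_smul]
  rw [e2, Finset.sum_apply]
  show _ = ∑ l, _
  refine Finset.sum_congr rfl fun l _ => ?_
  simp only [Pi.add_apply, Pi.smul_apply, Complex.real_smul]
  have h1 : w l = (w l).re + (w l).im * Complex.I := (Complex.re_add_im (w l)).symm
  have h2 : conj (w l) = (w l).re - (w l).im * Complex.I := by
    conv_lhs => rw [h1]
    rw [map_add, map_mul, Complex.conj_ofReal, Complex.conj_ofReal, Complex.conj_I]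
    ring
  rw [h2]
  conv_rhs => rw [h1]
  simp only [Complex.add_re, Complex.ofReal_re, Complex.mul_re, Complex.I_re, mul_zero, Complex.ofReal_im,
    Complex.I_im, mul_one, sub_self, add_zero, Complex.add_im, Complex.mul_im, zero_add]
  linear_combination (((w l).im : ℂ) * E (Pi.single l Complex.I) k) * Complex.I_sq

private theorem CaImp_near {ι : Type} [Fintype ι] {m m' x x' : ι → ι → ℂ} {ε : ℝ} (hε : 0 ≤ ε)
    (h : ∀ k l, ‖x k l - m k l‖ ≤ ε) (h' : ∀ k l, ‖x' k l - m' k l‖ ≤ ε) (w : ι → ℂ) :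
    ‖CaImp_M x x' w - CaImp_M m m' w‖ ≤ 2 * Fintype.card ι * ε * ‖w‖ := by
  rw [pi_norm_le_iff_of_nonneg (by positivity)]
  intro k
  have e : (CaImp_M x x' w - CaImp_M m m' w) k =
      ∑ l, ((x k l - m k l) * w l + (x' k l - m' k l) * conj (w l)) := by
    simp only [CaImp_M, Pi.sub_apply]
    rw [← Finset.sum_sub_distrib]
    refine Finset.sum_congr rfl fun l _ => ?_
    ring
  rw [e]
  refine (norm_sum_le _ _).trans ?_
  calc ∑ l, ‖(x k l - m k l) * w l + (x' k l - m' k l) * conj (w l)‖ ≤ ∑ _l : ι, 2 * ε * ‖w‖ := by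
        refine Finset.sum_le_sum fun l _ => (norm_add_le _ _).trans ?_
        rw [norm_mul, norm_mul, Complex.norm_conj]
        have h1 : ‖x k l - m k l‖ * ‖w l‖ ≤ ε * ‖w‖ :=
          mul_le_mul (h k l) (norm_le_pi_norm w l) (norm_nonneg _) hε
        have h2 : ‖x' k l - m' k l‖ * ‖w l‖ ≤ ε * ‖w‖ :=
          mul_le_mul (h' k l) (norm_le_pi_norm w l) (norm_nonneg _) hε
        linarith
    _ = 2 * Fintype.card ι * ε * ‖w‖ := by
        rw [Finset.sum_const, Finset.card_univ, nsmul_eq_mul]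
        ring

theorem ca_implicit {O : Set (ℕ → ℕ)} {κ ι : Type} [Fintype κ] [Fintype ι]
    {G : (κ ⊕ ι → ℂ) → (ι → ℂ)} {u : (κ → ℂ) → (ι → ℂ)} {p0 : κ → ℂ}
    (hG : ∀ k, CA O (fun v => G v k) (Sum.elim p0 (u p0)))
    {L : (κ ⊕ ι → ℂ) →L[ℝ] (ι → ℂ)} (hL : HasStrictFDerivAt G L (Sum.elim p0 (u p0)))
    (hinj : ∀ v : ι → ℂ, L (Sum.elim 0 v) = 0 → v = 0) (hu : ContinuousAt u p0)
    (hz : ∀ᶠ p in 𝓝 p0, G (Sum.elim p (u p)) = 0) (k : ι) :
    CA O (fun p => u p k) p0 := by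
  classical
  -- the inverse of the partial derivative
  let D : (ι → ℂ) →ₗ[ℝ] (ι → ℂ) :=
    { toFun := fun v => L (Sum.elim 0 v)
      map_add' := fun v w => by
        rw [← map_add]
        congr 1
        funext i
        rcases i with i | i <;> simp
      map_smul' := fun c v => by
        rw [RingHom.id_apply, ← map_smul]
        congr 1
        funext i
        rcases i with i | i <;> simp }
  have hDi : Function.Injective D := by
    rw [← LinearMap.ker_eq_bot, LinearMap.ker_eq_bot']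
    exact hinj
  obtain ⟨E, hE⟩ : ∃ E : (ι → ℂ) →L[ℝ] (ι → ℂ), ∀ v, E (L (Sum.elim 0 v)) = v := by
    refine ⟨LinearMap.toContinuousLinearMap (LinearEquiv.ofInjectiveEndo D hDi).symm.toLinearMap, fun v => ?_⟩
    exact (LinearEquiv.ofInjectiveEndo D hDi).symm_apply_apply v
  obtain ⟨m, m', hm⟩ := CaImp_lin E
  -- the approximation
  obtain ⟨η, hη, hη1, hη2⟩ : ∃ η : ℝ, 0 < η ∧ η ≤ 1 ∧ η * ‖L‖ ≤ 1 / 4 := by
    refine ⟨1 / (4 * (‖L‖ + 1)), by positivity, ?_, ?_⟩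
    · rw [div_le_one (by positivity)]
      have := norm_nonneg L
      linarith
    · rw [div_mul_eq_mul_div, one_mul, div_le_div_iff₀ (by positivity) (by norm_num)]
      have := norm_nonneg L
      linarith
  obtain ⟨ε, hε, hε1⟩ : ∃ ε : ℝ, 0 < ε ∧ 2 * Fintype.card ι * ε ≤ η := by
    refine ⟨η / (2 * Fintype.card ι + 1), by positivity, ?_⟩
    rw [mul_div_assoc', div_le_iff₀ (by positivity)]
    nlinarith
  choose x hx using fun k l => T.exists_val_near (m k l) hε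
  choose x' hx' using fun k l => T.exists_val_near (m' k l) hε
  have hnear : ∀ w : ι → ℂ, ‖CaImp_M (fun k l => val (x k l)) (fun k l => val (x' k l)) w - E w‖ ≤ η * ‖w‖ := by
    intro w
    rw [hm w]
    refine (CaImp_near hε.le (fun k l => (hx k l).le) (fun k l => (hx' k l).le) w).trans ?_
    exact mul_le_mul_of_nonneg_right hε1 (norm_nonneg _)
  set M : (ι → ℂ) → (ι → ℂ) := CaImp_M (fun k l => val (x k l)) (fun k l => val (x' k l)) with hM
  have hM_sub : ∀ w w', M (w - w') = M w - M w' := fun w w' => CaImp_M_sub _ _ w w'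
  have hMb : ∀ w, ‖M w‖ ≤ (‖E‖ + 1) * ‖w‖ := by
    intro w
    have h1 : ‖M w‖ ≤ ‖E w‖ + ‖M w - E w‖ := by
      have := norm_add_le (E w) (M w - E w)
      rwa [add_sub_cancel] at this
    have h2 := E.le_opNorm w
    have h3 : η * ‖w‖ ≤ 1 * ‖w‖ := mul_le_mul_of_nonneg_right hη1 (norm_nonneg _)
    have h4 := hnear w
    linarith
  -- strict differentiability
  obtain ⟨δ, hδ, hδ1⟩ : ∃ δ : ℝ, 0 < δ ∧ (‖E‖ + 1) * δ ≤ 1 / 4 := by
    refine ⟨1 / (4 * (‖E‖ + 1)), by positivity, le_of_eq ?_⟩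
    have : ‖E‖ + 1 ≠ 0 := by positivity
    field_simp
  obtain ⟨r, hr, hstr⟩ := Metric.eventually_nhds_iff.1 (hL.isLittleO.def hδ)
  have hstr' : ∀ v w : κ ⊕ ι → ℂ, ‖v - Sum.elim p0 (u p0)‖ < r → ‖w - Sum.elim p0 (u p0)‖ < r →
      ‖G v - G w - L (v - w)‖ ≤ δ * ‖v - w‖ := by
    intro v w hv hw
    have h1 : dist (v, w) ((Sum.elim p0 (u p0) : κ ⊕ ι → ℂ), (Sum.elim p0 (u p0) : κ ⊕ ι → ℂ)) < r := by
      rw [Prod.dist_eq, dist_eq_norm, dist_eq_norm]
      exact max_lt hv hw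
    exact hstr h1
  have hel : ∀ (p : κ → ℂ) (a : ι → ℂ), ‖p - p0‖ < r → ‖a - u p0‖ < r →
      ‖(Sum.elim p a : κ ⊕ ι → ℂ) - Sum.elim p0 (u p0)‖ < r := by
    intro p a hp ha
    rw [pi_norm_lt_iff hr]
    rintro (i | i)
    · exact (norm_le_pi_norm (p - p0) i).trans_lt hp
    · exact (norm_le_pi_norm (a - u p0) i).trans_lt ha
  refine CaImp_fix (O := O) (H := fun v => (fun k => v (Sum.inr k)) - M (G v)) (u := u) (p0 := p0) ?_ hr ?_ hu ?_ k
  · intro k
    have h1 : CA O (fun v => ∑ l, (val (x k l) * G v l + val (x' k l) * conj (G v l))) (Sum.elim p0 (u p0)) :=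
      CA.sum _ fun l _ => ((CA.const (isPR_val _) _).mul (hG l)).add ((CA.const (isPR_val _) _).mul (ca_conj (hG l)))
    exact (CA.proj (Sum.inr k) _).sub h1
  · intro p hp a c ha hc
    have e1 : (Sum.elim p a : κ ⊕ ι → ℂ) - Sum.elim p c = Sum.elim (0 : κ → ℂ) (a - c) := by
      funext i
      rcases i with i | i <;> simp
    have h1 := hstr' _ _ (hel p a hp ha) (hel p c hp hc)
    have e2 : ‖(Sum.elim (0 : κ → ℂ) (a - c) : κ ⊕ ι → ℂ)‖ ≤ ‖a - c‖ := by
      rw [pi_norm_le_iff_of_nonneg (norm_nonneg _)]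
      rintro (i | i)
      · simp
      · exact norm_le_pi_norm (a - c) i
    rw [e1] at h1
    set err := G (Sum.elim p a) - G (Sum.elim p c) - L (Sum.elim 0 (a - c)) with herr
    have herr1 : ‖err‖ ≤ δ * ‖a - c‖ := h1.trans (mul_le_mul_of_nonneg_left e2 hδ.le)
    have e3 : (fun k => (Sum.elim p a : κ ⊕ ι → ℂ) (Sum.inr k)) - M (G (Sum.elim p a)) -
        ((fun k => (Sum.elim p c : κ ⊕ ι → ℂ) (Sum.inr k)) - M (G (Sum.elim p c))) =
        -(M (L (Sum.elim 0 (a - c))) - E (L (Sum.elim 0 (a - c)))) - M err := by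
      have h2 : M err = M (G (Sum.elim p a)) - M (G (Sum.elim p c)) - M (L (Sum.elim 0 (a - c))) := by
        rw [herr, hM_sub, hM_sub]
      rw [h2, hE]
      have h3 : (fun k => (Sum.elim p a : κ ⊕ ι → ℂ) (Sum.inr k)) = a := rfl
      have h4 : (fun k => (Sum.elim p c : κ ⊕ ι → ℂ) (Sum.inr k)) = c := rfl
      rw [h3, h4]
      abel
    show ‖(fun k => (Sum.elim p a : κ ⊕ ι → ℂ) (Sum.inr k)) - M (G (Sum.elim p a)) -
        ((fun k => (Sum.elim p c : κ ⊕ ι → ℂ) (Sum.inr k)) - M (G (Sum.elim p c)))‖ ≤ _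
    rw [e3]
    refine (norm_sub_le _ _).trans ?_
    rw [norm_neg]
    have h5 : ‖M (L (Sum.elim 0 (a - c))) - E (L (Sum.elim 0 (a - c)))‖ ≤ 1 / 4 * ‖a - c‖ := by
      refine (hnear _).trans ?_
      have h6 : ‖L (Sum.elim 0 (a - c))‖ ≤ ‖L‖ * ‖a - c‖ :=
        (L.le_opNorm _).trans (mul_le_mul_of_nonneg_left e2 (norm_nonneg _))
      calc η * ‖L (Sum.elim 0 (a - c))‖ ≤ η * (‖L‖ * ‖a - c‖) := mul_le_mul_of_nonneg_left h6 hη.le
        _ = η * ‖L‖ * ‖a - c‖ := by ring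
        _ ≤ _ := mul_le_mul_of_nonneg_right hη2 (norm_nonneg _)
    have h7 : ‖M err‖ ≤ 1 / 4 * ‖a - c‖ := by
      refine (hMb err).trans ?_
      calc (‖E‖ + 1) * ‖err‖ ≤ (‖E‖ + 1) * (δ * ‖a - c‖) := mul_le_mul_of_nonneg_left herr1 (by positivity)
        _ = (‖E‖ + 1) * δ * ‖a - c‖ := by ring
        _ ≤ _ := mul_le_mul_of_nonneg_right hδ1 (norm_nonneg _)
    linarith
  · filter_upwards [hz] with p hp
    show (fun k => (Sum.elim p (u p) : κ ⊕ ι → ℂ) (Sum.inr k)) - M (G (Sum.elim p (u p))) = u p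
    rw [hp]
    have h1 : M 0 = 0 := by
      have := hM_sub 0 0
      rwa [sub_self, sub_self] at this
    rw [h1, sub_zero]
    rfl

end Pool.Agent.AHE
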