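import Mathlib
import Pool.Agent.AHE.CaA

/-!
# Integrals over `[0, 1]` depending on parameters; `π` is primitive recursive

Proof of `ca_integral`.  For every `s ∈ [0, 1]` there is a ball around `(b, s)` on which `f` is Lipschitz
and effectively evaluated by one algorithm `A_s`.  By compactness (Lebesgue number) there is `N` such
that for every `j < N` the interval `[j / N, (j + 1) / N]` (times a small ball around `b`) lies in one
of these balls; call its algorithm `A_j`.  It suffices to treat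
`y ↦ ∫ s in j/N..(j+1)/N, f (y, s)` (then `CA.sum` and
`intervalIntegral.sum_integral_adjacent_intervals`).  This function is Lipschitz near `b`.
Effectivity: the Riemann sum `R_M (y) = ∑ i < M + 1, f (y, (j + i / (M + 1)) / N) / (N (M + 1))` has error
`≤ K / (M + 1)`, and for `y = vv x` the terms are evaluated by
`A_j (M, (x, code of (j + i / (M + 1)) / N))` with error `1 / (M + 1)` each; the sum over
`i < M + 1` of codes is primitive recursive relative to `O` by `PR.rec` (accumulate with `T.add`).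
The vector of codes for `κ ⊕ Unit`: `PR.vec`.

`isPR_pi`: `π / 4 = ∫ s in 0..1, (1 + s ^ 2)⁻¹` (`integral_inv_one_add_sq`, `Real.arctan_one`);
`ca_integral` with `κ = Fin 0` (or `Empty`), then `CA.isPR`.
-/

namespace Pool.Agent.AHE

open Pool.Agent.EllPR Filter MeasureTheory
open scoped Topology

/-- the point `(y, s)` -/
private noncomputable def pt {κ : Type} (y : κ → ℂ) (s : ℝ) : κ ⊕ Unit → ℂ :=
  Sum.elim y fun _ => (s : ℂ)

private theorem pt_sub_lt {κ : Type} [Fintype κ] {y b : κ → ℂ} {s t r : ℝ} (hr : 0 < r)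
    (h1 : ‖y - b‖ < r) (h2 : |s - t| < r) : ‖pt y s - pt b t‖ < r := by
  rw [pi_norm_lt_iff hr]
  rintro (k | k)
  · exact (norm_le_pi_norm (y - b) k).trans_lt h1
  · change ‖(s : ℂ) - (t : ℂ)‖ < r
    rw [← Complex.ofReal_sub, Complex.norm_real, Real.norm_eq_abs]
    exact h2

private theorem pt_sub_le {κ : Type} [Fintype κ] (x y : κ → ℂ) (s : ℝ) :
    ‖pt x s - pt y s‖ ≤ ‖x - y‖ := by
  rw [pi_norm_le_iff_of_nonneg (norm_nonneg _)]
  rintro (k | k)
  · exact norm_le_pi_norm (x - y) k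
  · change ‖(s : ℂ) - (s : ℂ)‖ ≤ _
    rw [sub_self, norm_zero]
    exact norm_nonneg _

private theorem pt_sub_le' {κ : Type} [Fintype κ] (x : κ → ℂ) (s t : ℝ) :
    ‖pt x s - pt x t‖ ≤ |s - t| := by
  rw [pi_norm_le_iff_of_nonneg (abs_nonneg _)]
  rintro (k | k)
  · change ‖x k - x k‖ ≤ _
    rw [sub_self, norm_zero]
    exact abs_nonneg _
  · change ‖(s : ℂ) - (t : ℂ)‖ ≤ _
    rw [← Complex.ofReal_sub, Complex.norm_real, Real.norm_eq_abs]

/-- the code of `i / (N (M + 1))` -/
private def cd (N M i : ℕ) : T := (i, 0, 0, 0, N * (M + 1) - 1)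

private theorem val_cd {N : ℕ} (hN : 0 < N) (M i : ℕ) :
    val (cd N M i) = ((i / (N * (M + 1)) : ℝ) : ℂ) := by
  have h : ((N * (M + 1) - 1 : ℕ) : ℂ) + 1 = (N : ℂ) * (M + 1) := by
    have h1 : 1 ≤ N * (M + 1) := Nat.mul_pos hN (Nat.succ_pos M)
    rw [Nat.cast_sub h1]
    push_cast
    ring
  simp only [val, cd]
  rw [h]
  push_cast
  simp

/-- the sum of codes -/
private def sm (g : ℕ → T) (n : ℕ) : T := Nat.rec T.zero (fun i IH => T.add IH (g i)) n

private theorem val_sm (g : ℕ → T) (n : ℕ) : val (sm g n) = ∑ i ∈ Finset.range n, val (g i) := by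
  induction n with
  | zero => simpa [sm] using T.val_zero
  | succ n ih =>
    rw [Finset.sum_range_succ, ← ih]
    exact T.val_add _ _

variable {O : Set (ℕ → ℕ)} {κ : Type} [Fintype κ]

/-- one interval -/
private theorem ca_piece {f : (κ ⊕ Unit → ℂ) → ℂ} {b : κ → ℂ} {s0 r K : ℝ} (hr : 0 < r) (hK : 0 ≤ K)
    (hlip : ∀ v w : κ ⊕ Unit → ℂ, ‖v - pt b s0‖ < r → ‖w - pt b s0‖ < r →
      ‖f v - f w‖ ≤ K * ‖v - w‖)
    {A : ℕ × Vec (κ ⊕ Unit) T → T} (hA : PR O A)
    (heff : ∀ (n : ℕ) (x : Vec (κ ⊕ Unit) T), ‖vv x - pt b s0‖ < r →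
      ‖f (vv x) - val (A (n, x))‖ ≤ 1 / ((n : ℝ) + 1))
    {N : ℕ} (hN : 0 < N) (j : ℕ)
    (hj : ∀ t : ℝ, (j : ℝ) / N ≤ t → t ≤ ((j : ℝ) + 1) / N → |t - s0| < r) :
    CA O (fun y => ∫ s in ((j : ℝ) / N)..(((j : ℝ) + 1) / N), f (pt y s)) b := by
  have hN' : (0 : ℝ) < N := by exact_mod_cast hN
  have hN1 : (1 : ℝ) ≤ N := by exact_mod_cast hN
  set l : ℝ := (j : ℝ) / N with hl
  set u : ℝ := ((j : ℝ) + 1) / N with hu
  have hlu : u - l = 1 / N := by rw [hl, hu]; ring
  have hle : l ≤ u := by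
    have : 0 < 1 / (N : ℝ) := by positivity
    linarith
  have hnear : ∀ y : κ → ℂ, ‖y - b‖ < r → ∀ t, l ≤ t → t ≤ u → ‖pt y t - pt b s0‖ < r :=
    fun y hy t h1 h2 => pt_sub_lt hr hy (hj t h1 h2)
  have hcont : ∀ y : κ → ℂ, ‖y - b‖ < r → ContinuousOn (fun s => f (pt y s)) (Set.Icc l u) := by
    intro y hy
    have h1 : LipschitzOnWith K.toNNReal (fun s => f (pt y s)) (Set.Icc l u) := by
      refine LipschitzOnWith.of_dist_le_mul fun s hs t ht => ?_
      rw [dist_eq_norm, Real.coe_toNNReal K hK, Real.dist_eq]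
      exact (hlip _ _ (hnear y hy s hs.1 hs.2) (hnear y hy t ht.1 ht.2)).trans
        (mul_le_mul_of_nonneg_left (pt_sub_le' y s t) hK)
    exact h1.continuousOn
  have hint : ∀ y : κ → ℂ, ‖y - b‖ < r → ∀ p q : ℝ, l ≤ p → p ≤ q → q ≤ u →
      IntervalIntegrable (fun s => f (pt y s)) volume p q := by
    intro y hy p q h1 h2 h3
    refine ContinuousOn.intervalIntegrable ((hcont y hy).mono ?_)
    rw [Set.uIcc_of_le h2]
    exact Set.Icc_subset_Icc h1 h3
  constructor
  · refine ⟨r, hr, K, fun x y hx hy => ?_⟩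
    rw [← intervalIntegral.integral_sub (hint x hx l u le_rfl hle le_rfl)
      (hint y hy l u le_rfl hle le_rfl)]
    have h1 := intervalIntegral.norm_integral_le_of_norm_le_const (a := l) (b := u)
      (f := fun s => f (pt x s) - f (pt y s)) (C := K * ‖x - y‖) (fun t ht => by
        rw [Set.uIoc_of_le hle] at ht
        exact (hlip _ _ (hnear x hx t ht.1.le ht.2) (hnear y hy t ht.1.le ht.2)).trans
          (mul_le_mul_of_nonneg_left (pt_sub_le x y t) hK))
    refine h1.trans ?_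
    rw [hlu, abs_of_pos (by positivity)]
    have h2 : 1 / (N : ℝ) ≤ 1 := by rw [div_le_one hN']; exact hN1
    have h3 : 0 ≤ K * ‖x - y‖ := by positivity
    nlinarith
  · let Z : ℕ × Vec κ T → ℕ → Vec (κ ⊕ Unit) T := fun p i =>
      Sum.elim p.2 fun _ => cd N p.1 (j * (p.1 + 1) + i)
    refine ⟨r, hr, K + 1, fun p => T.mul (cd N p.1 1) (sm (fun i => A (p.1, Z p i)) (p.1 + 1)),
      ?_, fun n x hx => ?_⟩
    · have hcd : ∀ {α : Type} [Primcodable α] {g h : α → ℕ}, PR O g → PR O h →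
          PR O fun a => cd N (g a) (h a) := by
        intro α _ g h hg hh
        have hlast : PR O fun a => N * (g a + 1) - 1 :=
          PR.comp₂ Primrec.nat_sub ((PR.const N).mul (hg.add (PR.const 1))) (PR.const 1)
        exact hh.pair ((PR.const 0).pair ((PR.const 0).pair ((PR.const 0).pair hlast)))
      refine PR.comp₂ T.primrec_mul (hcd PR.fst (PR.const 1)) ?_
      have hG : PR O (fun q : (ℕ × Vec κ T) × ℕ × T => T.add q.2.2 (A (q.1.1, Z q.1 q.2.1))) := by
        refine PR.comp₂ T.primrec_add (PR.snd.comp PR.snd) (hA.comp ((PR.fst.comp PR.fst).pair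
          (PR.vec fun k => ?_)))
        rcases k with k | k
        · exact PR.vec_apply (F := fun q : (ℕ × Vec κ T) × ℕ × T => q.1.2)
            (PR.snd.comp PR.fst) k
        · exact hcd (PR.fst.comp PR.fst) (((PR.const j).mul
            ((PR.fst.comp PR.fst).add (PR.const 1))).add (PR.fst.comp PR.snd))
      exact PR.iterate (F := fun _ : ℕ × Vec κ T => T.zero) (H := fun p => p.1 + 1)
        (PR.const _) hG (PR.fst.add (PR.const 1))
    · have hn0 : (0 : ℝ) < (n : ℝ) + 1 := by positivity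
      set h : ℝ := 1 / (N * ((n : ℝ) + 1)) with hh
      have hh0 : 0 < h := by positivity
      let a : ℕ → ℝ := fun i => ((j : ℝ) * ((n : ℝ) + 1) + i) / (N * ((n : ℝ) + 1))
      have ha0 : a 0 = l := by
        simp only [a, hl]
        rw [Nat.cast_zero, add_zero, mul_div_mul_right _ _ hn0.ne']
      have han : a (n + 1) = u := by
        simp only [a, hu]
        rw [div_eq_div_iff (by positivity) (by positivity)]
        push_cast
        ring
      have hstep : ∀ i, a (i + 1) - a i = h := by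
        intro i
        simp only [a, hh]
        push_cast
        ring
      have hmono : Monotone a := monotone_nat_of_le_succ fun i => by
        have := hstep i
        linarith
      have hal : ∀ i, l ≤ a i := fun i => ha0 ▸ hmono (Nat.zero_le i)
      have hau : ∀ i, i ≤ n + 1 → a i ≤ u := fun i hi => han ▸ hmono hi
      have hval : val (T.mul (cd N n 1) (sm (fun i => A (n, Z (n, x) i)) (n + 1))) =
          ∑ i ∈ Finset.range (n + 1), (h : ℂ) * val (A (n, Z (n, x) i)) := by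
        rw [T.val_mul, val_sm, val_cd hN, Finset.mul_sum]
        refine Finset.sum_congr rfl fun i _ => ?_
        rw [hh]
        push_cast
        ring
      change ‖(∫ s in l..u, f (pt (vv x) s)) -
        val (T.mul (cd N n 1) (sm (fun i => A (n, Z (n, x) i)) (n + 1)))‖ ≤ _
      rw [hval]
      have hsum : ∑ i ∈ Finset.range (n + 1), ∫ s in (a i)..(a (i + 1)), f (pt (vv x) s) =
          ∫ s in l..u, f (pt (vv x) s) := by
        rw [← ha0, ← han]
        exact intervalIntegral.sum_integral_adjacent_intervals fun k hk =>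
          hint _ hx _ _ (hal k) (hmono (Nat.le_succ k)) (hau _ hk)
      rw [← hsum, ← Finset.sum_sub_distrib]
      have hZ : ∀ i, vv (Z (n, x) i) = pt (vv x) (a i) := by
        intro i
        funext k
        rcases k with k | k
        · rfl
        · change val (cd N n (j * (n + 1) + i)) = ((a i : ℝ) : ℂ)
          rw [val_cd hN]
          simp only [a]
          push_cast
          rfl
      have hterm : ∀ i ∈ Finset.range (n + 1), ‖(∫ s in (a i)..(a (i + 1)), f (pt (vv x) s)) -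
          (h : ℂ) * val (A (n, Z (n, x) i))‖ ≤ (K + 1) / ((n : ℝ) + 1) * h := by
        intro i hi
        have hi' : i + 1 ≤ n + 1 := Finset.mem_range.1 hi
        have hle' : a i ≤ a (i + 1) := hmono (Nat.le_succ i)
        have e1 : (h : ℂ) * val (A (n, Z (n, x) i)) =
            ∫ _ in (a i)..(a (i + 1)), val (A (n, Z (n, x) i)) := by
          rw [intervalIntegral.integral_const, hstep, Complex.real_smul]
        rw [e1, ← intervalIntegral.integral_sub (hint _ hx _ _ (hal i) hle' (hau _ hi'))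
          intervalIntegrable_const]
        have h1 := intervalIntegral.norm_integral_le_of_norm_le_const (a := a i) (b := a (i + 1))
          (f := fun s => f (pt (vv x) s) - val (A (n, Z (n, x) i))) (C := (K + 1) / ((n : ℝ) + 1))
          (fun t ht => by
            rw [Set.uIoc_of_le hle'] at ht
            have ht1 : l ≤ t := (hal i).trans ht.1.le
            have ht2 : t ≤ u := ht.2.trans (hau _ hi')
            have hni := hnear _ hx (a i) (hal i) (hle'.trans (hau _ hi'))
            have h2 := (hlip _ _ (hnear _ hx t ht1 ht2) hni).trans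
              (mul_le_mul_of_nonneg_left (pt_sub_le' (vv x) t (a i)) hK)
            have h3 := heff n (Z (n, x) i) (by rw [hZ]; exact hni)
            rw [hZ] at h3
            have h4 : |t - a i| ≤ 1 / ((n : ℝ) + 1) := by
              rw [abs_of_pos (by linarith [ht.1])]
              have h5 := hstep i
              have h6 : h ≤ 1 / ((n : ℝ) + 1) := by
                rw [hh]
                apply one_div_le_one_div_of_le hn0
                nlinarith
              linarith [ht.2]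
            have e2 : f (pt (vv x) t) - val (A (n, Z (n, x) i)) =
                (f (pt (vv x) t) - f (pt (vv x) (a i))) +
                (f (pt (vv x) (a i)) - val (A (n, Z (n, x) i))) := by ring
            rw [e2]
            refine (norm_add_le _ _).trans ((add_le_add (h2.trans
              (mul_le_mul_of_nonneg_left h4 hK)) h3).trans (le_of_eq ?_))
            ring)
        refine h1.trans (le_of_eq ?_)
        rw [hstep, abs_of_pos hh0]
      refine (norm_sum_le_of_le _ hterm).trans ?_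
      rw [Finset.sum_const, Finset.card_range, nsmul_eq_mul, hh]
      have e3 : ((n + 1 : ℕ) : ℝ) * ((K + 1) / ((n : ℝ) + 1) * (1 / (N * ((n : ℝ) + 1)))) =
          (K + 1) / ((n : ℝ) + 1) * (1 / N) := by
        push_cast
        field_simp
      rw [e3]
      have h7 : 1 / (N : ℝ) ≤ 1 := by rw [div_le_one hN']; exact hN1
      have h8 : 0 ≤ (K + 1) / ((n : ℝ) + 1) := by positivity
      nlinarith

theorem ca_integral {O : Set (ℕ → ℕ)} {κ : Type} [Fintype κ] {f : (κ ⊕ Unit → ℂ) → ℂ} {b : κ → ℂ}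
    (h : ∀ s ∈ Set.Icc (0 : ℝ) 1, CA O f (Sum.elim b fun _ => (s : ℂ))) :
    CA O (fun y => ∫ s in (0 : ℝ)..1, f (Sum.elim y fun _ => (s : ℂ))) b := by
  have h' : ∀ s : Set.Icc (0 : ℝ) 1, ∃ r : ℝ, 0 < r ∧ ∃ K : ℝ, 0 ≤ K ∧
      (∀ v w : κ ⊕ Unit → ℂ, ‖v - pt b s‖ < r → ‖w - pt b s‖ < r → ‖f v - f w‖ ≤ K * ‖v - w‖) ∧
      ∃ A : ℕ × Vec (κ ⊕ Unit) T → T, PR O A ∧
      (∀ (n : ℕ) (x : Vec (κ ⊕ Unit) T), ‖vv x - pt b s‖ < r →
        ‖f (vv x) - val (A (n, x))‖ ≤ 1 / ((n : ℝ) + 1)) := by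
    intro s
    obtain ⟨r1, hr1, K, hK, h1⟩ := (h s s.2).lip'
    obtain ⟨r2, hr2, A, hA, h2⟩ := (h s s.2).eff'
    exact ⟨min r1 r2, lt_min hr1 hr2, K, hK,
      fun v w hv hw => h1 v w (hv.trans_le (min_le_left _ _)) (hw.trans_le (min_le_left _ _)),
      A, hA, fun n x hx => h2 n x (hx.trans_le (min_le_right _ _))⟩
  choose r hr K hK hlip A hA heff using h'
  obtain ⟨δ, hδ, hcov⟩ := lebesgue_number_lemma_of_metric (s := Set.Icc (0 : ℝ) 1)
    (c := fun s : Set.Icc (0 : ℝ) 1 => Metric.ball (s : ℝ) (r s)) isCompact_Icc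
    (fun _ => Metric.isOpen_ball)
    (fun t ht => Set.mem_iUnion.2 ⟨⟨t, ht⟩, Metric.mem_ball_self (hr _)⟩)
  obtain ⟨N, hN⟩ := exists_nat_gt (1 / δ)
  have hN' : (0 : ℝ) < N := (by positivity : (0:ℝ) < 1 / δ).trans hN
  have hN0 : 0 < N := by exact_mod_cast hN'
  have hNδ : 1 / (N : ℝ) < δ := by
    rw [div_lt_iff₀ hδ] at hN
    rw [div_lt_iff₀ hN']
    linarith
  have hsel : ∀ j : ℕ, j < N → ∃ s : Set.Icc (0 : ℝ) 1, ∀ t : ℝ, (j : ℝ) / N ≤ t →
      t ≤ ((j : ℝ) + 1) / N → |t - s| < r s := by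
    intro j hj
    have hj1 : (j : ℝ) ≤ N := by exact_mod_cast hj.le
    obtain ⟨s, hs⟩ := hcov ((j : ℝ) / N) ⟨by positivity, (div_le_one hN').2 hj1⟩
    refine ⟨s, fun t h1 h2 => ?_⟩
    have h3 : t ∈ Metric.ball ((j : ℝ) / N) δ := by
      rw [Metric.mem_ball, Real.dist_eq, abs_of_nonneg (by linarith)]
      have : ((j : ℝ) + 1) / N = (j : ℝ) / N + 1 / N := by ring
      linarith
    have h4 := hs h3
    rwa [Metric.mem_ball, Real.dist_eq] at h4
  have hpiece : ∀ j ∈ Finset.range N,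
      CA O (fun y => ∫ s in ((j : ℝ) / N)..(((j : ℝ) + 1) / N), f (pt y s)) b := by
    intro j hj
    obtain ⟨s, hs⟩ := hsel j (Finset.mem_range.1 hj)
    exact ca_piece (hr s) (hK s) (hlip s) (hA s) (heff s) hN0 j hs
  have hsum := CA.sum _ hpiece
  -- a common radius for integrability
  obtain ⟨ρ, hρ, hρj⟩ : ∃ ρ : ℝ, 0 < ρ ∧ ∀ j ∈ Finset.range N, ∀ y : κ → ℂ, ‖y - b‖ < ρ →
      IntervalIntegrable (fun s => f (pt y s)) volume ((j : ℝ) / N) (((j : ℝ) + 1) / N) := by
    have hone : ∀ j ∈ Finset.range N, ∀ᶠ y in 𝓝 b,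
        IntervalIntegrable (fun s => f (pt y s)) volume ((j : ℝ) / N) (((j : ℝ) + 1) / N) := by
      intro j hj
      obtain ⟨s, hs⟩ := hsel j (Finset.mem_range.1 hj)
      filter_upwards [Metric.ball_mem_nhds b (hr s)] with y hy
      rw [Metric.mem_ball, dist_eq_norm] at hy
      have hle : (j : ℝ) / N ≤ ((j : ℝ) + 1) / N := by
        apply div_le_div_of_nonneg_right _ hN'.le
        linarith
      refine ContinuousOn.intervalIntegrable ?_
      rw [Set.uIcc_of_le hle]
      have h1 : LipschitzOnWith (K s).toNNReal (fun s => f (pt y s))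
          (Set.Icc ((j : ℝ) / N) (((j : ℝ) + 1) / N)) := by
        refine LipschitzOnWith.of_dist_le_mul fun p hp q hq => ?_
        rw [dist_eq_norm, Real.coe_toNNReal _ (hK s), Real.dist_eq]
        exact (hlip s _ _ (pt_sub_lt (hr s) hy (hs p hp.1 hp.2))
          (pt_sub_lt (hr s) hy (hs q hq.1 hq.2))).trans
          (mul_le_mul_of_nonneg_left (pt_sub_le' y p q) (hK s))
      exact h1.continuousOn
    obtain ⟨ρ, hρ, h1⟩ := Metric.eventually_nhds_iff.1
      ((Filter.eventually_all_finset (Finset.range N)).2 hone)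
    exact ⟨ρ, hρ, fun j hj y hy => h1 (by rwa [dist_eq_norm]) j hj⟩
  refine hsum.congr hρ fun y hy => ?_
  have h1 := intervalIntegral.sum_integral_adjacent_intervals (μ := volume)
    (f := fun s => f (pt y s)) (a := fun j : ℕ => (j : ℝ) / N) (n := N) (fun k hk => by
      have := hρj k (Finset.mem_range.2 hk) y hy
      simpa using this)
  simp only [Nat.cast_zero, zero_div] at h1
  rw [div_self hN'.ne'] at h1
  change _ = ∫ s in (0 : ℝ)..1, f (pt y s)
  rw [← h1]
  refine Finset.sum_congr rfl fun j _ => ?_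
  push_cast
  rfl

theorem isPR_pi (O : Set (ℕ → ℕ)) : IsPR O (Real.pi : ℂ) := by
  let b0 : Fin 0 → ℂ := fun k => k.elim0
  have h1 : CA O (fun y : Fin 0 → ℂ => ∫ s in (0 : ℝ)..1,
      (fun v : Fin 0 ⊕ Unit → ℂ => (1 + v (Sum.inr ()) ^ 2)⁻¹) (Sum.elim y fun _ => (s : ℂ)))
      b0 := by
    refine ca_integral (κ := Fin 0)
      (f := fun v : Fin 0 ⊕ Unit → ℂ => (1 + v (Sum.inr ()) ^ 2)⁻¹) (b := b0) fun s _ => ?_
    refine CA.inv ((CA.const (ι := Fin 0 ⊕ Unit) IsPR.one _).add
      ((CA.proj (ι := Fin 0 ⊕ Unit) (Sum.inr ()) _).pow 2)) ?_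
    have h2 : (1 + (s : ℂ) ^ 2) ≠ 0 := by
      have h3 : (0 : ℝ) < 1 + s ^ 2 := by positivity
      exact_mod_cast h3.ne'
    exact h2
  have h2 := h1.isPR (fun k : Fin 0 => k.elim0)
  have h4 : ∀ s : ℝ, (fun v : Fin 0 ⊕ Unit → ℂ => (1 + v (Sum.inr ()) ^ 2)⁻¹)
      (Sum.elim b0 fun _ => (s : ℂ)) = (((1 + s ^ 2)⁻¹ : ℝ) : ℂ) := by
    intro s
    simp
  have h3 : (∫ s in (0 : ℝ)..1, (fun v : Fin 0 ⊕ Unit → ℂ => (1 + v (Sum.inr ()) ^ 2)⁻¹)
      (Sum.elim b0 fun _ => (s : ℂ))) = ((Real.pi / 4 : ℝ) : ℂ) := by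
    simp only [h4]
    rw [intervalIntegral.integral_ofReal, integral_inv_one_add_sq, Real.arctan_one,
      Real.arctan_zero, sub_zero]
  have h7 : IsPR O ((Real.pi / 4 : ℝ) : ℂ) := by
    rw [← h3]
    exact h2
  have h5 := IsPR.mul (IsPR.ratCast (O := O) 4) h7
  have h6 : ((4 : ℚ) : ℂ) * ((Real.pi / 4 : ℝ) : ℂ) = (Real.pi : ℂ) := by
    push_cast
    ring
  rwa [h6] at h5

end Pool.Agent.AHE
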