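import Mathlib
import Pool.Agent.AHE.CaInt
import Pool.Agent.AHU.Stk

/-!
# Integrals over simplices depending on parameters

Proof.  Induction on `q` (for all `κ`, `Φ`, `b`).  `q = 0`: `simplexDomain 0` is the whole space
`Fin 0 → ℝ`, of measure `1`, a point; the integral is `Φ (Sum.elim y _)`, a composition.
Step: by `AHU.Stk_fubini` with `i = 0` (`Fin.insertNth 0 x s = Fin.cons x s`) and the substitution
`x = u (1 - ∑ s)` (`intervalIntegral.integral_comp_mul_left` or
`intervalIntegral.smul_integral_comp_mul_left`; also true if `1 - ∑ s = 0`)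
`∫ t in simplexDomain (q + 1), g t = ∫ s in simplexDomain q, ∫ u in 0..1, (1 - ∑ s) * g (Fin.cons (u (1 - ∑ s)) s)`
for `g` continuous on `simplexDomain (q + 1)`.  Put
`Φ' (y, s) = ∫ u in 0..1, (1 - ∑ j, s j) * Φ (y, Fin.cons (u (1 - ∑ j, s j)) s)` on
`κ ⊕ Fin q → ℂ`: it is effectively computable at `(b, s)`, `s ∈ simplexDomain q`, by `ca_integral` (with
`κ ⊕ Fin q` for `κ`), `CA.comp` and the hypothesis.  Apply the induction hypothesis to `Φ'`.  The
formula holds for `y` near `b`: by compactness of `simplexDomain (q + 1)` (`AHU.Stk_isCompact`) and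
`ca_near`, `Φ` is effectively computable, hence continuous, at all `(y, t)` with `y` near `b` and
`t ∈ simplexDomain (q + 1)`; conclude with `CA.congr'`.
-/

namespace Pool.Agent.AHE

open Pool.Agent.EllPR Pool.Agent.AHC Filter MeasureTheory
open scoped Topology

/-- the integral over the simplex of dimension `0` -/
private theorem CaSim_zero (g : (Fin 0 → ℝ) → ℂ) :
    ∫ t in simplexDomain 0, g t = g fun j => j.elim0 := by
  have h : simplexDomain 0 = Set.univ := by
    ext t
    simp [simplexDomain]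
  rw [h, Measure.restrict_univ, volume_pi, Measure.pi_of_empty _ (fun j => j.elim0),
    integral_dirac]

/-- the coordinates of the point `(y, (u (1 - ∑ s), s))` as functions of `((y, s), u)` -/
private noncomputable def CaSim_F {κ : Type} {q : ℕ} :
    κ ⊕ Fin (q + 1) → ((κ ⊕ Fin q) ⊕ Unit → ℂ) → ℂ :=
  Sum.elim (fun k z => z (Sum.inl (Sum.inl k)))
    (Fin.cons (fun z => z (Sum.inr ()) * (1 - ∑ j, z (Sum.inl (Sum.inr j))))
      fun j z => z (Sum.inl (Sum.inr j)))

/-- the integrand -/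
private noncomputable def CaSim_f {κ : Type} {q : ℕ} (Φ : (κ ⊕ Fin (q + 1) → ℂ) → ℂ)
    (z : (κ ⊕ Fin q) ⊕ Unit → ℂ) : ℂ :=
  (1 - ∑ j, z (Sum.inl (Sum.inr j))) * Φ fun i => CaSim_F i z

private theorem CaSim_pt {κ : Type} {q : ℕ} (y : κ → ℂ) (s : Fin q → ℝ) (u : ℝ) :
    (fun i => CaSim_F i (Sum.elim (Sum.elim y fun j => (s j : ℂ)) fun _ : Unit => (u : ℂ))) =
      Sum.elim y fun j => (((Fin.cons ((1 - ∑ j, s j) * u) s : Fin (q + 1) → ℝ) j : ℝ) : ℂ) := by
  funext i
  rcases i with k | j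
  · rfl
  · refine Fin.cases ?_ (fun j => ?_) j
    · simp only [CaSim_F, Sum.elim_inr, Fin.cons_zero, Sum.elim_inl]
      push_cast
      ring
    · simp only [CaSim_F, Sum.elim_inr, Fin.cons_succ, Sum.elim_inl]

private theorem CaSim_eq {κ : Type} {q : ℕ} (Φ : (κ ⊕ Fin (q + 1) → ℂ) → ℂ) (y : κ → ℂ)
    (s : Fin q → ℝ) (u : ℝ) :
    CaSim_f Φ (Sum.elim (Sum.elim y fun j => (s j : ℂ)) fun _ : Unit => (u : ℂ)) =
      ((1 - ∑ j, s j : ℝ) : ℂ) * Φ (Sum.elim y fun j =>
        (((Fin.cons ((1 - ∑ j, s j) * u) s : Fin (q + 1) → ℝ) j : ℝ) : ℂ)) := by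
  unfold CaSim_f
  rw [CaSim_pt]
  simp only [Sum.elim_inl, Sum.elim_inr]
  push_cast
  rfl

private theorem CaSim_mem {q : ℕ} {s : Fin q → ℝ} (hs : s ∈ simplexDomain q) {u : ℝ}
    (hu : u ∈ Set.Icc (0 : ℝ) 1) :
    (Fin.cons ((1 - ∑ j, s j) * u) s : Fin (q + 1) → ℝ) ∈ simplexDomain (q + 1) := by
  have h := (AHU.Stk_mem_iff (0 : Fin (q + 1)) ((1 - ∑ j, s j) * u) s).2 ⟨hs, ?_, ?_⟩
  · rwa [Fin.insertNth_zero'] at h
  · exact mul_nonneg (by linarith [hs.2]) hu.1
  · have h1 : 0 ≤ 1 - ∑ j, s j := by linarith [hs.2]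
    nlinarith [hu.2]

private theorem CaSim_integral {κ : Type} {q : ℕ} (Φ : (κ ⊕ Fin (q + 1) → ℂ) → ℂ) (y : κ → ℂ)
    (hg : ContinuousOn (fun t : Fin (q + 1) → ℝ => Φ (Sum.elim y fun j => (t j : ℂ)))
      (simplexDomain (q + 1))) :
    ∫ s in simplexDomain q, ∫ u in (0 : ℝ)..1,
        CaSim_f Φ (Sum.elim (Sum.elim y fun j => (s j : ℂ)) fun _ : Unit => (u : ℂ)) =
      ∫ t in simplexDomain (q + 1), Φ (Sum.elim y fun j => (t j : ℂ)) := by
  rw [AHU.Stk_fubini 0 _ hg]
  refine integral_congr_ae (Filter.Eventually.of_forall fun s => ?_)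
  simp only [CaSim_eq, Fin.insertNth_zero']
  rw [intervalIntegral.integral_const_mul]
  have h := intervalIntegral.smul_integral_comp_mul_left (a := (0 : ℝ)) (b := 1)
    (fun x : ℝ => Φ (Sum.elim y fun j => (((Fin.cons x s : Fin (q + 1) → ℝ) j : ℝ) : ℂ)))
    (1 - ∑ j, s j)
  rw [mul_zero, mul_one] at h
  rw [← h, Complex.real_smul]

theorem ca_integral_simplex {O : Set (ℕ → ℕ)} {q : ℕ} {κ : Type} [Fintype κ]
    {Φ : (κ ⊕ Fin q → ℂ) → ℂ} {b : κ → ℂ}
    (h : ∀ t ∈ simplexDomain q, CA O Φ (Sum.elim b fun j => (t j : ℂ))) :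
    CA O (fun y => ∫ t in simplexDomain q, Φ (Sum.elim y fun j => (t j : ℂ))) b := by
  induction q generalizing κ with
  | zero =>
    simp only [CaSim_zero]
    have h0 := h (fun j => j.elim0) (by simp [simplexDomain])
    let F : κ ⊕ Fin 0 → (κ → ℂ) → ℂ := Sum.elim (fun k v => v k) fun j => j.elim0
    have hF : ∀ v : κ → ℂ, (fun i => F i v) =
        Sum.elim v fun j : Fin 0 => (((fun j => j.elim0 : Fin 0 → ℝ) j : ℝ) : ℂ) := by
      intro v
      funext i
      rcases i with k | j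
      · rfl
      · exact j.elim0
    have h1 : CA O (fun v => Φ fun i => F i v) b := by
      refine CA.comp (g := Φ) (F := F) (by rw [hF]; exact h0) fun i => ?_
      rcases i with k | j
      · exact CA.proj k b
      · exact j.elim0
    refine h1.congr one_pos fun v _ => ?_
    rw [hF]
  | succ q ih =>
    -- the integral in one coordinate
    have hΦ' : ∀ s ∈ simplexDomain q, CA O (fun w : κ ⊕ Fin q → ℂ => ∫ u in (0 : ℝ)..1,
        CaSim_f Φ (Sum.elim w fun _ : Unit => (u : ℂ))) (Sum.elim b fun j => (s j : ℂ)) := by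
      intro s hs
      refine ca_integral fun u hu => ?_
      set z0 : (κ ⊕ Fin q) ⊕ Unit → ℂ :=
        Sum.elim (Sum.elim b fun j => (s j : ℂ)) fun _ : Unit => (u : ℂ) with hz0
      have hsum : CA O (fun z : (κ ⊕ Fin q) ⊕ Unit → ℂ => 1 - ∑ j, z (Sum.inl (Sum.inr j))) z0 :=
        (CA.const IsPR.one z0).sub (CA.sum _ fun j _ => CA.proj (Sum.inl (Sum.inr j)) z0)
      refine hsum.mul (CA.comp (g := Φ) (F := CaSim_F) ?_ fun i => ?_)
      · rw [hz0, CaSim_pt]
        exact h _ (CaSim_mem hs hu)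
      · rcases i with k | j
        · exact CA.proj (Sum.inl (Sum.inl k)) z0
        · refine Fin.cases ?_ (fun j => ?_) j
          · exact (CA.proj (Sum.inr ()) z0).mul hsum
          · exact CA.proj (Sum.inl (Sum.inr j)) z0
    have h1 := ih (κ := κ) (b := b) hΦ'
    refine h1.congr' ?_
    -- near `b` the integrand is continuous on the simplex
    have h2 : ∀ᶠ y in 𝓝 b, ∀ t ∈ simplexDomain (q + 1),
        CA O Φ (Sum.elim y fun j => (t j : ℂ)) := by
      refine (AHU.Stk_isCompact (q + 1)).eventually_forall_of_forall_eventually fun t ht => ?_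
      have hc : Continuous fun p : (κ → ℂ) × (Fin (q + 1) → ℝ) =>
          (Sum.elim p.1 fun j => (p.2 j : ℂ) : κ ⊕ Fin (q + 1) → ℂ) := by
        refine continuous_pi fun i => ?_
        rcases i with k | j
        · exact (continuous_apply k).comp continuous_fst
        · exact Complex.continuous_ofReal.comp ((continuous_apply j).comp continuous_snd)
      exact (hc.tendsto (b, t)).eventually (ca_near (h t ht))
    filter_upwards [h2] with y hy
    refine CaSim_integral Φ y fun t ht => ?_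
    have hc : Continuous fun t : Fin (q + 1) → ℝ =>
        (Sum.elim y fun j => (t j : ℂ) : κ ⊕ Fin (q + 1) → ℂ) := by
      refine continuous_pi fun i => ?_
      rcases i with k | j
      · exact continuous_const
      · exact Complex.continuous_ofReal.comp (continuous_apply j)
    exact (ContinuousAt.comp (f := fun t : Fin (q + 1) → ℝ =>
      (Sum.elim y fun j => (t j : ℂ) : κ ⊕ Fin (q + 1) → ℂ)) (g := Φ) (hy t ht).continuousAt
      hc.continuousAt).continuousWithinAt

end Pool.Agent.AHE
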