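import Mathlib
import Pool.Agent.AHE.CaImp
import Pool.Agent.AHT.Chr

/-!
# The holomorphic chart for the automorphisms over `cl S` is effectively computable

`exists_root_ca`: this is `AHR.exists_root'` with the additional fact that `φ` is effectively
computable.  Proof.  As there: `x` is a simple zero of `T ↦ ∑ i, q i (t) T ^ i` with `q i` polynomials over
`ℚ` (private lemma `root_poly` in `AHR/Root.lean`: copy it), `Gf (y, T) = ∑ i ≤ d, aeval y (q i) * T ^ i` is a
polynomial function, the implicit function theorem gives a holomorphic `φ` on a ball with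
`Gf (y, φ y) = 0`, `φ t = x`, and `|T - x| < η`, `Gf (y, T) = 0` imply `T = φ y`.  Make the ball so small
that `∂Gf/∂T (y, φ y) ≠ 0` for all `y` in it.  For such `y` apply `ca_implicit` at `p0 := y` with
`κ := Fin n`, `ι := Unit`: `G v _ = ∑ i, aeval (fun j => v (inl j)) (q i) * v (inr ()) ^ i` (`CA.sum`, `CA.mul`,
`CA.pow`, `CA.proj`, `ca_eval` for the polynomials mapped to `ℂ`: their coefficients are rational numbers,
`IsPR.ratCast`), `u y' _ = φ y'`; `G` is a polynomial function, so it has a strict (complex, restrict scalars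
to `ℝ`) derivative everywhere, and the derivative at `(y, φ y)` on `(0, v)` is `∂Gf/∂T (y, φ y) * v ()`.

`chart_ca`: this is `AHT.chart` with the additional fact that `φ` is effectively computable, for
`S ⊆ EF O`.  Proof: the proof of `AHT.chart` (file `AHT/Chr.lean`, copy it with its private lemmas) with
`exists_root_ca` instead of `exists_root'`: `φ y x = φ₀ x (Fin.append a y)`, the constants `a i ∈ S` are
primitive recursive relative to `O` (`hS`): `CA.comp` with `CA.const`, `CA.proj`, and `ca_mono`.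
-/

namespace Pool.Agent.AHE

open Pool.Agent.AHC Pool.Agent.AHI Pool.Agent.AHR Pool.Agent.AHT Pool.Agent.AHU Pool.Agent.EllPR
  Filter
open scoped Topology ContDiff

private theorem ChC_contDiff {n : ℕ} (q : MvPolynomial (Fin n) ℚ) :
    ContDiff ℂ 1 fun t : Fin n → ℂ => MvPolynomial.aeval t q := by
  induction q using MvPolynomial.induction_on with
  | C a =>
    simp only [MvPolynomial.algHom_C]
    exact contDiff_const
  | add p q hp hq =>
    simp only [map_add]
    exact hp.add hq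
  | mul_X p i hp =>
    simp only [map_mul, MvPolynomial.aeval_X]
    exact hp.mul (contDiff_apply ℂ ℂ i)

private theorem ChC_invertible {f : ℂ →L[ℂ] ℂ} (h : ∀ v, f v = 0 → v = 0) : f.IsInvertible := by
  have hinj : Function.Injective (f : ℂ →ₗ[ℂ] ℂ) := by
    rw [← LinearMap.ker_eq_bot, LinearMap.ker_eq_bot']
    exact h
  refine ⟨(LinearEquiv.ofInjectiveEndo (f : ℂ →ₗ[ℂ] ℂ) hinj).toContinuousLinearEquiv, ?_⟩
  ext
  rfl

private theorem ChC_poly {n : ℕ} {t : Fin n → ℂ} {x : ℂ} (hx : x ∈ cl (Set.range t)) :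
    ∃ (d : ℕ) (q : ℕ → MvPolynomial (Fin n) ℚ),
      ∑ i ∈ Finset.range (d + 1), MvPolynomial.aeval t (q i) * x ^ i = 0 ∧
      ∑ i ∈ Finset.range (d + 1), MvPolynomial.aeval t (q i) * (i * x ^ (i - 1)) ≠ 0 := by
  classical
  obtain ⟨p, hp0, hpx⟩ : IsAlgebraic (Algebra.adjoin ℚ (Set.range t)) x := hx
  have hex : ∃ d, ∃ p : Polynomial (Algebra.adjoin ℚ (Set.range t)), p ≠ 0 ∧
      Polynomial.aeval x p = 0 ∧ p.natDegree = d := ⟨_, p, hp0, hpx, rfl⟩
  obtain ⟨p, hp0, hpx, hpd⟩ := Nat.find_spec hex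
  have hmin : ∀ p' : Polynomial (Algebra.adjoin ℚ (Set.range t)), p' ≠ 0 →
      p'.natDegree < Nat.find hex → Polynomial.aeval x p' ≠ 0 :=
    fun p' h1 h2 h3 => Nat.find_min hex h2 ⟨p', h1, h3, rfl⟩
  have hd : p.natDegree ≠ 0 := by
    intro h
    have ha := Polynomial.eq_C_of_natDegree_eq_zero h
    have h1 := hpx
    rw [ha, Polynomial.aeval_C] at h1
    have h2 : p.coeff 0 = 0 := Subtype.ext h1
    rw [h2, Polynomial.C_0] at ha
    exact hp0 ha
  have hder0 : p.derivative ≠ 0 := by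
    intro h
    exact hd (Polynomial.derivative_eq_zero.1 h)
  have hder : Polynomial.aeval x p.derivative ≠ 0 :=
    hmin _ hder0 (hpd ▸ Polynomial.natDegree_derivative_lt hd)
  have hcoef : ∀ i, ∃ q : MvPolynomial (Fin n) ℚ, MvPolynomial.aeval t q = (p.coeff i : ℂ) := by
    intro i
    have h : ((p.coeff i : ℂ)) ∈ (MvPolynomial.aeval t : MvPolynomial (Fin n) ℚ →ₐ[ℚ] ℂ).range :=
      (Algebra.adjoin_range_eq_range_aeval ℚ t).le (p.coeff i).2
    exact h
  choose q hq using hcoef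
  refine ⟨p.natDegree, q, ?_, ?_⟩
  · rw [← hpx, Polynomial.aeval_eq_sum_range]
    refine Finset.sum_congr rfl fun i _ => ?_
    rw [hq, Algebra.smul_def]
    rfl
  · have h : Polynomial.aeval x p.derivative =
        ∑ i ∈ Finset.range (p.natDegree + 1), (p.coeff i : ℂ) * (i * x ^ (i - 1)) := by
      rw [Polynomial.derivative_apply, Polynomial.sum_over_range _ (by simp), map_sum]
      refine Finset.sum_congr rfl fun i _ => ?_
      rw [map_mul, Polynomial.aeval_C, map_pow, Polynomial.aeval_X, map_mul, map_natCast]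
      change (p.coeff i : ℂ) * i * x ^ (i - 1) = _
      ring
    rw [h] at hder
    intro h2
    refine hder (Eq.trans ?_ h2)
    exact Finset.sum_congr rfl fun i _ => by rw [hq]

/-- rational polynomials are effectively computable -/
private theorem ChC_aeval {κ : Type} [Fintype κ] {n : ℕ} (q : MvPolynomial (Fin n) ℚ)
    (s : Fin n → κ) (b : κ → ℂ) :
    CA ∅ (fun v : κ → ℂ => MvPolynomial.aeval (fun j => v (s j)) q) b := by
  have h := ca_eval (O := ∅) (b := b) (P := MvPolynomial.map (algebraMap ℚ ℂ) q)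
    (fun c hc => ?_) (Z := fun j v => v (s j)) fun l => CA.proj (s l) b
  · refine h.congr one_pos fun v _ => ?_
    rw [MvPolynomial.eval_map]
    rfl
  · rw [MvPolynomial.mem_coeffs_iff] at hc
    obtain ⟨u, -, rfl⟩ := hc
    rw [MvPolynomial.coeff_map]
    exact IsPR.ratCast _

/-- the computable implicit function theorem for one polynomial equation -/
private theorem ChC_implicit {n : ℕ} {d : ℕ} {q : ℕ → MvPolynomial (Fin n) ℚ}
    {ψ : (Fin n → ℂ) → ℂ} {y : Fin n → ℂ} (hψ : ContinuousAt ψ y)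
    (h0 : ∀ᶠ s in 𝓝 y, ∑ i ∈ Finset.range (d + 1), MvPolynomial.aeval s (q i) * ψ s ^ i = 0)
    (h1 : ∑ i ∈ Finset.range (d + 1), MvPolynomial.aeval y (q i) * (i * ψ y ^ (i - 1)) ≠ 0) :
    CA ∅ ψ y := by
  set G : (Fin n ⊕ Unit → ℂ) → (Unit → ℂ) := fun v _ =>
    ∑ i ∈ Finset.range (d + 1), MvPolynomial.aeval (fun j => v (Sum.inl j)) (q i) *
      v (Sum.inr ()) ^ i with hG
  set u : (Fin n → ℂ) → (Unit → ℂ) := fun s _ => ψ s with hu
  have hc : ContDiff ℂ 1 G := by
    rw [contDiff_pi]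
    intro _
    refine ContDiff.sum fun i _ => ?_
    refine ContDiff.mul ?_ ((contDiff_apply ℂ ℂ (Sum.inr ())).pow i)
    exact (ChC_contDiff (q i)).comp (contDiff_pi.2 fun j => contDiff_apply ℂ ℂ (Sum.inl j))
  have hs : HasStrictFDerivAt G (fderiv ℂ G (Sum.elim y (u y))) (Sum.elim y (u y)) :=
    hc.contDiffAt.hasStrictFDerivAt one_ne_zero
  have e1 : HasDerivAt (fun z : ℂ => (Sum.elim y (fun _ : Unit => z) : Fin n ⊕ Unit → ℂ))
      (Sum.elim 0 fun _ => 1) (ψ y) := by
    rw [hasDerivAt_pi]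
    rintro (j | j)
    · exact hasDerivAt_const _ _
    · exact hasDerivAt_id _
  have e2 : HasDerivAt (fun z : ℂ => G (Sum.elim y fun _ : Unit => z))
      (fderiv ℂ G (Sum.elim y (u y)) (Sum.elim 0 fun _ => 1)) (ψ y) := by
    have hs' : HasFDerivAt G (fderiv ℂ G (Sum.elim y (u y)))
        ((fun z : ℂ => (Sum.elim y (fun _ : Unit => z) : Fin n ⊕ Unit → ℂ)) (ψ y)) :=
      hs.hasFDerivAt
    exact HasFDerivAt.comp_hasDerivAt (ψ y) hs' e1
  have e3 : HasDerivAt (fun z : ℂ => G (Sum.elim y fun _ : Unit => z))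
      (fun _ => ∑ i ∈ Finset.range (d + 1), MvPolynomial.aeval y (q i) * (i * ψ y ^ (i - 1)))
      (ψ y) := by
    rw [hasDerivAt_pi]
    intro _
    simp only [hG, Sum.elim_inl, Sum.elim_inr]
    refine HasDerivAt.fun_sum fun i _ => ?_
    exact (hasDerivAt_pow i (ψ y)).const_mul _
  have e4 := e2.unique e3
  refine ca_implicit (O := ∅) (κ := Fin n) (ι := Unit) (G := G) (u := u) (p0 := y)
    (L := (fderiv ℂ G (Sum.elim y (u y))).restrictScalars ℝ) (fun _ => ?_) (hs.restrictScalars ℝ)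
    (fun v hv => ?_) ?_ ?_ ()
  · refine CA.sum _ fun i _ => ?_
    exact (ChC_aeval (q i) Sum.inl _).mul ((CA.proj (Sum.inr ()) _).pow i)
  · have e5 : (Sum.elim 0 v : Fin n ⊕ Unit → ℂ) =
        v () • (Sum.elim 0 fun _ => 1 : Fin n ⊕ Unit → ℂ) := by
      funext j
      rcases j with j | j
      · simp
      · simp
    rw [ContinuousLinearMap.coe_restrictScalars', e5, map_smul, e4] at hv
    have h6 := congrFun hv ()
    simp only [Pi.smul_apply, smul_eq_mul, Pi.zero_apply] at h6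
    funext j
    exact (mul_eq_zero.1 h6).resolve_right h1
  · rw [continuousAt_pi]
    exact fun _ => hψ
  · filter_upwards [h0] with s hs
    funext _
    simp only [hG, hu, Sum.elim_inl, Sum.elim_inr]
    exact hs

theorem exists_root_ca {n : ℕ} {t : Fin n → ℂ} {x : ℂ} (hx : x ∈ cl (Set.range t)) :
    ∃ r > 0, ∃ η > 0, ∃ φ : (Fin n → ℂ) → ℂ, DifferentiableOn ℂ φ (Metric.ball t r) ∧ φ t = x ∧
      (∀ y ∈ Metric.ball t r, CA ∅ φ y) ∧
      ∀ β : ℂ ≃+* ℂ, (fun i => β (t i)) ∈ Metric.ball t r → ‖β x - x‖ < η →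
        β x = φ fun i => β (t i) := by
  obtain ⟨d, q, h0, h1⟩ := ChC_poly hx
  set E : (Fin n → ℂ) × ℂ → ℂ :=
    fun v => ∑ i ∈ Finset.range (d + 1), MvPolynomial.aeval v.1 (q i) * v.2 ^ i with hE
  have hE0 : E (t, x) = 0 := h0
  have hc : ContDiff ℂ 1 E := by
    rw [hE]
    refine ContDiff.sum fun i _ => ?_
    exact ((ChC_contDiff (q i)).comp contDiff_fst).mul (contDiff_snd.pow i)
  have cdf : ContDiffAt ℂ 1 E (t, x) := hc.contDiffAt
  have pn : (1 : WithTop ℕ∞) ≠ 0 := one_ne_zero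
  have hinv : (fderiv ℂ E (t, x) ∘L .inr ℂ (Fin n → ℂ) ℂ).IsInvertible := by
    have e1 : HasFDerivAt E (fderiv ℂ E (t, x)) (t, x) :=
      ((hc.differentiable one_ne_zero) _).hasFDerivAt
    have e2 : HasFDerivAt (fun y : ℂ => (t, y)) (.inr ℂ (Fin n → ℂ) ℂ) x :=
      hasFDerivAt_prodMk_right t x
    have e3 : HasFDerivAt (fun y : ℂ => E (t, y)) (fderiv ℂ E (t, x) ∘L .inr ℂ (Fin n → ℂ) ℂ) x :=
      HasFDerivAt.comp x e1 e2
    have e4 : HasDerivAt (fun y : ℂ => E (t, y))
        (∑ i ∈ Finset.range (d + 1), MvPolynomial.aeval t (q i) * (i * x ^ (i - 1))) x := by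
      simp only [hE]
      refine HasDerivAt.fun_sum fun i _ => ?_
      exact (hasDerivAt_pow i x).const_mul _
    have e5 := e3.hasDerivAt.unique e4
    refine ChC_invertible fun v hv => ?_
    have e6 : (fderiv ℂ E (t, x) ∘L .inr ℂ (Fin n → ℂ) ℂ) v =
        v * (fderiv ℂ E (t, x) ∘L .inr ℂ (Fin n → ℂ) ℂ) 1 := by
      rw [← smul_eq_mul, ← map_smul, smul_eq_mul, mul_one]
    rw [e6, e5] at hv
    exact (mul_eq_zero.1 hv).resolve_right h1
  have a1 : ∀ᶠ s in 𝓝 t, ContDiffAt ℂ 1 (cdf.implicitFunction pn hinv) s :=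
    (cdf.contDiffAt_implicitFunction pn hinv).eventually (by simp)
  have a2 : cdf.implicitFunction pn hinv t = x := cdf.implicitFunction_apply_self pn hinv
  have a3 := cdf.eventually_apply_eq_iff_implicitFunction pn hinv
  rw [hE0] at a3
  set ψ : (Fin n → ℂ) → ℂ := cdf.implicitFunction pn hinv with hψ
  have a4 : ContinuousAt ψ t := (cdf.contDiffAt_implicitFunction pn hinv).continuousAt
  have a5 : ∀ᶠ s in 𝓝 t,
      ∑ i ∈ Finset.range (d + 1), MvPolynomial.aeval s (q i) * ψ s ^ i = 0 := by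
    have b1 : Tendsto (fun s => (s, ψ s)) (𝓝 t) (𝓝 (t, x)) := by
      have b2 : Tendsto ψ (𝓝 t) (𝓝 x) := by
        have b3 := a4.tendsto
        rwa [a2] at b3
      exact tendsto_id.prodMk_nhds b2
    filter_upwards [b1.eventually a3] with s hs
    exact hs.2 rfl
  have a6 : ∀ᶠ s in 𝓝 t,
      ∑ i ∈ Finset.range (d + 1), MvPolynomial.aeval s (q i) * (i * ψ s ^ (i - 1)) ≠ 0 := by
    have b1 : ContinuousAt (fun s => ∑ i ∈ Finset.range (d + 1),
        MvPolynomial.aeval s (q i) * (i * ψ s ^ (i - 1))) t := by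
      refine tendsto_finsetSum _ fun i _ => ?_
      exact ((ChC_contDiff (q i)).continuous.continuousAt (x := t)).mul
        (continuousAt_const.mul (a4.pow (i - 1)))
    refine b1.eventually_ne ?_
    rw [a2]
    exact h1
  obtain ⟨r1, hr1, b1⟩ := Metric.eventually_nhds_iff_ball.1 (a1.and (a5.and a6))
  obtain ⟨r2, hr2, b2⟩ := Metric.eventually_nhds_iff_ball.1 a3
  refine ⟨min r1 r2, lt_min hr1 hr2, r2, hr2, ψ, ?_, a2, ?_, ?_⟩
  · intro s hs
    exact ((b1 s (Metric.ball_subset_ball (min_le_left _ _) hs)).1.differentiableAt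
      one_ne_zero).differentiableWithinAt
  · intro y hy
    have hy1 : y ∈ Metric.ball t r1 := Metric.ball_subset_ball (min_le_left _ _) hy
    refine ChC_implicit (d := d) (q := q) (b1 y hy1).1.continuousAt ?_ (b1 y hy1).2.2
    filter_upwards [Metric.isOpen_ball.mem_nhds hy1] with s hs
    exact (b1 s hs).2.1
  · intro β hβ hβx
    have c1 : ((fun i => β (t i), β x) : (Fin n → ℂ) × ℂ) ∈ Metric.ball (t, x) r2 := by
      rw [Metric.mem_ball, Prod.dist_eq, max_lt_iff]
      refine ⟨Metric.mem_ball.1 (Metric.ball_subset_ball (min_le_right _ _) hβ), ?_⟩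
      rw [dist_eq_norm]
      exact hβx
    have c2 : E (fun i => β (t i), β x) = 0 := by
      have c3 : ∀ p : MvPolynomial (Fin n) ℚ,
          MvPolynomial.aeval (fun i => β (t i)) p = β (MvPolynomial.aeval t p) := fun p =>
        (MvPolynomial.comp_aeval_apply t (β : ℂ →+* ℂ).toRatAlgHom p).symm
      have c4 : E (fun i => β (t i), β x) = β (E (t, x)) := by
        simp only [hE, map_sum, map_mul, map_pow, c3]
      rw [c4, hE0, map_zero]
    exact ((b2 _ c1).1 c2).symm

private theorem ChC_pos_le {ι : Type} [Finite ι] (r : ι → ℝ) (hr : ∀ i, 0 < r i) :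
    ∃ a > 0, ∀ i, a ≤ r i := by
  rcases isEmpty_or_nonempty ι with h | h
  · exact ⟨1, one_pos, fun i => h.elim i⟩
  · obtain ⟨i, hi⟩ := Finite.exists_min r
    exact ⟨r i, hr i, hi⟩

private theorem ChC_finite {S : Set ℂ} {n : ℕ} {t : Fin n → ℂ} (X : Finset ℂ)
    (hX : (X : Set ℂ) ⊆ cl (S ∪ Set.range t)) :
    ∃ (m : ℕ) (a : Fin m → ℂ), (∀ i, a i ∈ S) ∧
      (X : Set ℂ) ⊆ cl (Set.range (Fin.append a t)) := by
  choose I hI hIf _ hxI using fun x : X => exists_finite_of_mem_cl (hX (Finset.mem_coe.2 x.2))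
  have hfin : ((⋃ x, I x) ∩ S).Finite := (Set.finite_iUnion hIf).inter_of_left S
  obtain ⟨m, a, -, h2, h3⟩ := exists_basis ∅ hfin
  rw [Set.empty_union] at h3
  refine ⟨m, a, fun i => (h2 ⟨i, rfl⟩).2, fun x hx => ?_⟩
  have h4 : x ∈ cl (I ⟨x, hx⟩) := hxI ⟨x, hx⟩
  have h5 : I ⟨x, hx⟩ ⊆ cl (Set.range (Fin.append a t)) := by
    intro z hz
    rcases hI ⟨x, hx⟩ hz with h | ⟨j, rfl⟩
    · refine cl_mono ?_ (h3 ⟨Set.mem_iUnion.2 ⟨_, hz⟩, h⟩)
      rintro w ⟨i, rfl⟩
      exact ⟨Fin.castAdd n i, Fin.append_left _ _ _⟩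
    · exact subset_cl _ ⟨Fin.natAdd m j, Fin.append_right _ _ _⟩
  exact cl_subset_iff.2 h5 h4

private theorem ChC_mem_ball {n m : ℕ} {a : Fin m → ℂ} {t y : Fin n → ℂ} {r : ℝ} (hr : 0 < r)
    (hy : y ∈ Metric.ball t r) : Fin.append a y ∈ Metric.ball (Fin.append a t) r := by
  rw [Metric.mem_ball, dist_pi_lt_iff hr] at hy ⊢
  intro i
  induction i using Fin.addCases with
  | left i =>
    rw [Fin.append_left, Fin.append_left, dist_self]
    exact hr
  | right i =>
    rw [Fin.append_right, Fin.append_right]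
    exact hy i

private theorem ChC_diff {n m : ℕ} (a : Fin m → ℂ) :
    Differentiable ℂ fun y : Fin n → ℂ => (Fin.append a y : Fin (m + n) → ℂ) := by
  rw [differentiable_pi]
  intro i
  induction i using Fin.addCases with
  | left i =>
    simp only [Fin.append_left]
    exact differentiable_const _
  | right i =>
    simp only [Fin.append_right]
    exact differentiable_apply i

theorem chart_ca {O : Set (ℕ → ℕ)} {S : Set ℂ} (hS : ∀ a ∈ S, IsPR O a) {n : ℕ} {t : Fin n → ℂ}
    (ht : SeqInd S t) (X : Finset ℂ) (hX : (X : Set ℂ) ⊆ cl (S ∪ Set.range t)) {U : Set (X → ℂ)}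
    (hU : U ∈ 𝓝 (inc X)) :
    ∃ (r η : ℝ) (φ : (Fin n → ℂ) → (X → ℂ)), 0 < r ∧ 0 < η ∧
      DifferentiableOn ℂ φ (Metric.ball t r) ∧ (∀ y ∈ Metric.ball t r, φ y ∈ U) ∧
      (∀ y ∈ Metric.ball t r, ∀ x, CA O (fun y => φ y x) y) ∧
      (∀ β ∈ Fx S, (fun i => β (t i)) ∈ Metric.ball t r → (∀ x ∈ X, ‖β x - x‖ < η) →
        res X β = φ fun i => β (t i)) ∧
      ∀ y ∈ Metric.ball t r, SeqInd S y → ∃ β ∈ Fx S, (∀ i, β (t i) = y i) ∧ res X β = φ y := by
  obtain ⟨m, a, haS, hXa⟩ := ChC_finite X hX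
  choose r hr η hη φ hφd hφt hφc hφβ using fun x : X => exists_root_ca (hXa (Finset.mem_coe.2 x.2))
  obtain ⟨r0, hr0, hr0'⟩ := ChC_pos_le r hr
  obtain ⟨η0, hη0, hη0'⟩ := ChC_pos_le η hη
  have hdiff : DifferentiableOn ℂ (fun (y : Fin n → ℂ) (x : X) => φ x (Fin.append a y))
      (Metric.ball t r0) := by
    rw [differentiableOn_pi]
    intro x
    refine (hφd x).comp (ChC_diff a).differentiableOn fun y hy => ?_
    exact Metric.ball_subset_ball (hr0' x) (ChC_mem_ball hr0 hy)
  have hval : (fun x : X => φ x (Fin.append a t)) = inc X := by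
    funext x
    exact hφt x
  have hcont : ContinuousAt (fun (y : Fin n → ℂ) (x : X) => φ x (Fin.append a y)) t :=
    hdiff.continuousOn.continuousAt (Metric.ball_mem_nhds t hr0)
  have hU' : ∀ᶠ y in 𝓝 t, (fun x : X => φ x (Fin.append a y)) ∈ U := by
    refine hcont.eventually_mem ?_
    rw [hval]
    exact hU
  obtain ⟨r1, hr1, hr1'⟩ := Metric.eventually_nhds_iff_ball.1 hU'
  obtain ⟨δ, hδ, hnear⟩ := nearby_rel ht X.finite_toSet hX hη0
  have h3 : ∀ β ∈ Fx S, (fun i => β (t i)) ∈ Metric.ball t (min (min r0 r1) δ) →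
      (∀ x ∈ X, ‖β x - x‖ < η0) →
        res X β = fun x : X => φ x (Fin.append a fun i => β (t i)) := by
    intro β hβ hb hx
    have hrb : min (min r0 r1) δ ≤ r0 := (min_le_left _ _).trans (min_le_left _ _)
    have happ : (fun i => β (Fin.append a t i)) =
        (Fin.append a (fun i => β (t i)) : Fin (m + n) → ℂ) := by
      funext i
      induction i using Fin.addCases with
      | left i =>
        rw [Fin.append_left, Fin.append_left]
        exact hβ _ (subset_cl _ (haS i))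
      | right i => rw [Fin.append_right, Fin.append_right]
    funext x
    have h4 := hφβ x β (by
      rw [happ]
      exact Metric.ball_subset_ball (hr0' x)
        (ChC_mem_ball hr0 (Metric.ball_subset_ball hrb hb)))
      ((hx x x.2).trans_le (hη0' x))
    rw [happ] at h4
    exact h4
  refine ⟨min (min r0 r1) δ, η0, fun y x => φ x (Fin.append a y), lt_min (lt_min hr0 hr1) hδ,
    hη0, hdiff.mono ?_, fun y hy => hr1' y ?_, fun y hy x => ?_, h3, fun y hy hyS => ?_⟩
  · exact Metric.ball_subset_ball ((min_le_left _ _).trans (min_le_left _ _))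
  · exact Metric.ball_subset_ball ((min_le_left _ _).trans (min_le_right _ _)) hy
  · have h4 : CA O (φ x) (Fin.append a y) := by
      refine ca_mono (Set.empty_subset O) (hφc x _ ?_)
      exact Metric.ball_subset_ball (hr0' x) (ChC_mem_ball hr0
        (Metric.ball_subset_ball ((min_le_left _ _).trans (min_le_left _ _)) hy))
    refine CA.comp (F := fun i v => Fin.append a v i) h4 fun i => ?_
    induction i using Fin.addCases with
    | left i =>
      simp only [Fin.append_left]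
      exact CA.const (hS _ (haS i)) y
    | right i =>
      simp only [Fin.append_right]
      exact CA.proj i y
  · have hy' : ∀ i, ‖y i - t i‖ < δ := by
      intro i
      rw [← dist_eq_norm]
      exact ((dist_pi_lt_iff (lt_min (lt_min hr0 hr1) hδ)).1 (Metric.mem_ball.1 hy) i).trans_le
        (min_le_right _ _)
    obtain ⟨β, h5, h6, h7⟩ := hnear y hyS hy'
    have h8 : (fun i => β (t i)) = y := funext h6
    refine ⟨β, h5, h6, ?_⟩
    have h9 := h3 β h5 (by rw [h8]; exact hy) fun x hx => h7 x (Finset.mem_coe.2 hx)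
    rw [h8] at h9
    exact h9

end Pool.Agent.AHE
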