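import Mathlib
import Pool.Agent.EllPR.Rec

/-!
# A computable universal function for the functions which are primitive recursive relative to
finitely many computable functions

Proofs.  `prin_computable`: induction on `PRIn O f`; `Computable.comp`, `Computable.pair`-like lemmas
(`Computable₂ Nat.pair`, `Nat.unpair`), and `Computable.nat_rec` for `prec`.

`exists_universal`.  Let `f_1, ..., f_k` be the elements of `O` (a list `l`), with codes
`c_i : Nat.Partrec.Code`, `c_i.eval n = Part.some (f_i n)` (`Nat.Partrec.Code.exists_code`).  Define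
`tr : Nat.Partrec.Code → Nat.Partrec.Code` by recursion: it commutes with `zero, succ, left, right,
pair, comp, prec`, and `tr (rfind' c) = c_i` with `i = encode c % k` (`zero` if `k = 0`; e.g.
`(codes.getD (encode c % k) Code.zero)`).  `tr` is computable (`Nat.Partrec.Code.primrec_recOn` or
`Nat.Partrec.Code.computable_recOn`).  All codes `tr c` have total evaluation (induction on `c`).  Put
`u e n = (tr (ofNat Code e)).eval n` (`Part.get`); it is computable as a total partial recursive function
(`Nat.Partrec.Code.eval_part`, `Partrec₂`, `Computable.ofOption` not needed; `Partrec.of_eq`).  Every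
`f` with `PRIn O f` is the evaluation of some `tr c` (induction on `PRIn`; for an oracle choose `c` with
`encode c % k = i`, possible since `Nat.Partrec.Code` is denumerable: `Denumerable`, `encode (ofNat _ i) = i`).
-/

namespace Pool.Agent.AHE

open Pool.Agent.EllPR

theorem prin_computable {O : Set (ℕ → ℕ)} (hO : ∀ f ∈ O, Computable f) {f : ℕ → ℕ}
    (hf : PRIn O f) : Computable f := by
  induction hf with
  | oracle hf => exact hO _ hf
  | zero => exact Computable.const 0
  | succ => exact Computable.succ
  | left => exact Computable.fst.comp Computable.unpair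
  | right => exact Computable.snd.comp Computable.unpair
  | pair _ _ h1 h2 => exact Primrec₂.natPair.to_comp.comp h1 h2
  | comp _ _ h1 h2 => exact h1.comp h2
  | @prec f g _ _ h1 h2 =>
    have h3 : Computable₂ fun (a : ℕ) (p : ℕ × ℕ) => g (Nat.pair a.unpair.1 (Nat.pair p.1 p.2)) := by
      refine h2.comp (Primrec₂.natPair.to_comp.comp ?_ ?_)
      · exact Computable.fst.comp (Computable.unpair.comp Computable.fst)
      · exact Primrec₂.natPair.to_comp.comp (Computable.fst.comp Computable.snd)
          (Computable.snd.comp Computable.snd)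
    have h4 := Computable.nat_rec (Computable.snd.comp Computable.unpair)
      (h1.comp (Computable.fst.comp Computable.unpair)) h3
    exact h4.of_eq fun n => rfl

open Nat.Partrec Encodable Denumerable

/-- translation of the codes: the minimizations become oracles -/
private def CmA_tr (D : List Code) (c : Code) : Code :=
  Nat.Partrec.Code.recOn c Code.zero Code.succ Code.left Code.right
    (fun _ _ a b => Code.pair a b) (fun _ _ a b => Code.comp a b) (fun _ _ a b => Code.prec a b)
    (fun cf _ => D.getD (encode cf % D.length) Code.zero)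

private theorem CmA_primrec (D : List Code) : Primrec (CmA_tr D) := by
  refine Nat.Partrec.Code.primrec_recOn (α := Code) (σ := Code) (c := id)
    (z := fun _ => Code.zero) (s := fun _ => Code.succ) (l := fun _ => Code.left)
    (r := fun _ => Code.right) (pr := fun _ _ _ a b => Code.pair a b)
    (co := fun _ _ _ a b => Code.comp a b) (pc := fun _ _ _ a b => Code.prec a b)
    (rf := fun _ cf _ => D.getD (encode cf % D.length) Code.zero) Primrec.id (Primrec.const _)
    (Primrec.const _) (Primrec.const _) (Primrec.const _) ?_ ?_ ?_ ?_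
  · exact Code.primrec₂_pair.comp (Primrec.fst.comp (Primrec.snd.comp (Primrec.snd.comp Primrec.snd)))
      (Primrec.snd.comp (Primrec.snd.comp (Primrec.snd.comp Primrec.snd)))
  · exact Code.primrec₂_comp.comp (Primrec.fst.comp (Primrec.snd.comp (Primrec.snd.comp Primrec.snd)))
      (Primrec.snd.comp (Primrec.snd.comp (Primrec.snd.comp Primrec.snd)))
  · exact Code.primrec₂_prec.comp (Primrec.fst.comp (Primrec.snd.comp (Primrec.snd.comp Primrec.snd)))
      (Primrec.snd.comp (Primrec.snd.comp (Primrec.snd.comp Primrec.snd)))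
  · exact (Primrec.list_getD Code.zero).comp (Primrec.const D)
      (Primrec.nat_mod.comp (Primrec.encode.comp (Primrec.fst.comp Primrec.snd))
        (Primrec.const D.length))

/-- the code `c` computes the total function `f` -/
private def CmA_T (c : Code) (f : ℕ → ℕ) : Prop := ∀ n, c.eval n = Part.some (f n)

private theorem CmA_zero : CmA_T Code.zero fun _ => 0 := fun _ => rfl

private theorem CmA_pair {a b : Code} {f g : ℕ → ℕ} (ha : CmA_T a f) (hb : CmA_T b g) :
    CmA_T (Code.pair a b) fun n => Nat.pair (f n) (g n) := by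
  intro n
  have h1 : (Code.pair a b).eval n = Nat.pair <$> a.eval n <*> b.eval n := rfl
  rw [h1, ha n, hb n]
  simp [Seq.seq]

private theorem CmA_comp {a b : Code} {f g : ℕ → ℕ} (ha : CmA_T a f) (hb : CmA_T b g) :
    CmA_T (Code.comp a b) fun n => f (g n) := by
  intro n
  have h1 : (Code.comp a b).eval n = b.eval n >>= a.eval := rfl
  rw [h1, hb n]
  simpa using ha (g n)

private theorem CmA_prec {a b : Code} {f g : ℕ → ℕ} (ha : CmA_T a f) (hb : CmA_T b g) :
    CmA_T (Code.prec a b)
      (Nat.unpaired fun z n => n.rec (f z) fun y IH => g <| Nat.pair z <| Nat.pair y IH) := by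
  intro n
  obtain ⟨z, k, rfl⟩ : ∃ z k, n = Nat.pair z k := ⟨_, _, (Nat.pair_unpair n).symm⟩
  have h2 : ∀ k, (Code.prec a b).eval (Nat.pair z k) =
      Part.some (Nat.rec (f z) (fun y IH => g <| Nat.pair z <| Nat.pair y IH) k) := by
    intro k
    induction k with
    | zero =>
      rw [Code.eval_prec_zero]
      exact ha z
    | succ k ih =>
      rw [Code.eval_prec_succ, ih]
      simpa using hb _
  rw [h2 k]
  simp [Nat.unpaired, Nat.unpair_pair]

private theorem CmA_total {D : List Code} (hD : ∀ d ∈ D, ∃ f, CmA_T d f) (c : Code) :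
    ∃ f, CmA_T (CmA_tr D c) f := by
  induction c with
  | zero => exact ⟨_, CmA_zero⟩
  | succ => exact ⟨Nat.succ, fun n => rfl⟩
  | left => exact ⟨fun n => n.unpair.1, fun n => rfl⟩
  | right => exact ⟨fun n => n.unpair.2, fun n => rfl⟩
  | pair a b iha ihb =>
    obtain ⟨f, hf⟩ := iha
    obtain ⟨g, hg⟩ := ihb
    exact ⟨_, CmA_pair hf hg⟩
  | comp a b iha ihb =>
    obtain ⟨f, hf⟩ := iha
    obtain ⟨g, hg⟩ := ihb
    exact ⟨_, CmA_comp hf hg⟩
  | prec a b iha ihb =>
    obtain ⟨f, hf⟩ := iha
    obtain ⟨g, hg⟩ := ihb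
    exact ⟨_, CmA_prec hf hg⟩
  | rfind' a _ =>
    change ∃ f, CmA_T (D.getD (encode a % D.length) Code.zero) f
    by_cases h : encode a % D.length < D.length
    · rw [List.getD_eq_getElem _ _ h]
      exact hD _ (List.getElem_mem h)
    · rw [List.getD_eq_default _ _ (not_lt.1 h)]
      exact ⟨_, CmA_zero⟩

private theorem CmA_surj {O : Set (ℕ → ℕ)} {D : List Code}
    (hD : ∀ f ∈ O, ∃ i, ∃ h : i < D.length, CmA_T D[i] f) {f : ℕ → ℕ} (hf : PRIn O f) :
    ∃ c, CmA_T (CmA_tr D c) f := by
  induction hf with
  | oracle hf =>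
    obtain ⟨i, hi, h⟩ := hD _ hf
    refine ⟨Code.rfind' (ofNat Code i), ?_⟩
    change CmA_T (D.getD (encode (ofNat Code i) % D.length) Code.zero) _
    rw [Denumerable.encode_ofNat, Nat.mod_eq_of_lt hi, List.getD_eq_getElem _ _ hi]
    exact h
  | zero => exact ⟨Code.zero, CmA_zero⟩
  | succ => exact ⟨Code.succ, fun n => rfl⟩
  | left => exact ⟨Code.left, fun n => rfl⟩
  | right => exact ⟨Code.right, fun n => rfl⟩
  | pair _ _ h1 h2 =>
    obtain ⟨a, ha⟩ := h1
    obtain ⟨b, hb⟩ := h2
    exact ⟨Code.pair a b, CmA_pair ha hb⟩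
  | comp _ _ h1 h2 =>
    obtain ⟨a, ha⟩ := h1
    obtain ⟨b, hb⟩ := h2
    exact ⟨Code.comp a b, CmA_comp ha hb⟩
  | prec _ _ h1 h2 =>
    obtain ⟨a, ha⟩ := h1
    obtain ⟨b, hb⟩ := h2
    exact ⟨Code.prec a b, CmA_prec ha hb⟩

theorem exists_universal {O : Set (ℕ → ℕ)} (hO : O.Finite) (hc : ∀ f ∈ O, Computable f) :
    ∃ u : ℕ → ℕ → ℕ, Computable₂ u ∧ ∀ f, PRIn O f → ∃ e, ∀ n, u e n = f n := by
  classical
  have hcode : ∀ f : ℕ → ℕ, ∃ c : Code, f ∈ O → CmA_T c f := by
    intro f
    by_cases hf : f ∈ O
    · have h1 : Nat.Partrec (fun n => Part.some (f n)) := Partrec.nat_iff.1 (hc f hf)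
      obtain ⟨c, hc⟩ := Code.exists_code.1 h1
      exact ⟨c, fun _ n => by rw [hc]⟩
    · exact ⟨Code.zero, fun h => absurd h hf⟩
  choose code hcd using hcode
  set D : List Code := hO.toFinset.toList.map code with hDdef
  have hD1 : ∀ d ∈ D, ∃ f, CmA_T d f := by
    intro d hd
    obtain ⟨f, hf, rfl⟩ := List.mem_map.1 hd
    have hf' : f ∈ O := by simpa using hf
    exact ⟨f, hcd f hf'⟩
  have hD2 : ∀ f ∈ O, ∃ i, ∃ h : i < D.length, CmA_T D[i] f := by
    intro f hf
    have h1 : code f ∈ D := List.mem_map.2 ⟨f, by simpa using hf, rfl⟩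
    obtain ⟨i, hi, h2⟩ := List.getElem_of_mem h1
    exact ⟨i, hi, by rw [h2]; exact hcd f hf⟩
  choose F hF using CmA_total hD1
  refine ⟨fun e n => F (ofNat Code e) n, ?_, fun f hf => ?_⟩
  · have h1 : Partrec fun p : ℕ × ℕ => Code.eval (CmA_tr D (ofNat Code p.1)) p.2 :=
      Code.eval_part.comp ((CmA_primrec D).to_comp.comp
        ((Computable.ofNat Code).comp Computable.fst)) Computable.snd
    exact h1.of_eq fun p => hF _ _
  · obtain ⟨c, hc⟩ := CmA_surj hD2 hf
    refine ⟨encode c, fun n => ?_⟩
    have h1 := hF c n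
    rw [hc n] at h1
    change F (ofNat Code (encode c)) n = f n
    rw [Denumerable.ofNat_encode]
    exact (Part.some_injective h1).symm

end Pool.Agent.AHE
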