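import Mathlib
import Pool.Agent.AHE.CmA
import Pool.Agent.EllPR.CA

/-!
# Computable complex numbers outside a field of numbers which are primitive recursive relative to
finitely many computable functions

`IsCompNum z`: `z` is a computable complex number.

Proof of `exists_comp_notMem`.  Let `u` be the universal function of `exists_universal` and put
`A_e n = (decode (u e n) : Option T).getD T.zero`; if `IsPR O z'` then for some `e` all
`‖z' - val (A_e n)‖ ≤ 1 / (n + 1)` (`PR O A` gives `f` with `PRIn O f`, `f n = encode (A n)`).  Fix a code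
`q0` near `z` and a natural number `D` with `1 / (D + 1) < ε / 2`.  Construct rationals
`a_0 = 0`, `a_(i+1) ∈ {a_i, a_i + 3/4 * 4^(-i)}`: let `w_i` be the real part of
`(D + 1) (val (A_i (m_i)) - val q0)` with `m_i = 16 (D + 1) 4^i`, which differs from the real part of
`(D + 1) (z_i - val q0)` by at most `4^(-i) / 16` if `A_i` are the approximations of a number `z_i`; put
`a_(i+1) = a_i` if `w_i > a_i + 4^(-i) / 2` and `a_(i+1) = a_i + 3/4 * 4^(-i)` otherwise.  All `a_j`,
`j > i`, and their limit `a` lie in `[a_(i+1), a_(i+1) + 4^(-i-1)]`, which does not contain the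
real part of `(D + 1) (z_i - val q0)`.  So `t = val q0 + a / (D + 1)` is different from all `z_i`.
Everything is a computation with rationals: `a_i = n_i / 4^i` with natural numbers `n_i`,
`n_(i+1) = 4 n_i` or `4 n_i + 3`, and the comparison is a decidable comparison of natural numbers
(or use `Computable` functions with values in `ℚ` or integers through `Primrec` facts); so
`i ↦ B i`, the code of `val q0 + a_i / (D + 1)`, is a computable function `ℕ → T`, with
`‖t - val (B i)‖ ≤ 4^(-i) ≤ 1 / (i + 1)`.  Take `f i = encode (B i)`.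

`exists_chain`: induction on `r` from `exists_comp_notMem` (add the new function to `O`).
`IsPR.isCompNum`: `prin_computable`, projections of the code (compare `EllPR/Statement.lean`, `isPR_iff`).
-/

namespace Pool.Agent.AHE

open Pool.Agent.EllPR Encodable

/-- computable complex numbers -/
def IsCompNum (z : ℂ) : Prop := ∃ p q r s t : ℕ → ℕ, Computable p ∧ Computable q ∧ Computable r ∧
  Computable s ∧ Computable t ∧ ∀ n : ℕ,
    ‖z - (((p n : ℂ) - q n) + ((r n : ℂ) - s n) * Complex.I) / ((t n : ℂ) + 1)‖ ≤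
      1 / ((n : ℝ) + 1)

theorem isCompNum_of_isPR {O : Set (ℕ → ℕ)} (hO : ∀ f ∈ O, Computable f) {z : ℂ}
    (hz : IsPR O z) : IsCompNum z := by
  obtain ⟨A, hA, h⟩ := hz
  have h1 : ∀ {π : T → ℕ}, Primrec π → Computable fun n => π (A n) := fun hπ =>
    prin_computable hO (pr_nat_iff.1 ((PR.of_primrec hπ).comp hA))
  exact ⟨_, _, _, _, _, h1 T.pr1, h1 T.pr2, h1 T.pr3, h1 T.pr4, h1 T.pr5, h⟩

/-- the comparison: `1` if the real part of `val x` is at most `(2 n + 1) / (2 * 4 ^ i)` -/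
private def CmB_b (i n : ℕ) (x : T) : ℕ :=
  1 - (2 * 4 ^ i * x.1 - ((2 * n + 1) * (x.2.2.2.2 + 1) + 2 * 4 ^ i * x.2.1))

private theorem CmB_pow : Primrec fun i : ℕ => 4 ^ i := by
  have h : Primrec fun i : ℕ => (Nat.rec 1 (fun _ IH => 4 * IH) i : ℕ) := by
    refine Primrec.nat_rec₁ 1 ?_
    exact Primrec.nat_mul.comp (Primrec.const 4) Primrec.snd
  refine h.of_eq fun i => ?_
  induction i with
  | zero => rfl
  | succ i ih => rw [pow_succ, ← ih, mul_comm]

private theorem CmB_pb : Primrec fun p : (ℕ × ℕ) × T => CmB_b p.1.1 p.1.2 p.2 := by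
  have hi : Primrec fun p : (ℕ × ℕ) × T => 4 ^ p.1.1 := CmB_pow.comp (Primrec.fst.comp Primrec.fst)
  have hn : Primrec fun p : (ℕ × ℕ) × T => p.1.2 := Primrec.snd.comp Primrec.fst
  have h1 : Primrec fun p : (ℕ × ℕ) × T => p.2.1 := T.pr1.comp Primrec.snd
  have h2 : Primrec fun p : (ℕ × ℕ) × T => p.2.2.1 := T.pr2.comp Primrec.snd
  have h5 : Primrec fun p : (ℕ × ℕ) × T => p.2.2.2.2.2 := T.pr5.comp Primrec.snd
  exact T.psub (Primrec.const 1) (T.psub (T.pmul (T.pmul (Primrec.const 2) hi) h1)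
    (T.padd (T.pmul (T.psucc (T.pmul (Primrec.const 2) hn)) (T.psucc h5))
      (T.pmul (T.pmul (Primrec.const 2) hi) h2)))

/-- the real part of the value -/
private theorem CmB_re (x : T) : (val x).re = ((x.1 : ℝ) - x.2.1) / ((x.2.2.2.2 : ℝ) + 1) := by
  have h : val x = ((((x.1 : ℝ) - x.2.1) / ((x.2.2.2.2 : ℝ) + 1) : ℝ) : ℂ) +
      ((((x.2.2.1 : ℝ) - x.2.2.2.1) / ((x.2.2.2.2 : ℝ) + 1) : ℝ) : ℂ) * Complex.I := by
    simp only [val]
    push_cast
    ring
  rw [h, Complex.add_re, Complex.ofReal_re, Complex.re_ofReal_mul, Complex.I_re, mul_zero, add_zero]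

private theorem CmB_b_spec (i n : ℕ) (x : T) :
    (CmB_b i n x = 1 ∧ (val x).re ≤ ((n : ℝ) + 1 / 2) / 4 ^ i) ∨
      (CmB_b i n x = 0 ∧ ((n : ℝ) + 1 / 2) / 4 ^ i < (val x).re) := by
  have ht : (0 : ℝ) < (x.2.2.2.2 : ℝ) + 1 := by positivity
  have h4 : (0 : ℝ) < 4 ^ i := by positivity
  rcases Nat.lt_or_ge ((2 * n + 1) * (x.2.2.2.2 + 1) + 2 * 4 ^ i * x.2.1) (2 * 4 ^ i * x.1) with h | h
  · right
    refine ⟨?_, ?_⟩
    · unfold CmB_b
      omega
    · rw [CmB_re, div_lt_div_iff₀ h4 ht]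
      have h' : ((2 * (n : ℝ) + 1) * ((x.2.2.2.2 : ℝ) + 1) + 2 * 4 ^ i * x.2.1) < 2 * 4 ^ i * x.1 := by
        exact_mod_cast h
      linarith
  · left
    refine ⟨?_, ?_⟩
    · unfold CmB_b
      omega
    · rw [CmB_re, div_le_div_iff₀ ht h4]
      have h' : 2 * 4 ^ i * (x.1 : ℝ) ≤ ((2 * (n : ℝ) + 1) * ((x.2.2.2.2 : ℝ) + 1) + 2 * 4 ^ i * x.2.1) := by
        exact_mod_cast h
      linarith

/-- the approximations of the number with the index `i` -/
private def CmB_x (u : ℕ → ℕ → ℕ) (i : ℕ) : T := (decode (u i (16 * 4 ^ i)) : Option T).getD T.zero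

/-- the numerators -/
private def CmB_n (u : ℕ → ℕ → ℕ) (i : ℕ) : ℕ :=
  Nat.rec 0 (fun i n => 4 * n + 3 * CmB_b i n (CmB_x u i)) i

private theorem CmB_n_succ (u : ℕ → ℕ → ℕ) (i : ℕ) :
    CmB_n u (i + 1) = 4 * CmB_n u i + 3 * CmB_b i (CmB_n u i) (CmB_x u i) := rfl

private theorem CmB_x_comp {u : ℕ → ℕ → ℕ} (hu : Computable₂ u) : Computable (CmB_x u) := by
  have h1 : Computable fun i : ℕ => u i (16 * 4 ^ i) :=
    Computable₂.comp hu Computable.id (T.pmul (Primrec.const 16) CmB_pow).to_comp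
  have h2 : Computable fun i : ℕ => (decode (u i (16 * 4 ^ i)) : Option T) :=
    Computable.decode.comp h1
  exact Computable.option_getD h2 (Computable.const T.zero)

/-- the step of the recursion -/
private def CmB_st (q : (ℕ × ℕ) × T) : ℕ := 4 * q.1.2 + 3 * CmB_b q.1.1 q.1.2 q.2

private theorem CmB_st_prim : Primrec CmB_st := by
  have h1 : Primrec fun q : (ℕ × ℕ) × T => 4 * q.1.2 :=
    T.pmul (Primrec.const 4) (Primrec.snd.comp Primrec.fst)
  have h2 : Primrec fun q : (ℕ × ℕ) × T => 3 * CmB_b q.1.1 q.1.2 q.2 :=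
    T.pmul (Primrec.const 3) CmB_pb
  exact T.padd h1 h2

private theorem CmB_n_comp {u : ℕ → ℕ → ℕ} (hu : Computable₂ u) : Computable (CmB_n u) := by
  have h1 : Computable fun q : ℕ × (ℕ × ℕ) => CmB_x u q.2.1 :=
    Computable.comp (f := CmB_x u) (CmB_x_comp hu)
      (Computable.comp (f := fun p : ℕ × ℕ => p.1) Computable.fst Computable.snd)
  have h2 : Computable fun q : ℕ × (ℕ × ℕ) => (q.2, CmB_x u q.2.1) := Computable.pair Computable.snd h1
  have h3 : Computable fun q : ℕ × (ℕ × ℕ) => CmB_st (q.2, CmB_x u q.2.1) :=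
    Computable.comp (f := CmB_st) CmB_st_prim.to_comp h2
  have h4 : Computable₂ fun (_ : ℕ) (p : ℕ × ℕ) => CmB_st (p, CmB_x u p.1) := h3
  have h5 := Computable.nat_rec (f := fun i : ℕ => i) (g := fun _ : ℕ => 0) Computable.id
    (Computable.const 0) h4
  exact h5

/-- **the diagonal construction** -/
private theorem CmB_diag {O : Set (ℕ → ℕ)} (hO : O.Finite) (hc : ∀ f ∈ O, Computable f) :
    ∃ (a : ℝ) (f : ℕ → ℕ), Computable f ∧ 0 ≤ a ∧ a ≤ 1 ∧ IsPR {f} (a : ℂ) ∧ ¬ IsPR O (a : ℂ) := by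
  obtain ⟨u, hu, huO⟩ := exists_universal hO hc
  obtain ⟨n, hn⟩ : ∃ n, n = CmB_n u := ⟨_, rfl⟩
  obtain ⟨b, hbd⟩ : ∃ b : ℕ → ℕ, ∀ i, CmB_b i (n i) (CmB_x u i) = b i := ⟨_, fun _ => rfl⟩
  have hs : ∀ i, n (i + 1) = 4 * n i + 3 * b i := by
    intro i
    rw [← hbd, hn]
    exact CmB_n_succ u i
  have h0 : n 0 = 0 := by rw [hn]; rfl
  have hb1 : ∀ i, b i ≤ 1 := fun i => by
    rw [← hbd]
    exact Nat.sub_le _ _
  set α : ℕ → ℝ := fun i => (n i : ℝ) / 4 ^ i with hα
  have hmono : Monotone α := by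
    refine monotone_nat_of_le_succ fun i => ?_
    simp only [hα]
    have h4 : (0 : ℝ) < 4 ^ i := by positivity
    rw [pow_succ, div_le_div_iff₀ h4 (by positivity), hs]
    push_cast
    have h5 : (0 : ℝ) ≤ (b i : ℝ) := Nat.cast_nonneg _
    nlinarith
  have hanti : Antitone fun i => α i + 1 / 4 ^ i := by
    refine antitone_nat_of_succ_le fun i => ?_
    simp only [hα]
    have h4 : (0 : ℝ) < 4 ^ i := by positivity
    rw [pow_succ, ← add_div, ← add_div, div_le_div_iff₀ (by positivity) h4, hs]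
    push_cast
    have h5 : (b i : ℝ) ≤ 1 := by exact_mod_cast hb1 i
    nlinarith
  have hle : ∀ i j, α j ≤ α i + 1 / 4 ^ i := by
    intro i j
    have h4 : ∀ k : ℕ, (0 : ℝ) < 1 / 4 ^ k := fun k => by positivity
    rcases le_total j i with h | h
    · linarith [hmono h, h4 i]
    · have h5 := hanti h
      simp only at h5
      linarith [h4 j]
  have hbdd : BddAbove (Set.range α) := ⟨α 0 + 1 / 4 ^ 0, by
    rintro _ ⟨j, rfl⟩
    exact hle 0 j⟩
  obtain ⟨a, ha⟩ : ∃ a, a = ⨆ i, α i := ⟨_, rfl⟩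
  have ha1 : ∀ i, α i ≤ a := fun i => by rw [ha]; exact le_ciSup hbdd i
  have ha2 : ∀ i, a ≤ α i + 1 / 4 ^ i := fun i => by rw [ha]; exact ciSup_le (hle i)
  -- the codes
  obtain ⟨B, hB⟩ : ∃ B : ℕ → T, B = fun i => (n i, 0, 0, 0, 4 ^ i - 1) := ⟨_, rfl⟩
  have hBc : Computable B := by
    have h1 : Computable n := by rw [hn]; exact CmB_n_comp hu
    have h2 : Primrec fun q : ℕ × ℕ => ((q.1, 0, 0, 0, 4 ^ q.2 - 1) : T) :=
      Primrec.fst.pair ((Primrec.const 0).pair ((Primrec.const 0).pair ((Primrec.const 0).pair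
        (T.psub (CmB_pow.comp Primrec.snd) (Primrec.const 1)))))
    rw [hB]
    exact h2.to_comp.comp (Computable.pair h1 Computable.id)
  have hBv : ∀ i, val (B i) = ((α i : ℝ) : ℂ) := by
    intro i
    have h4 : 1 ≤ 4 ^ i := Nat.one_le_pow _ _ (by norm_num)
    rw [hB]
    simp only [val, hα]
    push_cast [Nat.cast_sub h4]
    ring
  refine ⟨a, fun i => encode (B i), Computable.encode.comp hBc, ?_, ?_, ?_, ?_⟩
  · have h1 := ha1 0
    simp only [hα, h0] at h1
    simpa using h1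
  · have h1 := ha2 0
    simp only [hα, h0] at h1
    simpa using h1
  · refine ⟨B, ⟨_, PRIn.oracle rfl, fun _ => rfl⟩, fun i => ?_⟩
    rw [hBv, ← Complex.ofReal_sub, Complex.norm_real, Real.norm_eq_abs,
      abs_of_nonneg (sub_nonneg.2 (ha1 i))]
    have h1 : (i : ℝ) + 1 ≤ 4 ^ i := by
      have h2 : i < 4 ^ i := Nat.lt_pow_self (by norm_num)
      exact_mod_cast h2
    have h2 : (1 : ℝ) / 4 ^ i ≤ 1 / ((i : ℝ) + 1) :=
      one_div_le_one_div_of_le (by positivity) h1
    linarith [ha2 i]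
  · rintro ⟨A, ⟨f, hf, hfA⟩, hA⟩
    obtain ⟨e, he⟩ := huO f hf
    have hx : CmB_x u e = A (16 * 4 ^ e) := by
      rw [CmB_x, he]
      have h1 := hfA (16 * 4 ^ e)
      rw [encode_nat] at h1
      rw [h1, encodek]
      rfl
    have h1 := hA (16 * 4 ^ e)
    rw [← hx] at h1
    have h2 : |a - (val (CmB_x u e)).re| ≤ 1 / (16 * 4 ^ e) := by
      have h3 := Complex.abs_re_le_norm ((a : ℂ) - val (CmB_x u e))
      rw [Complex.sub_re, Complex.ofReal_re] at h3
      refine h3.trans (h1.trans ?_)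
      push_cast
      exact one_div_le_one_div_of_le (by positivity) (by linarith)
    rw [abs_le] at h2
    have h4 : (0 : ℝ) < 1 / 4 ^ e := by positivity
    have e16 : (1 : ℝ) / (16 * 4 ^ e) = (1 / 4 ^ e) / 16 := by ring
    rw [e16] at h2
    have ea : α e = n e * (1 / 4 ^ e) := by
      simp only [hα]
      ring
    have hse := hs e
    have e1 : α (e + 1) = α e + 3 / 4 * (b e : ℝ) * (1 / 4 ^ e) := by
      simp only [hα]
      rw [hse, pow_succ]
      push_cast
      field_simp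
    have e2 : (1 : ℝ) / 4 ^ (e + 1) = (1 / 4 ^ e) / 4 := by
      rw [pow_succ]
      ring
    have e3 : ((n e : ℝ) + 1 / 2) / 4 ^ e = α e + (1 / 4 ^ e) / 2 := by
      simp only [hα]
      ring
    have hbe := hbd e
    rcases CmB_b_spec e (n e) (CmB_x u e) with ⟨hb, hw⟩ | ⟨hb, hw⟩
    · rw [hbe] at hb
      rw [hb, Nat.cast_one] at e1
      rw [e3] at hw
      have h5 := ha1 (e + 1)
      linarith [h2.1, h2.2]
    · rw [hbe] at hb
      rw [hb, Nat.cast_zero] at e1
      rw [e3] at hw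
      have h5 := ha2 (e + 1)
      rw [e2] at h5
      linarith [h2.1, h2.2]

theorem exists_comp_notMem {O : Set (ℕ → ℕ)} (hO : O.Finite) (hc : ∀ f ∈ O, Computable f) (z : ℂ)
    {ε : ℝ} (hε : 0 < ε) : ∃ (t : ℂ) (f : ℕ → ℕ), Computable f ∧ IsPR {f} t ∧ ‖t - z‖ < ε ∧
      ¬ IsPR O t := by
  obtain ⟨a, f, hf, ha0, ha1, haf, haO⟩ := CmB_diag hO hc
  obtain ⟨x, hx⟩ := T.exists_val_near z (half_pos hε)
  obtain ⟨N, hN⟩ := exists_nat_gt (2 / ε)
  have hN1 : (0 : ℝ) < (N : ℝ) + 1 := by positivity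
  have hNc : ((N : ℂ) + 1) ≠ 0 := T.den_ne N
  have hNm : ∀ O' : Set (ℕ → ℕ), ((N : ℂ) + 1) ∈ EF O' := fun O' => by
    have h1 := natCast_mem (EF O') (N + 1)
    push_cast at h1
    exact h1
  refine ⟨val x + a / ((N : ℂ) + 1), f, hf, ?_, ?_, ?_⟩
  · rw [← mem_EF]
    exact add_mem (isPR_val x) (div_mem (mem_EF.2 haf) (hNm _))
  · have h1 : ‖(a : ℂ) / ((N : ℂ) + 1)‖ ≤ 1 / ((N : ℝ) + 1) := by
      have h2 : ((N : ℂ) + 1) = (((N : ℝ) + 1 : ℝ) : ℂ) := by push_cast; ring
      rw [h2, norm_div, Complex.norm_real, Complex.norm_real, Real.norm_eq_abs, Real.norm_eq_abs,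
        abs_of_nonneg ha0, abs_of_pos hN1]
      exact div_le_div_of_nonneg_right ha1 hN1.le
    have h2 : 1 / ((N : ℝ) + 1) < ε / 2 := by
      rw [div_lt_div_iff₀ hN1 two_pos]
      rw [div_lt_iff₀ hε] at hN
      nlinarith
    have h3 : val x + a / ((N : ℂ) + 1) - z = (val x - z) + a / ((N : ℂ) + 1) := by ring
    rw [h3]
    refine (norm_add_le _ _).trans_lt ?_
    linarith
  · intro h
    apply haO
    rw [← mem_EF] at h ⊢
    have h1 : (a : ℂ) = (val x + a / ((N : ℂ) + 1) - val x) * ((N : ℂ) + 1) := by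
      field_simp
      ring
    rw [h1]
    exact mul_mem (sub_mem h (isPR_val x)) (hNm _)

/-- near every point of `ℂ^r` there is a computable point with independent coordinates -/
theorem exists_chain {r : ℕ} (t : Fin r → ℂ) {ε : ℝ} (hε : 0 < ε) :
    ∃ (t' : Fin r → ℂ) (O : Set (ℕ → ℕ)), O.Finite ∧ (∀ f ∈ O, Computable f) ∧
      (∀ i, IsPR O (t' i)) ∧ (∀ i, ‖t' i - t i‖ < ε) ∧
      ∀ i, ∃ O' : Set (ℕ → ℕ), (∀ j < i, IsPR O' (t' j)) ∧ ¬ IsPR O' (t' i) := by
  induction r with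
  | zero =>
    exact ⟨fun i => i.elim0, ∅, Set.finite_empty, fun f hf => absurd hf (Set.notMem_empty f),
      fun i => i.elim0, fun i => i.elim0, fun i => i.elim0⟩
  | succ r ih =>
    obtain ⟨t', O, hO, hc, h1, h2, h3⟩ := ih fun i => t i.castSucc
    obtain ⟨w, f, hf, hw1, hw2, hw3⟩ := exists_comp_notMem hO hc (t (Fin.last r)) hε
    refine ⟨Fin.snoc t' w, insert f O, hO.insert f, ?_, ?_, ?_, ?_⟩
    · rintro g (rfl | hg)
      · exact hf
      · exact hc g hg
    · intro i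
      refine Fin.lastCases ?_ (fun i => ?_) i
      · rw [Fin.snoc_last]
        exact hw1.mono (Set.singleton_subset_iff.2 (Set.mem_insert f O))
      · rw [Fin.snoc_castSucc]
        exact (h1 i).mono (Set.subset_insert f O)
    · intro i
      refine Fin.lastCases ?_ (fun i => ?_) i
      · rw [Fin.snoc_last]
        exact hw2
      · rw [Fin.snoc_castSucc]
        exact h2 i
    · intro i
      refine Fin.lastCases ?_ (fun i => ?_) i
      · refine ⟨O, fun j hj => ?_, ?_⟩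
        · obtain ⟨k, rfl⟩ := Fin.exists_castSucc_eq.2 hj.ne
          rw [Fin.snoc_castSucc]
          exact h1 k
        · rw [Fin.snoc_last]
          exact hw3
      · obtain ⟨O', h4, h5⟩ := h3 i
        refine ⟨O', fun j hj => ?_, ?_⟩
        · have hj' : j ≠ Fin.last r := by
            rintro rfl
            exact absurd hj (not_lt.2 (Fin.le_last _))
          obtain ⟨k, rfl⟩ := Fin.exists_castSucc_eq.2 hj'
          rw [Fin.snoc_castSucc]
          exact h4 k (Fin.castSucc_lt_castSucc_iff.1 hj)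
        · rw [Fin.snoc_castSucc]
          exact h5

end Pool.Agent.AHE
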