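import Mathlib
import Pool.Agent.AHU.Gluer
import Pool.Agent.AHR.Two2
import Pool.Agent.AHT.Defs

/-!
# Generation of `Aut (ℂ / cl S₀)` by automorphisms moving one element

This is `AHU.generate` (file `AHU/Gen.lean`) relative to a finite set `S₀`, with the same proof.
-/

namespace Pool.Agent.AHE

open Pool.Agent.AHC Pool.Agent.AHR Pool.Agent.AHT Pool.Agent.AHU

/-- a subfamily of an independent set is a sequence independent over the rest -/
private theorem RGen_seqInd_of_indOver {X B Y : Set ℂ} (hB : IndOver X B) {n : ℕ} {f : Fin n → ℂ}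
    (hf : Function.Injective f) (hfB : ∀ i, f i ∈ B) (hY : Y ⊆ X ∪ (B \ Set.range f)) :
    SeqInd Y f := by
  intro i hi
  refine hB (f i) (hfB i) (cl_mono ?_ hi)
  rintro z (hz | ⟨j, hj, rfl⟩)
  · rcases hY hz with h | h
    · exact Or.inl h
    · exact Or.inr ⟨h.1, fun h2 => h.2 ⟨i, h2.symm⟩⟩
  · refine Or.inr ⟨hfB j, fun h2 => ?_⟩
    exact (ne_of_lt hj) (hf h2)

private theorem RGen_seqInd_cons {X : Set ℂ} {a : ℂ} {n : ℕ} {u : Fin n → ℂ} (ha : a ∉ cl X)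
    (hu : SeqInd (insert a X) u) : SeqInd X (Fin.cons a u : Fin (n + 1) → ℂ) := by
  intro i
  refine Fin.cases ?_ (fun k => ?_) i
  · intro h
    refine ha (cl_mono ?_ h)
    rintro z (hz | ⟨j, hj, -⟩)
    · exact hz
    · exact absurd hj (Fin.not_lt_zero j)
  · intro h
    rw [Fin.cons_succ] at h
    refine hu k (cl_mono ?_ h)
    rintro z (hz | ⟨j, hj, rfl⟩)
    · exact Or.inl (Or.inr hz)
    · revert hj
      refine Fin.cases ?_ (fun l => ?_) j
      · intro _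
        rw [Fin.cons_zero]
        exact Or.inl (Or.inl rfl)
      · intro hj
        rw [Fin.cons_succ]
        exact Or.inr ⟨l, Fin.succ_lt_succ_iff.1 hj, rfl⟩

/-- general position -/
private theorem RGen_position {S F : Set ℂ} {a b : ℂ} (hF : F.Countable) (hSF : S ⊆ F)
    (haF : a ∈ F) (hbF : b ∈ F) (hab : a ∉ cl (insert b S)) {A : Set ℂ} (hA : A.Finite) :
    ∃ (α β : ℂ ≃+* ℂ) (m : ℕ) (w : Fin m → ℂ), (∀ z ∈ cl (insert a S), α z = z) ∧
      (∀ z ∈ cl (insert b S), β z = z) ∧ SeqInd (insert a S) w ∧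
      (fun z => β (α z)) '' A ⊆ cl (S ∪ Set.range w) := by
  obtain ⟨n, c, hc1, -, hc3⟩ := exists_basis (insert a S) hA
  obtain ⟨u, hu⟩ := exists_seqInd hF n
  have haS : insert a S ⊆ F := Set.insert_subset haF hSF
  have hbS : insert b S ⊆ F := Set.insert_subset hbF hSF
  obtain ⟨α, hα1, hα2⟩ := exists_move_seq c u hc1 (hu.mono haS)
  obtain ⟨w, hw⟩ := exists_seqInd hF (n + 1)
  have h1 : SeqInd (insert b S) (Fin.cons a u : Fin (n + 1) → ℂ) :=
    RGen_seqInd_cons hab (hu.mono (Set.insert_subset haF hbS))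
  obtain ⟨β, hβ1, hβ2⟩ := exists_move_seq _ w h1 (hw.mono hbS)
  refine ⟨α, β, n + 1, w, hα1, hβ1, hw.mono haS, ?_⟩
  have h2 : (fun z => β (α z)) '' A = β '' (α '' A) := by
    rw [← Set.image_comp]
    rfl
  have h3 : α '' A ⊆ cl (insert a S ∪ Set.range u) := by
    rw [← image_cl_fix α (fun z hz => hα1 z (subset_cl _ hz)) hα2]
    exact Set.image_mono hc3
  have h4 : insert a S ∪ Set.range u ⊆ S ∪ Set.range (Fin.cons a u : Fin (n + 1) → ℂ) := by
    rw [Fin.range_cons]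
    rintro z ((hz | hz) | hz)
    · exact Or.inr (Or.inl hz)
    · exact Or.inl hz
    · exact Or.inr (Or.inr hz)
  rw [h2, ← image_cl_fix β (fun z hz => hβ1 z (subset_cl _ (Or.inr hz))) hβ2]
  exact Set.image_mono (h3.trans (cl_mono h4))

private theorem RGen_aux {S₀ : Finset ℂ} {H : Set (ℂ ≃+* ℂ)} (hmul : ∀ σ ∈ H, ∀ τ ∈ H, σ.trans τ ∈ H)
    (hinv : ∀ σ ∈ H, σ.symm ∈ H) {X : Finset ℂ}
    (hX : ∀ σ ∈ Fx (S₀ : Set ℂ), (∀ x ∈ X, σ x = x) → σ ∈ H)
    (h1 : ∀ (S : Finset ℂ), S₀ ⊆ S → ∀ (x : ℂ), (X : Set ℂ) ⊆ cl (insert x (S : Set ℂ)) →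
      ∀ σ : ℂ ≃+* ℂ, (∀ z ∈ cl (S : Set ℂ), σ z = z) → σ ∈ H) :
    ∀ (j : ℕ) (S : Finset ℂ), S₀ ⊆ S → ∀ (t : Fin j → ℂ), SeqInd (S : Set ℂ) t →
      (X : Set ℂ) ⊆ cl ((S : Set ℂ) ∪ Set.range t) →
      ∀ σ : ℂ ≃+* ℂ, (∀ z ∈ cl (S : Set ℂ), σ z = z) → σ ∈ H
  | 0, S, hS0, t, _, hXt, σ, hσ => by
    refine hX σ (fun z hz => hσ z (cl_mono (Finset.coe_subset.2 hS0) hz)) fun x hx => hσ x ?_
    have := hXt (Finset.mem_coe.2 hx)
    rwa [Set.range_eq_empty, Set.union_empty] at this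
  | 1, S, hS0, t, _, hXt, σ, hσ => by
    refine h1 S hS0 (t 0) (hXt.trans (cl_mono ?_)) σ hσ
    rintro z (hz | ⟨i, rfl⟩)
    · exact Or.inr hz
    · rw [Subsingleton.elim i 0]
      exact Or.inl rfl
  | j + 2, S, hS0, t, ht, hXt, σ, hσ => by
    classical
    have hinj := ht.injective
    have hind := ht.indOver
    -- automorphisms which fix `cl (insert (t p) S)`
    have hp : ∀ p : Fin (j + 2), ∀ τ : ℂ ≃+* ℂ, (∀ z ∈ cl (insert (t p) (S : Set ℂ)), τ z = z) →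
        τ ∈ H := by
      intro p τ hτ
      have e : ((insert (t p) S : Finset ℂ) : Set ℂ) = insert (t p) (S : Set ℂ) :=
        Finset.coe_insert _ _
      refine RGen_aux hmul hinv hX h1 (j + 1) (insert (t p) S)
        (hS0.trans (Finset.subset_insert _ _)) (fun k => t (p.succAbove k)) ?_ ?_ τ
        (by rw [e]; exact hτ)
      · rw [e]
        refine RGen_seqInd_of_indOver hind (fun k l h => Fin.succAbove_right_injective (hinj h))
          (fun k => ⟨_, rfl⟩) ?_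
        rintro z (rfl | hz)
        · refine Or.inr ⟨⟨p, rfl⟩, ?_⟩
          rintro ⟨k, hk⟩
          exact Fin.succAbove_ne p k (hinj hk)
        · exact Or.inl hz
      · rw [e]
        refine hXt.trans (cl_mono ?_)
        rintro z (hz | ⟨i, rfl⟩)
        · exact Or.inl (Or.inr hz)
        · by_cases hi : i = p
          · subst hi
            exact Or.inl (Or.inl rfl)
          · obtain ⟨k, rfl⟩ := Fin.exists_succAbove_eq hi
            exact Or.inr ⟨k, rfl⟩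
    have hab : t 0 ∉ cl (insert (t 1) (S : Set ℂ)) := by
      intro h
      refine hind (t 0) ⟨0, rfl⟩ (cl_mono ?_ h)
      rintro z (rfl | hz)
      · refine Or.inr ⟨⟨1, rfl⟩, fun h2 => ?_⟩
        have h3 : (1 : Fin (j + 2)) = 0 := hinj h2
        exact absurd h3 (by simp)
      · exact Or.inl hz
    have hF : ((S : Set ℂ) ∪ Set.range t).Countable :=
      (S.finite_toSet.union (Set.finite_range t)).countable
    obtain ⟨α, β, m, w, ha1, hb1, hw1, hw2⟩ := RGen_position hF Set.subset_union_left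
      (Or.inr ⟨0, rfl⟩) (Or.inr ⟨1, rfl⟩) hab X.finite_toSet
    obtain ⟨α', β', m', w', ha1', hb1', hw1', hw2'⟩ := RGen_position hF Set.subset_union_left
      (Or.inr ⟨0, rfl⟩) (Or.inr ⟨1, rfl⟩) hab (X.finite_toSet.image σ)
    let h : ℂ ≃+* ℂ := α.trans β
    let h' : ℂ ≃+* ℂ := α'.trans β'
    let ψ : ℂ ≃+* ℂ := (h.symm.trans σ).trans h'
    have e1 : ∀ z ∈ cl (S : Set ℂ), h z = z := by
      intro z hz
      change β (α z) = z
      rw [ha1 z (cl_mono (Set.subset_insert _ _) hz), hb1 z (cl_mono (Set.subset_insert _ _) hz)]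
    have e2 : ∀ z ∈ cl (S : Set ℂ), h' z = z := by
      intro z hz
      change β' (α' z) = z
      rw [ha1' z (cl_mono (Set.subset_insert _ _) hz), hb1' z (cl_mono (Set.subset_insert _ _) hz)]
    have hψ : ∀ z ∈ cl (S : Set ℂ), ψ z = z := by
      intro z hz
      change h' (σ (h.symm z)) = z
      have e3 : h.symm z = z := by rw [RingEquiv.symm_apply_eq, e1 z hz]
      rw [e3, hσ z hz, e2 z hz]
    have hψh : ∀ a, ψ (h a) = h' (σ a) := by
      intro a
      change h' (σ (h.symm (h a))) = h' (σ a)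
      rw [RingEquiv.symm_apply_apply]
    obtain ⟨γ, hγ1, hγ2⟩ := glue_rel (Set.subset_insert (t 0) (S : Set ℂ)) hw1.indOver hw1'.indOver
      ψ hψ (X.finite_toSet.image h) hw2 (by
        have : ψ '' (h '' (X : Set ℂ)) = (fun z => β' (α' z)) '' (σ '' (X : Set ℂ)) := by
          rw [← Set.image_comp, ← Set.image_comp]
          exact Set.image_congr fun a _ => hψh a
        rw [this]
        exact hw2')
    let τ : ℂ ≃+* ℂ := (((α.trans β).trans γ).trans β'.symm).trans α'.symm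
    have hτ : τ ∈ H := hmul _ (hmul _ (hmul _ (hmul _ (hp 0 α ha1) _ (hp 1 β hb1)) _ (hp 0 γ hγ1)) _
      (hinv _ (hp 1 β' hb1'))) _ (hinv _ (hp 0 α' ha1'))
    have hτx : ∀ x ∈ X, τ x = σ x := by
      intro x hx
      change α'.symm (β'.symm (γ (β (α x)))) = σ x
      rw [RingEquiv.symm_apply_eq, RingEquiv.symm_apply_eq]
      exact (hγ2 (h x) ⟨x, Finset.mem_coe.2 hx, rfl⟩).trans (hψh x)
    have hτS : ∀ z ∈ cl (S : Set ℂ), τ z = z := by
      intro z hz
      change α'.symm (β'.symm (γ (β (α z)))) = z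
      have e4 : β (α z) = z := e1 z hz
      rw [e4, hγ1 z (cl_mono (Set.subset_insert _ _) hz), RingEquiv.symm_apply_eq,
        RingEquiv.symm_apply_eq]
      exact (e2 z hz).symm
    have h5 : σ.trans τ.symm ∈ H := hX _ (fun z hz => by
      have hz' : z ∈ cl (S : Set ℂ) := cl_mono (Finset.coe_subset.2 hS0) hz
      rw [RingEquiv.trans_apply, hσ z hz', RingEquiv.symm_apply_eq, hτS z hz']) fun x hx => by
      rw [RingEquiv.trans_apply, RingEquiv.symm_apply_eq, hτx x hx]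
    have h6 : (σ.trans τ.symm).trans τ = σ :=
      RingEquiv.ext fun z => τ.apply_symm_apply (σ z)
    exact h6 ▸ hmul _ h5 _ hτ

theorem generate_rel {S₀ : Finset ℂ} {H : Set (ℂ ≃+* ℂ)} (hmul : ∀ σ ∈ H, ∀ τ ∈ H, σ.trans τ ∈ H)
    (hinv : ∀ σ ∈ H, σ.symm ∈ H) {X : Finset ℂ}
    (hX : ∀ σ ∈ Fx (S₀ : Set ℂ), (∀ x ∈ X, σ x = x) → σ ∈ H)
    (h1 : ∀ (S : Finset ℂ), S₀ ⊆ S → ∀ (x : ℂ), (X : Set ℂ) ⊆ cl (insert x (S : Set ℂ)) →
      ∀ σ : ℂ ≃+* ℂ, (∀ z ∈ cl (S : Set ℂ), σ z = z) → σ ∈ H)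
    {σ : ℂ ≃+* ℂ} (hσ : σ ∈ Fx (S₀ : Set ℂ)) : σ ∈ H := by
  obtain ⟨n, t, ht1, -, ht3⟩ := exists_basis (S₀ : Set ℂ) X.finite_toSet
  exact RGen_aux hmul hinv hX h1 n S₀ (Finset.Subset.refl _) t ht1 ht3 σ hσ

end Pool.Agent.AHE
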