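import Mathlib
import Pool.Agent.AHU.OneVar
import Pool.Agent.AHU.Prim
import Pool.Agent.AHU.Real
import Pool.Agent.AHT.Defs

/-!
# A locally constant property of the automorphisms over `cl S₀` does not change when one element
# is moved

This is `AHU.one_step` (file `AHU/Step.lean`) relative to a set `S₀`; the proof is the same: all the
automorphisms which occur agree with `β` on `cl S ⊇ cl S₀`.
-/

namespace Pool.Agent.AHE

open Pool.Agent.AHC Pool.Agent.AHT Pool.Agent.AHU Polynomial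

private noncomputable def RStep_f (β : ℂ ≃+* ℂ) (S : Set ℂ) : clF S →+* ℂ :=
  (β : ℂ →+* ℂ).comp (algebraMap (clF S) ℂ)

private theorem RStep_f_apply (β : ℂ ≃+* ℂ) (S : Set ℂ) (z : clF S) : RStep_f β S z = β z := rfl

private noncomputable def RStep_sp (β : ℂ ≃+* ℂ) {S : Set ℂ} (P : (clF S)[X][X]) (s : ℂ) : ℂ[X] :=
  P.map (eval₂RingHom (RStep_f β S) s)

private theorem RStep_spec (β : ℂ ≃+* ℂ) {S : Set ℂ} (P : (clF S)[X][X]) (s : ℂ) :
    spec (mvP β P) s = RStep_sp β P s := by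
  unfold spec mvP RStep_sp
  rw [Polynomial.map_map]
  congr 1
  ext z
  · simp [RStep_f_apply, ← mvK_apply]
  · simp

private theorem RStep_hom {β β' : ℂ ≃+* ℂ} {S : Set ℂ} (h : ∀ z ∈ cl S, β' z = β z) (x : ℂ) :
    (β' : ℂ →+* ℂ).comp (eval₂RingHom (algebraMap (clF S) ℂ) x) =
      eval₂RingHom (RStep_f β S) (β' x) := by
  ext z
  · simp only [RingHom.comp_apply, coe_eval₂RingHom, eval₂_C, RStep_f_apply]
    exact h z z.2
  · simp

private theorem RStep_one {β β' : ℂ ≃+* ℂ} {S : Set ℂ} (h : ∀ z ∈ cl S, β' z = β z) (D : (clF S)[X]) (x : ℂ) :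
    β' (D.eval₂ (algebraMap (clF S) ℂ) x) = D.eval₂ (RStep_f β S) (β' x) :=
  congrArg (fun f => f D) (RStep_hom h x)

private theorem RStep_two {β β' : ℂ ≃+* ℂ} {S : Set ℂ} (h : ∀ z ∈ cl S, β' z = β z) (P : (clF S)[X][X])
    (x y : ℂ) : β' ((spec P x).eval y) = (RStep_sp β P (β' x)).eval (β' y) := by
  unfold spec RStep_sp
  rw [eval_map, eval_map, ← RStep_hom h x]
  exact hom_eval₂ P _ (β' : ℂ →+* ℂ) y

private theorem RStep_contD {S : Set ℂ} (f : clF S →+* ℂ) (D : (clF S)[X]) :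
    Continuous fun s : ℂ => D.eval₂ f s := by
  have : (fun s : ℂ => D.eval₂ f s) = fun s => (D.map f).eval s := by
    funext s
    rw [eval_map]
  rw [this]
  exact (D.map f).continuous

private theorem RStep_contR (β : ℂ ≃+* ℂ) {S : Set ℂ} (P : (clF S)[X][X]) :
    Continuous fun p : ℂ × ℂ => (RStep_sp β P p.1).eval p.2 := by
  have : (fun p : ℂ × ℂ => (RStep_sp β P p.1).eval p.2) =
      fun p => ∑ n ∈ P.support, (P.coeff n).eval₂ (RStep_f β S) p.1 * p.2 ^ n := by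
    funext p
    unfold RStep_sp
    rw [eval_map, eval₂_eq_sum, Polynomial.sum]
    rfl
  rw [this]
  refine continuous_finsetSum _ fun n _ => ?_
  exact ((RStep_contD (RStep_f β S) (P.coeff n)).comp continuous_fst).mul (continuous_snd.pow n)

private theorem RStep_img {β β' : ℂ ≃+* ℂ} {S : Set ℂ} (h : ∀ z ∈ cl S, β' z = β z) : β' '' S = β '' S :=
  Set.image_congr fun z hz => h z (subset_cl S hz)

private theorem RStep_notMem {β β' : ℂ ≃+* ℂ} {S : Set ℂ} (h : ∀ z ∈ cl S, β' z = β z) {x : ℂ}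
    (hx : x ∉ cl S) : β' x ∉ cl (β '' S) := by
  rw [← RStep_img h, ← image_cl]
  rintro ⟨z, hz, hzx⟩
  exact hx (β'.injective hzx ▸ hz)

theorem one_step_rel {S₀ : Set ℂ} {X : Finset ℂ} {st : (ℂ ≃+* ℂ) → Prop}
    (hdep : ∀ β ∈ Fx S₀, ∀ β' ∈ Fx S₀, (∀ x ∈ X, β x = β' x) → (st β ↔ st β'))
    (hloc : ∀ β₀ ∈ Fx S₀, ∃ ε > 0, ∀ β ∈ Fx S₀, (∀ x ∈ X, ‖β x - β₀ x‖ < ε) → (st β ↔ st β₀))
    (S : Finset ℂ) (hS : S₀ ⊆ (S : Set ℂ)) (x : ℂ)
    (hX : (X : Set ℂ) ⊆ cl (insert x (S : Set ℂ))) {g : ℂ ≃+* ℂ}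
    (hg : ∀ z ∈ cl (S : Set ℂ), g z = z) {β : ℂ ≃+* ℂ} (hβ₀ : β ∈ Fx S₀) :
    st (g.trans β) ↔ st β := by
  have h0 : cl S₀ ⊆ cl (S : Set ℂ) := cl_mono hS
  have hFx : ∀ β' : ℂ ≃+* ℂ, (∀ z ∈ cl (S : Set ℂ), β' z = β z) → β' ∈ Fx S₀ := by
    intro β' h' z hz
    rw [h' z (h0 hz), hβ₀ z hz]
  have hgβ : ∀ z ∈ cl (S : Set ℂ), (g.trans β) z = β z := fun z hz => congrArg β (hg z hz)
  by_cases hx : x ∈ cl (S : Set ℂ)
  · have h1 : (X : Set ℂ) ⊆ cl (S : Set ℂ) :=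
      hX.trans (cl_subset_iff.mpr (Set.insert_subset hx (subset_cl _)))
    refine hdep _ (hFx _ hgβ) _ hβ₀ fun z hz => ?_
    exact congrArg β (hg z (h1 hz))
  obtain ⟨M, y, D, R, hM, hirr, hxy, hD, hR⟩ := exists_prim hx hX
  have hDx : D.eval₂ (algebraMap (clF (S : Set ℂ)) ℂ) x ≠ 0 := fun h => hx (mem_cl_of_eval₂ hD h)
  -- the values of an automorphism on `X`
  have hval : ∀ β' : ℂ ≃+* ℂ, (∀ z ∈ cl (S : Set ℂ), β' z = β z) →
      D.eval₂ (RStep_f β S) (β' x) ≠ 0 ∧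
      ∀ z ∈ X, β' z = (RStep_sp β (R z) (β' x)).eval (β' y) / D.eval₂ (RStep_f β S) (β' x) := by
    intro β' h'
    have h1 : D.eval₂ (RStep_f β S) (β' x) ≠ 0 := by
      rw [← RStep_one h']
      exact fun h => hDx (by simpa using h)
    refine ⟨h1, fun z hz => ?_⟩
    rw [eq_div_iff h1, ← RStep_two h' (R z) x y, ← hR z hz, map_mul, RStep_one h', mul_comm]
  set A : Set (ℂ × ℂ) := {p | ∃ β' : ℂ ≃+* ℂ, (∀ z ∈ cl (S : Set ℂ), β' z = β z) ∧ β' x = p.1 ∧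
    β' y = p.2 ∧ st β'} with hAdef
  have memA : ∀ β' : ℂ ≃+* ℂ, (∀ z ∈ cl (S : Set ℂ), β' z = β z) → ((β' x, β' y) ∈ A ↔ st β') := by
    intro β' h'
    constructor
    · rintro ⟨β₂, h₂, hx₂, hy₂, hst⟩
      refine (hdep β₂ (hFx _ h₂) β' (hFx _ h') (fun z hz => ?_)).mp hst
      rw [(hval β₂ h₂).2 z hz, (hval β' h').2 z hz, hx₂, hy₂]
    · exact fun hst => ⟨β', h', rfl, rfl, hst⟩
  have hA : LocConst (mvP β M) A := by
    intro s hs η hη
    obtain ⟨β₁, h₁, hx₁, hy₁⟩ := exists_real hx hM hirr hxy β hs hη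
    obtain ⟨ε, hε, hl⟩ := hloc β₁ (hFx _ h₁)
    have hc : ∀ᶠ p in nhds (s, η), ∀ z ∈ X, ‖(RStep_sp β (R z) p.1).eval p.2 / D.eval₂ (RStep_f β S) p.1 -
        β₁ z‖ < ε := by
      rw [Finset.eventually_all]
      intro z hz
      have h2 : ContinuousAt (fun p : ℂ × ℂ => (RStep_sp β (R z) p.1).eval p.2 / D.eval₂ (RStep_f β S) p.1 -
          β₁ z) (s, η) := by
        refine ContinuousAt.sub (ContinuousAt.div (RStep_contR β (R z)).continuousAt
          ((RStep_contD (RStep_f β S) D).comp continuous_fst).continuousAt ?_) continuousAt_const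
        have h3 := (hval β₁ h₁).1
        rw [hx₁] at h3
        exact h3
      have h3 : (RStep_sp β (R z) s).eval η / D.eval₂ (RStep_f β S) s - β₁ z = 0 := by
        rw [(hval β₁ h₁).2 z hz, hx₁, hy₁, sub_self]
      have h4 : ‖(RStep_sp β (R z) s).eval η / D.eval₂ (RStep_f β S) s - β₁ z‖ < ε := by
        rw [h3, norm_zero]
        exact hε
      exact h2.norm.eventually (eventually_lt_nhds h4)
    obtain ⟨δ, hδ, hb⟩ := Metric.eventually_nhds_iff_ball.mp hc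
    refine ⟨δ, hδ, fun s' hs' η' hη' hss hηη => ?_⟩
    obtain ⟨β₂, h₂, hx₂, hy₂⟩ := exists_real hx hM hirr hxy β hs' hη'
    have h5 : (s', η') ∈ Metric.ball (s, η) δ := by
      rw [← ball_prod_same]
      exact ⟨by rwa [Metric.mem_ball, dist_eq_norm], by rwa [Metric.mem_ball, dist_eq_norm]⟩
    have h6 := hb _ h5
    have h7 : st β₂ ↔ st β₁ := by
      refine hl β₂ (hFx _ h₂) (fun z hz => ?_)
      rw [(hval β₂ h₂).2 z hz, hx₂, hy₂]
      exact h6 z hz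
    have h8 := memA β₂ h₂
    have h9 := memA β₁ h₁
    rw [hx₂, hy₂] at h8
    rw [hx₁, hy₁] at h9
    rw [h8, h9, h7]
  have hroot : ∀ β' : ℂ ≃+* ℂ, (∀ z ∈ cl (S : Set ℂ), β' z = β z) →
      (spec (mvP β M) (β' x)).eval (β' y) = 0 := by
    intro β' h'
    rw [RStep_spec, ← RStep_two h', hxy, map_zero]
  have hβ : ∀ z ∈ cl (S : Set ℂ), β z = β z := fun _ _ => rfl
  have hT : (β '' (S : Set ℂ)).Countable := (S.countable_toSet).image _
  have := oneVar hT (mvP_monic β hM) (mvP_irreducible β hirr) hA (RStep_notMem hgβ hx) (hroot _ hgβ)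
    (RStep_notMem hβ hx) (hroot _ hβ)
  rw [memA _ hgβ, memA _ hβ] at this
  exact this

end Pool.Agent.AHE
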