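import Mathlib
import Pool.Agent.AHE.RStep
import Pool.Agent.AHE.RGen

/-!
# Connectedness relative to a finite set

Proof.  As `AHU.connected`: let `H` be the set of all `g ∈ Fx S₀` with `st (g.trans β) ↔ st β` for all
`β ∈ Fx S₀`.
-/

namespace Pool.Agent.AHE

open Pool.Agent.AHC Pool.Agent.AHR Pool.Agent.AHT Pool.Agent.AHU

theorem connected_rel {S₀ : Finset ℂ} {X : Finset ℂ} {st : (ℂ ≃+* ℂ) → Prop}
    (hdep : ∀ β ∈ Fx (S₀ : Set ℂ), ∀ β' ∈ Fx (S₀ : Set ℂ), (∀ x ∈ X, β x = β' x) → (st β ↔ st β'))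
    (hloc : ∀ β₀ ∈ Fx (S₀ : Set ℂ), ∃ ε > 0, ∀ β ∈ Fx (S₀ : Set ℂ),
      (∀ x ∈ X, ‖β x - β₀ x‖ < ε) → (st β ↔ st β₀))
    (h : st (RingEquiv.refl ℂ)) {σ : ℂ ≃+* ℂ} (hσ : σ ∈ Fx (S₀ : Set ℂ)) : st σ := by
  let H : Set (ℂ ≃+* ℂ) := {g | g ∈ Fx (S₀ : Set ℂ) ∧
    ∀ β ∈ Fx (S₀ : Set ℂ), (st (g.trans β) ↔ st β)}
  have hmul : ∀ σ ∈ H, ∀ τ ∈ H, σ.trans τ ∈ H := by
    intro σ hσ τ hτ
    refine ⟨Fx_trans hσ.1 hτ.1, fun β hβ => ?_⟩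
    have h1 : (σ.trans τ).trans β = σ.trans (τ.trans β) := by
      ext z
      rfl
    rw [h1, hσ.2 _ (Fx_trans hτ.1 hβ), hτ.2 _ hβ]
  have hinv : ∀ σ ∈ H, σ.symm ∈ H := by
    intro σ hσ
    refine ⟨Fx_symm hσ.1, fun β hβ => ?_⟩
    have h1 : σ.trans (σ.symm.trans β) = β := by
      ext z
      simp
    have h2 := hσ.2 (σ.symm.trans β) (Fx_trans (Fx_symm hσ.1) hβ)
    rw [h1] at h2
    exact h2.symm
  have hX : ∀ σ ∈ Fx (S₀ : Set ℂ), (∀ x ∈ X, σ x = x) → σ ∈ H := by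
    intro σ hσ hσX
    refine ⟨hσ, fun β hβ => hdep _ (Fx_trans hσ hβ) _ hβ fun x hx => ?_⟩
    rw [RingEquiv.trans_apply, hσX x hx]
  have h1 : ∀ (S : Finset ℂ), S₀ ⊆ S → ∀ (x : ℂ), (X : Set ℂ) ⊆ cl (insert x (S : Set ℂ)) →
      ∀ σ : ℂ ≃+* ℂ, (∀ z ∈ cl (S : Set ℂ), σ z = z) → σ ∈ H := by
    intro S hS x hXS σ hσ
    refine ⟨fun z hz => hσ z (cl_mono (Finset.coe_subset.2 hS) hz), fun β hβ => ?_⟩
    exact one_step_rel hdep hloc S (Finset.coe_subset.2 hS) x hXS hσ hβ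
  have h2 := (generate_rel hmul hinv hX h1 hσ).2 (RingEquiv.refl ℂ) (refl_mem_Fx _)
  have h3 : σ.trans (RingEquiv.refl ℂ) = σ := by
    ext z
    rfl
  rw [h3] at h2
  exact h2.2 h

end Pool.Agent.AHE
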