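import Mathlib
import Pool.Agent.AHE.CaSim
import Pool.Agent.AHE.CaDer
import Pool.Agent.AHR.Flat

/-!
# The integrals of algebraic forms over effectively computable families of simplices are effectively
computable

Proof.  `GI X w θ v` is the sum over `x ∈ w` of `TI X x.1 x.2 θ v`
(`AHI/Conv.lean`), so it is enough to treat `TI` (`ca_listSum`).  For `f` a rational function with
coefficients in `X`, regular on `U_I`, the function
`B f (θ, τ) = valE X f θ (V (θ, bary (re τ)))` on `X ⊕ Fin q → ℂ` is effectively computable at `(θ₁, t)` for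
`t ∈ simplexDomain q`: compose the hypothesis `hCA` (at `bary t`) with
`σ 0 = 1 - ∑ j, τ j`, `σ (j + 1) = τ j`, whose real part is `bary (re τ)`; then `ca_ev`, `ca_prod`, `CA.pow`,
`CA.div` (the denominators `∏ i, z i ^ den i` only involve coordinates `I a`, nonzero by `hne`).  It is
also smooth (real sense) at `(θ₁, t)` (`contDiffAt_valE` composed with the real linear map
`(θ, τ) ↦ (θ, re τ)`), so by `ca_fderiv` its derivatives in the directions `(0, e_a)` are effectively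
computable; near `(θ₁, t)` the derivative of `B g` at `(θ, τ)` in the direction `(0, e_a)` is
`fderiv ℝ (fun s => valE X g θ (V (θ, bary s))) (re τ) (Pi.single a 1)` (chain rule).  By `ca_det` and
`CA.mul` the integrand, as a function `Φ` of `(θ, τ)`, is effectively computable at all `(θ₁, t)`,
`t ∈ simplexDomain q` (`bary_mem`-type lemma: `bary t ∈ stdSimplex`), and `TI X f g θ (V (θ, ·))` is the integral of
`Φ (θ, t)`; apply `ca_integral_simplex`.  (The values of `CA` functions at points `(θ, (t : ℂ))`: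
`re (t : ℂ) = t`.)
-/

namespace Pool.Agent.AHE

open MvPolynomial Pool.Agent.AHC Pool.Agent.AHI Pool.Agent.AHR Pool.Agent.EllPR
open scoped ContDiff

variable {N : ℕ}

/-- parameters and the real parts of the variables -/
private noncomputable def GCg_ρ (X : Finset ℂ) (q : ℕ) :
    (X ⊕ Fin q → ℂ) →L[ℝ] (X → ℂ) × (Fin q → ℝ) :=
  (ContinuousLinearMap.pi fun x : X => ContinuousLinearMap.proj (R := ℝ)
    (φ := fun _ : X ⊕ Fin q => ℂ) (Sum.inl x)).prod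
  (ContinuousLinearMap.pi fun j : Fin q => Complex.reCLM.comp (ContinuousLinearMap.proj (R := ℝ)
    (φ := fun _ : X ⊕ Fin q => ℂ) (Sum.inr j)))

private theorem GCg_ρ_apply {X : Finset ℂ} {q : ℕ} (v : X ⊕ Fin q → ℂ) :
    GCg_ρ X q v = (fun x => v (Sum.inl x), fun j => (v (Sum.inr j)).re) := rfl

private theorem GCg_ρ_pt {X : Finset ℂ} {q : ℕ} (θ : X → ℂ) (t : Fin q → ℝ) :
    GCg_ρ X q (Sum.elim θ fun j => ((t j : ℝ) : ℂ)) = (θ, t) := rfl

private theorem GCg_ρ_single {X : Finset ℂ} {q : ℕ} (a : Fin q) :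
    GCg_ρ X q (Pi.single (Sum.inr a) 1) = (0, Pi.single a 1) := by
  classical
  rw [GCg_ρ_apply]
  refine Prod.ext ?_ ?_
  · funext x
    simp
  · funext j
    by_cases h : j = a
    · subst h
      simp
    · simp [h]

private theorem GCg_coord {O : Set (ℕ → ℕ)} {X : Finset ℂ} {q : ℕ}
    {V : (X → ℂ) × (Fin (q + 1) → ℝ) → (Fin (N + 1) → ℂ)} {θ₁ : X → ℂ}
    (hCA : ∀ t ∈ stdSimplex ℝ (Fin (q + 1)), ∀ l,
      CA O (fun v : X ⊕ Fin (q + 1) → ℂ =>
        V (fun x => v (Sum.inl x), fun j => (v (Sum.inr j)).re) l)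
        (Sum.elim θ₁ fun j => ((t j : ℝ) : ℂ))) {t : Fin q → ℝ} (ht : t ∈ simplexDomain q)
    (l : Fin (N + 1)) :
    CA O (fun v : X ⊕ Fin q → ℂ => V ((GCg_ρ X q v).1, bary (GCg_ρ X q v).2) l)
      (Sum.elim θ₁ fun j => ((t j : ℝ) : ℂ)) := by
  let F : X ⊕ Fin (q + 1) → (X ⊕ Fin q → ℂ) → ℂ := fun k v => match k with
    | Sum.inl x => v (Sum.inl x)
    | Sum.inr k => (Fin.cons (1 - ∑ j, v (Sum.inr j)) (fun j => v (Sum.inr j)) :
        Fin (q + 1) → ℂ) k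
  have hF : ∀ k, CA O (F k) (Sum.elim θ₁ fun j => ((t j : ℝ) : ℂ)) := by
    rintro (x | k)
    · exact CA.proj _ _
    · refine Fin.cases ?_ (fun j => ?_) k
      · change CA O (fun v : X ⊕ Fin q → ℂ => 1 - ∑ j, v (Sum.inr j)) _
        exact (CA.const IsPR.one _).sub (CA.sum _ fun j _ => CA.proj _ _)
      · change CA O (fun v : X ⊕ Fin q → ℂ => v (Sum.inr j)) _
        exact CA.proj _ _
  have hb : (fun k => F k (Sum.elim θ₁ fun j => ((t j : ℝ) : ℂ))) =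
      Sum.elim θ₁ fun j => ((bary t j : ℝ) : ℂ) := by
    funext k
    rcases k with x | k
    · rfl
    · refine Fin.cases ?_ (fun j => ?_) k
      · change (1 : ℂ) - ∑ j, ((t j : ℝ) : ℂ) = ((bary t 0 : ℝ) : ℂ)
        simp [bary]
      · change ((t j : ℝ) : ℂ) = ((bary t j.succ : ℝ) : ℂ)
        simp [bary]
  have h1 := hCA (bary t) (bary_mem ht) l
  rw [← hb] at h1
  have h2 := CA.comp h1 hF
  have h3 : (fun v : X ⊕ Fin q → ℂ => V ((GCg_ρ X q v).1, bary (GCg_ρ X q v).2) l) =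
      fun v => V (fun x => F (Sum.inl x) v, fun j => (F (Sum.inr j) v).re) l := by
    funext v
    congr 2
    funext k
    refine Fin.cases ?_ (fun j => ?_) k
    · change bary (GCg_ρ X q v).2 0 = (1 - ∑ j, v (Sum.inr j)).re
      simp [bary, GCg_ρ_apply]
    · change bary (GCg_ρ X q v).2 j.succ = (v (Sum.inr j)).re
      simp [bary, GCg_ρ_apply]
  rw [h3]
  exact h2

private theorem GCg_valE {O : Set (ℕ → ℕ)} {X : Finset ℂ} {q : ℕ} {p : ℕ}
    {I : Fin (p + 1) → Fin (N + 1)} {f : RatFun N} (hf : f.IsRegularOn I)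
    (hc : f.num.coeffs ⊆ X)
    {V : (X → ℂ) × (Fin (q + 1) → ℝ) → (Fin (N + 1) → ℂ)} {θ₁ : X → ℂ}
    (hne : ∀ t ∈ stdSimplex ℝ (Fin (q + 1)), ∀ a, V (θ₁, t) (I a) ≠ 0)
    (hCA : ∀ t ∈ stdSimplex ℝ (Fin (q + 1)), ∀ l,
      CA O (fun v : X ⊕ Fin (q + 1) → ℂ =>
        V (fun x => v (Sum.inl x), fun j => (v (Sum.inr j)).re) l)
        (Sum.elim θ₁ fun j => ((t j : ℝ) : ℂ))) {t : Fin q → ℝ} (ht : t ∈ simplexDomain q) :
    CA O (fun v : X ⊕ Fin q → ℂ =>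
      valE X f (GCg_ρ X q v).1 (V ((GCg_ρ X q v).1, bary (GCg_ρ X q v).2)))
      (Sum.elim θ₁ fun j => ((t j : ℝ) : ℂ)) := by
  unfold valE
  have hV := GCg_coord hCA ht
  refine CA.div ?_ (ca_prod _ fun i _ => (hV i).pow _) ?_
  · exact ca_ev (Θ := fun x v => v (Sum.inl x))
      (Z := fun l v => V ((GCg_ρ X q v).1, bary (GCg_ρ X q v).2) l) hc (fun x => CA.proj _ _) hV
  · rw [Finset.prod_ne_zero_iff]
    intro i _
    rw [GCg_ρ_pt]
    by_cases hi : f.den i = 0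
    · rw [hi, pow_zero]
      exact one_ne_zero
    · obtain ⟨a, rfl⟩ := hf.2 i hi
      exact pow_ne_zero _ (hne _ (bary_mem ht) a)

private theorem GCg_TI {O : Set (ℕ → ℕ)} {X : Finset ℂ} {q : ℕ} {p : ℕ}
    {I : Fin (p + 1) → Fin (N + 1)} {f : RatFun N} {g : Fin q → RatFun N}
    (hf : f.IsRegularOn I) (hg : ∀ b, (g b).IsRegularOn I)
    (hcf : f.num.coeffs ⊆ X) (hcg : ∀ b, (g b).num.coeffs ⊆ X)
    {V : (X → ℂ) × (Fin (q + 1) → ℝ) → (Fin (N + 1) → ℂ)} (hV : ContDiff ℝ ∞ V) {θ₁ : X → ℂ}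
    (hne : ∀ t ∈ stdSimplex ℝ (Fin (q + 1)), ∀ a, V (θ₁, t) (I a) ≠ 0)
    (hCA : ∀ t ∈ stdSimplex ℝ (Fin (q + 1)), ∀ l,
      CA O (fun v : X ⊕ Fin (q + 1) → ℂ =>
        V (fun x => v (Sum.inl x), fun j => (v (Sum.inr j)).re) l)
        (Sum.elim θ₁ fun j => ((t j : ℝ) : ℂ))) :
    CA O (fun θ => TI X f g θ fun t => V (θ, t)) θ₁ := by
  classical
  let G : Fin q → (X → ℂ) × (Fin q → ℝ) → ℂ := fun b x => valE X (g b) x.1 (V (x.1, bary x.2))
  let Φ : (X ⊕ Fin q → ℂ) → ℂ := fun v =>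
    valE X f (GCg_ρ X q v).1 (V ((GCg_ρ X q v).1, bary (GCg_ρ X q v).2)) *
    Matrix.det (Matrix.of fun a b : Fin q =>
      fderiv ℝ (fun s : Fin q → ℝ => valE X (g b) (GCg_ρ X q v).1 (V ((GCg_ρ X q v).1, bary s)))
        (GCg_ρ X q v).2 (Pi.single a 1))
  refine ca_integral_simplex (O := O) (q := q) (Φ := Φ) (b := θ₁) fun t ht => ?_
  refine (GCg_valE hf hcf hne hCA ht).mul (ca_det fun a b => ?_)
  have hx : ∀ a, V (θ₁, bary t) (I a) ≠ 0 := hne _ (bary_mem ht)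
  have hcd : ContDiffAt ℝ ∞ (G b) (θ₁, t) := contDiffAt_valE (hg b) hV hx
  have hpt : GCg_ρ X q (Sum.elim θ₁ fun j => ((t j : ℝ) : ℂ)) = (θ₁, t) := GCg_ρ_pt θ₁ t
  have hcd2 : ContDiffAt ℝ 2 (fun v => G b (GCg_ρ X q v))
      (Sum.elim θ₁ fun j => ((t j : ℝ) : ℂ)) := by
    have h1 : ContDiffAt ℝ 2 (G b) (GCg_ρ X q (Sum.elim θ₁ fun j => ((t j : ℝ) : ℂ))) := by
      rw [hpt]
      exact hcd.of_le (WithTop.coe_le_coe.2 le_top)
    exact h1.comp _ (GCg_ρ X q).contDiff.contDiffAt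
  have hfd := ca_fderiv (GCg_valE (hg b) (hcg b) hne hCA ht) hcd2
    (e := Pi.single (Sum.inr a) 1) (fun k => by
      by_cases h : k = Sum.inr a
      · subst h
        exact ⟨T.one, by rw [Pi.single_eq_same]; exact T.val_one⟩
      · exact ⟨T.zero, by rw [Pi.single_eq_of_ne h]; exact T.val_zero⟩)
  refine hfd.congr' ?_
  have hd1 : ∀ᶠ x in nhds (θ₁, t), DifferentiableAt ℝ (G b) x := by
    have h1 : ContDiffAt ℝ 1 (G b) (θ₁, t) := hcd.of_le (by exact_mod_cast le_top)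
    filter_upwards [h1.eventually (by decide)] with x hx
    exact hx.differentiableAt (by norm_num)
  have ht1 : Filter.Tendsto (GCg_ρ X q) (nhds (Sum.elim θ₁ fun j => ((t j : ℝ) : ℂ)))
      (nhds (θ₁, t)) := by
    have h1 := (GCg_ρ X q).continuous.tendsto (Sum.elim θ₁ fun j => ((t j : ℝ) : ℂ))
    rwa [hpt] at h1
  filter_upwards [ht1.eventually hd1] with v hv
  have h2 : HasFDerivAt (G b) (fderiv ℝ (G b) (GCg_ρ X q v)) (GCg_ρ X q v) := hv.hasFDerivAt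
  have h3 : HasFDerivAt (fun v => G b (GCg_ρ X q v))
      ((fderiv ℝ (G b) (GCg_ρ X q v)).comp (GCg_ρ X q)) v :=
    h2.comp v (GCg_ρ X q).hasFDerivAt
  have h4 : HasFDerivAt (fun s : Fin q → ℝ => ((GCg_ρ X q v).1, s))
        (ContinuousLinearMap.inr ℝ (X → ℂ) (Fin q → ℝ)) (GCg_ρ X q v).2 :=
    hasFDerivAt_prodMk_right _ _
  have h5 : HasFDerivAt (fun s : Fin q → ℝ => G b ((GCg_ρ X q v).1, s))
      ((fderiv ℝ (G b) (GCg_ρ X q v)).comp (ContinuousLinearMap.inr ℝ (X → ℂ) (Fin q → ℝ)))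
      (GCg_ρ X q v).2 := HasFDerivAt.comp (GCg_ρ X q v).2 h2 h4
  change fderiv ℝ (fun v => G b (GCg_ρ X q v)) v (Pi.single (Sum.inr a) 1) =
    fderiv ℝ (fun s : Fin q → ℝ => G b ((GCg_ρ X q v).1, s)) (GCg_ρ X q v).2 (Pi.single a 1)
  rw [h3.fderiv, h5.fderiv, ContinuousLinearMap.comp_apply, ContinuousLinearMap.comp_apply,
    GCg_ρ_single]
  rfl

theorem ca_GI {O : Set (ℕ → ℕ)} {X : Finset ℂ} {q : ℕ} {w : AlgForm N q} {p : ℕ}
    {I : Fin (p + 1) → Fin (N + 1)}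
    (hreg : ∀ x ∈ w, x.1.IsRegularOn I ∧ ∀ b, (x.2 b).IsRegularOn I)
    (hcoef : ∀ x ∈ w, x.1.num.coeffs ⊆ X ∧ ∀ b, (x.2 b).num.coeffs ⊆ X)
    {V : (X → ℂ) × (Fin (q + 1) → ℝ) → (Fin (N + 1) → ℂ)} (hV : ContDiff ℝ ∞ V) {θ₁ : X → ℂ}
    (hne : ∀ t ∈ stdSimplex ℝ (Fin (q + 1)), ∀ a, V (θ₁, t) (I a) ≠ 0)
    (hCA : ∀ t ∈ stdSimplex ℝ (Fin (q + 1)), ∀ l,
      CA O (fun v : X ⊕ Fin (q + 1) → ℂ =>
        V (fun x => v (Sum.inl x), fun j => (v (Sum.inr j)).re) l)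
        (Sum.elim θ₁ fun j => ((t j : ℝ) : ℂ))) :
    CA O (fun θ => GI X w θ fun t => V (θ, t)) θ₁ := by
  unfold GI
  exact ca_listSum w (f := fun x θ => TI X x.1 x.2 θ fun t => V (θ, t)) fun x hx =>
    GCg_TI (hreg x hx).1 (hreg x hx).2 (hcoef x hx).1 (hcoef x hx).2 hV hne hCA

end Pool.Agent.AHE
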