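import Mathlib
import Pool.Agent.AHU.Uni
import Pool.Agent.AHU.Small

/-!
# The projectors of the points of a projective space, and critical points

`mt z` is the orthogonal projector on the line of `z`, `act M z` the product of the matrix `M` and the
vector `z`, `RM F M z` says that `z` is on the cone and critical for `M`: `M z - c z` is normal to the cone
at `z` for some `c`; `SM F η M` is the point of the variety which is critical for `M` and has its
projector at distance less than `η` from `M`.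

Proofs.  `mt_smul`: `sq_smul`.  `mt_eq`: if `mt z = mt z'`, choose `l'` with `z' l' ≠ 0`
and compare the columns `l'` (`z l * conj (z l') / sq z = z' l * conj (z' l') / sq z'`).
`act_mt`: `∑ l', conj (z l') * z l' = sq z`.  `rm_mt`: `c = 1`.  `rm_smul`: the gradients of
homogeneous polynomials of degree `d` are homogeneous of degree `d - 1`
(`MvPolynomial.IsHomogeneous.pderiv`, evaluate at `a • z`), so `Nrm F (a • z) = Nrm F z` for `a ≠ 0`, and
the normality condition is linear in the vector.  `norm_mt_le`: `|z l| ≤ en z`.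
`mt_diag`: `‖mt z j j‖ = ‖z j‖² / sq z`.  `mem_GG_iff`: `mk_mem_GG`, squares.
`mt_close`: `mt` is invariant under scaling and `v = en v • unit v`; so it is enough that `‖u - v‖ ≤ κ` and
`sq v = 1` imply `‖mt u - mt v‖ < ε`: uniform continuity on the compact sphere, or by
direct estimates of the entries.
-/

namespace Pool.Agent.AHE

open MvPolynomial Pool.Agent.AHC Pool.Agent.AHI Pool.Agent.AHU
open scoped ContDiff ComplexConjugate LinearAlgebra.Projectivization

variable {N m : ℕ}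

/-- matrices, with the sup norm -/
abbrev Mt (N : ℕ) : Type := Fin (N + 1) → Fin (N + 1) → ℂ

/-- the orthogonal projector on the line of `z` -/
noncomputable def mt (z : Fin (N + 1) → ℂ) : Mt N := fun l l' => z l * conj (z l') / (AHI.sq z : ℂ)

/-- the projector of a point of projective space -/
noncomputable def mtP (y : ℙ ℂ (Fin (N + 1) → ℂ)) : Mt N := mt y.rep

/-- matrix times vector -/
def act (M : Mt N) (z : Fin (N + 1) → ℂ) : Fin (N + 1) → ℂ := fun l => ∑ l', M l l' * z l'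

/-- `z` is a point of the cone critical for `M` -/
def RM (F : Fin m → CPoly N) (M : Mt N) (z : Fin (N + 1) → ℂ) : Prop :=
  OnCone F z ∧ ∃ c : ℂ, (fun l => act M z l - c * z l) ∈ Nrm F z

theorem exists_ne_zero (N : ℕ) : (fun _ => 1 : Fin (N + 1) → ℂ) ≠ 0 := fun h =>
  one_ne_zero (congrFun h 0)

open Classical in
/-- the critical point near `M` -/
noncomputable def SM (F : Fin m → CPoly N) (η : ℝ) (M : Mt N) : ℙ ℂ (Fin (N + 1) → ℂ) :=
  if h : ∃ z : Fin (N + 1) → ℂ, z ≠ 0 ∧ RM F M z ∧ ‖mt z - M‖ < η then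
    Projectivization.mk ℂ h.choose h.choose_spec.1
  else Projectivization.mk ℂ _ (exists_ne_zero N)

theorem mt_smul {a : ℂ} (ha : a ≠ 0) (z : Fin (N + 1) → ℂ) : mt (a • z) = mt z := by
  funext l l'
  have h1 : ((Complex.normSq a : ℝ) : ℂ) = conj a * a := Complex.normSq_eq_conj_mul_self
  have h2 : conj a ≠ 0 := (map_ne_zero _).2 ha
  simp only [mt, sq_smul, Pi.smul_apply, smul_eq_mul, map_mul, Complex.ofReal_mul, h1]
  by_cases h3 : (AHI.sq z : ℂ) = 0
  · rw [h3]
    simp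
  · field_simp

theorem mtP_mk {z : Fin (N + 1) → ℂ} (hz : z ≠ 0) : mtP (Projectivization.mk ℂ z hz) = mt z := by
  obtain ⟨a, ha⟩ := Projectivization.exists_smul_eq_mk_rep ℂ z hz
  unfold mtP
  rw [← ha, Units.smul_def, mt_smul a.ne_zero]

theorem mk_eq_of_mt {z z' : Fin (N + 1) → ℂ} (hz : z ≠ 0) (hz' : z' ≠ 0) (h : mt z = mt z') :
    Projectivization.mk ℂ z hz = Projectivization.mk ℂ z' hz' := by
  have h1 : ∃ l, z' l ≠ 0 := by
    by_contra hc
    push Not at hc
    exact hz' (funext hc)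
  obtain ⟨l', hl'⟩ := h1
  have hs : (AHI.sq z : ℂ) ≠ 0 := by exact_mod_cast (AHI.sq_pos hz).ne'
  have hs' : (AHI.sq z' : ℂ) ≠ 0 := by exact_mod_cast (AHI.sq_pos hz').ne'
  have hc' : conj (z' l') ≠ 0 := (map_ne_zero _).2 hl'
  rw [Projectivization.mk_eq_mk_iff']
  have key : ∀ l, z l * conj (z l') / (AHI.sq z : ℂ) = z' l * conj (z' l') / (AHI.sq z' : ℂ) := fun l =>
    congrFun (congrFun h l) l'
  have hc : conj (z l') ≠ 0 := by
    intro h0
    have h2 := key l'
    rw [h0, mul_zero, zero_div] at h2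
    exact div_ne_zero (mul_ne_zero hl' hc') hs' h2.symm
  refine ⟨conj (z' l') / (AHI.sq z' : ℂ) * ((AHI.sq z : ℂ) / conj (z l')), ?_⟩
  funext l
  have h2 := key l
  rw [Pi.smul_apply, smul_eq_mul]
  rw [div_eq_div_iff hs hs'] at h2
  field_simp
  linear_combination -h2

theorem act_mt {z : Fin (N + 1) → ℂ} (hz : z ≠ 0) : act (mt z) z = z := by
  have hs : (AHI.sq z : ℂ) ≠ 0 := by exact_mod_cast (AHI.sq_pos hz).ne'
  funext l
  have h1 : ∑ l', conj (z l') * z l' = (AHI.sq z : ℂ) := by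
    unfold AHI.sq
    rw [Complex.ofReal_sum]
    exact Finset.sum_congr rfl fun l' _ => Complex.normSq_eq_conj_mul_self.symm
  have h2 : act (mt z) z l = z l / (AHI.sq z : ℂ) * ∑ l', conj (z l') * z l' := by
    simp only [act, mt, Finset.mul_sum]
    exact Finset.sum_congr rfl fun l' _ => by ring
  rw [h2, h1, div_mul_cancel₀ _ hs]

theorem rm_mt {F : Fin m → CPoly N} {z : Fin (N + 1) → ℂ} (hz : z ≠ 0) (h : OnCone F z) :
    RM F (mt z) z := by
  refine ⟨h, 1, ?_⟩
  have h1 : (fun l => act (mt z) z l - 1 * z l) = 0 := by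
    funext l
    rw [act_mt hz, one_mul, sub_self]
    rfl
  rw [h1]
  exact Submodule.zero_mem _

theorem rm_smul {F : Fin m → CPoly N} (hF : ∀ i, ∃ d, (F i).IsHomogeneous d) {M : Mt N}
    {z : Fin (N + 1) → ℂ} (h : RM F M z) {a : ℂ} (ha : a ≠ 0) : RM F M (a • z) := by
  obtain ⟨h1, c, h2⟩ := h
  refine ⟨OnCone.smul hF a h1, c, ?_⟩
  have h3 : (fun l => act M (a • z) l - c * (a • z) l) = a • fun l => act M z l - c * z l := by
    funext l
    simp only [act, Pi.smul_apply, smul_eq_mul, mul_sub, Finset.mul_sum]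
    congr 1
    · exact Finset.sum_congr rfl fun l' _ => by ring
    · ring
  rw [h3]
  refine Submodule.smul_mem _ _ ?_
  refine Nrm_smul hF (c := a⁻¹) ?_
  rw [smul_smul, inv_mul_cancel₀ ha, one_smul]
  exact h2

theorem norm_mt_le (z : Fin (N + 1) → ℂ) : ‖mt z‖ ≤ 1 := by
  rw [pi_norm_le_iff_of_nonneg zero_le_one]
  intro l
  rw [pi_norm_le_iff_of_nonneg zero_le_one]
  intro l'
  have h1 : ∀ l, ‖z l‖ ≤ en z := by
    intro l
    have h0 : 0 ≤ en z := Real.sqrt_nonneg _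
    refine (pow_le_pow_iff_left₀ (norm_nonneg _) h0 two_ne_zero).1 ?_
    rw [en_sq, ← Complex.normSq_eq_norm_sq]
    exact Finset.single_le_sum (f := fun l => Complex.normSq (z l))
      (fun _ _ => Complex.normSq_nonneg _) (Finset.mem_univ l)
  have h2 : ‖mt z l l'‖ = ‖z l‖ * ‖z l'‖ / AHI.sq z := by
    unfold mt
    rw [norm_div, norm_mul, RCLike.norm_conj, Complex.norm_real, Real.norm_of_nonneg (AHI.sq_nonneg z)]
  rw [h2]
  refine div_le_one_of_le₀ ?_ (AHI.sq_nonneg z)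
  rw [← en_sq, pow_two]
  exact mul_le_mul (h1 l) (h1 l') (norm_nonneg _) (Real.sqrt_nonneg _)

theorem mt_diag {z : Fin (N + 1) → ℂ} (hz : z ≠ 0) (j : Fin (N + 1)) :
    ‖mt z j j‖ = ‖z j‖ ^ 2 / AHI.sq z := by
  unfold mt
  rw [norm_div, norm_mul, RCLike.norm_conj, Complex.norm_real, Real.norm_of_nonneg (AHI.sq_nonneg z), pow_two]

theorem mt_diag_ne {z : Fin (N + 1) → ℂ} {j : Fin (N + 1)} (h : mt z j j ≠ 0) : z j ≠ 0 := by
  intro h0
  apply h
  unfold mt
  rw [h0, zero_mul, zero_div]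

theorem mem_GG_iff {c : ℝ} (hc : 0 < c) {y : ℙ ℂ (Fin (N + 1) → ℂ)} {j : Fin (N + 1)} :
    y ∈ GG c j ↔ c ^ 2 ≤ ‖mtP y j j‖ := by
  have h0 := y.rep_nonzero
  have h1 : ‖mtP y j j‖ = ‖y.rep j‖ ^ 2 / AHI.sq y.rep := mt_diag h0 j
  rw [h1, le_div_iff₀ (AHI.sq_pos h0), ← en_sq, ← mul_pow]
  show c * en y.rep ≤ ‖y.rep j‖ ↔ _
  exact (pow_le_pow_iff_left₀ (mul_nonneg hc.le (Real.sqrt_nonneg _)) (norm_nonneg _) two_ne_zero).symm

theorem contDiffAt_mt {k : WithTop ℕ∞} {z : Fin (N + 1) → ℂ} (hz : z ≠ 0) :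
    ContDiffAt ℝ k (mt : (Fin (N + 1) → ℂ) → Mt N) z := by
  have hs : (AHI.sq z : ℂ) ≠ 0 := by exact_mod_cast (AHI.sq_pos hz).ne'
  have h1 : ∀ l : Fin (N + 1), ContDiff ℝ k fun z : Fin (N + 1) → ℂ => z l := fun l => contDiff_apply ℝ ℂ l
  have h2 : ∀ l : Fin (N + 1), ContDiff ℝ k fun z : Fin (N + 1) → ℂ => conj (z l) := fun l =>
    Complex.conjCLE.contDiff.comp (h1 l)
  have h3 : ContDiff ℝ k fun z : Fin (N + 1) → ℂ => (AHI.sq z : ℂ) := by
    have h4 : (fun z : Fin (N + 1) → ℂ => (AHI.sq z : ℂ)) = fun z => ∑ l, conj (z l) * z l := by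
      funext z
      unfold AHI.sq
      rw [Complex.ofReal_sum]
      exact Finset.sum_congr rfl fun l' _ => Complex.normSq_eq_conj_mul_self
    rw [h4]
    exact ContDiff.sum fun l _ => (h2 l).mul (h1 l)
  rw [contDiffAt_pi]
  intro l
  rw [contDiffAt_pi]
  intro l'
  have h5 : ContDiffAt ℝ k (fun z : Fin (N + 1) → ℂ => z l * conj (z l') * (AHI.sq z : ℂ)⁻¹) z :=
    (((h1 l).mul (h2 l')).contDiffAt).mul (h3.contDiffAt.inv hs)
  simpa only [mt, div_eq_mul_inv] using h5

theorem mt_close (N : ℕ) {ε : ℝ} (hε : 0 < ε) : ∃ κ > 0, ∀ u v : Fin (N + 1) → ℂ, v ≠ 0 →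
    ‖u - v‖ ≤ κ * en v → u ≠ 0 ∧ ‖mt u - mt v‖ < ε := by
  have hK : IsCompact {v : Fin (N + 1) → ℂ | AHI.sq v = 1} := by
    refine Metric.isCompact_of_isClosed_isBounded (isClosed_eq continuous_sq continuous_const) ?_
    refine (Metric.isBounded_closedBall (x := (0 : Fin (N + 1) → ℂ)) (r := 1)).subset ?_
    intro z hz
    rw [mem_closedBall_zero_iff]
    exact norm_le_one_of_sq hz
  have h1 := hK.eventually_forall_of_forall_eventually (x₀ := (0 : Fin (N + 1) → ℂ))
    (P := fun x v => v + x ≠ 0 ∧ ‖mt (v + x) - mt v‖ < ε) (by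
      intro v hv
      have hv0 : v ≠ 0 := ne_zero_of_sq hv
      have hc : ContinuousAt (mt : (Fin (N + 1) → ℂ) → Mt N) v := (contDiffAt_mt (k := 0) hv0).continuousAt
      have ha : ContinuousAt (fun p : (Fin (N + 1) → ℂ) × (Fin (N + 1) → ℂ) => p.2 + p.1) (0, v) :=
        (continuous_snd.add continuous_fst).continuousAt
      have h2 : ContinuousAt (fun p : (Fin (N + 1) → ℂ) × (Fin (N + 1) → ℂ) => ‖mt (p.2 + p.1) - mt p.2‖)
          (0, v) := by
        refine ContinuousAt.norm (ContinuousAt.sub ?_ ?_)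
        · refine ContinuousAt.comp (g := (mt : (Fin (N + 1) → ℂ) → Mt N)) ?_ ha
          rw [add_zero]
          exact hc
        · exact ContinuousAt.comp (g := (mt : (Fin (N + 1) → ℂ) → Mt N)) hc continuousAt_snd
      refine (ha.eventually_ne ?_).and (h2.eventually_lt continuousAt_const ?_)
      · rw [add_zero]
        exact hv0
      · rw [add_zero, sub_self, norm_zero]
        exact hε)
  obtain ⟨δ, hδ, h2⟩ := Metric.eventually_nhds_iff.1 h1
  refine ⟨δ / 2, half_pos hδ, ?_⟩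
  intro u v hv huv
  have he := en_pos hv
  have hec : (en v : ℂ) ≠ 0 := by exact_mod_cast he.ne'
  have h3 := h2 (y := ((en v : ℂ)⁻¹) • (u - v)) (by
    rw [dist_zero_right, norm_smul, norm_inv, Complex.norm_real, Real.norm_of_nonneg he.le]
    calc (en v)⁻¹ * ‖u - v‖ ≤ (en v)⁻¹ * (δ / 2 * en v) := by gcongr
      _ = δ / 2 := by field_simp
      _ < δ := half_lt_self hδ) (unit v) (sq_unit hv)
  have h4 : unit v + ((en v : ℂ)⁻¹) • (u - v) = ((en v : ℂ)⁻¹) • u := by
    unfold unit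
    rw [← smul_add, add_sub_cancel]
  have h5 : mt (unit v) = mt v := mt_smul (inv_ne_zero hec) v
  rw [h4, h5, mt_smul (inv_ne_zero hec)] at h3
  refine ⟨?_, h3.2⟩
  rintro rfl
  exact h3.1 (smul_zero _)

/-- if the critical point near `M` is unique, it is the one given by any critical vector -/
theorem SM_eq {F : Fin m → CPoly N} {η : ℝ} {M : Mt N} {z : Fin (N + 1) → ℂ} (hz : z ≠ 0)
    (h : RM F M z) (hn : ‖mt z - M‖ < η)
    (hu : ∀ z' : Fin (N + 1) → ℂ, z' ≠ 0 → RM F M z' → ‖mt z' - M‖ < η → mt z' = mt z) :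
    SM F η M = Projectivization.mk ℂ z hz := by
  have hex : ∃ z : Fin (N + 1) → ℂ, z ≠ 0 ∧ RM F M z ∧ ‖mt z - M‖ < η := ⟨z, hz, h, hn⟩
  unfold SM
  rw [dif_pos hex]
  exact mk_eq_of_mt _ _ (hu _ hex.choose_spec.1 hex.choose_spec.2.1 hex.choose_spec.2.2)

end Pool.Agent.AHE
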