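import Mathlib
import Pool.Agent.AHU.Label
import Pool.Agent.AHE.GDf

/-!
# Every cycle can be replaced by a fine cycle all of whose simplices are in the charts

`FineM ε y`: the projectors of the points of the simplex are at distance less than `ε` from each other.

Proof.  `FineM ε` passes to the faces of a simplex, to the simplices `fun t => s (amap v t)` of its
subdivision, and does not depend on the labels.  For a liftable simplex `s` (lift `g`) the function
`t ↦ mtP (s t) = mt (g t)` is continuous on the compact `Dl q`, hence uniformly continuous, and by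
`exists_fine` (`AHU/Mesh.lean`) the simplices of a sufficiently high iterated subdivision are fine.  So
for every cycle there is `l` such that all simplices of `SdG^[l] z` are `FineM ε` and small
(`exists_fine`, and the proofs of `Small_gen`, `Small_iterate`, `exists_small` in `AHU/Small.lean`).
Now follow the proof of `exists_good_cycle` in `AHU/Label.lean`: the operator `Label_P c` only uses the given
simplices and their faces, with new labels; so it preserves the set of the chains supported on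
`FineM ε`.  All the lemmas needed there are private: copy `AHU/Small.lean` and `AHU/Label.lean` (about
500 lines) and carry the additional predicate `FineM ε` (stable under faces and relabelling) through the
proofs of `Label_mem`, `Label_Pl`, `Label_iter`.  (Alternatively, remove the word `private` in
those two files of the library, without changing anything else, and build on them; then land the two files as
well.)
-/

namespace Pool.Agent.AHE

open Pool.Agent.AHC Pool.Agent.AHI Pool.Agent.AHR Pool.Agent.AHU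
open scoped LinearAlgebra.Projectivization

variable {N m : ℕ}

/-- the projectors of the points of the simplex are near each other -/
def FineM (ε : ℝ) (y : Gen N) : Prop := ∀ t t', ‖mtP (y.2.2.2 t) - mtP (y.2.2.2 t')‖ < ε

/-- liftable generators of degree `d` -/
private def GFi_sL (F : Fin m → CPoly N) (d : ℕ) : Set (Gen N) := {x | Liftable F x ∧ x.1 + x.2.1 = d}

private lemma GFi_slc {α A : Type*} [AddCommGroup A] {S : Set α} (M : Submodule ℤ A) (f : α → A)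
    (hf : ∀ x ∈ S, f x ∈ M) {z : α →₀ ℤ} (hz : z ∈ Finsupp.supported ℤ ℤ S) :
    Finsupp.linearCombination ℤ f z ∈ M := by
  rw [Finsupp.linearCombination_apply, Finsupp.sum]
  exact M.sum_mem fun x hx => M.smul_mem _ (hf x (hz hx))

private lemma GFi_stoG {p q r : ℕ} (I : Fin (p + 1) → Fin (N + 1)) (s : Simplex N q) (x : Ch (Dl q) r)
    {S : Set (Gen N)} (h : ∀ v ∈ x.support, (⟨p, r, I, fun t => s (amap v t)⟩ : Gen N) ∈ S) :
    toG I s x ∈ Finsupp.supported ℤ ℤ S := by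
  classical
  unfold toG
  rw [Finsupp.lmapDomain_apply, Finsupp.mem_supported]
  intro y hy
  obtain ⟨v, hv, rfl⟩ := Finset.mem_image.1 (Finsupp.mapDomain_support hy)
  exact h v hv

private lemma GFi_sSdG {F : Fin m → CPoly N} {d : ℕ} {z : Gen N →₀ ℤ}
    (hz : z ∈ Finsupp.supported ℤ ℤ (GFi_sL F d)) : SdG z ∈ Finsupp.supported ℤ ℤ (GFi_sL F d) := by
  unfold SdG
  refine GFi_slc _ _ ?_ hz
  rintro ⟨p, q, I, s⟩ ⟨⟨g, hg⟩, hd⟩
  exact GFi_stoG I s _ fun v _ => ⟨⟨_, isLift_amap hg v⟩, hd⟩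

private lemma GFi_sTG {F : Fin m → CPoly N} {d : ℕ} {z : Gen N →₀ ℤ}
    (hz : z ∈ Finsupp.supported ℤ ℤ (GFi_sL F d)) : TG z ∈ Finsupp.supported ℤ ℤ (GFi_sL F (d + 1)) := by
  unfold TG
  refine GFi_slc _ _ ?_ hz
  rintro ⟨p, q, I, s⟩ ⟨⟨g, hg⟩, hd⟩
  refine Submodule.smul_mem _ _ (GFi_stoG I s _ fun v _ => ⟨⟨_, isLift_amap hg v⟩, ?_⟩)
  show p + (q + 1) = d + 1
  have hd' : p + q = d := hd
  omega

private lemma GFi_siff {F : Fin m → CPoly N} {k : ℕ} {z : Gen N →₀ ℤ} :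
    IsCyc F k z ↔ z ∈ Finsupp.supported ℤ ℤ (GFi_sL F (2 * k)) ∧ bdL z = 0 :=
  ⟨fun h => ⟨fun x hx => h.lift x hx, h.bd⟩, fun h => ⟨fun x hx => h.1 hx, h.2⟩⟩

private lemma GFi_sstep {F : Fin m → CPoly N} {k : ℕ} {z : Gen N →₀ ℤ} (hz : IsCyc F k z) :
    IsCyc F k (SdG z) ∧ ∀ (w : FormCochain N) (W : Gen N → ℂ), IsPer F k w W → evc W (SdG z) = evc W z := by
  rw [GFi_siff] at hz
  have h1 : bdL (TG z) = z - SdG z := by
    have := bdL_TG z
    rwa [hz.2, map_zero, add_zero] at this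
  refine ⟨GFi_siff.2 ⟨GFi_sSdG hz.1, ?_⟩, ?_⟩
  · have := congrArg bdL h1
    rw [bdL_bdL, map_sub, hz.2, zero_sub, eq_comm, neg_eq_zero] at this
    exact this
  · intro w W hW
    have h2 : bdL (TG z) ∈ LinearMap.ker (evc W) := by
      unfold bdL
      refine GFi_slc _ _ ?_ (GFi_sTG hz.1)
      intro x hx
      exact hW.bd x hx.1 hx.2
    rw [h1, LinearMap.mem_ker, map_sub, sub_eq_zero] at h2
    exact h2.symm

private lemma GFi_siterate {F : Fin m → CPoly N} {k : ℕ} {z : Gen N →₀ ℤ} (hz : IsCyc F k z) (l : ℕ) :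
    IsCyc F k ((SdG^[l]) z) ∧
      ∀ (w : FormCochain N) (W : Gen N → ℂ), IsPer F k w W → evc W ((SdG^[l]) z) = evc W z := by
  induction l with
  | zero => exact ⟨hz, fun _ _ _ => rfl⟩
  | succ l ih =>
    rw [Function.iterate_succ_apply']
    obtain ⟨h1, h2⟩ := GFi_sstep ih.1
    exact ⟨h1, fun w W hW => (h2 w W hW).trans (ih.2 w W hW)⟩

private lemma GFi_sleb {F : Fin m → CPoly N} {c : ℝ} (hc : 0 < c) (hc' : c ^ 2 * (N + 1) < 1) {p q : ℕ}
    {I : Fin (p + 1) → Fin (N + 1)} {s : Simplex N q} {g : (Fin (q + 1) → ℝ) → (Fin (N + 1) → ℂ)}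
    (h : IsLift F I s g) : ∃ ε > 0, ∀ A : Dl q → Prop, (∀ t t', A t → A t' → dist t t' < ε) →
      ∃ j, ∀ t, A t → s t ∈ GG c j := by
  have hg : Continuous fun t : Dl q => g t := h.smooth.continuous.comp continuous_subtype_val
  have hen : Continuous fun t : Dl q => en (g t) := Real.continuous_sqrt.comp (continuous_sq.comp hg)
  obtain ⟨ε, hε, hL⟩ := lebesgue_number_lemma_of_metric (s := (Set.univ : Set (Dl q)))
    (c := fun j : Fin (N + 1) => {t : Dl q | c * en (g t) < ‖g t j‖}) isCompact_univ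
    (fun j => isOpen_lt (continuous_const.mul hen) ((continuous_apply j).comp hg).norm) (by
      intro t _
      rw [Set.mem_iUnion]
      by_contra hcon
      push Not at hcon
      obtain ⟨h0, -⟩ := h.lifts t
      have hpos := sq_pos h0
      have h1 : ∀ j, Complex.normSq (g t j) ≤ c ^ 2 * AHI.sq (g t) := by
        intro j
        have h2 : ‖g t j‖ ≤ c * en (g t) := not_lt.1 (hcon j)
        rw [Complex.normSq_eq_norm_sq, ← en_sq, ← mul_pow]
        exact pow_le_pow_left₀ (norm_nonneg _) h2 2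
      have h3 : AHI.sq (g t) ≤ (N + 1) * (c ^ 2 * AHI.sq (g t)) := by
        refine (Finset.sum_le_card_nsmul Finset.univ _ _ fun j _ => h1 j).trans (le_of_eq ?_)
        rw [Finset.card_univ, Fintype.card_fin, nsmul_eq_mul]
        push_cast
        ring
      have h4 : c ^ 2 * (N + 1) * AHI.sq (g t) < 1 * AHI.sq (g t) := mul_lt_mul_of_pos_right hc' hpos
      linarith)
  refine ⟨ε, hε, fun A hA => ?_⟩
  by_cases hne : ∃ t, A t
  · obtain ⟨t0, ht0⟩ := hne
    obtain ⟨j, hj⟩ := hL t0 (Set.mem_univ _)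
    refine ⟨j, fun t ht => ?_⟩
    obtain ⟨h0, h1⟩ := h.lifts t
    rw [h1, mk_mem_GG]
    have h2 : t ∈ Metric.ball t0 ε := hA t t0 ht ht0
    exact le_of_lt (hj h2)
  · exact ⟨0, fun t ht => absurd ⟨t, ht⟩ hne⟩

private lemma GFi_unif {F : Fin m → CPoly N} {ε : ℝ} (hε : 0 < ε) {p q : ℕ}
    {I : Fin (p + 1) → Fin (N + 1)} {s : Simplex N q} {g : (Fin (q + 1) → ℝ) → (Fin (N + 1) → ℂ)}
    (h : IsLift F I s g) : ∃ δ > 0, ∀ t t' : Dl q, dist t t' < δ → ‖mtP (s t) - mtP (s t')‖ < ε := by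
  have hg : Continuous fun t : Dl q => g t := h.smooth.continuous.comp continuous_subtype_val
  have hm : Continuous fun t : Dl q => mt (g t) := by
    rw [continuous_iff_continuousAt]
    intro t
    obtain ⟨h0, -⟩ := h.lifts t
    exact ContinuousAt.comp (f := fun t : Dl q => g t) (g := (mt : (Fin (N + 1) → ℂ) → Mt N))
      (contDiffAt_mt (k := 0) h0).continuousAt hg.continuousAt
  have hu := CompactSpace.uniformContinuous_of_continuous hm
  rw [Metric.uniformContinuous_iff] at hu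
  obtain ⟨δ, hδ, h1⟩ := hu ε hε
  refine ⟨δ, hδ, fun t t' ht => ?_⟩
  obtain ⟨h2, h3⟩ := h.lifts t
  obtain ⟨h4, h5⟩ := h.lifts t'
  rw [h3, h5, mtP_mk, mtP_mk, ← dist_eq_norm]
  exact h1 ht

private lemma GFi_sgen {F : Fin m → CPoly N} {c : ℝ} (hc : 0 < c) (hc' : c ^ 2 * (N + 1) < 1)
    {ε : ℝ} (hε : 0 < ε) (y : Gen N) (hy : Liftable F y) : ∃ m₀ : ℕ, ∀ l ≥ m₀,
      (SdG^[l]) (Finsupp.single y 1) ∈
        Finsupp.supported ℤ ℤ {x : Gen N | SmallG c x ∧ FineM ε x} := by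
  obtain ⟨p, q, I, s⟩ := y
  obtain ⟨g, hg⟩ := hy
  obtain ⟨ε₁, hε₁, h⟩ := GFi_sleb hc hc' hg
  obtain ⟨δ, hδ, h'⟩ := GFi_unif hε hg
  obtain ⟨m₀, hm⟩ := exists_fine q (lt_min hε₁ hδ)
  refine ⟨m₀, fun l hl => ?_⟩
  rw [SdG_iter]
  refine GFi_stoG I s _ fun v hv => ?_
  obtain ⟨j, hj⟩ := h (fun t => ∃ u, amap v u = t) (by
    rintro _ _ ⟨u, rfl⟩ ⟨u', rfl⟩
    exact (hm l hl v hv u u').trans_le (min_le_left _ _))
  exact ⟨⟨j, fun t => hj _ ⟨t, rfl⟩⟩, fun t t' => h' _ _ ((hm l hl v hv t t').trans_le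
    (min_le_right _ _))⟩

private lemma GFi_exists_small {F : Fin m → CPoly N} {k : ℕ} {c : ℝ} (hc : 0 < c)
    (hc' : c ^ 2 * (N + 1) < 1) {ε : ℝ} (hε : 0 < ε) {z : Gen N →₀ ℤ} (hz : IsCyc F k z) :
    ∃ z' : Gen N →₀ ℤ, IsCyc F k z' ∧ (∀ y ∈ z'.support, SmallG c y ∧ FineM ε y) ∧
      ∀ (w : FormCochain N) (W : Gen N → ℂ), IsPer F k w W → evc W z' = evc W z := by
  choose! M hM using fun (y : Gen N) (hy : Liftable F y) => GFi_sgen hc hc' hε y hy
  refine ⟨(SdG^[z.support.sup M]) z, (GFi_siterate hz _).1, ?_, (GFi_siterate hz _).2⟩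
  have key : (SdG^[z.support.sup M]) z ∈
      Finsupp.supported ℤ ℤ {x : Gen N | SmallG c x ∧ FineM ε x} := by
    have h1 : ∀ l : ℕ, (SdG^[l]) z = Finsupp.linearCombination ℤ
        (fun y => (SdG^[l]) (Finsupp.single y 1)) z := by
      intro l
      rw [← Module.End.pow_apply]
      simp only [← Module.End.pow_apply]
      conv_lhs => rw [← Finsupp.sum_single z]
      rw [Finsupp.linearCombination_apply, Finsupp.sum, Finsupp.sum, map_sum]
      refine Finset.sum_congr rfl fun y _ => ?_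
      rw [← map_smul, Finsupp.smul_single_one]
    rw [h1]
    refine GFi_slc (S := z.support) _ _ ?_ (by
      rw [Finsupp.mem_supported])
    intro y hy
    exact hM y (hz.lift y hy).1 _ (Finset.le_sup (f := M) hy)
  exact fun y hy => key hy

open Classical in
/-- a label for the simplices which are contained in one of the sets `GG c j` -/
private noncomputable def GFi_llam (c : ℝ) (q : ℕ) (s : Simplex N q) : Fin (N + 1) :=
  if h : ∃ j, ∀ t, s t ∈ GG c j then h.choose else 0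

private theorem GFi_llam_spec {c : ℝ} {q : ℕ} {s : Simplex N q} (h : ∃ j, ∀ t, s t ∈ GG c j) (t : _) :
    s t ∈ GG c (GFi_llam c q s) := by
  unfold GFi_llam
  rw [dif_pos h]
  exact h.choose_spec t

private noncomputable def GFi_lhh (c : ℝ) (x : Gen N) : Gen N →₀ ℤ :=
  Finsupp.single (⟨x.1 + 1, x.2.1, Fin.cons (GFi_llam c x.2.1 x.2.2.2) x.2.2.1, x.2.2.2⟩ : Gen N) 1

private noncomputable def GFi_lhL (c : ℝ) : (Gen N →₀ ℤ) →ₗ[ℤ] (Gen N →₀ ℤ) :=
  Finsupp.linearCombination ℤ (GFi_lhh c)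

private noncomputable def GFi_lP (c : ℝ) : (Gen N →₀ ℤ) →ₗ[ℤ] (Gen N →₀ ℤ) :=
  LinearMap.id - (bdL.comp (GFi_lhL c) + (GFi_lhL c).comp bdL)

private noncomputable def GFi_lA (c : ℝ) : Gen N → (Gen N →₀ ℤ)
  | ⟨0, q, _, s⟩ => Finsupp.single (⟨0, q, fun _ => GFi_llam c q s, s⟩ : Gen N) 1
  | ⟨_ + 1, _, _, _⟩ => 0

private noncomputable def GFi_lB (c : ℝ) : Gen N → (Gen N →₀ ℤ)
  | ⟨_, 0, _, _⟩ => 0
  | ⟨p, q + 1, I, s⟩ => ∑ i : Fin (q + 2),
      (Finsupp.single (⟨p + 1, q, Fin.cons (GFi_llam c (q + 1) s) I, s ∘ face i⟩ : Gen N) ((-1) ^ (i : ℕ)) -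
        Finsupp.single (⟨p + 1, q, Fin.cons (GFi_llam c q (s ∘ face i)) I, s ∘ face i⟩ : Gen N)
          ((-1) ^ (i : ℕ)))

private theorem GFi_lhL_single (c : ℝ) (x : Gen N) (n : ℤ) :
    GFi_lhL c (Finsupp.single x n) =
      Finsupp.single (⟨x.1 + 1, x.2.1, Fin.cons (GFi_llam c x.2.1 x.2.2.2) x.2.2.1, x.2.2.2⟩ : Gen N) n := by
  unfold GFi_lhL GFi_lhh
  rw [Finsupp.linearCombination_single, Finsupp.smul_single, smul_eq_mul, mul_one]

private theorem GFi_lC (c : ℝ) (p q : ℕ) (I : Fin (p + 1) → Fin (N + 1)) (s : Simplex N q) :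
    bdC (⟨p + 1, q, Fin.cons (GFi_llam c q s) I, s⟩ : Gen N) + GFi_lhL c (bdC ⟨p, q, I, s⟩) =
      Finsupp.single (⟨p, q, I, s⟩ : Gen N) 1 - GFi_lA c ⟨p, q, I, s⟩ := by
  cases p with
  | zero =>
    simp only [bdC, GFi_lA, map_zero, add_zero]
    rw [Fin.sum_univ_succ, Fin.sum_univ_one]
    have h1 : (Fin.cons (GFi_llam c q s) I : Fin 2 → Fin (N + 1)) ∘ (0 : Fin 2).succAbove = I := by
      funext a
      simp
    have h2 : (Fin.cons (GFi_llam c q s) I : Fin 2 → Fin (N + 1)) ∘ (Fin.succ 0 : Fin 2).succAbove =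
        fun _ => GFi_llam c q s := by
      funext a
      rw [Subsingleton.elim a 0]
      rfl
    rw [h1, h2]
    simp [sub_eq_add_neg]
  | succ p =>
    simp only [bdC, GFi_lA, sub_zero, map_sum, GFi_lhL_single]
    rw [Fin.sum_univ_succ]
    have h1 : (Fin.cons (GFi_llam c q s) I : Fin (p + 3) → Fin (N + 1)) ∘ (0 : Fin (p + 3)).succAbove = I := by
      funext a
      simp
    have h2 : ∀ b : Fin (p + 2), (Fin.cons (GFi_llam c q s) I : Fin (p + 3) → Fin (N + 1)) ∘ b.succ.succAbove =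
        Fin.cons (GFi_llam c q s) (I ∘ b.succAbove) := by
      intro b
      funext a
      refine Fin.cases ?_ (fun a => ?_) a
      · simp
      · simp
    simp only [h1, h2]
    rw [add_assoc, ← Finset.sum_add_distrib]
    simp only [← Finsupp.single_add]
    have h3 : ∀ b : Fin (p + 2), ((-1 : ℤ) ^ (b.succ : ℕ)) + (-1) ^ (b : ℕ) = 0 := by
      intro b
      rw [Fin.val_succ, pow_succ]
      ring
    simp only [h3, Finsupp.single_zero, Finset.sum_const_zero, add_zero]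
    simp

private theorem GFi_lS (c : ℝ) (p q : ℕ) (I : Fin (p + 1) → Fin (N + 1)) (s : Simplex N q) :
    (-1 : ℤ) ^ (p + 1) • bdS (⟨p + 1, q, Fin.cons (GFi_llam c q s) I, s⟩ : Gen N) +
      (-1 : ℤ) ^ p • GFi_lhL c (bdS ⟨p, q, I, s⟩) = -((-1 : ℤ) ^ p • GFi_lB c ⟨p, q, I, s⟩) := by
  cases q with
  | zero =>
    simp only [bdS, GFi_lB, map_zero, smul_zero, add_zero, neg_zero]
  | succ q =>
    simp only [bdS, GFi_lB, map_sum, GFi_lhL_single]
    rw [Finset.sum_sub_distrib, smul_sub, pow_succ]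
    simp only [mul_neg, mul_one, neg_smul]
    abel

private theorem GFi_lP_single (c : ℝ) (x : Gen N) :
    GFi_lP c (Finsupp.single x 1) = GFi_lA c x + (-1 : ℤ) ^ x.1 • GFi_lB c x := by
  obtain ⟨p, q, I, s⟩ := x
  have h1 : bdL (GFi_lhL c (Finsupp.single (⟨p, q, I, s⟩ : Gen N) 1)) =
      bdC (⟨p + 1, q, Fin.cons (GFi_llam c q s) I, s⟩ : Gen N) +
        (-1 : ℤ) ^ (p + 1) • bdS (⟨p + 1, q, Fin.cons (GFi_llam c q s) I, s⟩ : Gen N) := by
    rw [GFi_lhL_single]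
    unfold bdL
    rw [Finsupp.linearCombination_single, one_smul]
    rfl
  have h2 : GFi_lhL c (bdL (Finsupp.single (⟨p, q, I, s⟩ : Gen N) 1)) =
      GFi_lhL c (bdC ⟨p, q, I, s⟩) + (-1 : ℤ) ^ p • GFi_lhL c (bdS ⟨p, q, I, s⟩) := by
    unfold bdL
    rw [Finsupp.linearCombination_single, one_smul]
    unfold AHI.bd
    rw [map_add, map_smul]
  have h3 := GFi_lC c p q I s
  have h4 := GFi_lS c p q I s
  change Finsupp.single _ 1 - (bdL (GFi_lhL c _) + GFi_lhL c (bdL _)) = _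
  rw [h1, h2]
  have h5 : bdC (⟨p + 1, q, Fin.cons (GFi_llam c q s) I, s⟩ : Gen N) +
        (-1 : ℤ) ^ (p + 1) • bdS (⟨p + 1, q, Fin.cons (GFi_llam c q s) I, s⟩ : Gen N) +
      (GFi_lhL c (bdC ⟨p, q, I, s⟩) + (-1 : ℤ) ^ p • GFi_lhL c (bdS ⟨p, q, I, s⟩)) =
      (Finsupp.single (⟨p, q, I, s⟩ : Gen N) 1 - GFi_lA c ⟨p, q, I, s⟩) +
        -((-1 : ℤ) ^ p • GFi_lB c ⟨p, q, I, s⟩) := by
    rw [← h3, ← h4]
    abel
  rw [h5]
  abel

/-- what has to be checked for the terms of `P x` -/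
private theorem GFi_lmem {c : ℝ} {T : Set (Gen N)} (x : Gen N)
    (hA : ∀ q (I : Fin 1 → Fin (N + 1)) (s : Simplex N q), x = ⟨0, q, I, s⟩ →
      (⟨0, q, fun _ => GFi_llam c q s, s⟩ : Gen N) ∈ T)
    (hB : ∀ p q (I : Fin (p + 1) → Fin (N + 1)) (s : Simplex N (q + 1)) (i : Fin (q + 2)),
      x = ⟨p, q + 1, I, s⟩ →
      (⟨p + 1, q, Fin.cons (GFi_llam c (q + 1) s) I, s ∘ face i⟩ : Gen N) ∈ T ∧
      (⟨p + 1, q, Fin.cons (GFi_llam c q (s ∘ face i)) I, s ∘ face i⟩ : Gen N) ∈ T) :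
    GFi_lP c (Finsupp.single x 1) ∈ Finsupp.supported ℤ ℤ T := by
  rw [GFi_lP_single]
  obtain ⟨p, q, I, s⟩ := x
  refine Submodule.add_mem _ ?_ (Submodule.smul_mem _ _ ?_)
  · cases p with
    | zero =>
      simp only [GFi_lA]
      exact Finsupp.single_mem_supported ℤ _ (hA q I s rfl)
    | succ p => exact Submodule.zero_mem _
  · cases q with
    | zero => exact Submodule.zero_mem _
    | succ q =>
      simp only [GFi_lB]
      refine Submodule.sum_mem _ fun i _ => Submodule.sub_mem _ ?_ ?_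
      · exact Finsupp.single_mem_supported ℤ _ (hB p q I s i rfl).1
      · exact Finsupp.single_mem_supported ℤ _ (hB p q I s i rfl).2

private theorem GFi_lmap {f : (Gen N →₀ ℤ) →ₗ[ℤ] (Gen N →₀ ℤ)} {S T : Set (Gen N)}
    (h : ∀ x ∈ S, f (Finsupp.single x 1) ∈ Finsupp.supported ℤ ℤ T) {z : Gen N →₀ ℤ}
    (hz : z ∈ Finsupp.supported ℤ ℤ S) : f z ∈ Finsupp.supported ℤ ℤ T := by
  rw [Finsupp.supported_eq_span_single] at hz
  induction hz using Submodule.span_induction with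
  | mem y hy =>
    obtain ⟨x, hx, rfl⟩ := hy
    exact h x hx
  | zero => rw [map_zero]; exact Submodule.zero_mem _
  | add a b _ _ ha hb => rw [map_add]; exact Submodule.add_mem _ ha hb
  | smul a b _ hb => rw [map_smul]; exact Submodule.smul_mem _ _ hb

private theorem GFi_lgood {c ε : ℝ} {z : Gen N →₀ ℤ} (n : ℕ) :
    z ∈ Finsupp.supported ℤ ℤ
        {y : Gen N | (CGood c y ∨ (SmallG c y ∧ y.2.1 < n)) ∧ FineM ε y} →
      ((GFi_lP c : (Gen N →₀ ℤ) → (Gen N →₀ ℤ))^[n]) z ∈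
        Finsupp.supported ℤ ℤ {y : Gen N | CGood c y ∧ FineM ε y} := by
  induction n generalizing z with
  | zero =>
    intro h
    refine Finsupp.supported_mono (fun y hy => ?_) h
    obtain ⟨hy | ⟨-, hy⟩, h'⟩ := hy
    · exact ⟨hy, h'⟩
    · exact absurd hy (Nat.not_lt_zero _)
  | succ n ih =>
    intro h
    rw [Function.iterate_succ_apply]
    refine ih (GFi_lmap (fun x hx => ?_) h)
    refine GFi_lmem x ?_ ?_
    · rintro q I s rfl
      obtain ⟨hx, hf⟩ := hx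
      refine ⟨Or.inl ?_, hf⟩
      intro t a
      refine GFi_llam_spec ?_ t
      rcases hx with hx | ⟨hx, -⟩
      · exact ⟨I 0, fun t => hx t 0⟩
      · exact hx
    · rintro p q I s i rfl
      obtain ⟨hx, hf⟩ := hx
      have hf1 : ∀ t t', ‖mtP (s (face i t)) - mtP (s (face i t'))‖ < ε := fun t t' =>
        hf (face i t) (face i t')
      rcases hx with hx | ⟨hx, hq⟩
      · have h1 : ∃ j, ∀ t, s t ∈ GG c j := ⟨I 0, fun t => hx t 0⟩
        constructor
        · refine ⟨Or.inl ?_, hf1⟩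
          intro t a
          refine Fin.cases ?_ (fun a => ?_) a
          · exact GFi_llam_spec h1 (face i t)
          · exact hx (face i t) a
        · refine ⟨Or.inl ?_, hf1⟩
          intro t a
          refine Fin.cases ?_ (fun a => ?_) a
          · exact GFi_llam_spec (s := s ∘ face i) ⟨I 0, fun t => hx (face i t) 0⟩ t
          · exact hx (face i t) a
      · obtain ⟨j, hj⟩ := hx
        have h2 : q < n := by
          have : q + 1 < n + 1 := hq
          omega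
        exact ⟨⟨Or.inr ⟨⟨j, fun t => hj (face i t)⟩, h2⟩, hf1⟩,
          ⟨Or.inr ⟨⟨j, fun t => hj (face i t)⟩, h2⟩, hf1⟩⟩

private theorem GFi_llift {F : Fin m → CPoly N} {c : ℝ} (hc : 0 < c) {p p' q : ℕ}
    {I : Fin (p + 1) → Fin (N + 1)} {s : Simplex N q} {v : (Fin (q + 1) → ℝ) → (Fin (N + 1) → ℂ)}
    (h : IsLift F I s v) {J : Fin (p' + 1) → Fin (N + 1)}
    (hJ : ∀ a, (∃ b, J a = I b) ∨ ∀ t, s t ∈ GG c (J a)) : IsLift F J s v := by
  refine ⟨h.smooth, h.onCone, fun t ht a => ?_, h.lifts⟩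
  rcases hJ a with ⟨b, hb⟩ | h1
  · rw [hb]
    exact h.inOpen t ht b
  · obtain ⟨h2, h3⟩ := h.lifts ⟨t, ht⟩
    have h4 := h1 ⟨t, ht⟩
    rw [h3, mk_mem_GG] at h4
    intro h5
    have h6 : ‖v (⟨t, ht⟩ : stdSimplex ℝ (Fin (q + 1))) (J a)‖ = 0 := by
      rw [norm_eq_zero]
      exact h5
    rw [h6] at h4
    have := mul_pos hc (en_pos h2)
    linarith

private theorem GFi_lPl {F : Fin m → CPoly N} {k : ℕ} {c : ℝ} (hc : 0 < c) {z : Gen N →₀ ℤ}
    (hz : z ∈ Finsupp.supported ℤ ℤ {y : Gen N | (Liftable F y ∧ y.1 + y.2.1 = 2 * k) ∧ SmallG c y}) :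
    GFi_lP c z ∈
      Finsupp.supported ℤ ℤ {y : Gen N | (Liftable F y ∧ y.1 + y.2.1 = 2 * k) ∧ SmallG c y} := by
  refine GFi_lmap (fun x hx => ?_) hz
  refine GFi_lmem x ?_ ?_
  · rintro q I s rfl
    obtain ⟨⟨⟨v, hv⟩, h1⟩, h2⟩ := hx
    refine ⟨⟨⟨v, GFi_llift hc hv fun a => Or.inr ?_⟩, h1⟩, h2⟩
    exact GFi_llam_spec h2
  · rintro p q I s i rfl
    obtain ⟨⟨⟨v, hv⟩, h1⟩, h2⟩ := hx
    obtain ⟨j, hj⟩ := h2
    have h3 : p + 1 + q = 2 * k := by
      have : p + (q + 1) = 2 * k := h1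
      omega
    refine ⟨⟨⟨⟨_, GFi_llift hc (AHI.IsLift.face hv i) fun a => ?_⟩, h3⟩, ⟨j, fun t => hj (face i t)⟩⟩,
      ⟨⟨⟨_, GFi_llift hc (AHI.IsLift.face hv i) fun a => ?_⟩, h3⟩, ⟨j, fun t => hj (face i t)⟩⟩⟩
    · refine Fin.cases ?_ (fun a => ?_) a
      · right
        intro t
        exact GFi_llam_spec (s := s) ⟨j, hj⟩ (face i t)
      · left
        exact ⟨a, rfl⟩
    · refine Fin.cases ?_ (fun a => ?_) a
      · right
        intro t
        exact GFi_llam_spec (s := s ∘ face i) ⟨j, fun t => hj (face i t)⟩ t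
      · left
        exact ⟨a, rfl⟩

private theorem GFi_lhl {F : Fin m → CPoly N} {k : ℕ} {c : ℝ} (hc : 0 < c) {w : FormCochain N}
    {W : Gen N → ℂ} (hW : IsPer F k w W) {z : Gen N →₀ ℤ}
    (hz : z ∈ Finsupp.supported ℤ ℤ {y : Gen N | (Liftable F y ∧ y.1 + y.2.1 = 2 * k) ∧ SmallG c y}) :
    evc W (bdL (GFi_lhL c z)) = 0 := by
  rw [Finsupp.supported_eq_span_single] at hz
  induction hz using Submodule.span_induction with
  | mem y hy =>
    obtain ⟨⟨p, q, I, s⟩, hx, rfl⟩ := hy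
    obtain ⟨⟨⟨v, hv⟩, h1⟩, h2⟩ := hx
    rw [GFi_lhL_single]
    unfold bdL
    rw [Finsupp.linearCombination_single, one_smul]
    refine hW.bd _ ⟨v, GFi_llift hc hv fun a => ?_⟩ ?_
    · refine Fin.cases ?_ (fun a => ?_) a
      · right
        exact GFi_llam_spec h2
      · left
        exact ⟨a, rfl⟩
    · have h3 : p + q = 2 * k := h1
      change p + 1 + q = 2 * k + 1
      omega
  | zero => simp
  | add a b _ _ ha hb => rw [map_add, map_add, map_add, ha, hb, add_zero]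
  | smul a b _ hb => rw [map_smul, map_smul, map_smul, hb, smul_zero]

private theorem GFi_liter {F : Fin m → CPoly N} {k : ℕ} {c : ℝ} (hc : 0 < c) (n : ℕ) {z : Gen N →₀ ℤ}
    (hz : z ∈ Finsupp.supported ℤ ℤ {y : Gen N | (Liftable F y ∧ y.1 + y.2.1 = 2 * k) ∧ SmallG c y})
    (hz0 : bdL z = 0) :
    ((GFi_lP c : (Gen N →₀ ℤ) → (Gen N →₀ ℤ))^[n]) z ∈
      Finsupp.supported ℤ ℤ {y : Gen N | (Liftable F y ∧ y.1 + y.2.1 = 2 * k) ∧ SmallG c y} ∧
    bdL (((GFi_lP c : (Gen N →₀ ℤ) → (Gen N →₀ ℤ))^[n]) z) = 0 ∧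
    ∀ (w : FormCochain N) (W : Gen N → ℂ), IsPer F k w W →
      evc W (((GFi_lP c : (Gen N →₀ ℤ) → (Gen N →₀ ℤ))^[n]) z) = evc W z := by
  induction n generalizing z with
  | zero => exact ⟨hz, hz0, fun _ _ _ => rfl⟩
  | succ n ih =>
    have hP : GFi_lP c z = z - bdL (GFi_lhL c z) := by
      change z - (bdL (GFi_lhL c z) + GFi_lhL c (bdL z)) = _
      rw [hz0, map_zero, add_zero]
    have h1 := GFi_lPl hc hz
    have h2 : bdL (GFi_lP c z) = 0 := by
      rw [hP, map_sub, hz0, bdL_bdL, sub_zero]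
    obtain ⟨h3, h4, h5⟩ := ih h1 h2
    rw [Function.iterate_succ_apply]
    refine ⟨h3, h4, fun w W hW => ?_⟩
    rw [h5 w W hW, hP, map_sub, GFi_lhl hc hW hz, sub_zero]

theorem exists_fine_cycle {F : Fin m → CPoly N} {k : ℕ} {c : ℝ} (hc : 0 < c)
    (hc' : c ^ 2 * (N + 1) < 1) {ε : ℝ} (hε : 0 < ε) {z : Gen N →₀ ℤ} (hz : IsCyc F k z) :
    ∃ z' : Gen N →₀ ℤ, IsCyc F k z' ∧ (∀ y ∈ z'.support, CGood c y ∧ FineM ε y) ∧
      ∀ (w : FormCochain N) (W : Gen N → ℂ), IsPer F k w W → evc W z' = evc W z := by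
  obtain ⟨z₁, h1, h2, h3⟩ := GFi_exists_small hc hc' hε hz
  have hs : z₁ ∈ Finsupp.supported ℤ ℤ
      {y : Gen N | (Liftable F y ∧ y.1 + y.2.1 = 2 * k) ∧ SmallG c y} := by
    rw [Finsupp.mem_supported]
    exact fun y hy => ⟨h1.lift y hy, (h2 y hy).1⟩
  have hg : z₁ ∈ Finsupp.supported ℤ ℤ
      {y : Gen N | (CGood c y ∨ (SmallG c y ∧ y.2.1 < 2 * k + 1)) ∧ FineM ε y} := by
    rw [Finsupp.mem_supported]
    intro y hy
    have := (h1.lift y hy).2
    exact ⟨Or.inr ⟨(h2 y hy).1, by omega⟩, (h2 y hy).2⟩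
  obtain ⟨h4, h5, h6⟩ := GFi_liter hc (2 * k + 1) hs h1.bd
  have h7 := GFi_lgood (2 * k + 1) hg
  refine ⟨_, ⟨fun y hy => ?_, h5⟩, fun y hy => ?_, fun w W hW => ?_⟩
  · exact ((Finsupp.mem_supported ℤ _).1 h4 hy).1
  · exact (Finsupp.mem_supported ℤ _).1 h7 hy
  · rw [h6 w W hW, h3 w W hW]

end Pool.Agent.AHE
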