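import Mathlib

/-!
# Global smooth functions with given germs along a compact set

Proof.  Let `K ⊆ U`, `U` open, `g` smooth on `U`.  Choose open `U'` with
`K ⊆ U' ⊆ closure U' ⊆ U`, `closure U'` compact (`exists_open_between_and_isCompact_closure`), and a smooth
function `χ : E → ℝ` with `χ = 1` on a neighbourhood of `K` (e.g. on `closure U''`) and `tsupport χ ⊆ U'`
(`exists_contDiff_tsupport_subset`-type lemmas are for points; for compact sets:
`exists_contMDiff_zero_iff_one_iff_of_isClosed`, `exists_smooth_zero_one_of_isClosed`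
(`exists_contMDiff_...`), or `exists_contDiff_...`).  Put `V = χ • g`.  It is smooth on `U` and zero
(hence smooth) on the complement of `tsupport χ`.
-/

namespace Pool.Agent.AHE

open Filter
open scoped Topology ContDiff

theorem exists_cut {E G : Type} [NormedAddCommGroup E] [NormedSpace ℝ E] [FiniteDimensional ℝ E]
    [NormedAddCommGroup G] [NormedSpace ℝ G] {K U : Set E} (hK : IsCompact K) (hU : IsOpen U)
    (hKU : K ⊆ U) {g : E → G} (hg : ContDiffOn ℝ ∞ g U) :
    ∃ V : E → G, ContDiff ℝ ∞ V ∧ ∀ᶠ x in 𝓝ˢ K, V x = g x := by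
  obtain ⟨f, h0, h1, -⟩ := exists_contMDiffMap_zero_one_nhds_of_isClosed (n := ⊤)
    (modelWithCornersSelf ℝ E) hU.isClosed_compl hK.isClosed
    (Set.disjoint_left.2 fun x hx hx' => hx (hKU hx'))
  have hf : ContDiff ℝ ∞ f := f.contMDiff.contDiff
  refine ⟨fun x => f x • g x, ?_, ?_⟩
  · rw [contDiff_iff_contDiffAt]
    intro x
    by_cases hx : x ∈ U
    · exact hf.contDiffAt.smul (hg.contDiffAt (hU.mem_nhds hx))
    · have h2 : ∀ᶠ y in 𝓝 x, f y = 0 := h0.filter_mono (nhds_le_nhdsSet hx)
      have h3 : (fun y => f y • g y) =ᶠ[𝓝 x] fun _ => (0 : G) := by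
        filter_upwards [h2] with y hy
        rw [hy, zero_smul]
      exact contDiffAt_const.congr_of_eventuallyEq h3
  · filter_upwards [h1] with x hx
    rw [hx, one_smul]

end Pool.Agent.AHE
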