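import Mathlib
import Pool.Agent.AHE.GDf
import Pool.Agent.AHE.CaImp

/-!
# The equations of the critical points and their implicit solution

`Gs X P i` are the equations of the critical points `z` for the matrix `M`, normalised by
`z i = 1`, with multipliers `c`, `b`: `M z - c z = ∑ a, b a * conj (∇ P a) (z)`, `z i = 1`, `P a (z) = 0`; the
coefficients of the polynomials are parameters `θ`.

Proof.  The map is smooth (`contDiff_ev`, `conj` is real linear).  At the base point `θ = inc X`,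
`M = mt z`, `(z, 1, 0)` with `z i = 1`, `P a (z) = 0` the value is `0` (`act_mt`).  The derivative in the
unknowns in the direction `(dz, dc, db)` is
`(act (mt z) dz - dz - dc z - ∑ a, db a * conj (∇ P a (z)), dz i, (∑ l, ∂_l P a (z) dz l)_a)`.
It is injective: suppose it vanishes.  Then `dz` is orthogonal to all `conj (∇ P a (z))` in the hermitian
sense (`∑ l, ∂_l P a (z) dz l = 0`), and so is `z` (Euler: `∑ l, z l ∂_l P a (z) = deg * P a (z) = 0`,
hypothesis `hE`).  `act (mt z) dz = (∑ l', conj (z l') dz l' / sq z) z` is a multiple of `z`.  So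
`n = ∑ a, db a conj (∇ P a (z))` is a combination of `z` and `dz`, both orthogonal to `n`
(`∑ l, n l * conj (z l) = conj ∑ ... = 0`); so `n = 0` (`∑ l, n l * conj (n l) = 0`) and
`db = 0` by linear independence (`nv_injective`).  Now `dz = (s - dc) z` for a number `s`, and `dz i = 0`,
`z i = 1` give `dz = 0`; then `s = 0` and `dc z = 0`, so `dc = 0`.
The implicit function theorem: as in `AHI/Impl.lean` (`exists_kappa`, `isInvertible_of_injective`) and
`AHU/Kap.lean`.  The effective computability of the components of the solution at all `x` near the base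
point: `ca_implicit` with `κ = X ⊕ (Fin (N + 1) × Fin (N + 1))` and
`ι = Fin (N + 1) ⊕ (Unit ⊕ Fin r)`; the components of `Gs` are effectively computable by `ca_ev`, `ca_conj`
(the coefficients are in `X`); the derivative in the unknowns stays injective near the base point
(invertibility is an open condition); the solution is continuous.  Transport along the linear
homeomorphisms between the function spaces and the products.
-/

namespace Pool.Agent.AHE

open MvPolynomial Pool.Agent.AHC Pool.Agent.AHI Pool.Agent.AHU Pool.Agent.EllPR Filter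
open scoped ContDiff ComplexConjugate Topology

variable {N m r : ℕ}

/-- the equations of the critical points -/
noncomputable def Gs (X : Finset ℂ) (P : Fin r → CPoly N) (i : Fin (N + 1)) :
    ((X → ℂ) × Mt N) × ((Fin (N + 1) → ℂ) × ℂ × (Fin r → ℂ)) →
      (Fin (N + 1) → ℂ) × ℂ × (Fin r → ℂ) := fun x =>
  (fun l => act x.1.2 x.2.1 l - x.2.2.1 * x.2.1 l -
      ∑ a, x.2.2.2 a * conj (ev (pderiv l (P a)) (AHI.ext X x.1.1) x.2.1),
    x.2.1 i - 1, fun a => ev (P a) (AHI.ext X x.1.1) x.2.1)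

/-- all components of `ν` are effectively computable at `x` -/
def CAM (X : Finset ℂ) (ν : (X → ℂ) × Mt N → (Fin (N + 1) → ℂ)) (x : (X → ℂ) × Mt N) : Prop :=
  ∀ l, CA ∅ (fun v : X ⊕ (Fin (N + 1) × Fin (N + 1)) → ℂ =>
    ν (fun a => v (Sum.inl a), fun k k' => v (Sum.inr (k, k'))) l)
    (Sum.elim x.1 fun p => x.2 p.1 p.2)

private theorem GIm_contDiff {k : WithTop ℕ∞} (X : Finset ℂ) (P : Fin r → CPoly N)
    (i : Fin (N + 1)) : ContDiff ℝ k (Gs X P i) := by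
  have h1 : ContDiff ℝ k fun x : ((X → ℂ) × Mt N) × ((Fin (N + 1) → ℂ) × ℂ × (Fin r → ℂ)) =>
      x.2.1 := contDiff_fst.comp contDiff_snd
  have h2 : ContDiff ℝ k fun x : ((X → ℂ) × Mt N) × ((Fin (N + 1) → ℂ) × ℂ × (Fin r → ℂ)) =>
      x.1.2 := contDiff_snd.comp contDiff_fst
  have h3 : ContDiff ℝ k fun x : ((X → ℂ) × Mt N) × ((Fin (N + 1) → ℂ) × ℂ × (Fin r → ℂ)) =>
      x.2.2.1 := contDiff_fst.comp (contDiff_snd.comp contDiff_snd)
  have h4 : ContDiff ℝ k fun x : ((X → ℂ) × Mt N) × ((Fin (N + 1) → ℂ) × ℂ × (Fin r → ℂ)) =>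
      x.2.2.2 := contDiff_snd.comp (contDiff_snd.comp contDiff_snd)
  have h5 : ContDiff ℝ k fun x : ((X → ℂ) × Mt N) × ((Fin (N + 1) → ℂ) × ℂ × (Fin r → ℂ)) =>
      ((x.1.1, x.2.1) : (X → ℂ) × (Fin (N + 1) → ℂ)) :=
    (contDiff_fst.comp contDiff_fst).prodMk h1
  have hM : ∀ l l', ContDiff ℝ k fun M : Mt N => M l l' := fun l l' =>
    (contDiff_apply ℝ ℂ l').comp (contDiff_apply ℝ (Fin (N + 1) → ℂ) l)
  unfold Gs
  refine ContDiff.prodMk ?_ (ContDiff.prodMk ?_ ?_)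
  · rw [contDiff_pi]
    intro l
    refine ContDiff.sub (ContDiff.sub ?_ ?_) ?_
    · unfold act
      refine ContDiff.sum fun l' _ => ?_
      exact ((hM l l').comp h2).mul ((contDiff_apply ℝ ℂ l').comp h1)
    · exact h3.mul ((contDiff_apply ℝ ℂ l).comp h1)
    · refine ContDiff.sum fun a _ => ?_
      refine ContDiff.mul ((contDiff_apply ℝ ℂ a).comp h4) ?_
      exact Complex.conjCLE.contDiff.comp ((contDiff_ev X (pderiv l (P a))).comp h5)
  · exact ((contDiff_apply ℝ ℂ i).comp h1).sub contDiff_const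
  · rw [contDiff_pi]
    intro a
    exact (contDiff_ev X (P a)).comp h5

private theorem GIm_act_mt (z dz : Fin (N + 1) → ℂ) (l : Fin (N + 1)) :
    act (mt z) dz l = (∑ l', conj (z l') * dz l') / (AHI.sq z : ℂ) * z l := by
  unfold act mt
  rw [Finset.sum_div, Finset.sum_mul]
  refine Finset.sum_congr rfl fun l' _ => ?_
  ring

/-- the algebra behind the injectivity of the derivative -/
private theorem GIm_alg {P : Fin r → CPoly N} {z : Fin (N + 1) → ℂ} {i : Fin (N + 1)}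
    (hi : z i = 1)
    (hli : LinearIndependent ℂ (fun (a : Fin r) (l : Fin (N + 1)) => eval z (pderiv l (P a))))
    (hE : ∀ a, ∑ l, eval z (pderiv l (P a)) * z l = 0)
    {dz : Fin (N + 1) → ℂ} {dc : ℂ} {db : Fin r → ℂ}
    (h1 : ∀ l, act (mt z) dz l - (dc * z l + dz l) - nv P z db l = 0) (h2 : dz i = 0)
    (h3 : ∀ a, ∑ l, eval z (pderiv l (P a)) * dz l = 0) : dz = 0 ∧ dc = 0 ∧ db = 0 := by
  set s : ℂ := (∑ l', conj (z l') * dz l') / (AHI.sq z : ℂ) with hs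
  have h4 : ∀ l, nv P z db l = (s - dc) * z l - dz l := by
    intro l
    have h5 := h1 l
    rw [GIm_act_mt, ← hs] at h5
    linear_combination -h5
  have h6 : nv P z db = 0 := by
    refine conj_mul_nv P z db fun b => ?_
    have h7 : ∀ l, eval z (pderiv l (P b)) * nv P z db l =
        (s - dc) * (eval z (pderiv l (P b)) * z l) - eval z (pderiv l (P b)) * dz l := by
      intro l
      rw [h4 l]
      ring
    simp only [h7]
    rw [Finset.sum_sub_distrib, ← Finset.mul_sum, hE b, h3 b, mul_zero, sub_zero]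
  have h8 : db = 0 := nv_injective hli h6
  have h9 : ∀ l, dz l = (s - dc) * z l := by
    intro l
    have h10 := h4 l
    rw [h6, Pi.zero_apply] at h10
    linear_combination h10
  have h11 : s - dc = 0 := by
    have h12 := h9 i
    rw [h2, hi, mul_one] at h12
    exact h12.symm
  have h13 : dz = 0 := by
    funext l
    rw [h9 l, h11, zero_mul]
    rfl
  have h14 : s = 0 := by
    rw [hs, h13]
    simp
  refine ⟨h13, ?_, h8⟩
  rw [h14] at h11
  simpa using h11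

private theorem GIm_fderiv {X : Finset ℂ} {P : Fin r → CPoly N} {z : Fin (N + 1) → ℂ}
    {i : Fin (N + 1)} (w : (Fin (N + 1) → ℂ) × ℂ × (Fin r → ℂ))
    (hw : fderiv ℝ (Gs X P i) ((inc X, mt z), (z, 1, 0)) (0, w) = 0) :
    (∀ l, act (mt z) w.1 l - (w.2.1 * z l + w.1 l) - nv P z w.2.2 l = 0) ∧ w.1 i = 0 ∧
      ∀ a, ∑ l, eval z (pderiv l (P a)) * w.1 l = 0 := by
  obtain ⟨dz, dc, db⟩ := w
  have h1 : HasFDerivAt (Gs X P i) (fderiv ℝ (Gs X P i) ((inc X, mt z), (z, 1, 0)))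
      ((inc X, mt z), (z, 1, 0)) :=
    (((GIm_contDiff (k := 1) X P i).differentiable (by norm_num)) _).hasFDerivAt
  have h2 : HasDerivAt (fun s : ℝ => ((((inc X, mt z), (z, 1, 0)) :
      ((X → ℂ) × Mt N) × ((Fin (N + 1) → ℂ) × ℂ × (Fin r → ℂ))) + s • ((0, (dz, dc, db)) :
      ((X → ℂ) × Mt N) × ((Fin (N + 1) → ℂ) × ℂ × (Fin r → ℂ)))))
      ((0, (dz, dc, db)) : ((X → ℂ) × Mt N) × ((Fin (N + 1) → ℂ) × ℂ × (Fin r → ℂ))) 0 := by
    have := ((hasDerivAt_id (0 : ℝ)).smul_const ((0, (dz, dc, db)) :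
      ((X → ℂ) × Mt N) × ((Fin (N + 1) → ℂ) × ℂ × (Fin r → ℂ)))).const_add
        (((inc X, mt z), (z, 1, 0)) :
          ((X → ℂ) × Mt N) × ((Fin (N + 1) → ℂ) × ℂ × (Fin r → ℂ)))
    simpa using this
  have h3 : HasFDerivAt (Gs X P i) (fderiv ℝ (Gs X P i) ((inc X, mt z), (z, 1, 0)))
      ((((inc X, mt z), (z, 1, 0)) :
      ((X → ℂ) × Mt N) × ((Fin (N + 1) → ℂ) × ℂ × (Fin r → ℂ))) + (0 : ℝ) • ((0, (dz, dc, db)) :
      ((X → ℂ) × Mt N) × ((Fin (N + 1) → ℂ) × ℂ × (Fin r → ℂ)))) := by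
    rw [zero_smul, add_zero]
    exact h1
  have h4 := h3.comp_hasDerivAt (0 : ℝ) h2
  rw [hw] at h4
  have hcurve : (Gs X P i ∘ fun s : ℝ => ((((inc X, mt z), (z, 1, 0)) :
      ((X → ℂ) × Mt N) × ((Fin (N + 1) → ℂ) × ℂ × (Fin r → ℂ))) + s • ((0, (dz, dc, db)) :
      ((X → ℂ) × Mt N) × ((Fin (N + 1) → ℂ) × ℂ × (Fin r → ℂ))))) = fun s : ℝ =>
      ((fun l => act (mt z) (fun j => z j + s * dz j) l - (1 + s * dc) * (z l + s * dz l) -
        ∑ a, (s * db a) * conj (eval (fun j => z j + s * dz j) (pderiv l (P a))),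
        z i + s * dz i - 1, fun a => eval (fun j => z j + s * dz j) (P a)) :
        (Fin (N + 1) → ℂ) × ℂ × (Fin r → ℂ)) := by
    funext s
    have e1 : ((((inc X, mt z), (z, 1, 0)) :
      ((X → ℂ) × Mt N) × ((Fin (N + 1) → ℂ) × ℂ × (Fin r → ℂ))) + s • ((0, (dz, dc, db)) :
      ((X → ℂ) × Mt N) × ((Fin (N + 1) → ℂ) × ℂ × (Fin r → ℂ)))) =
      ((inc X, mt z), ((fun j => z j + s * dz j), (1 + s * dc), fun a => s * db a)) := by
      ext <;> simp
    rw [Function.comp_apply, e1]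
    simp only [Gs, ev_inc]
  rw [hcurve] at h4
  have h5 : HasDerivAt (fun s : ℝ => (fun l => act (mt z) (fun j => z j + s * dz j) l -
      (1 + s * dc) * (z l + s * dz l) -
        ∑ a, (s * db a) * conj (eval (fun j => z j + s * dz j) (pderiv l (P a))) :
        Fin (N + 1) → ℂ)) 0 0 := h4.fst
  have h6 : HasDerivAt (fun s : ℝ => z i + s * dz i - 1) 0 0 := h4.snd.fst
  have h7 : HasDerivAt (fun s : ℝ => (fun a => eval (fun j => z j + s * dz j) (P a) :
      Fin r → ℂ)) 0 0 := h4.snd.snd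
  have hlin : ∀ c d : ℂ, HasDerivAt (fun s : ℝ => c + s * d) d 0 := by
    intro c d
    have h8 : HasDerivAt (fun s : ℝ => (s : ℂ)) 1 0 := Complex.ofRealCLM.hasDerivAt
    simpa using (h8.mul_const d).const_add c
  refine ⟨?_, ?_, ?_⟩
  · intro l
    have h9 := (hasDerivAt_pi.1 h5) l
    have h10 : HasDerivAt (fun s : ℝ => act (mt z) (fun j => z j + s * dz j) l -
        (1 + s * dc) * (z l + s * dz l) -
        ∑ a, (s * db a) * conj (eval (fun j => z j + s * dz j) (pderiv l (P a))))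
        (act (mt z) dz l - (dc * z l + dz l) - nv P z db l) 0 := by
      refine HasDerivAt.sub (HasDerivAt.sub ?_ ?_) ?_
      · unfold act
        exact HasDerivAt.fun_sum fun l' _ => (hlin (z l') (dz l')).const_mul (mt z l l')
      · have h11 := (hlin 1 dc).mul (hlin (z l) (dz l))
        have e : dc * (z l + ((0 : ℝ) : ℂ) * dz l) + (1 + ((0 : ℝ) : ℂ) * dc) * dz l =
            dc * z l + dz l := by
          push_cast
          ring
        rw [e] at h11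
        exact h11
      · unfold nv
        refine HasDerivAt.fun_sum fun a _ => ?_
        have h12 := hasDerivAt_eval_line (pderiv l (P a)) z dz 0
        have h13 := (hlin 0 (db a)).mul h12.star
        simp only [zero_add, Complex.ofReal_zero, zero_mul, add_zero] at h13
        exact h13
    have h11 := h9.unique h10
    exact h11.symm
  · have h8 := (hlin (z i) (dz i)).sub_const 1
    exact (h6.unique h8).symm
  · intro a
    have h9 := (hasDerivAt_pi.1 h7) a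
    have h12 := hasDerivAt_eval_line (P a) z dz 0
    have h13 := h9.unique h12
    simpa using h13.symm

private theorem GIm_ne {z : Fin (N + 1) → ℂ} {i : Fin (N + 1)} (hi : z i = 1) : z ≠ 0 := by
  intro h
  rw [h, Pi.zero_apply] at hi
  exact zero_ne_one hi

private theorem GIm_inv (X : Finset ℂ) {P : Fin r → CPoly N} {z : Fin (N + 1) → ℂ}
    {i : Fin (N + 1)} (hi : z i = 1)
    (hli : LinearIndependent ℂ (fun (a : Fin r) (l : Fin (N + 1)) => eval z (pderiv l (P a))))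
    (hE : ∀ a, ∑ l, eval z (pderiv l (P a)) * z l = 0) :
    (fderiv ℝ (Gs X P i) ((inc X, mt z), (z, 1, 0)) ∘L
      .inr ℝ ((X → ℂ) × Mt N) ((Fin (N + 1) → ℂ) × ℂ × (Fin r → ℂ))).IsInvertible := by
  refine isInvertible_of_injective _ fun w hw => ?_
  have h1 : fderiv ℝ (Gs X P i) ((inc X, mt z), (z, 1, 0)) (0, w) = 0 := by
    simpa using hw
  obtain ⟨h2, h3, h4⟩ := GIm_fderiv w h1
  obtain ⟨h5, h6, h7⟩ := GIm_alg hi hli hE h2 h3 h4
  obtain ⟨dz, dc, db⟩ := w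
  simp only at h5 h6 h7
  rw [h5, h6, h7]
  rfl

private theorem GIm_zero {X : Finset ℂ} {P : Fin r → CPoly N} {z : Fin (N + 1) → ℂ}
    {i : Fin (N + 1)} (hi : z i = 1) (h0 : ∀ a, eval z (P a) = 0) :
    Gs X P i ((inc X, mt z), (z, 1, 0)) = 0 := by
  have h1 := act_mt (GIm_ne hi)
  simp only [Gs, ev_inc, h1, hi, h0, Pi.zero_apply, zero_mul, Finset.sum_const_zero,
    one_mul, sub_self]
  rfl

/-- parameters -/
private noncomputable def GIm_A (N : ℕ) (X : Finset ℂ) :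
    (X ⊕ (Fin (N + 1) × Fin (N + 1)) → ℂ) →L[ℝ] (X → ℂ) × Mt N :=
  (ContinuousLinearMap.pi fun a : X => ContinuousLinearMap.proj (R := ℝ)
    (φ := fun _ : X ⊕ (Fin (N + 1) × Fin (N + 1)) => ℂ) (Sum.inl a)).prod
  (ContinuousLinearMap.pi fun k : Fin (N + 1) => ContinuousLinearMap.pi fun k' : Fin (N + 1) =>
    ContinuousLinearMap.proj (R := ℝ)
    (φ := fun _ : X ⊕ (Fin (N + 1) × Fin (N + 1)) => ℂ) (Sum.inr (k, k')))

/-- unknowns -/
private noncomputable def GIm_B (N r : ℕ) :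
    (Fin (N + 1) ⊕ (Unit ⊕ Fin r) → ℂ) →L[ℝ] (Fin (N + 1) → ℂ) × ℂ × (Fin r → ℂ) :=
  (ContinuousLinearMap.pi fun a : Fin (N + 1) => ContinuousLinearMap.proj (R := ℝ)
    (φ := fun _ : Fin (N + 1) ⊕ (Unit ⊕ Fin r) => ℂ) (Sum.inl a)).prod
  ((ContinuousLinearMap.proj (R := ℝ)
    (φ := fun _ : Fin (N + 1) ⊕ (Unit ⊕ Fin r) => ℂ) (Sum.inr (Sum.inl ()))).prod
  (ContinuousLinearMap.pi fun a : Fin r => ContinuousLinearMap.proj (R := ℝ)
    (φ := fun _ : Fin (N + 1) ⊕ (Unit ⊕ Fin r) => ℂ) (Sum.inr (Sum.inr a))))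

/-- back to the unknowns -/
private noncomputable def GIm_Bi (N r : ℕ) :
    (Fin (N + 1) → ℂ) × ℂ × (Fin r → ℂ) →L[ℝ] (Fin (N + 1) ⊕ (Unit ⊕ Fin r) → ℂ) :=
  ContinuousLinearMap.pi fun k => match k with
    | Sum.inl l => (ContinuousLinearMap.proj (R := ℝ) (φ := fun _ : Fin (N + 1) => ℂ) l).comp
        (ContinuousLinearMap.fst ℝ (Fin (N + 1) → ℂ) (ℂ × (Fin r → ℂ)))
    | Sum.inr (Sum.inl _) => (ContinuousLinearMap.fst ℝ ℂ (Fin r → ℂ)).comp
        (ContinuousLinearMap.snd ℝ (Fin (N + 1) → ℂ) (ℂ × (Fin r → ℂ)))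
    | Sum.inr (Sum.inr a) => (ContinuousLinearMap.proj (R := ℝ) (φ := fun _ : Fin r => ℂ) a).comp
        ((ContinuousLinearMap.snd ℝ ℂ (Fin r → ℂ)).comp
        (ContinuousLinearMap.snd ℝ (Fin (N + 1) → ℂ) (ℂ × (Fin r → ℂ))))

private theorem GIm_B_Bi (w : (Fin (N + 1) → ℂ) × ℂ × (Fin r → ℂ)) :
    GIm_B N r (GIm_Bi N r w) = w := rfl

private theorem GIm_Bi_B (w : Fin (N + 1) ⊕ (Unit ⊕ Fin r) → ℂ) :
    GIm_Bi N r (GIm_B N r w) = w := by
  funext k
  rcases k with l | (u | a)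
  · rfl
  · rfl
  · rfl

/-- parameters and unknowns -/
private noncomputable def GIm_AB (N r : ℕ) (X : Finset ℂ) :
    ((X ⊕ (Fin (N + 1) × Fin (N + 1))) ⊕ (Fin (N + 1) ⊕ (Unit ⊕ Fin r)) → ℂ) →L[ℝ]
      ((X → ℂ) × Mt N) × ((Fin (N + 1) → ℂ) × ℂ × (Fin r → ℂ)) :=
  ((GIm_A N X).comp (ContinuousLinearMap.pi fun k => ContinuousLinearMap.proj (R := ℝ)
    (φ := fun _ : (X ⊕ (Fin (N + 1) × Fin (N + 1))) ⊕ (Fin (N + 1) ⊕ (Unit ⊕ Fin r)) => ℂ)
    (Sum.inl k))).prod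
  ((GIm_B N r).comp (ContinuousLinearMap.pi fun k => ContinuousLinearMap.proj (R := ℝ)
    (φ := fun _ : (X ⊕ (Fin (N + 1) × Fin (N + 1))) ⊕ (Fin (N + 1) ⊕ (Unit ⊕ Fin r)) => ℂ)
    (Sum.inr k)))

private theorem GIm_AB_elim {X : Finset ℂ} (p : X ⊕ (Fin (N + 1) × Fin (N + 1)) → ℂ)
    (w : Fin (N + 1) ⊕ (Unit ⊕ Fin r) → ℂ) :
    GIm_AB N r X (Sum.elim p w) = (GIm_A N X p, GIm_B N r w) := rfl

private theorem GIm_ca {X : Finset ℂ} {P : Fin r → CPoly N} {i : Fin (N + 1)}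
    (hP : ∀ a, (P a).coeffs ⊆ X) (hd : ∀ a l, (pderiv l (P a)).coeffs ⊆ X)
    (v0 : (X ⊕ (Fin (N + 1) × Fin (N + 1))) ⊕ (Fin (N + 1) ⊕ (Unit ⊕ Fin r)) → ℂ)
    (k : Fin (N + 1) ⊕ (Unit ⊕ Fin r)) :
    CA ∅ (fun v => GIm_Bi N r (Gs X P i (GIm_AB N r X v)) k) v0 := by
  rcases k with l | (u | a)
  · change CA ∅ (fun v => (∑ l', v (Sum.inl (Sum.inr (l, l'))) * v (Sum.inr (Sum.inl l'))) -
      v (Sum.inr (Sum.inr (Sum.inl ()))) * v (Sum.inr (Sum.inl l)) -
      ∑ a, v (Sum.inr (Sum.inr (Sum.inr a))) *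
        conj (ev (pderiv l (P a)) (AHI.ext X fun x => v (Sum.inl (Sum.inl x)))
          fun l => v (Sum.inr (Sum.inl l)))) v0
    refine CA.sub (CA.sub (CA.sum _ fun l' _ => ?_) ?_) (CA.sum _ fun a _ => ?_)
    · exact (CA.proj _ _).mul (CA.proj _ _)
    · exact (CA.proj _ _).mul (CA.proj _ _)
    · exact (CA.proj _ _).mul (ca_conj (ca_ev (hd a l) (fun x => CA.proj _ _)
        (fun l => CA.proj _ _)))
  · change CA ∅ (fun v => v (Sum.inr (Sum.inl i)) - 1) v0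
    exact (CA.proj _ _).sub (CA.const IsPR.one _)
  · change CA ∅ (fun v => ev (P a) (AHI.ext X fun x => v (Sum.inl (Sum.inl x)))
          fun l => v (Sum.inr (Sum.inl l))) v0
    exact ca_ev (hP a) (fun x => CA.proj _ _) (fun l => CA.proj _ _)

theorem exists_zeta {X : Finset ℂ} {P : Fin r → CPoly N} {z : Fin (N + 1) → ℂ} {i : Fin (N + 1)}
    (hi : z i = 1) (hP : ∀ a, (P a).coeffs ⊆ X) (hd : ∀ a l, (pderiv l (P a)).coeffs ⊆ X)
    (hli : LinearIndependent ℂ (fun (a : Fin r) (l : Fin (N + 1)) => eval z (pderiv l (P a))))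
    (h0 : ∀ a, eval z (P a) = 0) (hE : ∀ a, ∑ l, eval z (pderiv l (P a)) * z l = 0) :
    ∃ ζ : (X → ℂ) × Mt N → (Fin (N + 1) → ℂ) × ℂ × (Fin r → ℂ),
      (∀ᶠ x in 𝓝 (inc X, mt z), ContDiffAt ℝ ω ζ x) ∧ ζ (inc X, mt z) = (z, 1, 0) ∧
      (∀ᶠ x in 𝓝 (inc X, mt z), Gs X P i (x, ζ x) = 0) ∧
      (∀ᶠ y in 𝓝 ((inc X, mt z), ((z, 1, 0) : (Fin (N + 1) → ℂ) × ℂ × (Fin r → ℂ))),
        Gs X P i y = 0 ↔ ζ y.1 = y.2) ∧
      ∀ᶠ x in 𝓝 (inc X, mt z), CAM X (fun x => (ζ x).1) x := by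
  have hu := GIm_zero (X := X) hi h0
  have cdf : ContDiffAt ℝ ω (Gs X P i) ((inc X, mt z), (z, 1, 0)) :=
    (GIm_contDiff X P i).contDiffAt
  have pn : (ω : WithTop ℕ∞) ≠ 0 := by simp
  have hinv := GIm_inv X hi hli hE
  have key1 : ∀ᶠ x in 𝓝 (inc X, mt z), ContDiffAt ℝ ω (cdf.implicitFunction pn hinv) x :=
    (cdf.contDiffAt_implicitFunction pn hinv).eventually (by simp)
  have key2 : cdf.implicitFunction pn hinv (inc X, mt z) = (z, 1, 0) :=
    cdf.implicitFunction_apply_self pn hinv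
  have key3 : ∀ᶠ x in 𝓝 (inc X, mt z), Gs X P i (x, cdf.implicitFunction pn hinv x) = 0 := by
    have h := cdf.eventually_apply_implicitFunction pn hinv
    rw [hu] at h
    exact h
  have key4 : ∀ᶠ y in 𝓝 ((inc X, mt z), ((z, 1, 0) : (Fin (N + 1) → ℂ) × ℂ × (Fin r → ℂ))),
        Gs X P i y = 0 ↔ cdf.implicitFunction pn hinv y.1 = y.2 := by
    have h := cdf.eventually_apply_eq_iff_implicitFunction pn hinv
    rw [hu] at h
    exact h
  obtain ⟨ζ, hζ⟩ : ∃ ζ, ζ = cdf.implicitFunction pn hinv := ⟨_, rfl⟩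
  rw [← hζ] at key1 key2 key3 key4
  refine ⟨ζ, key1, key2, key3, key4, ?_⟩
  have hcont : Continuous fun y : ((X → ℂ) × Mt N) × ((Fin (N + 1) → ℂ) × ℂ × (Fin r → ℂ)) =>
      fderiv ℝ (Gs X P i) y ∘L
        .inr ℝ ((X → ℂ) × Mt N) ((Fin (N + 1) → ℂ) × ℂ × (Fin r → ℂ)) :=
    ((GIm_contDiff (k := 1) X P i).continuous_fderiv (by norm_num)).clm_comp continuous_const
  have hζc : ContinuousAt ζ (inc X, mt z) := key1.self_of_nhds.continuousAt
  have ht : Tendsto (fun x : (X → ℂ) × Mt N => (x, ζ x))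
      (𝓝 (inc X, mt z)) (𝓝 ((inc X, mt z), ((z, 1, 0) :
        (Fin (N + 1) → ℂ) × ℂ × (Fin r → ℂ)))) := by
    have h4 : Tendsto ζ (𝓝 (inc X, mt z)) (𝓝 ((z, 1, 0) :
        (Fin (N + 1) → ℂ) × ℂ × (Fin r → ℂ))) := by
      have := hζc.tendsto
      rwa [key2] at this
    exact tendsto_id.prodMk_nhds h4
  have hopen : ∀ᶠ x in 𝓝 (inc X, mt z), (fderiv ℝ (Gs X P i) (x, ζ x) ∘L
      .inr ℝ ((X → ℂ) × Mt N) ((Fin (N + 1) → ℂ) × ℂ × (Fin r → ℂ))).IsInvertible := by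
    have h5 : {f : ((Fin (N + 1) → ℂ) × ℂ × (Fin r → ℂ)) →L[ℝ]
        ((Fin (N + 1) → ℂ) × ℂ × (Fin r → ℂ)) | f.IsInvertible} ∈
        𝓝 (fderiv ℝ (Gs X P i) ((inc X, mt z), (z, 1, 0)) ∘L
          .inr ℝ ((X → ℂ) × Mt N) ((Fin (N + 1) → ℂ) × ℂ × (Fin r → ℂ))) :=
      ContinuousLinearEquiv.isOpen.mem_nhds hinv
    exact (hcont.continuousAt.tendsto.comp ht).eventually h5
  filter_upwards [key1, key3.eventually_nhds, hopen] with x hx1 hx2 hx3
  intro l
  obtain ⟨p0, hp0⟩ : ∃ p0 : X ⊕ (Fin (N + 1) × Fin (N + 1)) → ℂ,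
    p0 = Sum.elim x.1 fun p => x.2 p.1 p.2 := ⟨_, rfl⟩
  have hA0 : GIm_A N X p0 = x := by
    rw [hp0]
    rfl
  rw [← hp0]
  have hpt : GIm_AB N r X (Sum.elim p0 (GIm_Bi N r (ζ (GIm_A N X p0)))) = (x, ζ x) := by
    rw [GIm_AB_elim, GIm_B_Bi, hA0]
  have hL1 : HasStrictFDerivAt (Gs X P i) (fderiv ℝ (Gs X P i)
      (GIm_AB N r X (Sum.elim p0 (GIm_Bi N r (ζ (GIm_A N X p0))))))
      (GIm_AB N r X (Sum.elim p0 (GIm_Bi N r (ζ (GIm_A N X p0))))) :=
    (GIm_contDiff (k := 1) X P i).contDiffAt.hasStrictFDerivAt (by norm_num)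
  have hL2 := (GIm_Bi N r).hasStrictFDerivAt.comp
    (Sum.elim p0 (GIm_Bi N r (ζ (GIm_A N X p0))))
    (hL1.comp (Sum.elim p0 (GIm_Bi N r (ζ (GIm_A N X p0)))) (GIm_AB N r X).hasStrictFDerivAt)
  have hres := ca_implicit (O := ∅)
    (G := fun v => GIm_Bi N r (Gs X P i (GIm_AB N r X v)))
    (u := fun p => GIm_Bi N r (ζ (GIm_A N X p))) (p0 := p0)
    (fun k => GIm_ca hP hd _ k) hL2 ?_ ?_ ?_ (Sum.inl l)
  · exact hres
  · intro v hv
    rw [hpt] at hv
    have h1 : GIm_Bi N r (fderiv ℝ (Gs X P i) (x, ζ x) (0, GIm_B N r v)) = 0 := by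
      have h2 : GIm_AB N r X (Sum.elim 0 v) = (0, GIm_B N r v) := by
        rw [GIm_AB_elim, map_zero]
      rw [← h2]
      exact hv
    have h3 : fderiv ℝ (Gs X P i) (x, ζ x) (0, GIm_B N r v) = 0 := by
      have h4 := congrArg (GIm_B N r) h1
      rwa [GIm_B_Bi, map_zero] at h4
    obtain ⟨e, he⟩ := hx3
    have h5 : (e : ((Fin (N + 1) → ℂ) × ℂ × (Fin r → ℂ)) →L[ℝ]
        ((Fin (N + 1) → ℂ) × ℂ × (Fin r → ℂ))) (GIm_B N r v) = 0 := by
      rw [he]
      simpa using h3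
    have h6 : GIm_B N r v = 0 := by simpa using h5
    rw [← GIm_Bi_B v, h6, map_zero]
  · have h1 : ContinuousAt ζ (GIm_A N X p0) := by
      rw [hA0]
      exact hx1.continuousAt
    have h2 : ContinuousAt (fun p => ζ (GIm_A N X p)) p0 :=
      ContinuousAt.comp (g := ζ) (f := fun p => GIm_A N X p) h1
        (GIm_A N X).continuous.continuousAt
    exact (GIm_Bi N r).continuous.continuousAt.comp h2
  · have h1 : Tendsto (fun p => GIm_A N X p) (𝓝 p0) (𝓝 x) := by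
      have h2 := (GIm_A N X).continuous.tendsto p0
      rwa [hA0] at h2
    filter_upwards [h1.eventually hx2] with p hp
    rw [GIm_AB_elim, GIm_B_Bi, hp, map_zero]

end Pool.Agent.AHE
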