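import Mathlib
import Pool.Agent.AHE.GIm

/-!
# Critical points: local existence and uniqueness

`hX : Covers2 X F C`: the coefficients of the equations, of their derivatives and of `C.h` are in `X`.
`C.P a = F (C.j a)` are the chosen equations.

Proof.  Choose `i` with `z i ≠ 0` and put `z₁ = (z i)⁻¹ • z`, so `z₁ i = 1`, `mt z₁ = mt z`; the chosen
equations are homogeneous, so they vanish at `z₁`, Euler's relation holds (`∑ l, z l ∂_l P = deg * P`:
Mathlib `MvPolynomial.IsHomogeneous` Euler identity, or differentiate `P (s z) = s^d P z`, compare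
`AHI` files), and the gradients at `z₁` are nonzero multiples of the gradients at `z`, hence linearly
independent.  Let `ζ` be given by `exists_zeta` at `z₁`.  The polynomial `C.h` need not be homogeneous and
may vanish at `z₁`; so choose a Gaussian rational `q ≠ 0` so near to `z i` that
`eval (q • z₁) C.h ≠ 0`, and put `ν x = q • (ζ x).1` (a Gaussian rational, so that `ν` is effectively
computable: `CA.mul`, `isPR_val`).

`local_exM`: for `β` with `res X β = x.1` the vector `z' = (ζ x).1` satisfies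
`ev (P a) (ext X (res X β)) z' = 0`, i.e. the conjugate equations `C.j a` vanish at `z'` (`ev_res`), hence at
`ν x = q • z'` (homogeneous), and `eval (ν x) (map β C.h) ≠ 0`, so `ν x` is on the conjugate cone by
`onCone_of_chosen`.  The vector `act M z' - c z' = ∑ a, b a * conj (∇ (conj. equation C.j a) (z'))` is in
`Nrm (conjEqs β F) z'` (span of all gradients); `pderiv` commutes with `map` (`pderiv_map`).
By `rm_smul` the critical property passes to `ν x`.  `mt (ν x) - M` is small by continuity.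

`local_unM`: let `ζ'` be any critical vector for `(β, M)` near the base point with `mt ζ'` near
`mt z`; its coordinate `i` is nonzero; normalise it by `ζ' i = 1` (`rm_smul`, `mt_smul`); then
`ζ' = (mt ζ' l i / mt ζ' i i)_l` is near `z₁`.  The multiplier `c`: pairing
`act M ζ' - c ζ'` with `ζ'` (hermitian) gives `∑ l, act M ζ' l * conj (ζ' l) = c * sq ζ'`, since the normal
vectors are orthogonal to `ζ'` (Euler, homogeneous equations, `OnCone`); so `c` is near `1`.  By
`exists_nv_of_mem` (for the conjugate equations, with the conjugate certificate; `q • ζ'` is near `q • z₁`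
where `C.h` does not vanish) the normal vector is `∑ a, b a conj (∇ P a)` with unique `b`, bounded by
`K ‖act M ζ' - c ζ'‖` (`nv_bound`-type estimate, uniform in `θ`: see `Kap_nw_bound` in `AHU/Kap.lean`), so
`b` is near `0`.  By the uniqueness part of `exists_zeta`, `ζ'` is determined by `(res X β, M)`.
Make all this precise with `∀ᶠ` or with sequences.  (Compare `local_unique2` in `AHU/Kap.lean`.)
-/

namespace Pool.Agent.AHE

open MvPolynomial Pool.Agent.AHC Pool.Agent.AHI Pool.Agent.AHU Pool.Agent.EllPR Filter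
open scoped ContDiff ComplexConjugate Topology

variable {N m : ℕ}

/-- Euler's relation at a zero -/
private theorem GLo_euler {P : CPoly N} {d : ℕ} (hP : P.IsHomogeneous d) {w : Fin (N + 1) → ℂ}
    (h0 : eval w P = 0) : ∑ l, eval w (pderiv l P) * w l = 0 := by
  have h1 := hasDerivAt_eval_line P w w 0
  have h2 : (fun s : ℝ => eval (fun i => w i + s * w i) P) = fun _ => 0 := by
    funext s
    have h3 : (fun i => w i + (s : ℂ) * w i) = (1 + (s : ℂ)) • w := by
      funext i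
      simp only [Pi.smul_apply, smul_eq_mul]
      ring
    rw [h3, eval_smul_of_homogeneous hP, h0, mul_zero]
  rw [h2] at h1
  have h4 := h1.unique (hasDerivAt_const (0 : ℝ) (0 : ℂ))
  simpa using h4

private theorem GLo_li {r : ℕ} {P : Fin r → CPoly N} (hP : ∀ a, ∃ d, (P a).IsHomogeneous d)
    {z : Fin (N + 1) → ℂ} {c : ℂ} (hc : c ≠ 0)
    (hli : LinearIndependent ℂ (fun (a : Fin r) (l : Fin (N + 1)) => eval z (pderiv l (P a)))) :
    LinearIndependent ℂ
      (fun (a : Fin r) (l : Fin (N + 1)) => eval (c • z) (pderiv l (P a))) := by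
  choose d hd using hP
  have h1 : (fun (a : Fin r) (l : Fin (N + 1)) => eval (c • z) (pderiv l (P a))) =
      (fun a => Units.mk0 (c ^ (d a - 1)) (pow_ne_zero _ hc)) •
        (fun (a : Fin r) (l : Fin (N + 1)) => eval z (pderiv l (P a))) := by
    funext a l
    rw [eval_smul_of_homogeneous (hd a).pderiv]
    rfl
  rw [h1]
  exact hli.units_smul _

/-- the conjugate certificate -/
private noncomputable def GLo_cert {F : Fin m → CPoly N} (C : Cert F) (β : ℂ ≃+* ℂ) :
    Cert (conjEqs β F) where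
  r := C.r
  j := C.j
  h := MvPolynomial.map (β : ℂ →+* ℂ) C.h
  A := fun i a => MvPolynomial.map (β : ℂ →+* ℂ) (C.A i a)
  eq := fun i => by
    have h1 := congrArg (MvPolynomial.map (β : ℂ →+* ℂ)) (C.eq i)
    simp only [map_sum, map_mul] at h1
    exact h1

private theorem GLo_nw_res {F : Fin m → CPoly N} (C : Cert F) {X : Finset ℂ}
    (hX : Covers2 X F C) (β : ℂ ≃+* ℂ) (z : Fin (N + 1) → ℂ) (c : Fin C.r → ℂ) :
    nw X C.P (res X β) z c = nv (GLo_cert C β).P z c := by
  funext l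
  simp only [nw, nv, GLo_cert, Cert.P, conjEqs]
  refine Finset.sum_congr rfl fun a _ => ?_
  rw [ev_res β (hX.d _ _), pderiv_map]

/-- small normal vectors have small coefficients -/
private theorem GLo_nw_bound {r : ℕ} (X : Finset ℂ) {P : Fin r → CPoly N}
    {z : Fin (N + 1) → ℂ}
    (hli : LinearIndependent ℂ (fun (a : Fin r) (l : Fin (N + 1)) => eval z (pderiv l (P a)))) :
    ∃ K : ℝ, 0 < K ∧ ∀ᶠ y : (X → ℂ) × (Fin (N + 1) → ℂ) in 𝓝 (inc X, z),
      ∀ c : Fin r → ℂ, ‖c‖ ≤ K * ‖nw X P y.1 y.2 c‖ := by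
  let L : (Fin r → ℂ) →ₗ[ℂ] (Fin (N + 1) → ℂ) :=
    { toFun := nv P z
      map_add' := fun c d => by
        funext l
        simp only [nv, Pi.add_apply, add_mul, Finset.sum_add_distrib]
      map_smul' := fun a c => by
        funext l
        simp only [nv, Pi.smul_apply, smul_eq_mul, Finset.mul_sum, mul_assoc, RingHom.id_apply] }
  have hL : LinearMap.ker L = ⊥ := by
    rw [LinearMap.ker_eq_bot']
    intro c hc
    exact nv_injective hli hc
  obtain ⟨K, hK0, hK⟩ := L.exists_antilipschitzWith hL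
  have hK' : ∀ c, ‖c‖ ≤ K * ‖nv P z c‖ := by
    intro c
    have := hK.le_mul_dist c 0
    simpa [L, nv_zero] using this
  have hKpos : (0 : ℝ) < K := hK0
  have hc : ∀ (l : Fin (N + 1)) (a : Fin r), ∀ᶠ y : (X → ℂ) × (Fin (N + 1) → ℂ) in
      𝓝 (inc X, z),
      ‖conj (ev (pderiv l (P a)) (AHI.ext X y.1) y.2) - conj (eval z (pderiv l (P a)))‖ <
        1 / (2 * K * (r + 1)) := by
    intro l a
    have h1 : ContinuousAt (fun y : (X → ℂ) × (Fin (N + 1) → ℂ) =>
        conj (ev (pderiv l (P a)) (AHI.ext X y.1) y.2)) (inc X, z) :=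
      (Complex.continuous_conj.comp (contDiff_ev (k := 0) X _).continuous).continuousAt
    have h2 := Metric.tendsto_nhds.1 h1 (1 / (2 * K * (r + 1))) (by positivity)
    simpa [dist_eq_norm, ev_inc] using h2
  refine ⟨2 * K, by positivity, ?_⟩
  have hc' : ∀ᶠ y : (X → ℂ) × (Fin (N + 1) → ℂ) in 𝓝 (inc X, z),
      ∀ (l : Fin (N + 1)) (a : Fin r),
      ‖conj (ev (pderiv l (P a)) (AHI.ext X y.1) y.2) - conj (eval z (pderiv l (P a)))‖ <
        1 / (2 * K * (r + 1)) := by
    rw [Filter.eventually_all]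
    intro l
    rw [Filter.eventually_all]
    exact hc l
  filter_upwards [hc'] with y hy c
  have h3 : ‖nw X P y.1 y.2 c - nv P z c‖ ≤ 1 / (2 * K) * ‖c‖ := by
    rw [pi_norm_le_iff_of_nonneg (by positivity)]
    intro l
    have h4 : (nw X P y.1 y.2 c - nv P z c) l =
        ∑ a, c a * (conj (ev (pderiv l (P a)) (AHI.ext X y.1) y.2) -
          conj (eval z (pderiv l (P a)))) := by
      simp only [nw, nv, Pi.sub_apply, mul_sub, Finset.sum_sub_distrib]
    rw [h4]
    calc ‖∑ a, c a * (conj (ev (pderiv l (P a)) (AHI.ext X y.1) y.2) -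
          conj (eval z (pderiv l (P a))))‖
        ≤ ∑ a : Fin r, ‖c‖ * (1 / (2 * K * (r + 1))) := by
          refine (norm_sum_le _ _).trans (Finset.sum_le_sum fun a _ => ?_)
          rw [norm_mul]
          exact mul_le_mul (norm_le_pi_norm c a) (hy l a).le (norm_nonneg _) (norm_nonneg _)
      _ = ‖c‖ * (r / (2 * K * (r + 1))) := by
          rw [Finset.sum_const, Finset.card_univ, Fintype.card_fin, nsmul_eq_mul]
          ring
      _ ≤ 1 / (2 * K) * ‖c‖ := by
          rw [mul_comm]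
          refine mul_le_mul_of_nonneg_right ?_ (norm_nonneg _)
          rw [div_le_div_iff₀ (by positivity) (by positivity)]
          nlinarith
  have h5 : ‖nv P z c‖ ≤ ‖nw X P y.1 y.2 c‖ + 1 / (2 * K) * ‖c‖ := by
    have h6 : ‖nv P z c‖ ≤ ‖nw X P y.1 y.2 c‖ + ‖nw X P y.1 y.2 c - nv P z c‖ := by
      have := norm_sub_norm_le (nv P z c) (nw X P y.1 y.2 c)
      rw [norm_sub_rev] at this
      linarith
    linarith
  have h7 : K * ‖nv P z c‖ ≤ K * ‖nw X P y.1 y.2 c‖ + 1 / 2 * ‖c‖ := by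
    have h8 := mul_le_mul_of_nonneg_left h5 hKpos.le
    have h9 : (K : ℝ) * (‖nw X P y.1 y.2 c‖ + 1 / (2 * K) * ‖c‖) =
        K * ‖nw X P y.1 y.2 c‖ + 1 / 2 * ‖c‖ := by
      field_simp
    linarith
  have h10 := hK' c
  linarith

/-- normal vectors are orthogonal to the vector -/
private theorem GLo_orth {F : Fin m → CPoly N} (hF : ∀ i, ∃ d, (F i).IsHomogeneous d)
    {w n : Fin (N + 1) → ℂ} (hw : OnCone F w) (hn : n ∈ Nrm F w) :
    ∑ l, n l * conj (w l) = 0 := by
  induction hn using Submodule.span_induction with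
  | mem x hx =>
    obtain ⟨i, rfl⟩ := hx
    obtain ⟨d, hd⟩ := hF i
    have h1 := congrArg (starRingEnd ℂ) (GLo_euler hd (hw i))
    simpa only [map_sum, map_mul, map_zero] using h1
  | zero => simp
  | add x y _ _ hx hy =>
    simp only [Pi.add_apply, add_mul, Finset.sum_add_distrib, hx, hy, add_zero]
  | smul a x _ hx =>
    simp only [Pi.smul_apply, smul_eq_mul, mul_assoc, ← Finset.mul_sum, hx, mul_zero]

private theorem GLo_sq (w : Fin (N + 1) → ℂ) : ∑ l, w l * conj (w l) = (AHI.sq w : ℂ) := by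
  unfold AHI.sq
  push_cast
  exact Finset.sum_congr rfl fun l _ => Complex.mul_conj _

/-- the normalised vector as a function of the projector -/
private theorem GLo_norm {y : Fin (N + 1) → ℂ} {i : Fin (N + 1)} (hy : y i ≠ 0) :
    (fun l => mt y l i / mt y i i) = (y i)⁻¹ • y := by
  have h0 : (AHI.sq y : ℂ) ≠ 0 := by
    have : y ≠ 0 := by
      rintro rfl
      exact hy rfl
    exact_mod_cast (AHI.sq_pos this).ne'
  have h1 : conj (y i) ≠ 0 := (map_ne_zero _).2 hy
  funext l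
  simp only [mt, Pi.smul_apply, smul_eq_mul]
  field_simp

private theorem GLo_act_cont : Continuous fun p : Mt N × (Fin (N + 1) → ℂ) => act p.1 p.2 := by
  unfold act
  fun_prop

private theorem GLo_gs {r : ℕ} {X : Finset ℂ} {P : Fin r → CPoly N} {i : Fin (N + 1)}
    {θ : X → ℂ} {M : Mt N} {w : Fin (N + 1) → ℂ} {c : ℂ} {b : Fin r → ℂ} :
    Gs X P i ((θ, M), (w, c, b)) = 0 ↔ (∀ l, act M w l - c * w l = nw X P θ w b l) ∧
      w i = 1 ∧ ∀ a, ev (P a) (AHI.ext X θ) w = 0 := by
  unfold Gs nw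
  simp only [Prod.mk_eq_zero, funext_iff, Pi.zero_apply, sub_eq_zero]

theorem local_exM {F : Fin m → CPoly N} (hF : ∀ i, ∃ d, (F i).IsHomogeneous d) (C : Cert F)
    {X : Finset ℂ} (hX : Covers2 X F C) {z : Fin (N + 1) → ℂ} (hz0 : z ≠ 0) (hz : OnCone F z)
    (hC : C.Valid z) {η : ℝ} (hη : 0 < η) :
    ∃ ν : (X → ℂ) × Mt N → (Fin (N + 1) → ℂ), ∀ᶠ x in 𝓝 (inc X, mt z),
      ν x ≠ 0 ∧ ContDiffAt ℝ ω ν x ∧ CAM X ν x ∧ ‖mt (ν x) - x.2‖ < η ∧
        ∀ β : ℂ ≃+* ℂ, res X β = x.1 → RM (conjEqs β F) x.2 (ν x) := by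
  obtain ⟨i, hi⟩ : ∃ i, z i ≠ 0 := by
    by_contra h
    push Not at h
    exact hz0 (funext h)
  set z₁ : Fin (N + 1) → ℂ := (z i)⁻¹ • z with hz₁
  have hz₁i : z₁ i = 1 := by
    rw [hz₁, Pi.smul_apply, smul_eq_mul, inv_mul_cancel₀ hi]
  have hmt : mt z₁ = mt z := mt_smul (inv_ne_zero hi) z
  have hzz : z i • z₁ = z := by rw [hz₁, smul_smul, mul_inv_cancel₀ hi, one_smul]
  have hcone₁ : OnCone F z₁ := OnCone.smul hF _ hz
  have hli₁ : LinearIndependent ℂ (fun (a : Fin C.r) (l : Fin (N + 1)) =>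
      eval z₁ (pderiv l (C.P a))) := GLo_li (fun a => hF (C.j a)) (inv_ne_zero hi) hC.li
  obtain ⟨ζ, hζ1, hζ2, hζ3, hζ4, hζ5⟩ := exists_zeta (X := X) (P := C.P) (z := z₁) (i := i)
    hz₁i (fun a => hX.f _) (fun a l => hX.d _ _) hli₁ (fun a => hcone₁ _) (fun a => by
      obtain ⟨d, hd⟩ := hF (C.j a)
      exact GLo_euler hd (hcone₁ _))
  rw [hmt] at hζ1 hζ2 hζ3 hζ5
  have hq : ∀ᶠ q : ℂ in 𝓝 (z i), q ≠ 0 ∧ eval (q • z₁) C.h ≠ 0 := by
    refine (continuousAt_id.eventually_ne hi).and ?_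
    have h1 : ContinuousAt (fun q : ℂ => eval (q • z₁) C.h) (z i) :=
      ((contDiff_eval (k := 0) C.h).continuous.comp
        (continuous_id.smul continuous_const)).continuousAt
    refine h1.eventually_ne ?_
    rw [hzz]
    exact hC.ne
  obtain ⟨ρ, hρ, hq⟩ := Metric.eventually_nhds_iff.1 hq
  obtain ⟨q₀, hq₀⟩ := T.exists_val_near (z i) hρ
  obtain ⟨hq1, hq2⟩ := hq (y := val q₀) (by rw [dist_eq_norm]; exact hq₀)
  set q := val q₀ with hqdef
  have hz₁0 : z₁ ≠ 0 := by
    intro h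
    rw [h] at hz₁i
    exact zero_ne_one hz₁i
  have hqz0 : q • z₁ ≠ 0 := smul_ne_zero hq1 hz₁0
  have hcont : ContinuousAt (fun x => q • (ζ x).1) (inc X, mt z) :=
    (continuous_fst.continuousAt.comp hζ1.self_of_nhds.continuousAt).const_smul q
  have h2 : ∀ᶠ x : (X → ℂ) × Mt N in 𝓝 (inc X, mt z),
      ev C.h (AHI.ext X x.1) (q • (ζ x).1) ≠ 0 := by
    have h3 : ContinuousAt (fun x : (X → ℂ) × Mt N =>
        ev C.h (AHI.ext X x.1) (q • (ζ x).1)) (inc X, mt z) := by
      have h4 : ContinuousAt (fun x : (X → ℂ) × Mt N => (x.1, q • (ζ x).1))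
          (inc X, mt z) := continuousAt_fst.prodMk hcont
      exact ContinuousAt.comp (x := (inc X, mt z))
        (g := fun y : (X → ℂ) × (Fin (N + 1) → ℂ) => ev C.h (AHI.ext X y.1) y.2)
        (f := fun x : (X → ℂ) × Mt N => (x.1, q • (ζ x).1))
        (contDiff_ev (k := 0) X C.h).continuous.continuousAt h4
    refine h3.eventually_ne ?_
    rw [hζ2, ev_inc]
    exact hq2
  have h3 : ∀ᶠ x : (X → ℂ) × Mt N in 𝓝 (inc X, mt z), ‖mt (q • (ζ x).1) - x.2‖ < η := by
    have h4 : ContinuousAt (fun x : (X → ℂ) × Mt N => mt (q • (ζ x).1) - x.2)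
        (inc X, mt z) := by
      refine ContinuousAt.sub ?_ continuousAt_snd
      refine ContinuousAt.comp (x := (inc X, mt z)) (g := (mt : (Fin (N + 1) → ℂ) → Mt N)) ?_
        hcont
      rw [hζ2]
      exact (contDiffAt_mt (k := 0) hqz0).continuousAt
    have h5 := Metric.tendsto_nhds.1 h4 η hη
    simp only [hζ2, mt_smul hq1, hmt, sub_self, dist_zero_right] at h5
    filter_upwards [h5] with x hx
    rwa [mt_smul hq1]
  refine ⟨fun x => q • (ζ x).1, ?_⟩
  filter_upwards [hζ1, hζ3, hζ5, h2, h3] with x hx1 hx3 hx5 hx6 hx7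
  have hg : Gs X C.P i ((x.1, x.2), ((ζ x).1, (ζ x).2.1, (ζ x).2.2)) = 0 := hx3
  rw [GLo_gs] at hg
  obtain ⟨hg1, hg2, hg3⟩ := hg
  have hy0 : (ζ x).1 ≠ 0 := by
    intro h
    rw [h] at hg2
    exact zero_ne_one hg2
  refine ⟨smul_ne_zero hq1 hy0, ?_, ?_, hx7, fun β hβ => ?_⟩
  · exact (contDiffAt_fst.comp x hx1).const_smul q
  · intro l
    exact (CA.const (isPR_val q₀) _).mul (hx5 l)
  · have hP0 : ∀ a, eval (ζ x).1 (map (β : ℂ →+* ℂ) (F (C.j a))) = 0 := by
      intro a
      rw [← ev_res β (hX.f _), hβ]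
      exact hg3 a
    have hc1 : OnCone (conjEqs β F) (q • (ζ x).1) := by
      refine onCone_of_chosen C β ?_ fun a => ?_
      · rw [← ev_res β hX.h, hβ]
        exact hx6
      · obtain ⟨d, hd⟩ := hF (C.j a)
        rw [eval_smul_of_homogeneous (hd.map _), hP0, mul_zero]
    have hc2 : OnCone (conjEqs β F) (ζ x).1 := by
      have h8 := OnCone.smul (homogeneous_conjEqs hF β) q⁻¹ hc1
      rwa [smul_smul, inv_mul_cancel₀ hq1, one_smul] at h8
    refine rm_smul (homogeneous_conjEqs hF β) ⟨hc2, (ζ x).2.1, ?_⟩ hq1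
    have h9 : (fun l => act x.2 (ζ x).1 l - (ζ x).2.1 * (ζ x).1 l) =
        nv (GLo_cert C β).P (ζ x).1 (ζ x).2.2 := by
      rw [← GLo_nw_res C hX, hβ]
      funext l
      exact hg1 l
    rw [h9]
    exact nv_mem_Nrm (GLo_cert C β) _ _

theorem local_unM {F : Fin m → CPoly N} (hF : ∀ i, ∃ d, (F i).IsHomogeneous d) (C : Cert F)
    {X : Finset ℂ} (hX : Covers2 X F C) {z : Fin (N + 1) → ℂ} (hz0 : z ≠ 0) (hz : OnCone F z)
    (hC : C.Valid z) :
    ∃ ε > 0, ∀ β : ℂ ≃+* ℂ, dist (res X β) (inc X) < ε → ∀ (M : Mt N) (y y' : Fin (N + 1) → ℂ),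
      ‖M - mt z‖ < ε → y ≠ 0 → y' ≠ 0 → RM (conjEqs β F) M y → RM (conjEqs β F) M y' →
      ‖mt y - mt z‖ < ε → ‖mt y' - mt z‖ < ε → mt y = mt y' := by
  obtain ⟨i, hi⟩ : ∃ i, z i ≠ 0 := by
    by_contra h
    push Not at h
    exact hz0 (funext h)
  set z₁ : Fin (N + 1) → ℂ := (z i)⁻¹ • z with hz₁
  have hz₁i : z₁ i = 1 := by
    rw [hz₁, Pi.smul_apply, smul_eq_mul, inv_mul_cancel₀ hi]
  have hmt : mt z₁ = mt z := mt_smul (inv_ne_zero hi) z
  have hzz : z i • z₁ = z := by rw [hz₁, smul_smul, mul_inv_cancel₀ hi, one_smul]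
  have hcone₁ : OnCone F z₁ := OnCone.smul hF _ hz
  have hli₁ : LinearIndependent ℂ (fun (a : Fin C.r) (l : Fin (N + 1)) =>
      eval z₁ (pderiv l (C.P a))) := GLo_li (fun a => hF (C.j a)) (inv_ne_zero hi) hC.li
  obtain ⟨ζ, -, -, -, hζ4, -⟩ := exists_zeta (X := X) (P := C.P) (z := z₁) (i := i)
    hz₁i (fun a => hX.f _) (fun a l => hX.d _ _) hli₁ (fun a => hcone₁ _) (fun a => by
      obtain ⟨d, hd⟩ := hF (C.j a)
      exact GLo_euler hd (hcone₁ _))
  rw [hmt] at hζ4
  obtain ⟨δ, hδ, hζδ⟩ := Metric.eventually_nhds_iff.1 hζ4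
  obtain ⟨K, hK, hKe⟩ := GLo_nw_bound X (P := C.P) hli₁
  have hz₁0 : z₁ ≠ 0 := by
    intro h
    rw [h] at hz₁i
    exact zero_ne_one hz₁i
  have hsq0 : (AHI.sq z₁ : ℂ) ≠ 0 := by exact_mod_cast (AHI.sq_pos hz₁0).ne'
  have hmtii : mt z i i ≠ 0 := by
    have h1 : (AHI.sq z : ℂ) ≠ 0 := by exact_mod_cast (AHI.sq_pos hz0).ne'
    have h2 : conj (z i) ≠ 0 := (map_ne_zero _).2 hi
    exact div_ne_zero (mul_ne_zero hi h2) h1
  -- the normalised vector, the multiplier and the normal vector as functions of the projectors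
  let g : Mt N → (Fin (N + 1) → ℂ) := fun A l => A l i / A i i
  let cc : Mt N × (Fin (N + 1) → ℂ) → ℂ :=
    fun p => (∑ l, act p.1 p.2 l * conj (p.2 l)) / (AHI.sq p.2 : ℂ)
  let nn : Mt N × (Fin (N + 1) → ℂ) → (Fin (N + 1) → ℂ) :=
    fun p l => act p.1 p.2 l - cc p * p.2 l
  have hgz : g (mt z) = z₁ := GLo_norm hi
  have hgc : ContinuousAt g (mt z) := by
    rw [continuousAt_pi]
    intro l
    refine ContinuousAt.div ?_ ?_ hmtii
    · exact ((continuous_apply i).comp (continuous_apply l)).continuousAt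
    · exact ((continuous_apply i).comp (continuous_apply i)).continuousAt
  have hactl : ∀ l, Continuous fun p : Mt N × (Fin (N + 1) → ℂ) => act p.1 p.2 l :=
    fun l => (continuous_apply l).comp GLo_act_cont
  have hccc : ContinuousAt cc (mt z, z₁) := by
    refine ContinuousAt.div ?_ ?_ hsq0
    · refine Continuous.continuousAt ?_
      refine continuous_finsetSum _ fun l _ => (hactl l).mul ?_
      exact Complex.continuous_conj.comp ((continuous_apply l).comp continuous_snd)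
    · exact (Complex.continuous_ofReal.comp (AHI.continuous_sq.comp continuous_snd)).continuousAt
  have hact1 : act (mt z) z₁ = z₁ := by
    rw [← hmt]
    exact act_mt hz₁0
  have hccz : cc (mt z, z₁) = 1 := by
    simp only [cc, hact1]
    rw [GLo_sq, div_self hsq0]
  have hnnc : ContinuousAt nn (mt z, z₁) := by
    rw [continuousAt_pi]
    intro l
    refine (hactl l).continuousAt.sub (hccc.mul ?_)
    exact ((continuous_apply l).comp continuous_snd).continuousAt
  have hnnz : nn (mt z, z₁) = 0 := by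
    funext l
    simp only [nn, hccz, hact1, one_mul, sub_self, Pi.zero_apply]
  -- everything near the base point
  have ht1 : Tendsto (fun t : (X → ℂ) × (Mt N × Mt N) => g t.2.2)
      (𝓝 (inc X, (mt z, mt z))) (𝓝 z₁) := by
    have h1 : Tendsto (fun t : (X → ℂ) × (Mt N × Mt N) => t.2.2)
        (𝓝 (inc X, (mt z, mt z))) (𝓝 (mt z)) :=
      (continuous_snd.comp continuous_snd).continuousAt
    have h2 := hgc.tendsto.comp h1
    rwa [hgz] at h2
  have ht2 : Tendsto (fun t : (X → ℂ) × (Mt N × Mt N) => (t.2.1, g t.2.2))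
      (𝓝 (inc X, (mt z, mt z))) (𝓝 (mt z, z₁)) := by
    have h1 : Tendsto (fun t : (X → ℂ) × (Mt N × Mt N) => t.2.1)
        (𝓝 (inc X, (mt z, mt z))) (𝓝 (mt z)) :=
      (continuous_fst.comp continuous_snd).continuousAt
    exact h1.prodMk_nhds ht1
  have ht3 : Tendsto (fun t : (X → ℂ) × (Mt N × Mt N) => (t.1, g t.2.2))
      (𝓝 (inc X, (mt z, mt z))) (𝓝 (inc X, z₁)) := by
    have h1 : Tendsto (fun t : (X → ℂ) × (Mt N × Mt N) => t.1)
        (𝓝 (inc X, (mt z, mt z))) (𝓝 (inc X)) := continuous_fst.continuousAt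
    exact h1.prodMk_nhds ht1
  have e1 : ∀ᶠ t : (X → ℂ) × (Mt N × Mt N) in 𝓝 (inc X, (mt z, mt z)), t.2.2 i i ≠ 0 := by
    have h1 : Continuous fun t : (X → ℂ) × (Mt N × Mt N) => t.2.2 i i :=
      (continuous_apply i).comp ((continuous_apply i).comp (continuous_snd.comp continuous_snd))
    exact h1.continuousAt.eventually_ne hmtii
  have e2 : ∀ᶠ t : (X → ℂ) × (Mt N × Mt N) in 𝓝 (inc X, (mt z, mt z)),
      dist (g t.2.2) z₁ < δ := Metric.tendsto_nhds.1 ht1 δ hδ
  have e3 : ∀ᶠ t : (X → ℂ) × (Mt N × Mt N) in 𝓝 (inc X, (mt z, mt z)),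
      dist (cc (t.2.1, g t.2.2)) 1 < δ := by
    have h1 := hccc.tendsto.comp ht2
    rw [hccz] at h1
    exact Metric.tendsto_nhds.1 h1 δ hδ
  have e4 : ∀ᶠ t : (X → ℂ) × (Mt N × Mt N) in 𝓝 (inc X, (mt z, mt z)),
      ‖nn (t.2.1, g t.2.2)‖ < δ / K := by
    have h1 := hnnc.tendsto.comp ht2
    rw [hnnz] at h1
    have h2 := Metric.tendsto_nhds.1 h1 (δ / K) (by positivity)
    simpa only [dist_zero_right, Function.comp_apply] using h2
  have e5 : ∀ᶠ t : (X → ℂ) × (Mt N × Mt N) in 𝓝 (inc X, (mt z, mt z)),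
      ev C.h (AHI.ext X t.1) (z i • g t.2.2) ≠ 0 := by
    have h1 : Tendsto (fun t : (X → ℂ) × (Mt N × Mt N) => (t.1, z i • g t.2.2))
        (𝓝 (inc X, (mt z, mt z))) (𝓝 (inc X, z i • z₁)) :=
      (continuous_fst.continuousAt (x := (inc X, (mt z, mt z)))).prodMk_nhds (ht1.const_smul _)
    have h2 : ∀ᶠ p : (X → ℂ) × (Fin (N + 1) → ℂ) in 𝓝 (inc X, z i • z₁),
        ev C.h (AHI.ext X p.1) p.2 ≠ 0 := by
      refine (contDiff_ev (k := 0) X C.h).continuous.continuousAt.eventually_ne ?_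
      change ev C.h (AHI.ext X (inc X)) (z i • z₁) ≠ 0
      rw [ev_inc, hzz]
      exact hC.ne
    exact h1.eventually h2
  have e6 : ∀ᶠ t : (X → ℂ) × (Mt N × Mt N) in 𝓝 (inc X, (mt z, mt z)),
      ∀ c : Fin C.r → ℂ, ‖c‖ ≤ K * ‖nw X C.P t.1 (g t.2.2) c‖ := ht3.eventually hKe
  obtain ⟨ε, hε, hall⟩ := Metric.eventually_nhds_iff.1
    (e1.and (e2.and (e3.and (e4.and (e5.and e6)))))
  refine ⟨min ε δ, lt_min hε hδ, ?_⟩
  intro β hβ M y y' hM hy0 hy0' hR hR' hy hy'
  have key : ∀ y : Fin (N + 1) → ℂ, y ≠ 0 → RM (conjEqs β F) M y → ‖mt y - mt z‖ < min ε δ →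
      mt y = mt (ζ (res X β, M)).1 := by
    intro y hy0 hR hy
    have hd : dist ((res X β, (M, mt y)) : (X → ℂ) × (Mt N × Mt N))
        (inc X, (mt z, mt z)) < ε := by
      rw [Prod.dist_eq, Prod.dist_eq]
      refine max_lt (hβ.trans_le (min_le_left _ _)) (max_lt ?_ ?_)
      · rw [dist_eq_norm]
        exact hM.trans_le (min_le_left _ _)
      · rw [dist_eq_norm]
        exact hy.trans_le (min_le_left _ _)
    obtain ⟨h1, h2, h3, h4, h5, h6⟩ := hall hd
    have hyi : y i ≠ 0 := mt_diag_ne h1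
    set w : Fin (N + 1) → ℂ := (y i)⁻¹ • y with hw
    have hgw : g (mt y) = w := GLo_norm hyi
    have hwi : w i = 1 := by
      rw [hw, Pi.smul_apply, smul_eq_mul, inv_mul_cancel₀ hyi]
    have hw0 : w ≠ 0 := by
      intro h
      rw [h] at hwi
      exact zero_ne_one hwi
    have hsw : (AHI.sq w : ℂ) ≠ 0 := by exact_mod_cast (AHI.sq_pos hw0).ne'
    simp only [hgw] at h2 h3 h4 h5 h6
    obtain ⟨hcone, c, hn⟩ := rm_smul (homogeneous_conjEqs hF β) hR (inv_ne_zero hyi)
    rw [← hw] at hcone hn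
    have hc : c = cc (M, w) := by
      have h7 := GLo_orth (homogeneous_conjEqs hF β) hcone hn
      simp only [sub_mul, Finset.sum_sub_distrib, mul_assoc, ← Finset.mul_sum] at h7
      rw [GLo_sq, sub_eq_zero] at h7
      simp only [cc]
      rw [h7, mul_div_assoc, div_self hsw, mul_one]
    have hnn : (fun l => act M w l - c * w l) = nn (M, w) := by
      rw [hc]
    -- the normal vector is a combination of the chosen gradients
    obtain ⟨b, hb⟩ : ∃ b : Fin C.r → ℂ, nn (M, w) = nw X C.P (res X β) w b := by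
      have h8 : OnCone (conjEqs β F) (z i • w) := OnCone.smul (homogeneous_conjEqs hF β) _ hcone
      have h9 : eval (z i • w) (GLo_cert C β).h ≠ 0 := by
        have h10 := h5
        rw [ev_res β hX.h] at h10
        exact h10
      have h11 : nn (M, w) ∈ Nrm (conjEqs β F) (z i • w) := by
        refine Nrm_smul (homogeneous_conjEqs hF β) (c := (z i)⁻¹) ?_
        rw [smul_smul, inv_mul_cancel₀ hi, one_smul, ← hnn]
        exact hn
      obtain ⟨b', hb'⟩ := exists_nv_of_mem (GLo_cert C β) h8 h9 h11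
      have h12 : ∀ a, ∃ d, ((GLo_cert C β).P a).IsHomogeneous d := fun a =>
        homogeneous_conjEqs hF β _
      choose d hd12 using h12
      refine ⟨fun a => b' a * conj ((z i) ^ (d a - 1)), ?_⟩
      rw [GLo_nw_res C hX, hb']
      funext l
      simp only [nv]
      refine Finset.sum_congr rfl fun a _ => ?_
      rw [eval_smul_of_homogeneous (hd12 a).pderiv, map_mul, mul_assoc]
    have hbn : ‖b‖ < δ := by
      calc ‖b‖ ≤ K * ‖nw X C.P (res X β) w b‖ := h6 b
        _ = K * ‖nn (M, w)‖ := by rw [hb]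
        _ < K * (δ / K) := mul_lt_mul_of_pos_left h4 hK
        _ = δ := by field_simp
    have hG : Gs X C.P i ((res X β, M), (w, c, b)) = 0 := by
      rw [GLo_gs]
      refine ⟨fun l => ?_, hwi, fun a => ?_⟩
      · rw [← hb, ← hnn]
      · change ev (F (C.j a)) (AHI.ext X (res X β)) w = 0
        rw [ev_res β (hX.f _)]
        exact hcone (C.j a)
    have hdist : dist (((res X β, M), (w, c, b)) :
        ((X → ℂ) × Mt N) × ((Fin (N + 1) → ℂ) × ℂ × (Fin C.r → ℂ)))
        ((inc X, mt z), (z₁, 1, 0)) < δ := by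
      rw [Prod.dist_eq, Prod.dist_eq, Prod.dist_eq, Prod.dist_eq]
      refine max_lt (max_lt (hβ.trans_le (min_le_right _ _)) ?_) (max_lt h2 (max_lt ?_ ?_))
      · rw [dist_eq_norm]
        exact hM.trans_le (min_le_right _ _)
      · rw [hc]
        exact h3
      · rw [dist_zero_right]
        exact hbn
    have h13 := (hζδ hdist).1 hG
    have h14 : (ζ (res X β, M)).1 = w := congrArg Prod.fst h13
    rw [h14, hw, mt_smul (inv_ne_zero hyi)]
  rw [key y hy0 hR hy, key y' hy0' hR' hy']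

end Pool.Agent.AHE
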