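import Mathlib
import Pool.Agent.AHE.GLo

/-!
# Critical points: uniform version

Proof of `exists_UM`.  As in `AHU/Uni.lean` (`Uni_X`, private there, copy it) there is a finite `X ⊇ Y`
such that for every `z ∈ Sph F` there is a valid certificate `C` with `Covers2 X F C`.  `Sph F` is
compact, so `K = mt '' Sph F` is compact.

(1) *near*: for every `ρ > 0` there is `δ > 0` such that for all `β` with `dist (res X β) (inc X) < δ` and all
`z ≠ 0` on the cone of `conjEqs β F`: `‖mt z - mt z₀‖ < ρ` for some `z₀ ∈ Sph F`.  (Replace `z` by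
`unit z`, `sq_unit`, `mt_smul`.  The unit sphere is compact; if `z₁` is a unit vector not on the cone of
`F`, then `Uni_off` (private in `AHU/Uni.lean`, copy it) gives a neighbourhood of `(inc X, z₁)` in which there
are no points of conjugate cones; cover the compact set of the unit vectors with
`∀ z₀ ∈ Sph F, ρ ≤ ‖mt z - mt z₀‖`.)

(2) *uniqueness*: let `ε_z` be given by `local_unM` for `z ∈ Sph F`; by compactness of `K` (Lebesgue number,
`lebesgue_number_lemma_of_metric`) there is `ε₀ > 0` such that every ball of radius `ε₀` around a point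
of `K` is contained in a ball of radius `ε_z` around some `mt z`, for finitely many `z`, so that also
`δ ≤ ε_z` can be achieved.  Put `η = min η₀ (ε₀ / 4)`.  If `y, y'` are critical for `(β, M)` at distance
`< η` from `M`, then by (1) `mt y` is at distance `< ε₀ / 4` from some `mt z₀`, so `mt y`, `mt y'`, `M` are
in the ball of radius `ε₀` around `mt z₀`; apply `local_unM`.

(3) *existence*: with this `η` let `ε'_z`, `ν_z` be given by `local_exM`; a Lebesgue number `4 ρ`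
of the cover of `K` by the balls of radius `ε'_z / 2` or so, `ρ ≤ η₀`, and `δ` less than the finitely many
`ε'_z` and the `δ` of (1) for `ρ`.  For `z₀ ∈ Sph F` the chart is `ν_z` with
`ball (mt z₀) (4 ρ) ⊆ ball (mt z) ε'_z`.
-/

namespace Pool.Agent.AHE

open MvPolynomial Pool.Agent.AHC Pool.Agent.AHI Pool.Agent.AHU Pool.Agent.EllPR Filter
open scoped ContDiff ComplexConjugate Topology

variable {N m : ℕ}

/-- `ν` gives the critical points for the matrices near `mt z₀` -/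
def IsChart (F : Fin m → CPoly N) (X : Finset ℂ) (η ρ δ : ℝ) (z₀ : Fin (N + 1) → ℂ)
    (ν : (X → ℂ) × Mt N → (Fin (N + 1) → ℂ)) : Prop :=
  ∀ θ ∈ Metric.ball (inc X) δ, ∀ M ∈ Metric.ball (mt z₀) (4 * ρ),
    ν (θ, M) ≠ 0 ∧ ContDiffAt ℝ ω ν (θ, M) ∧ CAM X ν (θ, M) ∧ ‖mt (ν (θ, M)) - M‖ < η ∧
      ∀ β : ℂ ≃+* ℂ, res X β = θ → RM (conjEqs β F) M (ν (θ, M))

/-- uniform existence and uniqueness of critical points -/
structure UM (F : Fin m → CPoly N) (X : Finset ℂ) (η ρ δ : ℝ) : Prop where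
  smooth : IsSmoothProjective F
  ηpos : 0 < η
  ρpos : 0 < ρ
  δpos : 0 < δ
  near : ∀ β : ℂ ≃+* ℂ, dist (res X β) (inc X) < δ → ∀ z : Fin (N + 1) → ℂ, z ≠ 0 →
    OnCone (conjEqs β F) z → ∃ z₀ ∈ Sph F, ‖mt z - mt z₀‖ < ρ
  ex : ∀ z₀ ∈ Sph F, ∃ ν, IsChart F X η ρ δ z₀ ν
  uniq : ∀ β : ℂ ≃+* ℂ, dist (res X β) (inc X) < δ → ∀ (M : Mt N) (z z' : Fin (N + 1) → ℂ),
    z ≠ 0 → z' ≠ 0 → RM (conjEqs β F) M z → RM (conjEqs β F) M z' →
    ‖mt z - M‖ < η → ‖mt z' - M‖ < η → mt z = mt z'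

private theorem GUn_X {F : Fin m → CPoly N} (hF : IsSmoothProjective F) (Y : Finset ℂ) :
    ∃ X : Finset ℂ, Y ⊆ X ∧ ∀ z ∈ Sph F, ∃ C : Cert F, C.Valid z ∧ Covers2 X F C := by
  classical
  refine (isCompact_Sph F).induction_on (p := fun s => ∃ X : Finset ℂ, Y ⊆ X ∧
      ∀ z ∈ s, ∃ C : Cert F, C.Valid z ∧ Covers2 X F C) ?_ ?_ ?_ ?_
  · exact ⟨Y, subset_rfl, by simp⟩
  · rintro s t hst ⟨X, h1, h2⟩
    exact ⟨X, h1, fun z hz => h2 z (hst hz)⟩
  · rintro s t ⟨X, h1, h2⟩ ⟨X', h1', h2'⟩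
    refine ⟨X ∪ X', h1.trans Finset.subset_union_left, ?_⟩
    rintro z (hz | hz)
    · obtain ⟨C, hC, hX⟩ := h2 z hz
      exact ⟨C, hC, fun i => (hX.f i).trans Finset.subset_union_left,
        hX.h.trans Finset.subset_union_left, fun i l => (hX.d i l).trans Finset.subset_union_left⟩
    · obtain ⟨C, hC, hX⟩ := h2' z hz
      exact ⟨C, hC, fun i => (hX.f i).trans Finset.subset_union_right,
        hX.h.trans Finset.subset_union_right, fun i l => (hX.d i l).trans Finset.subset_union_right⟩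
  · intro z hz
    obtain ⟨C, hC⟩ := exists_cert hF (ne_zero_of_sq hz.1) hz.2
    refine ⟨{y | C.Valid y}, mem_nhdsWithin_of_mem_nhds hC.eventually,
      Y ∪ (Finset.univ.biUnion fun i => (F i).coeffs) ∪ C.h.coeffs ∪
        (Finset.univ.biUnion fun i => Finset.univ.biUnion fun l => (pderiv l (F i)).coeffs), ?_, ?_⟩
    · exact (Finset.subset_union_left.trans Finset.subset_union_left).trans Finset.subset_union_left
    · intro y hy
      refine ⟨C, hy, fun i => ?_, Finset.subset_union_right.trans Finset.subset_union_left, fun i l => ?_⟩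
      · refine Finset.Subset.trans ?_ Finset.subset_union_left
        refine Finset.Subset.trans ?_ Finset.subset_union_left
        refine Finset.Subset.trans ?_ Finset.subset_union_right
        exact Finset.subset_biUnion_of_mem (fun i => (F i).coeffs) (Finset.mem_univ i)
      · refine Finset.Subset.trans ?_ Finset.subset_union_right
        refine Finset.Subset.trans ?_ (Finset.subset_biUnion_of_mem
          (fun i => Finset.univ.biUnion fun l => (pderiv l (F i)).coeffs) (Finset.mem_univ i))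
        exact Finset.subset_biUnion_of_mem (fun l => (pderiv l (F i)).coeffs) (Finset.mem_univ l)

private theorem GUn_off {F : Fin m → CPoly N} {X : Finset ℂ} (hX : ∀ i, (F i).coeffs ⊆ X)
    {z₀ : Fin (N + 1) → ℂ} (hz : ¬ OnCone F z₀) :
    ∀ᶠ x : (X → ℂ) × (Fin (N + 1) → ℂ) in 𝓝 (inc X, z₀), ∀ β : ℂ ≃+* ℂ, res X β = x.1 →
      ¬ OnCone (conjEqs β F) x.2 := by
  rw [OnCone, not_forall] at hz
  obtain ⟨i, hi⟩ := hz
  have hne : ∀ᶠ x : (X → ℂ) × (Fin (N + 1) → ℂ) in 𝓝 (inc X, z₀), ev (F i) (AHI.ext X x.1) x.2 ≠ 0 := by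
    refine (contDiff_ev (k := 0) X (F i)).continuous.continuousAt.eventually_ne ?_
    show ev (F i) (AHI.ext X (inc X)) z₀ ≠ 0
    rw [ev_inc]
    exact hi
  filter_upwards [hne] with x hx β hβ hcone
  apply hx
  rw [← hβ, ev_res β (hX i)]
  exact hcone i

private theorem GUn_compact : IsCompact {z : Fin (N + 1) → ℂ | AHI.sq z = 1} := by
  refine Metric.isCompact_of_isClosed_isBounded (isClosed_eq continuous_sq continuous_const) ?_
  refine (Metric.isBounded_closedBall (x := (0 : Fin (N + 1) → ℂ)) (r := 1)).subset ?_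
  intro z hz
  rw [mem_closedBall_zero_iff]
  exact norm_le_one_of_sq hz

private theorem GUn_mt {z : Fin (N + 1) → ℂ} (hz : z ≠ 0) :
    ContinuousAt (mt : (Fin (N + 1) → ℂ) → Mt N) z :=
  (contDiffAt_mt (k := 0) hz).continuousAt

private theorem GUn_mtunit {z : Fin (N + 1) → ℂ} (hz : z ≠ 0) : mt (AHI.unit z) = mt z := by
  unfold AHI.unit
  refine mt_smul (inv_ne_zero ?_) z
  exact_mod_cast (en_pos hz).ne'

private theorem GUn_near {F : Fin m → CPoly N} (hF : IsSmoothProjective F) {X : Finset ℂ}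
    (hX : ∀ i, (F i).coeffs ⊆ X) {ρ : ℝ} (hρ : 0 < ρ) : ∃ δ > 0, ∀ β : ℂ ≃+* ℂ,
      dist (res X β) (inc X) < δ → ∀ z : Fin (N + 1) → ℂ, z ≠ 0 →
        OnCone (conjEqs β F) z → ∃ z₀ ∈ Sph F, ‖mt z - mt z₀‖ < ρ := by
  have hu := (GUn_compact (N := N)).eventually_forall_of_forall_eventually (x₀ := inc X)
    (P := fun (θ : X → ℂ) (z : Fin (N + 1) → ℂ) => ∀ β : ℂ ≃+* ℂ,
        res X β = θ → OnCone (conjEqs β F) z → ∃ z₀ ∈ Sph F, ‖mt z - mt z₀‖ < ρ) (fun z₁ hz₁ => by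
      by_cases hc : OnCone F z₁
      · have h1 : Tendsto (fun x : (X → ℂ) × (Fin (N + 1) → ℂ) => mt x.2)
            (𝓝 (inc X, z₁)) (𝓝 (mt z₁)) := (GUn_mt (ne_zero_of_sq hz₁)).tendsto.comp
              (continuous_snd.tendsto (inc X, z₁))
        filter_upwards [h1.eventually (Metric.ball_mem_nhds (mt z₁) hρ)] with x hx β _ _
        refine ⟨z₁, ⟨hz₁, hc⟩, ?_⟩
        rw [← dist_eq_norm]
        exact hx
      · filter_upwards [GUn_off hX hc] with x hx β hβ hcone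
        exact absurd hcone (hx β hβ))
  obtain ⟨δ, hδ, hu⟩ := Metric.eventually_nhds_iff.1 hu
  refine ⟨δ, hδ, fun β hβ z hz hcone => ?_⟩
  have h1 := hu hβ (AHI.unit z) (sq_unit hz) β rfl
    (OnCone.smul (homogeneous_conjEqs hF.homogeneous β) _ hcone)
  rwa [GUn_mtunit hz] at h1

/-- a positive number with a property which holds near `0` at all points of a compact set -/
private theorem GUn_unif {K : Set (Fin (N + 1) → ℂ)} (hK : IsCompact K)
    (P : ℝ → (Fin (N + 1) → ℂ) → Prop)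
    (h : ∀ z ∈ K, ∀ᶠ x : ℝ × (Fin (N + 1) → ℂ) in 𝓝 (0, z), 0 < x.1 → P x.1 x.2) :
    ∃ r > 0, ∀ z ∈ K, P r z := by
  have hu := hK.eventually_forall_of_forall_eventually (x₀ := (0 : ℝ))
    (P := fun (r : ℝ) (z : Fin (N + 1) → ℂ) => 0 < r → P r z) h
  obtain ⟨δ, hδ, hu⟩ := Metric.eventually_nhds_iff.1 hu
  refine ⟨δ / 2, half_pos hδ, fun z hz => hu ?_ z hz (half_pos hδ)⟩
  rw [dist_zero_right, Real.norm_eq_abs, abs_of_pos (half_pos hδ)]
  exact half_lt_self hδ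

private theorem GUn_ev {z₁ : Fin (N + 1) → ℂ} (hz : z₁ ≠ 0) {ε : ℝ} (hε : 0 < ε) :
    ∀ᶠ x : ℝ × (Fin (N + 1) → ℂ) in 𝓝 (0, z₁), x.1 < ε ∧ ‖mt x.2 - mt z₁‖ < ε := by
  have h1 : Tendsto (fun x : ℝ × (Fin (N + 1) → ℂ) => x.1) (𝓝 (0, z₁)) (𝓝 0) :=
    continuous_fst.tendsto ((0 : ℝ), z₁)
  have h2 : Tendsto (fun x : ℝ × (Fin (N + 1) → ℂ) => mt x.2) (𝓝 (0, z₁)) (𝓝 (mt z₁)) :=
    (GUn_mt hz).tendsto.comp (continuous_snd.tendsto ((0 : ℝ), z₁))
  filter_upwards [h1.eventually (Iio_mem_nhds hε), h2.eventually (Metric.ball_mem_nhds (mt z₁) hε)]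
    with x hx hx2
  exact ⟨hx, by rw [← dist_eq_norm]; exact hx2⟩

theorem exists_UM {F : Fin m → CPoly N} (hF : IsSmoothProjective F) (Y : Finset ℂ) {η₀ : ℝ}
    (hη₀ : 0 < η₀) : ∃ (X : Finset ℂ) (η ρ δ : ℝ), Y ⊆ X ∧ η ≤ η₀ ∧ ρ ≤ η₀ ∧ UM F X η ρ δ := by
  classical
  obtain ⟨X, hY, hXC⟩ := GUn_X hF (Y ∪ Finset.univ.biUnion fun i => (F i).coeffs)
  have hX : ∀ i, (F i).coeffs ⊆ X := fun i =>
    (Finset.subset_biUnion_of_mem (fun i => (F i).coeffs) (Finset.mem_univ i)).trans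
      (Finset.subset_union_right.trans hY)
  -- uniqueness
  obtain ⟨ε₀, hε₀, hun⟩ := GUn_unif (isCompact_Sph F) (fun r z => ∀ β : ℂ ≃+* ℂ,
      dist (res X β) (inc X) < r → ∀ (M : Mt N) (y y' : Fin (N + 1) → ℂ),
      ‖M - mt z‖ < r → y ≠ 0 → y' ≠ 0 → RM (conjEqs β F) M y → RM (conjEqs β F) M y' →
      ‖mt y - mt z‖ < r → ‖mt y' - mt z‖ < r → mt y = mt y') (fun z₁ hz₁ => by
    obtain ⟨C, hC, hCX⟩ := hXC z₁ hz₁
    obtain ⟨ε, hε, hloc⟩ := local_unM hF.homogeneous C hCX (ne_zero_of_sq hz₁.1) hz₁.2 hC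
    filter_upwards [GUn_ev (ne_zero_of_sq hz₁.1) (half_pos hε)] with x hx _ β hβ M y y' hM hy hy'
      h1 h2 h3 h4
    have key : ∀ A : Mt N, ‖A - mt x.2‖ < x.1 → ‖A - mt z₁‖ < ε := by
      intro A hA
      have h5 := norm_sub_le_norm_sub_add_norm_sub A (mt x.2) (mt z₁)
      linarith [hx.1, hx.2]
    exact hloc β (by linarith [hx.1]) M y y' (key M hM) hy hy' h1 h2 (key _ h3) (key _ h4))
  set η : ℝ := min η₀ (ε₀ / 4) with hηdef
  have hη : 0 < η := lt_min hη₀ (by linarith)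
  have hη4 : η ≤ ε₀ / 4 := min_le_right _ _
  -- existence
  obtain ⟨ε₁, hε₁, hex⟩ := GUn_unif (isCompact_Sph F) (fun r z =>
      ∃ ν : (X → ℂ) × Mt N → (Fin (N + 1) → ℂ), ∀ θ ∈ Metric.ball (inc X) r,
        ∀ M ∈ Metric.ball (mt z) r, ν (θ, M) ≠ 0 ∧ ContDiffAt ℝ ω ν (θ, M) ∧ CAM X ν (θ, M) ∧
          ‖mt (ν (θ, M)) - M‖ < η ∧
          ∀ β : ℂ ≃+* ℂ, res X β = θ → RM (conjEqs β F) M (ν (θ, M))) (fun z₁ hz₁ => by
    obtain ⟨C, hC, hCX⟩ := hXC z₁ hz₁
    obtain ⟨ν, hν⟩ := local_exM hF.homogeneous C hCX (ne_zero_of_sq hz₁.1) hz₁.2 hC hη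
    obtain ⟨ε, hε, hν⟩ := Metric.eventually_nhds_iff.1 hν
    filter_upwards [GUn_ev (ne_zero_of_sq hz₁.1) (half_pos hε)] with x hx _
    refine ⟨ν, fun θ hθ M hM => ?_⟩
    have hd : dist (θ, M) (inc X, mt z₁) < ε := by
      rw [Prod.dist_eq]
      refine max_lt ?_ ?_
      · have h1 : dist θ (inc X) < x.1 := hθ
        show dist θ (inc X) < ε
        linarith [hx.1]
      · have h1 : dist M (mt x.2) < x.1 := hM
        have h2 : dist (mt x.2) (mt z₁) < ε / 2 := by rw [dist_eq_norm]; exact hx.2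
        have h3 := dist_triangle M (mt x.2) (mt z₁)
        show dist M (mt z₁) < ε
        linarith [hx.1]
    exact hν hd)
  set ρ : ℝ := min η₀ (ε₁ / 4) with hρdef
  have hρ : 0 < ρ := lt_min hη₀ (by linarith)
  have hρ4 : 4 * ρ ≤ ε₁ := by
    have := min_le_right η₀ (ε₁ / 4)
    rw [← hρdef] at this
    linarith
  obtain ⟨δ₁, hδ₁, hnear₁⟩ := GUn_near hF hX hρ
  obtain ⟨δ₂, hδ₂, hnear₂⟩ := GUn_near hF hX (show (0 : ℝ) < ε₀ / 4 by linarith)
  set δ : ℝ := min (min δ₁ δ₂) (min ε₀ ε₁) with hδdef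
  have hδ : 0 < δ := lt_min (lt_min hδ₁ hδ₂) (lt_min hε₀ hε₁)
  have hd1 : δ ≤ δ₁ := (min_le_left _ _).trans (min_le_left _ _)
  have hd2 : δ ≤ δ₂ := (min_le_left _ _).trans (min_le_right _ _)
  have hd3 : δ ≤ ε₀ := (min_le_right _ _).trans (min_le_left _ _)
  have hd4 : δ ≤ ε₁ := (min_le_right _ _).trans (min_le_right _ _)
  refine ⟨X, η, ρ, δ, Finset.subset_union_left.trans hY, min_le_left _ _, min_le_left _ _,
    { smooth := hF
      ηpos := hη
      ρpos := hρ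
      δpos := hδ
      near := fun β hβ => hnear₁ β (hβ.trans_le hd1)
      ex := ?_
      uniq := ?_ }⟩
  · intro z₀ hz₀
    obtain ⟨ν, hν⟩ := hex z₀ hz₀
    exact ⟨ν, fun θ hθ M hM => hν θ (Metric.ball_subset_ball hd4 hθ) M
      (Metric.ball_subset_ball hρ4 hM)⟩
  · intro β hβ M z z' hz hz' h1 h2 h3 h4
    obtain ⟨z₀, hz₀, h5⟩ := hnear₂ β (hβ.trans_le hd2) z hz h1.1
    have h6 : ‖M - mt z₀‖ < ε₀ / 2 := by
      have h7 := norm_sub_le_norm_sub_add_norm_sub M (mt z) (mt z₀)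
      rw [norm_sub_rev M (mt z)] at h7
      linarith
    have h8 : ‖mt z' - mt z₀‖ < ε₀ := by
      have h7 := norm_sub_le_norm_sub_add_norm_sub (mt z') M (mt z₀)
      linarith
    exact hun z₀ hz₀ β (hβ.trans_le hd3) M z z' (by linarith) hz hz' h1 h2 (by linarith) h8

end Pool.Agent.AHE
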