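import Mathlib
import Pool.Agent.AHE.GUn
import Pool.Agent.AHE.GCu

/-!
# Smooth simplices of critical points

Proof of `isLift_chart`.  On the simplex `v t = ν (res X β, Γ t)` is nonzero, critical for
`(conjEqs β F, Γ t)` and at distance less than `η` from `Γ t`; so it is on the cone and
`SM (conjEqs β F) η (Γ t) = mk (v t)` (`SM_eq`, `UM.uniq`).  Coordinates:
`‖mt (v t) (I a) (I a)‖ ≥ ‖Γ t (I a) (I a)‖ - η ≥ c^2 / 2 - c^2 / 4 > 0`, so `v t (I a) ≠ 0` (`mt_diag_ne`).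

`exists_lift`: `K = stdSimplex` is compact; the set `U'` of `t ∈ U` with `Γ t ∈ ball (mt z₀) (4 ρ)` is open
(`Γ` is continuous on the open set `U`) and `t ↦ ν (res X β, Γ t)` is smooth on it (composition; `ω ≥ ∞`).
`exists_cut`, then `isLift_chart`.
-/

namespace Pool.Agent.AHE

open MvPolynomial Pool.Agent.AHC Pool.Agent.AHI Pool.Agent.AHU Pool.Agent.EllPR Filter
open scoped ContDiff ComplexConjugate Topology LinearAlgebra.Projectivization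

variable {N m : ℕ}

theorem isLift_chart {F : Fin m → CPoly N} {X : Finset ℂ} {η ρ δ c : ℝ} (hU : UM F X η ρ δ)
    (hc : 0 < c) (hη : η ≤ c ^ 2 / 4) {β : ℂ ≃+* ℂ} (hβ : dist (res X β) (inc X) < δ) {p : ℕ}
    {I : Fin (p + 1) → Fin (N + 1)} {q : ℕ} {Γ : (Fin (q + 1) → ℝ) → Mt N}
    {z₀ : Fin (N + 1) → ℂ} {ν : (X → ℂ) × Mt N → (Fin (N + 1) → ℂ)}
    (hν : IsChart F X η ρ δ z₀ ν)
    (hΓ : ∀ t ∈ stdSimplex ℝ (Fin (q + 1)), ‖Γ t - mt z₀‖ < 4 * ρ)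
    (hI : ∀ t ∈ stdSimplex ℝ (Fin (q + 1)), ∀ a, c ^ 2 / 2 ≤ ‖Γ t (I a) (I a)‖)
    {v : (Fin (q + 1) → ℝ) → (Fin (N + 1) → ℂ)} (hv : ContDiff ℝ ∞ v)
    (hvν : ∀ t ∈ stdSimplex ℝ (Fin (q + 1)), v t = ν (res X β, Γ t)) :
    IsLift (conjEqs β F) I (fun t => SM (conjEqs β F) η (Γ t)) v := by
  have hβ' : res X β ∈ Metric.ball (inc X) δ := hβ
  have key : ∀ t ∈ stdSimplex ℝ (Fin (q + 1)), v t ≠ 0 ∧ ‖mt (v t) - Γ t‖ < η ∧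
      RM (conjEqs β F) (Γ t) (v t) := by
    intro t ht
    have hM : Γ t ∈ Metric.ball (mt z₀) (4 * ρ) := by
      rw [Metric.mem_ball, dist_eq_norm]
      exact hΓ t ht
    obtain ⟨h1, -, -, h2, h3⟩ := hν (res X β) hβ' (Γ t) hM
    rw [hvν t ht]
    exact ⟨h1, h2, h3 β rfl⟩
  refine ⟨hv, fun t ht => (key t ht).2.2.1, fun t ht a => ?_, fun t => ?_⟩
  · obtain ⟨-, h2, -⟩ := key t ht
    refine mt_diag_ne fun h0 => ?_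
    have h3 : ‖(mt (v t) - Γ t) (I a) (I a)‖ ≤ ‖mt (v t) - Γ t‖ :=
      (norm_le_pi_norm ((mt (v t) - Γ t) (I a)) (I a)).trans (norm_le_pi_norm (mt (v t) - Γ t) (I a))
    rw [Pi.sub_apply, Pi.sub_apply, h0, zero_sub, norm_neg] at h3
    have h4 := hI t ht a
    have h5 : 0 < c ^ 2 := pow_pos hc 2
    linarith
  · obtain ⟨h1, h2, h3⟩ := key t t.2
    exact ⟨h1, SM_eq h1 h3 h2 fun z' hz' hrm hn => hU.uniq β hβ _ _ _ hz' h1 hrm h3 hn h2⟩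

theorem exists_lift {F : Fin m → CPoly N} {X : Finset ℂ} {η ρ δ c : ℝ} (hU : UM F X η ρ δ)
    (hc : 0 < c) (hη : η ≤ c ^ 2 / 4) {β : ℂ ≃+* ℂ} (hβ : dist (res X β) (inc X) < δ) {p : ℕ}
    {I : Fin (p + 1) → Fin (N + 1)} {q : ℕ} {Γ : (Fin (q + 1) → ℝ) → Mt N}
    {U : Set (Fin (q + 1) → ℝ)} (hUo : IsOpen U) (hUs : stdSimplex ℝ (Fin (q + 1)) ⊆ U)
    (hΓs : ContDiffOn ℝ ∞ Γ U) {z₀ : Fin (N + 1) → ℂ} (hz₀ : z₀ ∈ Sph F)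
    (hΓ : ∀ t ∈ stdSimplex ℝ (Fin (q + 1)), ‖Γ t - mt z₀‖ < 4 * ρ)
    (hI : ∀ t ∈ stdSimplex ℝ (Fin (q + 1)), ∀ a, c ^ 2 / 2 ≤ ‖Γ t (I a) (I a)‖) :
    ∃ v, IsLift (conjEqs β F) I (fun t => SM (conjEqs β F) η (Γ t)) v := by
  obtain ⟨ν, hν⟩ := hU.ex z₀ hz₀
  have hβ' : res X β ∈ Metric.ball (inc X) δ := hβ
  have hopen : IsOpen (U ∩ Γ ⁻¹' Metric.ball (mt z₀) (4 * ρ)) :=
    hΓs.continuousOn.isOpen_inter_preimage hUo Metric.isOpen_ball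
  have hKU : stdSimplex ℝ (Fin (q + 1)) ⊆ U ∩ Γ ⁻¹' Metric.ball (mt z₀) (4 * ρ) := by
    intro t ht
    refine ⟨hUs ht, ?_⟩
    show Γ t ∈ Metric.ball (mt z₀) (4 * ρ)
    rw [Metric.mem_ball, dist_eq_norm]
    exact hΓ t ht
  have hg : ContDiffOn ℝ ∞ (fun t => ν (res X β, Γ t)) (U ∩ Γ ⁻¹' Metric.ball (mt z₀) (4 * ρ)) := by
    intro t ht
    refine ContDiffAt.contDiffWithinAt ?_
    have h1 : ContDiffAt ℝ ∞ ν (res X β, Γ t) := (hν (res X β) hβ' (Γ t) ht.2).2.1.of_le le_top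
    have h2 : ContDiffAt ℝ ∞ Γ t := hΓs.contDiffAt (hUo.mem_nhds ht.1)
    have h3 : ContDiffAt ℝ ∞ (fun t => ((res X β, Γ t) : (X → ℂ) × Mt N)) t :=
      contDiffAt_const.prodMk h2
    exact ContDiffAt.comp (g := ν) (f := fun t => ((res X β, Γ t) : (X → ℂ) × Mt N)) t h1 h3
  obtain ⟨v, hv, hvg⟩ := exists_cut (isCompact_stdSimplex ℝ (Fin (q + 1))) hopen hKU hg
  exact ⟨v, isLift_chart hU hc hη hβ hν hΓ hI hv fun t ht => (hvg.self_of_nhdsSet) t ht⟩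

end Pool.Agent.AHE
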