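import Mathlib
import Pool.Agent.AHU.Sd

/-!
# The prism operator on ordered chains

`pris (v_0, ..., v_r) = ∑ i (-1)^i ((v_0, 0), ..., (v_i, 0), (v_i, 1), ..., (v_r, 1))`.

Proof.  On a basis element `v` this is the classical computation: in
`dd (pris v) = ∑ i, ∑ j (-1)^(i+j) (delete the j-th vertex)` the terms with `j < i` and `j > i + 1` give
`- pris (dd v)`, and the terms `j = i`, `j = i + 1` telescope to `(v, 1) - (v, 0)`.  In Lean: the face
`(pv i v) ∘ (succAbove j)` of the `i`-th prism simplex `pv i v` equals `pv (i - 1) (v ∘ succAbove j)` for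
`j < i` and `pv i (v ∘ succAbove (j - 1))` for `j > i + 1`; both `pv i v ∘ succAbove (i + 1)` and
`pv (i + 1) v ∘ succAbove (i + 1)` are the tuple `(v_0, 0), ..., (v_i, 0), (v_(i+1), 1), ...`.  It may be
easier to compare coefficients of functions: define all tuples by `Fin` inequalities and use `omega`.
For `r = 0`: `pris v` is the single simplex `((v_0, 0), (v_0, 1))`.
-/

namespace Pool.Agent.AHE

open Pool.Agent.AHU

variable {A : Type}

/-- the simplices of the prism -/
def pv {r : ℕ} (i : Fin (r + 1)) (v : Fin (r + 1) → A) : Fin (r + 2) → A × Bool :=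
  fun j => (v (i.predAbove j), decide (i.castSucc < j))

/-- the prism operator -/
noncomputable def pris {r : ℕ} : Ch A r →ₗ[ℤ] Ch (A × Bool) (r + 1) :=
  Finsupp.linearCombination ℤ fun v : Fin (r + 1) → A =>
    ∑ i : Fin (r + 1), Finsupp.single (pv i v) ((-1) ^ (i : ℕ))

private theorem GPc_sum {M : Type*} [AddCommGroup M] (n : ℕ) (P Q : ℕ → ℕ → M) (T : ℕ → M)
    (h1 : ∀ i j, j < i → P i j = Q (i - 1) j) (h2 : ∀ i j, i + 1 < j → P i j = Q i (j - 1))
    (h3 : ∀ i, P i i = T i) (h4 : ∀ i, P i (i + 1) = T (i + 1)) :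
    ∑ i ∈ Finset.range (n + 1), ∑ j ∈ Finset.range (n + 2), ((-1 : ℤ) ^ i * (-1) ^ j) • P i j +
      ∑ i ∈ Finset.range n, ∑ j ∈ Finset.range (n + 1), ((-1 : ℤ) ^ i * (-1) ^ j) • Q i j =
      T 0 - T (n + 1) := by
  set R1 : ℕ → M := fun i => ∑ j ∈ Finset.range i, ((-1 : ℤ) ^ i * (-1) ^ j) • Q (i - 1) j with hR1
  set R2 : ℕ → M := fun i => ∑ j ∈ Finset.Ico (i + 1) (n + 1), ((-1 : ℤ) ^ i * (-1) ^ j) • Q i j
    with hR2
  have rowP : ∀ i ∈ Finset.range (n + 1),
      ∑ j ∈ Finset.range (n + 2), ((-1 : ℤ) ^ i * (-1) ^ j) • P i j =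
        R1 i + (T i - T (i + 1)) - R2 i := by
    intro i hi
    have hi' : i < n + 1 := Finset.mem_range.1 hi
    have e1 : Finset.range (n + 2) = Finset.Ico 0 (n + 2) := (Nat.Ico_zero_eq_range _).symm
    rw [e1, ← Finset.sum_Ico_consecutive _ (Nat.zero_le i) (by omega : i ≤ n + 2),
      ← Finset.sum_Ico_consecutive _ (by omega : i ≤ i + 2) (by omega : i + 2 ≤ n + 2)]
    have e2 : ∑ j ∈ Finset.Ico 0 i, ((-1 : ℤ) ^ i * (-1) ^ j) • P i j = R1 i := by
      rw [hR1, Nat.Ico_zero_eq_range]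
      exact Finset.sum_congr rfl fun j hj => by rw [h1 i j (Finset.mem_range.1 hj)]
    have hs : ∀ m : ℕ, (-1 : ℤ) ^ m * (-1) ^ m = 1 := fun m => by
      rw [← mul_pow]; simp
    have e3 : ∑ j ∈ Finset.Ico i (i + 2), ((-1 : ℤ) ^ i * (-1) ^ j) • P i j = T i - T (i + 1) := by
      rw [Finset.sum_Ico_succ_top (by omega : i ≤ i + 1), Finset.sum_Ico_succ_top (le_refl i),
        Finset.Ico_self, Finset.sum_empty, zero_add, h3, h4, hs, one_smul, pow_succ, ← mul_assoc, hs,
        one_mul, neg_smul, one_smul, sub_eq_add_neg]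
    have e4 : ∑ j ∈ Finset.Ico (i + 2) (n + 2), ((-1 : ℤ) ^ i * (-1) ^ j) • P i j = - R2 i := by
      rw [hR2, ← Finset.sum_neg_distrib, ← Finset.sum_Ico_add' _ (i + 1) (n + 1) 1]
      refine Finset.sum_congr rfl fun j hj => ?_
      have hj' := (Finset.mem_Ico.1 hj).1
      rw [h2 i (j + 1) (by omega), Nat.add_sub_cancel, pow_succ]
      rw [← mul_assoc, mul_neg_one, neg_smul]
    rw [e2, e3, e4]
    abel
  have rowQ : ∀ i ∈ Finset.range n,
      ∑ j ∈ Finset.range (n + 1), ((-1 : ℤ) ^ i * (-1) ^ j) • Q i j = - R1 (i + 1) + R2 i := by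
    intro i hi
    have hi' : i < n := Finset.mem_range.1 hi
    have e1 : Finset.range (n + 1) = Finset.Ico 0 (n + 1) := (Nat.Ico_zero_eq_range _).symm
    rw [e1, ← Finset.sum_Ico_consecutive _ (Nat.zero_le (i + 1)) (by omega : i + 1 ≤ n + 1)]
    congr 1
    rw [hR1, ← Finset.sum_neg_distrib, Nat.Ico_zero_eq_range]
    refine Finset.sum_congr rfl fun j _ => ?_
    rw [Nat.add_sub_cancel, pow_succ, ← neg_smul]
    congr 1
    ring
  rw [Finset.sum_congr rfl rowP, Finset.sum_congr rfl rowQ, Finset.sum_sub_distrib,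
    Finset.sum_add_distrib, Finset.sum_add_distrib, Finset.sum_range_sub' T (n + 1),
    Finset.sum_range_succ' R1 n, Finset.sum_range_succ R2 n, Finset.sum_neg_distrib]
  have z1 : R1 0 = 0 := by rw [hR1]; simp
  have z2 : R2 n = 0 := by rw [hR2]; simp
  rw [z1, z2]
  abel

private theorem GPc_lin {r : ℕ} {M : Type*} [AddCommGroup M] {φ ψ : Ch A r →ₗ[ℤ] M}
    (h : ∀ v, φ (Finsupp.single v 1) = ψ (Finsupp.single v 1)) (x : Ch A r) : φ x = ψ x := by
  have : φ = ψ := by
    apply Finsupp.lhom_ext'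
    intro v
    apply LinearMap.ext_ring
    exact h v
  rw [this]

private theorem GPc_smul {X : Type} (v : X) (c : ℤ) :
    (Finsupp.single v c : X →₀ ℤ) = c • Finsupp.single v 1 := by
  rw [Finsupp.smul_single, smul_eq_mul, mul_one]

private theorem GPc_dd {r : ℕ} (v : Fin (r + 2) → A) :
    dd (Finsupp.single v (1 : ℤ)) =
      ∑ i : Fin (r + 2), ((-1 : ℤ) ^ (i : ℕ)) • Finsupp.single (fun j => v (i.succAbove j)) 1 := by
  rw [dd, Finsupp.linearCombination_single, one_smul]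
  exact Finset.sum_congr rfl fun i _ => GPc_smul _ _

private theorem GPc_mapc {B : Type} (f : A → B) {r : ℕ} (v : Fin (r + 1) → A) (c : ℤ) :
    mapc f (Finsupp.single v c) = Finsupp.single (fun j => f (v j)) c := by
  rw [mapc, Finsupp.lmapDomain_apply, Finsupp.mapDomain_single]

private theorem GPc_pris {r : ℕ} (v : Fin (r + 1) → A) :
    pris (Finsupp.single v (1 : ℤ)) =
      ∑ i : Fin (r + 1), ((-1 : ℤ) ^ (i : ℕ)) • Finsupp.single (pv i v) 1 := by
  rw [pris, Finsupp.linearCombination_single, one_smul]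
  exact Finset.sum_congr rfl fun i _ => GPc_smul _ _

private def GPc_ψ (j k : ℕ) : ℕ := if k < j then k else k + 1

private def GPc_φ (i m : ℕ) : ℕ := if m ≤ i then m else m - 1

private def GPc_v {n : ℕ} (v : Fin (n + 1) → A) (m : ℕ) : A := v ⟨min m n, by omega⟩

private theorem GPc_v_eq {n : ℕ} (v : Fin (n + 1) → A) (k : Fin (n + 1)) (m : ℕ) (h : m = k) :
    GPc_v v m = v k := by
  unfold GPc_v
  congr 1
  apply Fin.ext
  simp only []
  omega

private noncomputable def GPc_P {n : ℕ} (v : Fin (n + 1) → A) (i j : ℕ) : Ch (A × Bool) n :=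
  Finsupp.single (fun k : Fin (n + 1) =>
    (GPc_v v (GPc_φ i (GPc_ψ j k)), decide (i < GPc_ψ j k))) 1

private noncomputable def GPc_Q {n : ℕ} (v : Fin (n + 1) → A) (i j : ℕ) : Ch (A × Bool) n :=
  Finsupp.single (fun k : Fin (n + 1) =>
    (GPc_v v (GPc_ψ j (GPc_φ i k)), decide (i < (k : ℕ)))) 1

private noncomputable def GPc_T {n : ℕ} (v : Fin (n + 1) → A) (i : ℕ) : Ch (A × Bool) n :=
  Finsupp.single (fun k : Fin (n + 1) => (GPc_v v k, decide (i ≤ (k : ℕ)))) 1

private theorem GPc_ext {n : ℕ} (v : Fin (n + 1) → A) (f g : Fin (n + 1) → ℕ)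
    (p q : Fin (n + 1) → Prop) [DecidablePred p] [DecidablePred q] (h : ∀ k, f k = g k)
    (h' : ∀ k, p k ↔ q k) :
    (Finsupp.single (fun k => (GPc_v v (f k), decide (p k))) 1 : Ch (A × Bool) n) =
      Finsupp.single (fun k => (GPc_v v (g k), decide (q k))) 1 := by
  have : (fun k => (GPc_v v (f k), decide (p k))) = fun k => (GPc_v v (g k), decide (q k)) := by
    funext k
    rw [h k]
    simp only [Prod.mk.injEq, true_and, decide_eq_decide]
    exact h' k
  rw [this]

private theorem GPc_h1 {n : ℕ} (v : Fin (n + 1) → A) (i j : ℕ) (h : j < i) :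
    GPc_P v i j = GPc_Q v (i - 1) j := by
  refine GPc_ext v _ _ _ _ (fun k => ?_) fun k => ?_ <;> unfold GPc_ψ
  · unfold GPc_φ
    split_ifs <;> omega
  · split_ifs <;> omega

private theorem GPc_h2 {n : ℕ} (v : Fin (n + 1) → A) (i j : ℕ) (h : i + 1 < j) :
    GPc_P v i j = GPc_Q v i (j - 1) := by
  refine GPc_ext v _ _ _ _ (fun k => ?_) fun k => ?_ <;> unfold GPc_ψ
  · unfold GPc_φ
    split_ifs <;> omega
  · split_ifs <;> omega

private theorem GPc_h3 {n : ℕ} (v : Fin (n + 1) → A) (i : ℕ) : GPc_P v i i = GPc_T v i := by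
  refine GPc_ext v _ _ _ _ (fun k => ?_) fun k => ?_ <;> unfold GPc_ψ
  · unfold GPc_φ
    split_ifs <;> omega
  · split_ifs <;> omega

private theorem GPc_h4 {n : ℕ} (v : Fin (n + 1) → A) (i : ℕ) :
    GPc_P v i (i + 1) = GPc_T v (i + 1) := by
  refine GPc_ext v _ _ _ _ (fun k => ?_) fun k => ?_ <;> unfold GPc_ψ
  · unfold GPc_φ
    split_ifs <;> omega
  · split_ifs <;> omega

private theorem GPc_T0 {n : ℕ} (v : Fin (n + 1) → A) :
    GPc_T v 0 = Finsupp.single (fun j => (v j, true)) 1 := by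
  unfold GPc_T
  have : (fun k : Fin (n + 1) => (GPc_v v k, decide (0 ≤ (k : ℕ)))) = fun j => (v j, true) := by
    funext k
    rw [GPc_v_eq v k k rfl]
    simp
  rw [this]

private theorem GPc_T1 {n : ℕ} (v : Fin (n + 1) → A) :
    GPc_T v (n + 1) = Finsupp.single (fun j => (v j, false)) 1 := by
  unfold GPc_T
  have : (fun k : Fin (n + 1) => (GPc_v v k, decide (n + 1 ≤ (k : ℕ)))) =
      fun j => (v j, false) := by
    funext k
    rw [GPc_v_eq v k k rfl]
    have h1 : ¬ (n + 1 ≤ (k : ℕ)) := by omega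
    simp only [h1, decide_false]
  rw [this]

private theorem GPc_eP {r : ℕ} (v : Fin (r + 2) → A) (i : Fin (r + 2)) (j : Fin (r + 3)) :
    (Finsupp.single (fun k => pv i v (j.succAbove k)) 1 : Ch (A × Bool) (r + 1)) =
      GPc_P v i j := by
  unfold GPc_P
  have : (fun k => pv i v (j.succAbove k)) = fun k : Fin (r + 2) =>
      (GPc_v v (GPc_φ i (GPc_ψ j k)), decide ((i : ℕ) < GPc_ψ j k)) := by
    funext k
    have e1 : ((j.succAbove k : Fin (r + 3)) : ℕ) = GPc_ψ j k := by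
      unfold GPc_ψ
      simp only [Fin.succAbove, Fin.lt_def, Fin.val_castSucc]
      split_ifs <;> simp
    unfold pv
    refine Prod.ext ?_ ?_
    · refine (GPc_v_eq v _ _ ?_).symm
      unfold GPc_φ
      simp only [Fin.predAbove, Fin.lt_def, Fin.val_castSucc]
      rw [← e1]
      split_ifs <;> simp <;> omega
    · simp only [Fin.lt_def, Fin.val_castSucc, e1]
  rw [this]

private theorem GPc_eQ {r : ℕ} (v : Fin (r + 2) → A) (i : Fin (r + 1)) (j : Fin (r + 2)) :
    (Finsupp.single (pv i fun k => v (j.succAbove k)) 1 : Ch (A × Bool) (r + 1)) =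
      GPc_Q v i j := by
  unfold GPc_Q
  have : (pv i fun k => v (j.succAbove k)) = fun k : Fin (r + 2) =>
      (GPc_v v (GPc_ψ j (GPc_φ i k)), decide ((i : ℕ) < (k : ℕ))) := by
    funext k
    unfold pv
    refine Prod.ext ?_ ?_
    · refine (GPc_v_eq v _ _ ?_).symm
      unfold GPc_φ GPc_ψ
      simp only [Fin.predAbove, Fin.succAbove, Fin.lt_def, Fin.val_castSucc]
      split_ifs <;> simp_all <;> omega
    · simp only [Fin.lt_def, Fin.val_castSucc]
  rw [this]

theorem dd_pris {r : ℕ} (x : Ch A (r + 1)) :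
    dd (pris x) + pris (dd x) = mapc (fun a => (a, true)) x - mapc (fun a => (a, false)) x := by
  have key : ∀ v : Fin (r + 2) → A,
      ((dd ∘ₗ pris + pris ∘ₗ dd : Ch A (r + 1) →ₗ[ℤ] Ch (A × Bool) (r + 1))
        (Finsupp.single v 1)) =
      ((mapc (fun a => (a, true)) - mapc (fun a => (a, false)) :
        Ch A (r + 1) →ₗ[ℤ] Ch (A × Bool) (r + 1)) (Finsupp.single v 1)) := by
    intro v
    have main := GPc_sum (r + 1) (GPc_P v) (GPc_Q v) (GPc_T v) (GPc_h1 v) (GPc_h2 v) (GPc_h3 v)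
      (GPc_h4 v)
    rw [Finset.sum_range, Finset.sum_range] at main
    simp only [Finset.sum_range] at main
    rw [GPc_T0, GPc_T1] at main
    have e1 : dd (pris (Finsupp.single v (1 : ℤ))) = ∑ i : Fin (r + 1 + 1), ∑ j : Fin (r + 1 + 2),
        ((-1 : ℤ) ^ (i : ℕ) * (-1) ^ (j : ℕ)) • GPc_P v i j := by
      rw [GPc_pris, map_sum]
      refine Finset.sum_congr rfl fun i _ => ?_
      rw [map_smul, GPc_dd, Finset.smul_sum]
      refine Finset.sum_congr rfl fun j _ => ?_
      rw [smul_smul, GPc_eP]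
    have e2 : pris (dd (Finsupp.single v (1 : ℤ))) = ∑ i : Fin (r + 1), ∑ j : Fin (r + 1 + 1),
        ((-1 : ℤ) ^ (i : ℕ) * (-1) ^ (j : ℕ)) • GPc_Q v i j := by
      rw [GPc_dd, map_sum, Finset.sum_comm]
      refine Finset.sum_congr rfl fun j _ => ?_
      rw [map_smul, GPc_pris, Finset.smul_sum]
      refine Finset.sum_congr rfl fun i _ => ?_
      rw [smul_smul, GPc_eQ, mul_comm]
    rw [LinearMap.add_apply, LinearMap.sub_apply, LinearMap.comp_apply, LinearMap.comp_apply,
      GPc_mapc, GPc_mapc, e1, e2]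
    exact main
  exact GPc_lin key x

theorem dd_pris_zero (x : Ch A 0) :
    dd (pris x) = mapc (fun a => (a, true)) x - mapc (fun a => (a, false)) x := by
  have key : ∀ v : Fin 1 → A,
      ((dd ∘ₗ pris : Ch A 0 →ₗ[ℤ] Ch (A × Bool) 0) (Finsupp.single v 1)) =
      ((mapc (fun a => (a, true)) - mapc (fun a => (a, false)) :
        Ch A 0 →ₗ[ℤ] Ch (A × Bool) 0) (Finsupp.single v 1)) := by
    intro v
    rw [LinearMap.comp_apply, LinearMap.sub_apply, GPc_mapc, GPc_mapc, GPc_pris]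
    rw [Fin.sum_univ_succ, Fin.sum_univ_zero, add_zero, Fin.val_zero, pow_zero, one_smul, GPc_dd,
      Fin.sum_univ_two]
    have e0 : (fun j : Fin 1 => pv (0 : Fin 1) v ((0 : Fin 2).succAbove j)) =
        fun j => (v j, true) := by
      funext j
      obtain rfl : j = 0 := Subsingleton.elim _ _
      simp [pv]
    have e1 : (fun j : Fin 1 => pv (0 : Fin 1) v ((1 : Fin 2).succAbove j)) =
        fun j => (v j, false) := by
      funext j
      obtain rfl : j = 0 := Subsingleton.elim _ _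
      simp [pv]
    rw [e0, e1]
    simp [sub_eq_add_neg]
  exact GPc_lin key x

theorem mapc_pris {B : Type} (f : A → B) {r : ℕ} (x : Ch A r) :
    mapc (Prod.map f id) (pris x) = pris (mapc f x) := by
  have key : ∀ v : Fin (r + 1) → A,
      ((mapc (Prod.map f id) ∘ₗ pris : Ch A r →ₗ[ℤ] Ch (B × Bool) (r + 1))
        (Finsupp.single v 1)) =
      ((pris ∘ₗ mapc f : Ch A r →ₗ[ℤ] Ch (B × Bool) (r + 1)) (Finsupp.single v 1)) := by
    intro v
    rw [LinearMap.comp_apply, LinearMap.comp_apply, GPc_mapc, GPc_pris, GPc_pris, map_sum]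
    refine Finset.sum_congr rfl fun i _ => ?_
    rw [map_smul, GPc_mapc]
    rfl
  exact GPc_lin key x

end Pool.Agent.AHE
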