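import Mathlib
import Pool.Agent.AHE.GPc
import Pool.Agent.AHU.SdG

/-!
# Natural homotopies in the Čech–singular complex

`T q s t τ` is a natural homotopy of the simplices `s`, parametrised by `τ ∈ [0, 1]`.

Proof (compare `AHU/SdG.lean`).  For `u : Fin (r + 1) → Dl q × Bool` the map
`t ↦ (amap (fst ∘ u) t, tau u t)` is the affine map of `Dl r` to `Dl q × [0, 1]` with vertices `u j`; on
the face `i` it is the affine map with the vertices `u ∘ succAbove i` (`amap_face`, `Fin.sum_univ_succAbove`,
the `i`-th coordinate of `face i t` is `0`).  So for `x : Ch (Dl q × Bool) (r + 1)` the singular boundary of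
`toH T I s x` is `toH T I s (dd x)`, and the Čech boundary is
`∑ a (-1)^a toH T (I ∘ succAbove a) s x` (as `SdG_S`, `SdG_C`, `SdG_bdL_toG`).  Naturality
(`NatH`): `toH T I (s ∘ face i) x = toH T I s (mapc (Prod.map (face i) id) x)` (as in `SdG_toG_comp`,
`face_eq_amap`, `amap_amap`), and
`mapc (Prod.map (face i) id) (pris (single vtx)) = pris (single (fun j => vtx (i.succAbove j)))` by `mapc_pris`.
On a generator `x = (p, q, I, s)`: the Čech parts of `bdL (PrG T x)` and `PrG T (bd x)` are opposite
(signs `(-1)^p` and `(-1)^(p-1)`); the singular parts are `toH T I s (dd (pris vtx))` and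
`toH T I s (pris (dd vtx))` (for `q = 0` the second is zero and `dd_pris_zero` is used); the sum is
`toH T I s (mapc (·, true) vtx) - toH T I s (mapc (·, false) vtx)`, i.e. the simplices
`t ↦ T q s (amap vtx t) (∑ j, t j) = T q s t 1` and `t ↦ T q s t 0` (`amap_vtx`, the sum of the coordinates
is `1`).
-/

namespace Pool.Agent.AHE

open Pool.Agent.AHC Pool.Agent.AHI Pool.Agent.AHU
open scoped LinearAlgebra.Projectivization

variable {N : ℕ}

/-- homotopies of simplices -/
abbrev Htp (N : ℕ) : Type := ∀ q : ℕ, Simplex N q → Dl q → ℝ → ℙ ℂ (Fin (N + 1) → ℂ)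

/-- compatibility with faces -/
def NatH (T : Htp N) : Prop := ∀ (q : ℕ) (s : Simplex N (q + 1)) (i : Fin (q + 2)) (t : Dl q) (τ : ℝ),
  T q (s ∘ face i) t τ = T (q + 1) s (face i t) τ

/-- the second coordinate of the affine map with vertices `u` -/
def tau {A : Type} {r : ℕ} (u : Fin (r + 1) → A × Bool) (t : Dl r) : ℝ :=
  ∑ j, if (u j).2 then (t : Fin (r + 1) → ℝ) j else 0

/-- affine chains in the prism, mapped by the homotopy -/
noncomputable def toH (T : Htp N) {p q r : ℕ} (I : Fin (p + 1) → Fin (N + 1)) (s : Simplex N q) :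
    Ch (Dl q × Bool) r →ₗ[ℤ] (Gen N →₀ ℤ) :=
  Finsupp.lmapDomain ℤ ℤ fun u =>
    (⟨p, r, I, fun t => T q s (amap (fun j => (u j).1) t) (tau u t)⟩ : Gen N)

/-- the prism operator -/
noncomputable def PrG (T : Htp N) : (Gen N →₀ ℤ) →ₗ[ℤ] (Gen N →₀ ℤ) :=
  Finsupp.linearCombination ℤ fun x : Gen N =>
    (-1 : ℤ) ^ x.1 • toH T x.2.2.1 x.2.2.2 (pris (Finsupp.single (vtx x.2.1) 1))

/-- the simplices at time `τ` -/
def endT (T : Htp N) (τ : ℝ) (x : Gen N) : Gen N :=
  ⟨x.1, x.2.1, x.2.2.1, fun t => T x.2.1 x.2.2.2 t τ⟩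

theorem GPg_toH_single (T : Htp N) {p q r : ℕ} (I : Fin (p + 1) → Fin (N + 1)) (s : Simplex N q)
    (u : Fin (r + 1) → Dl q × Bool) (c : ℤ) : toH T I s (Finsupp.single u c) =
      Finsupp.single (⟨p, r, I, fun t => T q s (amap (fun j => (u j).1) t) (tau u t)⟩ : Gen N) c := by
  unfold toH
  rw [Finsupp.lmapDomain_apply, Finsupp.mapDomain_single]

theorem GPg_PrG_single (T : Htp N) (x : Gen N) (c : ℤ) : PrG T (Finsupp.single x c) =
    c • ((-1 : ℤ) ^ x.1 • toH T x.2.2.1 x.2.2.2 (pris (Finsupp.single (vtx x.2.1) 1))) := by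
  unfold PrG
  rw [Finsupp.linearCombination_single]

theorem GPg_tau_face {A : Type} {r : ℕ} (u : Fin (r + 2) → A × Bool) (i : Fin (r + 2)) (t : Dl r) :
    tau u (face i t) = tau (fun j => u (i.succAbove j)) t := by
  show ∑ j, (if (u j).2 then (i.insertNth (0 : ℝ) (t : Fin (r + 1) → ℝ) : Fin (r + 2) → ℝ) j else 0) =
    ∑ j, if (u (i.succAbove j)).2 then (t : Fin (r + 1) → ℝ) j else 0
  rw [Fin.sum_univ_succAbove _ i]
  simp

theorem GPg_face (T : Htp N) {q r : ℕ} (s : Simplex N q) (u : Fin (r + 2) → Dl q × Bool)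
    (i : Fin (r + 2)) :
    ((fun t => T q s (amap (fun j => (u j).1) t) (tau u t)) ∘ face i : Simplex N r) =
      fun t => T q s (amap (fun j => (u (i.succAbove j)).1) t) (tau (fun j => u (i.succAbove j)) t) := by
  funext t
  rw [Function.comp_apply, amap_face, GPg_tau_face]

theorem GPg_S (T : Htp N) {p q r : ℕ} (I : Fin (p + 1) → Fin (N + 1)) (s : Simplex N q)
    (x : Ch (Dl q × Bool) (r + 1)) :
    Finsupp.linearCombination ℤ (AHI.bdS : Gen N → (Gen N →₀ ℤ)) (toH T I s x) =
      toH T I s (dd x) := by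
  induction x using Finsupp.induction_linear with
  | zero => rw [map_zero, map_zero, map_zero, map_zero]
  | add x y hx hy => rw [map_add, map_add, map_add, map_add, hx, hy]
  | single v c =>
    rw [GPg_toH_single, Finsupp.linearCombination_single]
    unfold dd
    rw [Finsupp.linearCombination_single, map_zsmul, map_sum]
    congr 1
    simp only [AHI.bdS]
    refine Finset.sum_congr rfl fun i _ => ?_
    rw [GPg_toH_single, GPg_face]

theorem GPg_C (T : Htp N) {p q r : ℕ} (I : Fin (p + 2) → Fin (N + 1)) (s : Simplex N q)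
    (x : Ch (Dl q × Bool) r) :
    Finsupp.linearCombination ℤ (AHI.bdC : Gen N → (Gen N →₀ ℤ)) (toH T I s x) =
      ∑ a : Fin (p + 2), (-1 : ℤ) ^ (a : ℕ) • toH T (I ∘ a.succAbove) s x := by
  induction x using Finsupp.induction_linear with
  | zero => simp
  | add x y hx hy =>
    rw [map_add, map_add, hx, hy, ← Finset.sum_add_distrib]
    exact Finset.sum_congr rfl fun a _ => by rw [map_add, smul_add]
  | single v c =>
    rw [GPg_toH_single, Finsupp.linearCombination_single]
    simp only [AHI.bdC]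
    rw [Finset.smul_sum]
    refine Finset.sum_congr rfl fun a _ => ?_
    rw [GPg_toH_single, Finsupp.smul_single, Finsupp.smul_single, smul_eq_mul, smul_eq_mul, mul_comm]

theorem GPg_C0 (T : Htp N) {q r : ℕ} (I : Fin (0 + 1) → Fin (N + 1)) (s : Simplex N q)
    (x : Ch (Dl q × Bool) r) :
    Finsupp.linearCombination ℤ (AHI.bdC : Gen N → (Gen N →₀ ℤ)) (toH T I s x) = 0 := by
  induction x using Finsupp.induction_linear with
  | zero => rw [map_zero, map_zero]
  | add x y hx hy => rw [map_add, map_add, hx, hy, add_zero]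
  | single v c =>
    rw [GPg_toH_single, Finsupp.linearCombination_single]
    simp only [AHI.bdC]
    rw [smul_zero]

theorem GPg_bdL_toH (T : Htp N) {p q r : ℕ} (I : Fin (p + 1) → Fin (N + 1)) (s : Simplex N q)
    (x : Ch (Dl q × Bool) r) :
    bdL (toH T I s x) = Finsupp.linearCombination ℤ (AHI.bdC : Gen N → (Gen N →₀ ℤ)) (toH T I s x) +
      (-1 : ℤ) ^ p • Finsupp.linearCombination ℤ (AHI.bdS : Gen N → (Gen N →₀ ℤ)) (toH T I s x) := by
  induction x using Finsupp.induction_linear with
  | zero => simp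
  | add x y hx hy =>
    rw [map_add, map_add, map_add, map_add, hx, hy, smul_add]
    abel
  | single v c =>
    rw [GPg_toH_single, SdG_bdL_single, Finsupp.linearCombination_single,
      Finsupp.linearCombination_single]
    unfold AHI.bd
    rw [smul_add, smul_comm]

/-- naturality -/
theorem GPg_nat {T : Htp N} (hT : NatH T) {p q r : ℕ} (I : Fin (p + 1) → Fin (N + 1))
    (s : Simplex N (q + 1)) (i : Fin (q + 2)) (x : Ch (Dl q × Bool) r) :
    toH T I (s ∘ face i : Simplex N q) x = toH T I s (mapc (Prod.map (face i) id) x) := by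
  induction x using Finsupp.induction_linear with
  | zero => rw [map_zero, map_zero, map_zero]
  | add x y hx hy => rw [map_add, map_add, map_add, hx, hy]
  | single v c =>
    unfold mapc
    rw [Finsupp.lmapDomain_apply, Finsupp.mapDomain_single, GPg_toH_single, GPg_toH_single]
    congr 4
    funext t
    rw [hT, face_eq_amap, amap_amap]
    congr 2
    funext j
    rw [← face_eq_amap]
    rfl

theorem GPg_mapc_face {q : ℕ} (i : Fin (q + 2)) :
    mapc (face i) (Finsupp.single (vtx q) (1 : ℤ)) =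
      Finsupp.single (fun j => vtx (q + 1) (i.succAbove j)) 1 := by
  unfold mapc
  rw [Finsupp.lmapDomain_apply, Finsupp.mapDomain_single]
  congr 1
  funext j
  rw [face_eq_amap, amap_vertex]

theorem GPg_tau_true {r : ℕ} {A : Type} (v : Fin (r + 1) → A) (t : Dl r) :
    tau (fun j => (v j, true)) t = 1 := by
  unfold tau
  simp only [if_true]
  exact t.2.2

theorem GPg_tau_false {r : ℕ} {A : Type} (v : Fin (r + 1) → A) (t : Dl r) :
    tau (fun j => (v j, false)) t = 0 := by
  unfold tau
  simp

theorem bdL_PrG {T : Htp N} (hT : NatH T) (z : Gen N →₀ ℤ) :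
    bdL (PrG T z) + PrG T (bdL z) =
      Finsupp.mapDomain (endT T 1) z - Finsupp.mapDomain (endT T 0) z := by
  induction z using Finsupp.induction_linear with
  | zero => simp
  | add x y hx hy =>
    rw [map_add (PrG T), map_add bdL, map_add bdL, map_add (PrG T), Finsupp.mapDomain_add,
      Finsupp.mapDomain_add]
    have h : bdL (PrG T x) + bdL (PrG T y) + (PrG T (bdL x) + PrG T (bdL y)) =
        (bdL (PrG T x) + PrG T (bdL x)) + (bdL (PrG T y) + PrG T (bdL y)) := by abel
    rw [h, hx, hy]
    abel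
  | single x c =>
    have hc : Finsupp.single x c = c • Finsupp.single x (1 : ℤ) := by
      rw [Finsupp.smul_single, smul_eq_mul, mul_one]
    rw [hc, map_zsmul (PrG T), map_zsmul bdL, map_zsmul bdL, map_zsmul (PrG T), Finsupp.mapDomain_smul,
      Finsupp.mapDomain_smul, ← smul_add, ← smul_sub]
    congr 1
    rw [Finsupp.mapDomain_single, Finsupp.mapDomain_single]
    obtain ⟨p, q, I, s⟩ := x
    have hneg : (-1 : ℤ) ^ p * (-1 : ℤ) ^ p = 1 := by
      rw [← mul_pow]
      norm_num
    have h1x : toH T I s (mapc (fun a => (a, true)) (Finsupp.single (vtx q) 1)) =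
        Finsupp.single (endT T 1 (⟨p, q, I, s⟩ : Gen N)) 1 := by
      unfold mapc
      rw [Finsupp.lmapDomain_apply, Finsupp.mapDomain_single, GPg_toH_single]
      congr 4
      funext t
      rw [GPg_tau_true]
      show T q s (amap (vtx q) t) 1 = T q s t 1
      rw [amap_vtx]
    have h0x : toH T I s (mapc (fun a => (a, false)) (Finsupp.single (vtx q) 1)) =
        Finsupp.single (endT T 0 (⟨p, q, I, s⟩ : Gen N)) 1 := by
      unfold mapc
      rw [Finsupp.lmapDomain_apply, Finsupp.mapDomain_single, GPg_toH_single]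
      congr 4
      funext t
      rw [GPg_tau_false]
      show T q s (amap (vtx q) t) 0 = T q s t 0
      rw [amap_vtx]
    obtain ⟨y, hy⟩ : ∃ y : Ch (Dl q × Bool) (q + 1), y = pris (Finsupp.single (vtx q) 1) := ⟨_, rfl⟩
    have hC : (-1 : ℤ) ^ p • Finsupp.linearCombination ℤ (AHI.bdC : Gen N → (Gen N →₀ ℤ))
        (toH T I s y) + PrG T (AHI.bdC (⟨p, q, I, s⟩ : Gen N)) = 0 := by
      cases p with
      | zero =>
        rw [GPg_C0]
        simp only [AHI.bdC]
        rw [map_zero, smul_zero, add_zero]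
      | succ p =>
        rw [GPg_C]
        simp only [AHI.bdC]
        rw [map_sum, Finset.smul_sum, ← Finset.sum_add_distrib]
        refine Finset.sum_eq_zero fun a _ => ?_
        rw [GPg_PrG_single]
        change (-1 : ℤ) ^ (p + 1) • (-1 : ℤ) ^ (a : ℕ) • toH T (I ∘ a.succAbove) s y +
          (-1 : ℤ) ^ (a : ℕ) • ((-1 : ℤ) ^ p • toH T (I ∘ a.succAbove) s
            (pris (Finsupp.single (vtx q) 1))) = 0
        rw [← hy, smul_smul, smul_smul, ← add_smul]
        have h0 : (-1 : ℤ) ^ (p + 1) * (-1 : ℤ) ^ (a : ℕ) + (-1 : ℤ) ^ (a : ℕ) * (-1 : ℤ) ^ p = 0 := by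
          rw [pow_succ]
          ring
        rw [h0, zero_smul]
    have hS : toH T I s (dd y) + (-1 : ℤ) ^ p • PrG T (AHI.bdS (⟨p, q, I, s⟩ : Gen N)) =
        Finsupp.single (endT T 1 (⟨p, q, I, s⟩ : Gen N)) 1 -
          Finsupp.single (endT T 0 (⟨p, q, I, s⟩ : Gen N)) 1 := by
      rw [← h1x, ← h0x, ← map_sub]
      cases q with
      | zero =>
        simp only [AHI.bdS]
        rw [map_zero, smul_zero, add_zero, hy, dd_pris_zero]
      | succ q =>
        have h1 : PrG T (AHI.bdS (⟨p, q + 1, I, s⟩ : Gen N)) =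
            (-1 : ℤ) ^ p • toH T I s (pris (dd (Finsupp.single (vtx (q + 1)) 1))) := by
          simp only [AHI.bdS]
          rw [map_sum]
          have h2 : dd (Finsupp.single (vtx (q + 1)) (1 : ℤ)) =
              ∑ i : Fin (q + 2), (-1 : ℤ) ^ (i : ℕ) •
                Finsupp.single (fun j => vtx (q + 1) (i.succAbove j)) (1 : ℤ) := by
            unfold dd
            rw [Finsupp.linearCombination_single, one_smul]
            refine Finset.sum_congr rfl fun i _ => ?_
            rw [Finsupp.smul_single, smul_eq_mul, mul_one]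
          rw [h2, map_sum, map_sum, Finset.smul_sum]
          refine Finset.sum_congr rfl fun i _ => ?_
          rw [GPg_PrG_single, map_zsmul, map_zsmul, smul_comm]
          congr 2
          change toH T I (s ∘ face i : Simplex N q) (pris (Finsupp.single (vtx q) 1)) = _
          rw [GPg_nat hT, mapc_pris, GPg_mapc_face]
        rw [h1, smul_smul, hneg, one_smul, ← map_add, hy, dd_pris]
    have hP : PrG T (Finsupp.single (⟨p, q, I, s⟩ : Gen N) (1 : ℤ)) = (-1 : ℤ) ^ p • toH T I s y := by
      rw [GPg_PrG_single, one_smul, hy]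
    rw [hP, map_zsmul, GPg_bdL_toH, GPg_S, smul_add, smul_smul, hneg, one_smul, SdG_bdL_single, one_smul]
    unfold AHI.bd
    rw [map_add (PrG T), map_zsmul (PrG T), ← hS]
    change _ + _ + (_ + (-1 : ℤ) ^ p • PrG T (AHI.bdS (⟨p, q, I, s⟩ : Gen N))) = _
    rw [add_add_add_comm, hC, zero_add]

theorem bdL_endT {T : Htp N} (hT : NatH T) (τ : ℝ) (z : Gen N →₀ ℤ) :
    bdL (Finsupp.mapDomain (endT T τ) z) = Finsupp.mapDomain (endT T τ) (bdL z) := by
  induction z using Finsupp.induction_linear with
  | zero => rw [Finsupp.mapDomain_zero, map_zero, Finsupp.mapDomain_zero]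
  | add x y hx hy => rw [Finsupp.mapDomain_add, map_add, map_add, Finsupp.mapDomain_add, hx, hy]
  | single x c =>
    rw [Finsupp.mapDomain_single, SdG_bdL_single, SdG_bdL_single, Finsupp.mapDomain_smul]
    congr 1
    obtain ⟨p, q, I, s⟩ := x
    unfold AHI.bd
    rw [Finsupp.mapDomain_add, Finsupp.mapDomain_smul]
    congr 1
    · cases p with
      | zero =>
        change (0 : Gen N →₀ ℤ) = Finsupp.mapDomain (endT T τ) 0
        rw [Finsupp.mapDomain_zero]
      | succ p =>
        change ∑ a : Fin (p + 2), Finsupp.single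
            (⟨p, q, I ∘ a.succAbove, fun t => T q s t τ⟩ : Gen N) ((-1 : ℤ) ^ (a : ℕ)) =
          Finsupp.mapDomain (endT T τ) (∑ a : Fin (p + 2), Finsupp.single
            (⟨p, q, I ∘ a.succAbove, s⟩ : Gen N) ((-1 : ℤ) ^ (a : ℕ)))
        rw [Finsupp.mapDomain_finsetSum]
        refine Finset.sum_congr rfl fun a _ => ?_
        rw [Finsupp.mapDomain_single]
        rfl
    · change (-1 : ℤ) ^ p • _ = (-1 : ℤ) ^ p • _
      congr 1
      cases q with
      | zero =>
        change (0 : Gen N →₀ ℤ) = Finsupp.mapDomain (endT T τ) 0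
        rw [Finsupp.mapDomain_zero]
      | succ q =>
        change ∑ i : Fin (q + 2), Finsupp.single
            (⟨p, q, I, (fun t => T (q + 1) s t τ) ∘ face i⟩ : Gen N) ((-1 : ℤ) ^ (i : ℕ)) =
          Finsupp.mapDomain (endT T τ) (∑ i : Fin (q + 2), Finsupp.single
            (⟨p, q, I, s ∘ face i⟩ : Gen N) ((-1 : ℤ) ^ (i : ℕ)))
        rw [Finsupp.mapDomain_finsetSum]
        refine Finset.sum_congr rfl fun i _ => ?_
        rw [Finsupp.mapDomain_single]
        congr 1
        unfold endT
        congr 3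
        funext t
        exact (hT q s i t τ).symm

/-- the simplices of the prism over `x` -/
theorem mem_PrG {T : Htp N} {x y : Gen N} (hy : y ∈ (PrG T (Finsupp.single x 1)).support) :
    ∃ u : Fin (x.2.1 + 2) → Dl x.2.1 × Bool, y = ⟨x.1, x.2.1 + 1, x.2.2.1,
      fun t => T x.2.1 x.2.2.2 (amap (fun j => (u j).1) t) (tau u t)⟩ := by
  classical
  rw [GPg_PrG_single, one_smul] at hy
  have h1 := Finsupp.support_smul hy
  unfold pris at h1
  rw [Finsupp.linearCombination_single, one_smul, map_sum] at h1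
  have h2 := Finsupp.support_finsetSum h1
  rw [Finset.mem_biUnion] at h2
  obtain ⟨i, -, h3⟩ := h2
  rw [GPg_toH_single] at h3
  have h4 := Finsupp.support_single_subset h3
  rw [Finset.mem_singleton] at h4
  exact ⟨_, h4⟩

end Pool.Agent.AHE
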