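import Mathlib
import Pool.Agent.AHE.GLf
import Pool.Agent.AHE.GFi
import Pool.Agent.AHE.GPg
import Pool.Agent.AHR.Flat

/-!
# Replacing a fine cycle by the natural cycle built from its vertices

`R` is a map from the points of projective space to matrices with `‖R y - mtP y‖ < ρ`.  `plm G η R` replaces
the simplex `s` by `t ↦ SM G η (∑ a, t a • R (s (vertex a)))`; it only depends on the vertices of `s`.

Proof of `compare`.  Let `T = TPL (conjEqs β F) η R Φ`.  `natH_TPL`: `(s ∘ face i) (vtx q a) =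
s (vtx (q + 1) (i.succAbove a))`, and in the sum over `Fin (q + 2)` the term `i` vanishes
(`Fin.sum_univ_succAbove`).

For `y = (p, q, I, s) ∈ z.support`: `s` has a lift on the cone of `conjEqs β₂ F`; by `UM.near` (for `β₂`, at a
vertex) and `FineM ρ y` there is `z₀ ∈ Sph F` with `‖mtP (s t) - mt z₀‖ < 2 ρ` for all `t`.  Let
`v'` be the lift of `push Φ y`; `mtP (Φ (s t)) = mt (v' t)`.  For `τ ∈ [0, 1]` the matrix
`(1 - τ) mtP (Φ (s t)) + τ ∑ a, t a • R (s (vtx a))` is a convex combination of matrices at distance `< 2 ρ`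
from `mtP (s t)` and `< 3 ρ` from `mt z₀`; its entries `(I a, I a)` have absolute value at least
`c^2 - 2 ρ ≥ c^2 / 2` (`CGood c y`, `mem_GG_iff`).  So `exists_lift` applies to the simplices of the prism
(`mem_PrG`): for `u : Fin (q + 2) → Dl q × Bool` take
`Γ t' = (1 - τ t') mt (v' (π t')) + τ t' ∑ a, (π t') a • R (s (vtx a))` with the linear maps
`π t' = alin (fst ∘ u) t'` and `τ t' = ∑ j, if (u j).2 then t' j else 0`, on the open set where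
`v' (π t') ≠ 0`; for `t' ∈ stdSimplex`, `π t' ∈ stdSimplex` and `τ t' ∈ [0, 1]`.  So all simplices in
`PrG T z` are liftable for `conjEqs β F`, of total degree `2 k + 1`, and `evc W` of their boundary is `0`
(`IsPer.bd`); similarly `plm y` is liftable (`Γ t = ∑ a, t a • R (s (vtx a))`, smooth everywhere).
`endT T 0 y = push Φ y` for `y ∈ z.support`: `SM (conjEqs β F) η (mt (v' t)) = mk (v' t)` by `rm_mt`, `SM_eq`,
`UM.uniq` and `‖mt (v' t) - mt (v' t)‖ = 0 < η`; `endT T 1 y = plm y` (`1 - 1 = 0`).  `bdL_PrG` and `bdL z = 0` give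
`mapDomain plm z - mapDomain (push Φ) z = bdL (PrG T z)`; apply `evc W`.  `mapDomain plm z` is a cycle by
`bdL_endT`.
-/

namespace Pool.Agent.AHE

open MvPolynomial Pool.Agent.AHC Pool.Agent.AHI Pool.Agent.AHR Pool.Agent.AHU Pool.Agent.EllPR
open scoped ContDiff LinearAlgebra.Projectivization

variable {N m : ℕ}

/-- the homotopy from the simplex `Φ ∘ s` to the simplex built from the vertices of `s` -/
noncomputable def TPL (G : Fin m → CPoly N) (η : ℝ) (R : ℙ ℂ (Fin (N + 1) → ℂ) → Mt N)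
    (Φ : ℙ ℂ (Fin (N + 1) → ℂ) → ℙ ℂ (Fin (N + 1) → ℂ)) : Htp N := fun q s t τ =>
  SM G η fun l l' => (1 - (τ : ℂ)) * mtP (Φ (s t)) l l' +
    (τ : ℂ) * ∑ a, (((t : Fin (q + 1) → ℝ) a : ℝ) : ℂ) * R (s (vtx q a)) l l'

/-- the simplex built from the vertices -/
noncomputable def plm (G : Fin m → CPoly N) (η : ℝ) (R : ℙ ℂ (Fin (N + 1) → ℂ) → Mt N)
    (x : Gen N) : Gen N :=
  ⟨x.1, x.2.1, x.2.2.1, fun t => SM G η fun l l' =>
    ∑ a, (((t : Fin (x.2.1 + 1) → ℝ) a : ℝ) : ℂ) * R (x.2.2.2 (vtx x.2.1 a)) l l'⟩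

theorem natH_TPL (G : Fin m → CPoly N) (η : ℝ) (R : ℙ ℂ (Fin (N + 1) → ℂ) → Mt N)
    (Φ : ℙ ℂ (Fin (N + 1) → ℂ) → ℙ ℂ (Fin (N + 1) → ℂ)) : NatH (TPL G η R Φ) := by
  intro q s i t τ
  have hv : ∀ a, face i (vtx q a) = vtx (q + 1) (i.succAbove a) := by
    intro a
    rw [face_eq_amap, amap_vertex]
  unfold TPL
  congr 1
  funext l l'
  congr 2
  rw [Fin.sum_univ_succAbove _ i]
  have h0 : (face i t : Fin (q + 2) → ℝ) i = 0 := by
    change (i.insertNth (0 : ℝ) (t : Fin (q + 1) → ℝ) : Fin (q + 2) → ℝ) i = 0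
    simp
  rw [h0, Complex.ofReal_zero, zero_mul, zero_add]
  refine Finset.sum_congr rfl fun a _ => ?_
  have h1 : (face i t : Fin (q + 2) → ℝ) (i.succAbove a) = (t : Fin (q + 1) → ℝ) a := by
    change (i.insertNth (0 : ℝ) (t : Fin (q + 1) → ℝ) : Fin (q + 2) → ℝ) (i.succAbove a) = _
    simp
  rw [h1, Function.comp_apply, hv]

private theorem GCp_conv {q : ℕ} {C : Mt N} {r : ℝ} {A : Fin (q + 1) → Mt N}
    (hA : ∀ a, ‖A a - C‖ < r) {t : Fin (q + 1) → ℝ} (ht : t ∈ stdSimplex ℝ (Fin (q + 1))) :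
    ‖(fun l l' => ∑ a, ((t a : ℝ) : ℂ) * A a l l' : Mt N) - C‖ < r := by
  have h1 : ∑ a, t a • A a ∈ Metric.ball C r :=
    (convex_ball C r).sum_mem (fun a _ => ht.1 a) ht.2 fun a _ => by
      rw [mem_ball_iff_norm]
      exact hA a
  rw [mem_ball_iff_norm] at h1
  have h2 : (fun l l' => ∑ a, ((t a : ℝ) : ℂ) * A a l l' : Mt N) = ∑ a, t a • A a := by
    funext l l'
    simp only [Finset.sum_apply, Pi.smul_apply, Complex.real_smul]
  rw [h2]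
  exact h1

private theorem GCp_conv2 {C A B : Mt N} {r τ : ℝ} (hA : ‖A - C‖ < r) (hB : ‖B - C‖ < r)
    (h0 : 0 ≤ τ) (h1 : τ ≤ 1) :
    ‖(fun l l' => (1 - (τ : ℂ)) * A l l' + (τ : ℂ) * B l l' : Mt N) - C‖ < r := by
  have h2 : (1 - τ) • A + τ • B ∈ Metric.ball C r := by
    refine (convex_ball C r) ?_ ?_ (by linarith) h0 (by ring)
    · rw [mem_ball_iff_norm]
      exact hA
    · rw [mem_ball_iff_norm]
      exact hB
  rw [mem_ball_iff_norm] at h2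
  have h3 : (fun l l' => (1 - (τ : ℂ)) * A l l' + (τ : ℂ) * B l l' : Mt N) =
      (1 - τ) • A + τ • B := by
    funext l l'
    simp only [Pi.add_apply, Pi.smul_apply, Complex.real_smul]
    push_cast
    ring
  rw [h3]
  exact h2

private theorem GCp_z {F : Fin m → CPoly N} {X : Finset ℂ} {η ρ δ : ℝ} (hU : UM F X η ρ δ)
    {β₂ : ℂ ≃+* ℂ} (hβ₂ : dist (res X β₂) (inc X) < δ) {y : Gen N}
    (hl : Liftable (conjEqs β₂ F) y) (hg : FineM ρ y) :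
    ∃ z₀ ∈ Sph F, ∀ t, ‖mtP (y.2.2.2 t) - mt z₀‖ < 2 * ρ := by
  obtain ⟨v, hv⟩ := hl
  obtain ⟨h0, h1⟩ := hv.lifts (vtx y.2.1 0)
  obtain ⟨z₀, hz₀, h2⟩ := hU.near β₂ hβ₂ _ h0 (hv.onCone _ (vtx y.2.1 0).2)
  refine ⟨z₀, hz₀, fun t => ?_⟩
  have h3 : mtP (y.2.2.2 (vtx y.2.1 0)) = mt (v (vtx y.2.1 0 : Fin (y.2.1 + 1) → ℝ)) := by
    rw [h1, mtP_mk]
  have h4 := hg t (vtx y.2.1 0)
  rw [h3] at h4
  have h5 : mtP (y.2.2.2 t) - mt z₀ =
      (mtP (y.2.2.2 t) - mt (v (vtx y.2.1 0 : Fin (y.2.1 + 1) → ℝ))) +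
        (mt (v (vtx y.2.1 0 : Fin (y.2.1 + 1) → ℝ)) - mt z₀) := by abel
  rw [h5]
  refine (norm_add_le _ _).trans_lt ?_
  linarith

private theorem GCp_R {ρ : ℝ} {R : ℙ ℂ (Fin (N + 1) → ℂ) → Mt N} (hR : ∀ y, ‖R y - mtP y‖ < ρ)
    {y : Gen N} (hg : FineM ρ y) (t₀ : Dl y.2.1) {t : Fin (y.2.1 + 1) → ℝ}
    (ht : t ∈ stdSimplex ℝ (Fin (y.2.1 + 1))) :
    ‖(fun l l' => ∑ a, ((t a : ℝ) : ℂ) * R (y.2.2.2 (vtx y.2.1 a)) l l' : Mt N) -
      mtP (y.2.2.2 t₀)‖ < 2 * ρ := by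
  refine GCp_conv (A := fun a => R (y.2.2.2 (vtx y.2.1 a))) (fun a => ?_) ht
  have h5 : R (y.2.2.2 (vtx y.2.1 a)) - mtP (y.2.2.2 t₀) =
      (R (y.2.2.2 (vtx y.2.1 a)) - mtP (y.2.2.2 (vtx y.2.1 a))) +
        (mtP (y.2.2.2 (vtx y.2.1 a)) - mtP (y.2.2.2 t₀)) := by abel
  show ‖R (y.2.2.2 (vtx y.2.1 a)) - mtP (y.2.2.2 t₀)‖ < _
  rw [h5]
  refine (norm_add_le _ _).trans_lt ?_
  linarith [hR (y.2.2.2 (vtx y.2.1 a)), hg (vtx y.2.1 a) t₀]

private theorem GCp_entry {ρ c : ℝ} (hc : 0 < c) (hρ : 2 * ρ ≤ c ^ 2 / 2) {y : Gen N}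
    (hg : CGood c y) (t₀ : Dl y.2.1) {M : Mt N} (hM : ‖M - mtP (y.2.2.2 t₀)‖ < 2 * ρ)
    (b : Fin (y.1 + 1)) : c ^ 2 / 2 ≤ ‖M (y.2.2.1 b) (y.2.2.1 b)‖ := by
  have h1 : c ^ 2 ≤ ‖mtP (y.2.2.2 t₀) (y.2.2.1 b) (y.2.2.1 b)‖ := (mem_GG_iff hc).1 (hg t₀ b)
  have h2 : ‖(M - mtP (y.2.2.2 t₀)) (y.2.2.1 b) (y.2.2.1 b)‖ ≤ ‖M - mtP (y.2.2.2 t₀)‖ :=
    (norm_le_pi_norm _ _).trans (norm_le_pi_norm _ _)
  have h3 : mtP (y.2.2.2 t₀) (y.2.2.1 b) (y.2.2.1 b) = M (y.2.2.1 b) (y.2.2.1 b) -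
      (M - mtP (y.2.2.2 t₀)) (y.2.2.1 b) (y.2.2.1 b) := by
    simp only [Pi.sub_apply]
    ring
  rw [h3] at h1
  have h4 := h1.trans (norm_sub_le _ _)
  linarith

/-- the matrices of a simplex of a fine cycle are in one chart -/
theorem exists_center {F : Fin m → CPoly N} {X : Finset ℂ} {η ρ δ c : ℝ} (hU : UM F X η ρ δ)
    (hc : 0 < c) (hρ : 2 * ρ ≤ c ^ 2 / 2) {β₂ : ℂ ≃+* ℂ} (hβ₂ : dist (res X β₂) (inc X) < δ)
    {R : ℙ ℂ (Fin (N + 1) → ℂ) → Mt N} (hR : ∀ y, ‖R y - mtP y‖ < ρ) {y : Gen N}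
    (hl : Liftable (conjEqs β₂ F) y) (hg : CGood c y ∧ FineM ρ y) :
    ∃ z₀ ∈ Sph F, (∀ t, ‖mtP (y.2.2.2 t) - mt z₀‖ < 2 * ρ) ∧
      (∀ t ∈ stdSimplex ℝ (Fin (y.2.1 + 1)), ‖(fun l l' => ∑ a, ((t a : ℝ) : ℂ) *
        R (y.2.2.2 (vtx y.2.1 a)) l l' : Mt N) - mt z₀‖ < 4 * ρ) ∧
      ∀ t ∈ stdSimplex ℝ (Fin (y.2.1 + 1)), ∀ b, c ^ 2 / 2 ≤
        ‖∑ a, ((t a : ℝ) : ℂ) * R (y.2.2.2 (vtx y.2.1 a)) (y.2.2.1 b) (y.2.2.1 b)‖ := by
  obtain ⟨z₀, hz₀, h1⟩ := GCp_z hU hβ₂ hl hg.2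
  refine ⟨z₀, hz₀, h1, fun t ht => ?_, fun t ht b => ?_⟩
  · have h2 := GCp_R hR hg.2 (vtx y.2.1 0) ht
    have h3 := h1 (vtx y.2.1 0)
    have h4 := norm_add_le ((fun l l' => ∑ a, ((t a : ℝ) : ℂ) *
        R (y.2.2.2 (vtx y.2.1 a)) l l' : Mt N) - mtP (y.2.2.2 (vtx y.2.1 0)))
        (mtP (y.2.2.2 (vtx y.2.1 0)) - mt z₀)
    rw [sub_add_sub_cancel] at h4
    linarith
  · exact GCp_entry hc hρ hg.1 (vtx y.2.1 0) (GCp_R hR hg.2 (vtx y.2.1 0) ht) b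

private theorem GCp_prism {F : Fin m → CPoly N} {X : Finset ℂ} {η ρ δ c : ℝ} (hU : UM F X η ρ δ)
    (hc : 0 < c) (hη : η ≤ c ^ 2 / 4) (hρ : 2 * ρ ≤ c ^ 2 / 2) {β₂ β : ℂ ≃+* ℂ}
    (hβ₂ : dist (res X β₂) (inc X) < δ) (hβ : dist (res X β) (inc X) < δ)
    {R : ℙ ℂ (Fin (N + 1) → ℂ) → Mt N} (hR : ∀ y, ‖R y - mtP y‖ < ρ)
    {Φ : ℙ ℂ (Fin (N + 1) → ℂ) → ℙ ℂ (Fin (N + 1) → ℂ)} {p q : ℕ}
    {I : Fin (p + 1) → Fin (N + 1)} {s : Simplex N q}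
    (hl : Liftable (conjEqs β₂ F) ⟨p, q, I, s⟩)
    (hg : CGood c (⟨p, q, I, s⟩ : Gen N) ∧ FineM ρ (⟨p, q, I, s⟩ : Gen N))
    (hΦ : Liftable (conjEqs β F) (push Φ ⟨p, q, I, s⟩))
    (hΦn : ∀ t, ‖mtP (Φ (s t)) - mtP (s t)‖ < ρ) {r : ℕ} (u : Fin (r + 1) → Dl q × Bool) :
    Liftable (conjEqs β F) (⟨p, r, I, fun t => TPL (conjEqs β F) η R Φ q s
      (amap (fun j => (u j).1) t) (tau u t)⟩ : Gen N) := by
  obtain ⟨z₀, hz₀, h1⟩ := GCp_z hU hβ₂ hl hg.2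
  have h1' : ∀ t, ‖mtP (s t) - mt z₀‖ < 2 * ρ := h1
  obtain ⟨v', hv'⟩ := hΦ
  have hρ0 : 0 < ρ := hU.ρpos
  have hlift : ∀ t : Dl q, ∃ h : v' t ≠ 0, Φ (s t) = Projectivization.mk ℂ (v' t) h := hv'.lifts
  have hsm : ContDiff ℝ ∞ v' := hv'.smooth
  let al : (Fin (r + 1) → ℝ) → (Fin (q + 1) → ℝ) := alin fun j => (u j).1
  have hal : ContDiff ℝ ∞ al := contDiff_alin _
  let ta : (Fin (r + 1) → ℝ) → ℝ := fun t => ∑ j, if (u j).2 then t j else 0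
  have hta : ContDiff ℝ ∞ ta := by
    refine ContDiff.sum fun j _ => ?_
    split_ifs
    · exact contDiff_apply ℝ ℝ j
    · exact contDiff_const
  have hta0 : ∀ t ∈ stdSimplex ℝ (Fin (r + 1)), 0 ≤ ta t ∧ ta t ≤ 1 := by
    intro t ht
    constructor
    · refine Finset.sum_nonneg fun j _ => ?_
      split_ifs
      · exact ht.1 j
      · exact le_rfl
    · rw [← ht.2]
      refine Finset.sum_le_sum fun j _ => ?_
      split_ifs
      · exact le_rfl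
      · exact ht.1 j
  have hmem : ∀ t ∈ stdSimplex ℝ (Fin (r + 1)), al t ∈ stdSimplex ℝ (Fin (q + 1)) :=
    fun t ht => (amap (fun j => (u j).1) ⟨t, ht⟩).2
  let Γ : (Fin (r + 1) → ℝ) → Mt N := fun t l l' => (1 - ((ta t : ℝ) : ℂ)) * mt (v' (al t)) l l' +
    ((ta t : ℝ) : ℂ) * ∑ a, ((al t a : ℝ) : ℂ) * R (s (vtx q a)) l l'
  have hmt : ∀ t (ht : t ∈ stdSimplex ℝ (Fin (q + 1))), mtP (Φ (s ⟨t, ht⟩)) = mt (v' t) := by
    intro t ht
    obtain ⟨h2, h3⟩ := hlift ⟨t, ht⟩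
    rw [h3, mtP_mk]
    rfl
  have hΓs : ContDiffOn ℝ ∞ Γ {t | v' (al t) ≠ 0} := by
    intro t ht
    refine ContDiffAt.contDiffWithinAt ?_
    rw [contDiffAt_pi]
    intro l
    rw [contDiffAt_pi]
    intro l'
    have e1 : ContDiffAt ℝ ∞ (fun t => ((ta t : ℝ) : ℂ)) t :=
      (Complex.ofRealCLM.contDiff.comp hta).contDiffAt
    have e2 : ContDiffAt ℝ ∞ (fun t => mt (v' (al t)) l l') t := by
      have e3 : ContDiffAt ℝ ∞ (mt : (Fin (N + 1) → ℂ) → Mt N) (v' (al t)) := contDiffAt_mt ht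
      have e4 : ContDiffAt ℝ ∞ (fun t => v' (al t)) t := (hsm.comp hal).contDiffAt
      have e5 : ContDiffAt ℝ ∞ (fun t => mt (v' (al t))) t :=
        ContDiffAt.comp (g := mt) (f := fun t => v' (al t)) t e3 e4
      exact contDiffAt_pi.1 (contDiffAt_pi.1 e5 l) l'
    have e6 : ∀ a, ContDiffAt ℝ ∞ (fun t => ((al t a : ℝ) : ℂ)) t := by
      intro a
      exact (Complex.ofRealCLM.contDiff.comp (contDiff_pi.1 hal a)).contDiffAt
    exact ((contDiffAt_const.sub e1).mul e2).add (e1.mul (ContDiffAt.sum fun a _ =>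
      (e6 a).mul contDiffAt_const))
  have hUo : IsOpen {t | v' (al t) ≠ 0} :=
    isOpen_compl_singleton.preimage (hsm.comp hal).continuous
  have hUs : stdSimplex ℝ (Fin (r + 1)) ⊆ {t | v' (al t) ≠ 0} := by
    intro t ht
    exact (hlift ⟨al t, hmem t ht⟩).1
  have hΓ : ∀ t ∈ stdSimplex ℝ (Fin (r + 1)), ‖Γ t - mt z₀‖ < 4 * ρ := by
    intro t ht
    have h2 := GCp_R hR hg.2 (vtx q 0) (hmem t ht)
    have h3 := h1' (vtx q 0)
    have h4 := norm_add_le ((fun l l' => ∑ a, ((al t a : ℝ) : ℂ) *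
        R (s (vtx q a)) l l' : Mt N) - mtP (s (vtx q 0)))
        (mtP (s (vtx q 0)) - mt z₀)
    rw [sub_add_sub_cancel] at h4
    have h2' : ‖(fun l l' => ∑ a, ((al t a : ℝ) : ℂ) * R (s (vtx q a)) l l' : Mt N) -
      mtP (s (vtx q 0))‖ < 2 * ρ := h2
    have h5 : ‖mt (v' (al t)) - mt z₀‖ < 4 * ρ := by
      rw [← hmt _ (hmem t ht)]
      have h6 := norm_add_le (mtP (Φ (s ⟨al t, hmem t ht⟩)) - mtP (s ⟨al t, hmem t ht⟩))
        (mtP (s ⟨al t, hmem t ht⟩) - mt z₀)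
      rw [sub_add_sub_cancel] at h6
      linarith [hΦn ⟨al t, hmem t ht⟩, h1' ⟨al t, hmem t ht⟩]
    exact GCp_conv2 h5 (by linarith) (hta0 t ht).1 (hta0 t ht).2
  have hI : ∀ t ∈ stdSimplex ℝ (Fin (r + 1)), ∀ a, c ^ 2 / 2 ≤ ‖Γ t (I a) (I a)‖ := by
    intro t ht a
    refine GCp_entry (y := ⟨p, q, I, s⟩) hc hρ hg.1 ⟨al t, hmem t ht⟩ ?_ a
    have h2 := GCp_R hR hg.2 ⟨al t, hmem t ht⟩ (hmem t ht)
    have h5 : ‖mt (v' (al t)) - mtP (s ⟨al t, hmem t ht⟩)‖ < 2 * ρ := by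
      rw [← hmt _ (hmem t ht)]
      linarith [hΦn ⟨al t, hmem t ht⟩]
    exact GCp_conv2 h5 h2 (hta0 t ht).1 (hta0 t ht).2
  obtain ⟨v, hv⟩ := exists_lift hU hc hη hβ (I := I) hUo hUs hΓs hz₀ hΓ hI
  refine ⟨v, ?_⟩
  have hfun : (fun t : Dl r => TPL (conjEqs β F) η R Φ q s (amap (fun j => (u j).1) t) (tau u t)) =
      fun t : Dl r => SM (conjEqs β F) η (Γ t) := by
    funext t
    unfold TPL
    congr 1
    funext l l'
    have h2 := hmt _ (hmem t t.2)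
    have h3 : (amap (fun j => (u j).1) t) = ⟨al t, hmem t t.2⟩ := rfl
    rw [h3, h2]
    rfl
  show IsLift (conjEqs β F) I (fun t : Dl r => TPL (conjEqs β F) η R Φ q s
    (amap (fun j => (u j).1) t) (tau u t)) v
  rw [hfun]
  exact hv

private theorem GCp_end1 (G : Fin m → CPoly N) (η : ℝ) (R : ℙ ℂ (Fin (N + 1) → ℂ) → Mt N)
    (Φ : ℙ ℂ (Fin (N + 1) → ℂ) → ℙ ℂ (Fin (N + 1) → ℂ)) (y : Gen N) :
    endT (TPL G η R Φ) 1 y = plm G η R y := by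
  obtain ⟨p, q, I, s⟩ := y
  unfold endT plm
  simp only []
  congr 4
  funext t
  unfold TPL
  congr 1
  funext l l'
  simp

private theorem GCp_end0 {F : Fin m → CPoly N} {X : Finset ℂ} {η ρ δ : ℝ} (hU : UM F X η ρ δ)
    {β : ℂ ≃+* ℂ} (hβ : dist (res X β) (inc X) < δ) (R : ℙ ℂ (Fin (N + 1) → ℂ) → Mt N)
    {Φ : ℙ ℂ (Fin (N + 1) → ℂ) → ℙ ℂ (Fin (N + 1) → ℂ)} {y : Gen N}
    (hΦ : Liftable (conjEqs β F) (push Φ y)) :
    endT (TPL (conjEqs β F) η R Φ) 0 y = push Φ y := by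
  obtain ⟨p, q, I, s⟩ := y
  obtain ⟨v', hv'⟩ := hΦ
  have hlift : ∀ t : Dl q, ∃ h : v' t ≠ 0, Φ (s t) = Projectivization.mk ℂ (v' t) h := hv'.lifts
  unfold endT push
  simp only []
  congr 4
  funext t
  obtain ⟨h2, h3⟩ := hlift t
  have h4 : (fun l l' => (1 - ((0 : ℝ) : ℂ)) * mtP (Φ (s t)) l l' +
    ((0 : ℝ) : ℂ) * ∑ a, (((t : Fin (q + 1) → ℝ) a : ℝ) : ℂ) * R (s (vtx q a)) l l') =
      mt (v' t) := by
    funext l l'
    rw [h3, mtP_mk]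
    simp
  unfold TPL
  rw [h4, h3]
  have hcone : OnCone (conjEqs β F) (v' t) := hv'.onCone t t.2
  have hrm : RM (conjEqs β F) (mt (v' t)) (v' t) := rm_mt h2 hcone
  have hn : ‖mt (v' t) - mt (v' t)‖ < η := by
    rw [sub_self, norm_zero]
    exact hU.ηpos
  exact SM_eq h2 hrm hn fun z' hz' hrm' hn' => hU.uniq β hβ _ _ _ hz' h2 hrm' hrm hn' hn

theorem compare {F : Fin m → CPoly N} {X : Finset ℂ} {η ρ δ c : ℝ} (hU : UM F X η ρ δ)
    (hc : 0 < c) (hη : η ≤ c ^ 2 / 4) (hρ : 2 * ρ ≤ c ^ 2 / 2) {β₂ β : ℂ ≃+* ℂ}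
    (hβ₂ : dist (res X β₂) (inc X) < δ) (hβ : dist (res X β) (inc X) < δ)
    {R : ℙ ℂ (Fin (N + 1) → ℂ) → Mt N} (hR : ∀ y, ‖R y - mtP y‖ < ρ)
    {Φ : ℙ ℂ (Fin (N + 1) → ℂ) → ℙ ℂ (Fin (N + 1) → ℂ)} {k : ℕ} {w : FormCochain N}
    {W : Gen N → ℂ} (hW : IsPer (conjEqs β F) k (w.conj β) W) {z : Gen N →₀ ℤ}
    (hz : IsCyc (conjEqs β₂ F) k z) (hg : ∀ y ∈ z.support, CGood c y ∧ FineM ρ y)
    (hΦ : ∀ y ∈ z.support, Liftable (conjEqs β F) (push Φ y))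
    (hΦn : ∀ y ∈ z.support, ∀ t, ‖mtP (Φ (y.2.2.2 t)) - mtP (y.2.2.2 t)‖ < ρ) :
    IsCyc (conjEqs β F) k (Finsupp.mapDomain (plm (conjEqs β F) η R) z) ∧
      evc W (Finsupp.mapDomain (plm (conjEqs β F) η R) z) =
        evc W (Finsupp.mapDomain (push Φ) z) := by
  classical
  set T : Htp N := TPL (conjEqs β F) η R Φ with hT
  have hnat : NatH T := natH_TPL _ _ _ _
  have hbz : bdL z = 0 := hz.bd
  have hprism : ∀ (p q : ℕ) (I : Fin (p + 1) → Fin (N + 1)) (s : Simplex N q),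
      (⟨p, q, I, s⟩ : Gen N) ∈ z.support → ∀ {r : ℕ} (u : Fin (r + 1) → Dl q × Bool),
      Liftable (conjEqs β F) (⟨p, r, I, fun t => T q s
        (amap (fun j => (u j).1) t) (tau u t)⟩ : Gen N) := by
    intro p q I s hy r u
    exact GCp_prism hU hc hη hρ hβ₂ hβ hR (hz.lift _ hy).1 (hg _ hy) (hΦ _ hy)
      (hΦn _ hy) u
  have hm1 : Finsupp.mapDomain (endT T 1) z = Finsupp.mapDomain (plm (conjEqs β F) η R) z := by
    congr 1
    funext y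
    exact GCp_end1 _ _ _ _ y
  have hm0 : Finsupp.mapDomain (endT T 0) z = Finsupp.mapDomain (push Φ) z := by
    unfold Finsupp.mapDomain Finsupp.sum
    refine Finset.sum_congr rfl fun y hy => ?_
    beta_reduce
    rw [hT, GCp_end0 hU hβ R (hΦ y hy)]
  refine ⟨⟨?_, ?_⟩, ?_⟩
  · intro x hx
    obtain ⟨y, hy, rfl⟩ := Finset.mem_image.1 (Finsupp.mapDomain_support hx)
    obtain ⟨h1, h2⟩ := hz.lift y hy
    refine ⟨?_, h2⟩
    obtain ⟨p, q, I, s⟩ := y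
    have h3 := hprism p q I s hy (r := q) fun j => (vtx q j, true)
    have h4 : (⟨p, q, I, fun t => T q s (amap (fun j => vtx q j) t)
        (tau (fun j => (vtx q j, true)) t)⟩ : Gen N) = plm (conjEqs β F) η R ⟨p, q, I, s⟩ := by
      rw [← GCp_end1 (conjEqs β F) η R Φ ⟨p, q, I, s⟩]
      unfold endT
      simp only []
      congr 4
      funext t
      have h5 : tau (fun j => (vtx q j, true)) t = 1 := by
        unfold tau
        simp only [if_true]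
        exact t.2.2
      have h6 : amap (fun j => vtx q j) t = t := amap_vtx q t
      rw [h5, h6]
    rw [← h4]
    exact h3
  · change bdL _ = 0
    rw [← hm1, bdL_endT hnat, hbz, Finsupp.mapDomain_zero]
  · have h1 := bdL_PrG hnat z
    rw [hbz, map_zero, add_zero, hm1, hm0] at h1
    have h2 : evc W (bdL (PrG T z)) = 0 := by
      have h3 : ∀ x ∈ (PrG T z).support, Liftable (conjEqs β F) x ∧ x.1 + x.2.1 = 2 * k + 1 := by
        have h4 : PrG T z ∈ Finsupp.supported ℤ ℤ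
            {x : Gen N | Liftable (conjEqs β F) x ∧ x.1 + x.2.1 = 2 * k + 1} := by
          have h5 : PrG T z = ∑ y ∈ z.support, z y • PrG T (Finsupp.single y 1) := by
            conv_lhs => rw [← Finsupp.sum_single z]
            rw [Finsupp.sum, map_sum]
            refine Finset.sum_congr rfl fun y _ => ?_
            rw [← map_zsmul, Finsupp.smul_single, smul_eq_mul, mul_one]
          rw [h5]
          refine Submodule.sum_mem _ fun y hy => Submodule.smul_mem _ _ ?_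
          rw [Finsupp.mem_supported]
          intro x hx
          obtain ⟨u, rfl⟩ := mem_PrG hx
          obtain ⟨h6, h7⟩ := hz.lift y hy
          obtain ⟨p, q, I, s⟩ := y
          refine ⟨hprism p q I s hy u, ?_⟩
          show p + (q + 1) = 2 * k + 1
          have h8 : p + q = 2 * k := h7
          omega
        exact (Finsupp.mem_supported ℤ _).1 h4
      have h9 : ∀ x : Gen N →₀ ℤ, (∀ y ∈ x.support, evc W (AHI.bd y) = 0) → evc W (bdL x) = 0 := by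
        intro x hx
        unfold bdL
        rw [Finsupp.linearCombination_apply, Finsupp.sum, map_sum]
        refine Finset.sum_eq_zero fun y hy => ?_
        rw [map_zsmul, hx y hy, smul_zero]
      exact h9 _ fun x hx => hW.bd x (h3 x hx).1 (h3 x hx).2
    rw [h1, map_sub] at h2
    exact sub_eq_zero.1 h2

end Pool.Agent.AHE
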