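import Mathlib
import Pool.Agent.AHE.GCp
import Pool.Agent.AHE.GCg
import Pool.Agent.AHU.UP

/-!
# The period functions are effectively computable

This is `AHU.up` (file `AHU/UP.lean`) with an additional effectively computable function `Q'` which
has the same values as `Q` at the realised parameters.

Proof.  `c = 1 / (N + 2)`.  Let `A2` be the coefficients of `w` (`exists_coeffs`).  `exists_UM hsm (Y ∪ A2)` with
`η₀ = c^2 / 8` gives `X₁, η, ρ, δ₁` with `η ≤ c^2 / 4`, `2 ρ ≤ c^2 / 2`.  Let `κ` be given by `mt_close N` for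
`ε = ρ` and `c' = min c κ`.  `exists_UD hsm X₁` for `c'` gives `X ⊇ X₁`, `ρ₀ ≤ c' / 2`, `δ₂`
(structure `UD F X c' ρ₀ δ₂`).  Put `δ = min (δ₂ / 2) (δ₁ / 2)`; `dist (res X₁ β) (inc X₁) ≤ dist (res X β) (inc X)`.

Given `β₂, W, z`, let `z₁` be the fine good cycle of `exists_fine_cycle` (with `c`, `ε = ρ`); it is good for
`c' ≤ c` too (`GG c j ⊆ GG c' j`).  `Q` is constructed from `z₁` exactly as in the proof of `AHU.up` (lifts
`v y`, families `V y` from `exists_family3`), and the first three properties are proved as there.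

Fix `R` with Gaussian rational values and `‖R y - mtP y‖ < ρ` (choice, `T.exists_val_near`).  For
`y ∈ z₁.support` let `z₀ y` be given by `exists_center` and `ν y` a chart at `z₀ y` (`UM.ex`).  The function
`g y (θ, t) = ν y (θ|X₁, ∑ a, t a • R (y.2.2.2 (vtx a)))` is smooth on the open set of the `(θ, t)` with
`dist (θ|X₁) (inc X₁) < δ₁` and the matrix in `ball (mt (z₀ y)) (4 ρ)`, which contains the compact set
`K = closedBall (inc X) δ ×ˢ stdSimplex`; `exists_cut` gives a smooth `V' y` equal to `g y` near `K`.  Put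
`Q' θ = ∑ y ∈ z₁.support, z₁ y * GI X (w ..) θ (fun t => V' y (θ, t))`.

*Values.*  Let `dist (res X β') (inc X) < δ`.  By `hcl` there is `W'` with
`IsPer (conjEqs β' F) k (w.conj β') W'`.  `V' y (res X β', ·)` is a lift of the simplex `plm .. y`
(`isLift_chart`), so `Q' (res X β') = evc W' (mapDomain plm z₁)` (`GI_res`, `IsPer.int`, `evc_mapDomain`), and
`Q (res X β') = evc W' (mapDomain (push (Phi2 F ρ₀ β₂ β')) z₁)` as in the proof of `AHU.up`.  They are equal by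
`compare`: the simplices of the push are liftable (`exists_family3`), and
`‖mtP (Phi2 (s t)) - mtP (s t)‖ < ρ` since the lifts satisfy `‖V y (res X β', t) - v y t‖ ≤ ρ₀ en (v y t)`,
`ρ₀ ≤ κ` (`mt_close`, `mtP_mk`).

*Effective computability* of `Q'` at `θ₁`, `dist θ₁ (inc X) < δ`: `CA.sum`, `CA.mul` with constants (integers,
`isPR`), and `ca_GI` for `V' y`: near `(θ₁, t)` we have `V' y = g y`, and `g y` is the composition of the chart
`ν y` (`CAM`) with `(θ, τ) ↦ (θ|X₁, ∑ a, τ a * R ..)` (Gaussian rational coefficients; in the statement of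
`ca_GI` the second argument is the real part of `τ`: `ca_re`).  The coordinates `V' y (θ₁, t) (I a)` are nonzero for
`t ∈ stdSimplex`: `‖mt (ν y (θ, M)) - M‖ < η ≤ c^2 / 4` (a property of charts valid for all `θ`, `M` in the
balls) and the last part of `exists_center` (`mt_diag_ne`).
-/

namespace Pool.Agent.AHE

open MvPolynomial Pool.Agent.AHC Pool.Agent.AHI Pool.Agent.AHR Pool.Agent.AHU Pool.Agent.EllPR Filter
open scoped ContDiff Topology LinearAlgebra.Projectivization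

variable {N m : ℕ}

/-- restriction of the parameters -/
private def GUp_rs {X₁ X : Finset ℂ} (h : X₁ ⊆ X) (θ : X → ℂ) : X₁ → ℂ := fun x => θ ⟨x.1, h x.2⟩

private theorem GUp_dist {X₁ X : Finset ℂ} (h : X₁ ⊆ X) (θ θ' : X → ℂ) :
    dist (GUp_rs h θ) (GUp_rs h θ') ≤ dist θ θ' := by
  rw [dist_pi_le_iff dist_nonneg]
  intro x
  exact dist_le_pi_dist θ θ' ⟨x.1, h x.2⟩

private theorem GUp_res {X₁ X : Finset ℂ} (h : X₁ ⊆ X) (β : ℂ ≃+* ℂ) :
    dist (res X₁ β) (inc X₁) ≤ dist (res X β) (inc X) := GUp_dist h (res X β) (inc X)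

/-- the matrices of the simplex built from the vertices -/
private noncomputable def GUp_Ga (R : ℙ ℂ (Fin (N + 1) → ℂ) → Mt N) (y : Gen N)
    (t : Fin (y.2.1 + 1) → ℝ) : Mt N :=
  fun l l' => ∑ a, ((t a : ℝ) : ℂ) * R (y.2.2.2 (vtx y.2.1 a)) l l'

private theorem GUp_cd {X₁ X : Finset ℂ} (h : X₁ ⊆ X) (R : ℙ ℂ (Fin (N + 1) → ℂ) → Mt N) (y : Gen N) :
    ContDiff ℝ ∞ fun x : (X → ℂ) × (Fin (y.2.1 + 1) → ℝ) =>
      ((GUp_rs h x.1, GUp_Ga R y x.2) : (X₁ → ℂ) × Mt N) := by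
  refine ContDiff.prodMk ?_ ?_
  · rw [contDiff_pi]
    intro a
    exact (contDiff_apply ℝ ℂ (⟨a.1, h a.2⟩ : X)).comp contDiff_fst
  · rw [contDiff_pi]
    intro l
    rw [contDiff_pi]
    intro l'
    unfold GUp_Ga
    refine ContDiff.sum fun a _ => ContDiff.mul ?_ contDiff_const
    exact Complex.ofRealCLM.contDiff.comp ((contDiff_apply ℝ ℝ a).comp contDiff_snd)

/-- the effectively computable family of lifts of the simplex built from the vertices -/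
private theorem GUp_family {F : Fin m → CPoly N} {X₁ X : Finset ℂ} (hX : X₁ ⊆ X) {η ρ δ₁ δ c : ℝ}
    (hU : UM F X₁ η ρ δ₁) (hc : 0 < c) (hη : η ≤ c ^ 2 / 4) (hδ : δ < δ₁)
    {R : ℙ ℂ (Fin (N + 1) → ℂ) → Mt N} (hRT : ∀ y l l', ∃ x : T, val x = R y l l') (y : Gen N)
    {z₀ : Fin (N + 1) → ℂ} (hz₀ : z₀ ∈ Sph F)
    (h2 : ∀ t ∈ stdSimplex ℝ (Fin (y.2.1 + 1)), ‖GUp_Ga R y t - mt z₀‖ < 4 * ρ)
    (h3 : ∀ t ∈ stdSimplex ℝ (Fin (y.2.1 + 1)), ∀ b,
      c ^ 2 / 2 ≤ ‖GUp_Ga R y t (y.2.2.1 b) (y.2.2.1 b)‖) :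
    ∃ V : (X → ℂ) × (Fin (y.2.1 + 1) → ℝ) → (Fin (N + 1) → ℂ), ContDiff ℝ ∞ V ∧
      (∀ β : ℂ ≃+* ℂ, dist (res X β) (inc X) < δ →
        IsLift (conjEqs β F) y.2.2.1 (plm (conjEqs β F) η R y).2.2.2 (fun t => V (res X β, t))) ∧
      ∀ θ₁ : X → ℂ, dist θ₁ (inc X) < δ →
        (∀ t ∈ stdSimplex ℝ (Fin (y.2.1 + 1)), ∀ a, V (θ₁, t) (y.2.2.1 a) ≠ 0) ∧
        ∀ t ∈ stdSimplex ℝ (Fin (y.2.1 + 1)), ∀ l,
          CA ∅ (fun v : X ⊕ Fin (y.2.1 + 1) → ℂ =>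
            V (fun x => v (Sum.inl x), fun j => (v (Sum.inr j)).re) l)
            (Sum.elim θ₁ fun j => ((t j : ℝ) : ℂ)) := by
  obtain ⟨ν, hν⟩ := hU.ex z₀ hz₀
  have hLs := GUp_cd hX R y
  obtain ⟨L, hL⟩ : ∃ L : (X → ℂ) × (Fin (y.2.1 + 1) → ℝ) → (X₁ → ℂ) × Mt N,
      L = fun x => (GUp_rs hX x.1, GUp_Ga R y x.2) := ⟨_, rfl⟩
  rw [← hL] at hLs
  have hUo : IsOpen (L ⁻¹' (Metric.ball (inc X₁) δ₁ ×ˢ Metric.ball (mt z₀) (4 * ρ))) :=
    (Metric.isOpen_ball.prod Metric.isOpen_ball).preimage hLs.continuous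
  have hgs : ContDiffOn ℝ ∞ (fun x => ν (L x))
      (L ⁻¹' (Metric.ball (inc X₁) δ₁ ×ˢ Metric.ball (mt z₀) (4 * ρ))) := by
    rintro x ⟨hx1, hx2⟩
    have h4 : ContDiffAt ℝ ω ν (L x) := (hν _ hx1 _ hx2).2.1
    exact (ContDiffAt.comp x (h4.of_le (by simp)) hLs.contDiffAt).contDiffWithinAt
  have hK : IsCompact (Metric.closedBall (inc X) δ ×ˢ stdSimplex ℝ (Fin (y.2.1 + 1))) :=
    (isCompact_closedBall _ _).prod (isCompact_stdSimplex _ _)
  have hKU : Metric.closedBall (inc X) δ ×ˢ stdSimplex ℝ (Fin (y.2.1 + 1)) ⊆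
      L ⁻¹' (Metric.ball (inc X₁) δ₁ ×ˢ Metric.ball (mt z₀) (4 * ρ)) := by
    rintro x ⟨hx1, hx2⟩
    rw [hL]
    refine ⟨?_, ?_⟩
    · change dist (GUp_rs hX x.1) (inc X₁) < δ₁
      have h4 : dist x.1 (inc X) ≤ δ := hx1
      exact ((GUp_dist hX x.1 (inc X)).trans h4).trans_lt hδ
    · change dist (GUp_Ga R y x.2) (mt z₀) < 4 * ρ
      rw [dist_eq_norm]
      exact h2 _ hx2
  obtain ⟨V, hV, hVg⟩ := exists_cut hK hUo hKU hgs
  have hVe : ∀ θ : X → ℂ, dist θ (inc X) ≤ δ → ∀ t ∈ stdSimplex ℝ (Fin (y.2.1 + 1)),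
      V (θ, t) = ν (GUp_rs hX θ, GUp_Ga R y t) := by
    intro θ hθ t ht
    have h4 := hVg.self_of_nhdsSet (θ, t) ⟨hθ, ht⟩
    rw [h4, hL]
  refine ⟨V, hV, fun β hβ => ?_, fun θ₁ hθ₁ => ⟨fun t ht a => ?_, fun t ht l => ?_⟩⟩
  · exact isLift_chart hU hc hη ((GUp_res hX β).trans_lt (hβ.trans hδ)) hν h2 h3
      (hV.comp (contDiff_const.prodMk contDiff_id)) (fun t ht => hVe _ hβ.le t ht)
  · obtain ⟨h4, -, -, h5, -⟩ := hν (GUp_rs hX θ₁)
      (((GUp_dist hX θ₁ (inc X)).trans_lt (hθ₁.trans hδ))) (GUp_Ga R y t)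
      (by rw [Metric.mem_ball, dist_eq_norm]; exact h2 t ht)
    rw [hVe θ₁ hθ₁.le t ht]
    refine mt_diag_ne ?_
    intro h6
    have h7 := h3 t ht a
    have h8 : ‖(mt (ν (GUp_rs hX θ₁, GUp_Ga R y t)) - GUp_Ga R y t) (y.2.2.1 a) (y.2.2.1 a)‖ < η :=
      ((norm_le_pi_norm _ _).trans (norm_le_pi_norm _ _)).trans_lt h5
    rw [Pi.sub_apply, Pi.sub_apply, h6, zero_sub, norm_neg] at h8
    have h9 : 0 < c ^ 2 := by positivity
    linarith
  · have h4 : ∀ᶠ x in 𝓝 (θ₁, t), V x = ν (L x) := by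
      have h5 := hVg
      rw [eventually_nhdsSet_iff_forall] at h5
      exact h5 (θ₁, t) ⟨hθ₁.le, ht⟩
    have h6 : Tendsto (fun v : X ⊕ Fin (y.2.1 + 1) → ℂ =>
        (((fun x => v (Sum.inl x)), fun j => (v (Sum.inr j)).re) :
          (X → ℂ) × (Fin (y.2.1 + 1) → ℝ)))
        (𝓝 (Sum.elim θ₁ fun j => ((t j : ℝ) : ℂ))) (𝓝 (θ₁, t)) := by
      have h7 : Continuous (fun v : X ⊕ Fin (y.2.1 + 1) → ℂ =>
        (((fun x => v (Sum.inl x)), fun j => (v (Sum.inr j)).re) :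
          (X → ℂ) × (Fin (y.2.1 + 1) → ℝ))) := by
        refine Continuous.prodMk ?_ ?_
        · exact continuous_pi fun x => continuous_apply _
        · exact continuous_pi fun j => Complex.continuous_re.comp (continuous_apply _)
      have h8 := h7.tendsto (Sum.elim θ₁ fun j => ((t j : ℝ) : ℂ))
      simpa using h8
    have h9 : (fun v : X ⊕ Fin (y.2.1 + 1) → ℂ =>
        ν (L (fun x => v (Sum.inl x), fun j => (v (Sum.inr j)).re)) l) =ᶠ[
          𝓝 (Sum.elim θ₁ fun j => ((t j : ℝ) : ℂ))] fun v =>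
        V (fun x => v (Sum.inl x), fun j => (v (Sum.inr j)).re) l := by
      filter_upwards [h6.eventually h4] with v hv
      rw [hv]
    refine CA.congr' ?_ h9
    have h10 := (hν (GUp_rs hX θ₁)
      (((GUp_dist hX θ₁ (inc X)).trans_lt (hθ₁.trans hδ))) (GUp_Ga R y t)
      (by rw [Metric.mem_ball, dist_eq_norm]; exact h2 t ht)).2.2.1 l
    -- the composition
    obtain ⟨G, hG⟩ : ∃ G : X₁ ⊕ (Fin (N + 1) × Fin (N + 1)) → (X ⊕ Fin (y.2.1 + 1) → ℂ) → ℂ,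
      G = Sum.elim (fun a v => v (Sum.inl ⟨a.1, hX a.2⟩)) (fun p v => ∑ a : Fin (y.2.1 + 1),
        (((v (Sum.inr a)).re : ℝ) : ℂ) * R (y.2.2.2 (vtx y.2.1 a)) p.1 p.2) := ⟨_, rfl⟩
    have h11 : (fun k => G k (Sum.elim θ₁ fun j => ((t j : ℝ) : ℂ))) =
        Sum.elim (GUp_rs hX θ₁) fun p => GUp_Ga R y t p.1 p.2 := by
      funext k
      rw [hG]
      rcases k with k | k
      · rfl
      · simp only [Sum.elim_inr, GUp_Ga, Complex.ofReal_re]
    have h12 : ∀ k, CA ∅ (G k) (Sum.elim θ₁ fun j => ((t j : ℝ) : ℂ)) := by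
      intro k
      rw [hG]
      rcases k with k | k
      · exact CA.proj _ _
      · simp only [Sum.elim_inr]
        refine CA.sum _ fun a _ => ?_
        refine CA.mul (ca_re (CA.proj _ _)) ?_
        obtain ⟨x, hx⟩ := hRT (y.2.2.2 (vtx y.2.1 a)) k.1 k.2
        rw [← hx]
        exact CA.const (isPR_val x) _
    have h13 := CA.comp (g := fun v : X₁ ⊕ (Fin (N + 1) × Fin (N + 1)) → ℂ =>
      ν (fun a => v (Sum.inl a), fun k k' => v (Sum.inr (k, k'))) l) (F := G)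
      (b := Sum.elim θ₁ fun j => ((t j : ℝ) : ℂ)) (by rw [h11]; exact h10) h12
    refine h13.congr' (Eventually.of_forall fun v => ?_)
    rw [hG, hL]
    rfl

theorem up_ca {F : Fin m → CPoly N} {k : ℕ} {w : FormCochain N} (hsm : IsSmoothProjective F)
    (hh : IsHodgeCochain k w)
    (hcl : ∀ σ : ℂ ≃+* ℂ, ∃ W, IsPer (conjEqs σ F) k (w.conj σ) W) (Y : Finset ℂ) :
    ∃ (X : Finset ℂ) (δ : ℝ), Y ⊆ X ∧ 0 < δ ∧ ∀ β₂ : ℂ ≃+* ℂ, dist (res X β₂) (inc X) < δ →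
      ∀ W, IsPer (conjEqs β₂ F) k (w.conj β₂) W → ∀ z, IsCyc (conjEqs β₂ F) k z →
      ∃ Q Q' : (X → ℂ) → ℂ,
        (∀ β' : ℂ ≃+* ℂ, dist (res X β') (inc X) < δ → ∃ z', IsCyc (conjEqs β' F) k z' ∧
          ∀ W', IsPer (conjEqs β' F) k (w.conj β') W' → evc W' z' = Q (res X β')) ∧
        Q (res X β₂) = evc W z ∧
        (∀ γ : ℂ → (X → ℂ), DifferentiableOn ℂ γ (Metric.ball 0 2) →
          (∀ s ∈ Metric.ball (0 : ℂ) 2, γ s ∈ Metric.ball (inc X) δ) →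
          Metric.ball 0 2 ⊆ closure {s : ℂ | s ∈ Metric.ball 0 2 ∧ ∃ β ∈ GA, res X β = γ s} →
          DifferentiableOn ℂ (fun s => Q (γ s)) (Metric.ball 0 2)) ∧
        (∀ β' : ℂ ≃+* ℂ, dist (res X β') (inc X) < δ → Q' (res X β') = Q (res X β')) ∧
        ∀ θ : X → ℂ, dist θ (inc X) < δ → CA ∅ Q' θ := by
  classical
  obtain ⟨A2, hA2⟩ := exists_coeffs k w
  obtain ⟨c, hcdef⟩ : ∃ c : ℝ, c = 1 / (N + 2) := ⟨_, rfl⟩
  have hc : 0 < c := by rw [hcdef]; positivity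
  have hc' : c ^ 2 * (N + 1) < 1 := by
    rw [hcdef, div_pow, one_pow, div_mul_eq_mul_div, one_mul, div_lt_one (by positivity)]
    have : (0 : ℝ) ≤ N := Nat.cast_nonneg N
    nlinarith
  have hc2 : 0 < c ^ 2 := by positivity
  obtain ⟨X₁, η, ρ, δ₁, hYX₁, hη0, hρ0, hM⟩ :=
    exists_UM hsm (Y ∪ A2) (by positivity : (0 : ℝ) < c ^ 2 / 8)
  have hη : η ≤ c ^ 2 / 4 := by linarith
  have hρ : 2 * ρ ≤ c ^ 2 / 2 := by linarith
  obtain ⟨κ, hκ, hκ1⟩ := mt_close N hM.ρpos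
  obtain ⟨c', hc'def⟩ : ∃ c' : ℝ, c' = min c κ := ⟨_, rfl⟩
  have hc'0 : 0 < c' := by rw [hc'def]; exact lt_min hc hκ
  have hc'c : c' ≤ c := by rw [hc'def]; exact min_le_left _ _
  have hc'κ : c' ≤ κ := by rw [hc'def]; exact min_le_right _ _
  obtain ⟨X, ρ₀, δ₂, hX, hU⟩ := exists_UD hsm X₁ hc'0
  have hcoef : ∀ p q, p + q = 2 * k → ∀ I, ∀ x ∈ w p q I,
      x.1.num.coeffs ⊆ X ∧ ∀ b, (x.2 b).num.coeffs ⊆ X := fun p q hpq I x hx =>
    ⟨(((hA2 p q hpq I x hx).1.trans Finset.subset_union_right).trans hYX₁).trans hX,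
      fun b => ((((hA2 p q hpq I x hx).2 b).trans Finset.subset_union_right).trans hYX₁).trans hX⟩
  obtain ⟨δ, hδdef⟩ : ∃ δ : ℝ, δ = min (δ₂ / 2) (δ₁ / 2) := ⟨_, rfl⟩
  have hδ : 0 < δ := by rw [hδdef]; exact lt_min (half_pos hU.δpos) (half_pos hM.δpos)
  have hδ2 : δ ≤ δ₂ / 2 := by rw [hδdef]; exact min_le_left _ _
  have hδ1 : δ < δ₁ := by
    have h1 : δ ≤ δ₁ / 2 := by rw [hδdef]; exact min_le_right _ _
    have h2 := hM.δpos
    linarith
  refine ⟨X, δ, (Finset.subset_union_left.trans hYX₁).trans hX, hδ, ?_⟩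
  intro β₂ hβ₂ W hW z hz
  obtain ⟨z₁, hz₁, hgood, hev⟩ := exists_fine_cycle hc hc' hM.ρpos hz
  have hevz := hev _ W hW
  choose v hv using fun y : z₁.support => (hz₁.lift y y.2).1
  have hgood' : ∀ y ∈ z₁.support, ∀ t a, y.2.2.2 t ∈ GG c' (y.2.2.1 a) := by
    intro y hy t a
    have h1 : c * en (y.2.2.2 t).rep ≤ ‖(y.2.2.2 t).rep (y.2.2.1 a)‖ := (hgood y hy).1 t a
    have h2 : 0 ≤ en (y.2.2.2 t).rep := Real.sqrt_nonneg _
    exact (mul_le_mul_of_nonneg_right hc'c h2).trans h1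
  choose V hVs hVi hVl hVh hVc using fun y : z₁.support =>
    exists_family3 hU hc'0 (hβ₂.trans_le hδ2) (hv y) (hgood' y.1 y.2)
  have hdeg : ∀ y : z₁.support, y.1.1 + y.1.2.1 = 2 * k := fun y => (hz₁.lift y y.2).2
  -- the rational matrices
  have hR0 : ∀ x : ℙ ℂ (Fin (N + 1) → ℂ), ∃ A : Mt N, (∀ l l', ∃ a : T, val a = A l l') ∧
      ‖A - mtP x‖ < ρ := by
    intro x
    choose a ha using fun l l' => T.exists_val_near (mtP x l l') hM.ρpos
    refine ⟨fun l l' => val (a l l'), fun l l' => ⟨_, rfl⟩, ?_⟩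
    rw [pi_norm_lt_iff hM.ρpos]
    intro l
    rw [pi_norm_lt_iff hM.ρpos]
    intro l'
    exact ha l l'
  choose R hRT hR using hR0
  have hβ₂1 : dist (res X₁ β₂) (inc X₁) < δ₁ := (GUp_res hX β₂).trans_lt (hβ₂.trans hδ1)
  choose z₀ hz₀ hz₀1 hz₀2 hz₀3 using fun y : z₁.support =>
    exists_center hM hc hρ hβ₂1 hR (hz₁.lift y.1 y.2).1 (hgood y.1 y.2)
  choose V' hV's hV'l hV'c using fun y : z₁.support =>
    GUp_family hX hM hc hη hδ1 hRT y.1 (hz₀ y) (hz₀2 y) (hz₀3 y)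
  -- the values of `Q`
  have hQv : ∀ β' : ℂ ≃+* ℂ, dist (res X β') (inc X) < δ → ∀ W',
      IsPer (conjEqs β' F) k (w.conj β') W' →
      evc W' (Finsupp.mapDomain (AHI.push (Phi2 F ρ₀ β₂ β')) z₁) = ∑ y : z₁.support,
        (z₁ y.1 : ℂ) * GI X (w y.1.1 y.1.2.1 y.1.2.2.1) (res X β') fun t => V y (res X β', t) := by
    intro β' hβ' W' hW'
    have hl : ∀ y : z₁.support, IsLift (conjEqs β' F) y.1.2.2.1
        (AHI.push (Phi2 F ρ₀ β₂ β') y.1).2.2.2 (fun t => V y (res X β', t)) :=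
      fun y => (hVl y β' (hβ'.trans_le hδ2)).1
    rw [evc_mapDomain, evc_eq_sum]
    rw [← Finset.sum_coe_sort]
    refine Finset.sum_congr rfl fun y _ => ?_
    congr 1
    rw [GI_res (hcoef _ _ (hdeg y) _) β']
    exact (hW'.int (AHI.push (Phi2 F ρ₀ β₂ β') y.1) (hdeg y) _ (hl y)).symm
  refine ⟨fun θ => ∑ y : z₁.support,
    (z₁ y.1 : ℂ) * GI X (w y.1.1 y.1.2.1 y.1.2.2.1) θ fun t => V y (θ, t),
    fun θ => ∑ y : z₁.support,
    (z₁ y.1 : ℂ) * GI X (w y.1.1 y.1.2.1 y.1.2.2.1) θ fun t => V' y (θ, t), ?_, ?_, ?_, ?_, ?_⟩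
  · intro β' hβ'
    have hl : ∀ y : z₁.support, IsLift (conjEqs β' F) y.1.2.2.1
        (AHI.push (Phi2 F ρ₀ β₂ β') y.1).2.2.2 (fun t => V y (res X β', t)) :=
      fun y => (hVl y β' (hβ'.trans_le hδ2)).1
    exact ⟨_, hz₁.push (Φ := Phi2 F ρ₀ β₂ β') fun y hy => ⟨_, hl ⟨y, hy⟩⟩,
      fun W' hW' => hQv β' hβ' W' hW'⟩
  · rw [← hevz, evc_eq_sum, ← Finset.sum_coe_sort]
    refine Finset.sum_congr rfl fun y _ => ?_
    congr 1
    rw [GI_res (hcoef _ _ (hdeg y) _) β₂, formIntegral_congr (hVi y)]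
    exact hW.int y.1 (hdeg y) _ (hv y)
  · intro γ hγd hγδ hγD
    refine DifferentiableOn.fun_sum fun y _ => DifferentiableOn.const_mul ?_ _
    have hdif : ∀ t ∈ stdSimplex ℝ (Fin (y.1.2.1 + 1)),
        DifferentiableOn ℂ (fun s => V y (γ s, t)) (Metric.ball 0 2) := by
      intro t ht
      refine hol_V (f := fun θ => V y (θ, t)) ?_ (hVh y t ht) hγd
        (fun s hs => Metric.ball_subset_ball hδ2 (hγδ s hs)) hγD
      exact (hVs y).continuous.comp (Continuous.prodMk continuous_id continuous_const)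
    refine hol_GI (hh.1 _ _ (hdeg y) _) (hVs y) hγd ?_ hdif
    intro s hs t ht a
    have hcont : ContinuousOn (fun s => ‖V y (γ s, t) - v y t‖) (Metric.ball 0 2) :=
      ((hdif t ht).continuousOn.sub continuousOn_const).norm
    have h2 : ∃ᶠ x in 𝓝[Metric.ball 0 2] s, x ∈ Metric.ball (0 : ℂ) 2 ∧
        ∃ β ∈ GA, res X β = γ x := by
      have h3 := mem_closure_iff_frequently.1 (hγD hs)
      have h4 : 𝓝[Metric.ball 0 2] s = 𝓝 s := Metric.isOpen_ball.nhdsWithin_eq hs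
      rw [h4]
      exact h3
    have h3 : Tendsto (fun s => ‖V y (γ s, t) - v y t‖) (𝓝[Metric.ball 0 2] s)
        (𝓝 ‖V y (γ s, t) - v y t‖) := hcont s hs
    have h4 : ‖V y (γ s, t) - v y t‖ ≤ ρ₀ * en (v y t) :=
      isClosed_Iic.mem_of_frequently_of_tendsto
        (h2.mono fun x hx => by
          obtain ⟨hx1, β, -, hβ⟩ := hx
          have h5 : dist (res X β) (inc X) < δ₂ / 2 := by
            rw [hβ]
            exact (show dist (γ x) (inc X) < δ from hγδ x hx1).trans_le hδ2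
          have h6 := (hVl y β h5).2 t ht
          rw [hβ] at h6
          exact h6) h3
    have h5 := hVc y t ht a
    have h6 : 0 < en (v y t) := en_pos (by
      have h7 := (hv y).lifts ⟨t, ht⟩
      exact h7.1)
    have h8 : ‖(V y (γ s, t) - v y t) (y.1.2.2.1 a)‖ ≤ ‖V y (γ s, t) - v y t‖ :=
      norm_le_pi_norm _ _
    intro h9
    rw [Pi.sub_apply, h9, zero_sub, norm_neg] at h8
    have h10 : ρ₀ * en (v y t) ≤ c' / 2 * en (v y t) :=
      mul_le_mul_of_nonneg_right hU.le h6.le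
    have h11 : 0 < c' * en (v y t) := mul_pos hc'0 h6
    linarith
  · intro β' hβ'
    obtain ⟨W', hW'⟩ := hcl β'
    have hβ'1 : dist (res X₁ β') (inc X₁) < δ₁ := (GUp_res hX β').trans_lt (hβ'.trans hδ1)
    have hΦl : ∀ y ∈ z₁.support, Liftable (conjEqs β' F) (AHI.push (Phi2 F ρ₀ β₂ β') y) :=
      fun y hy => ⟨_, (hVl ⟨y, hy⟩ β' (hβ'.trans_le hδ2)).1⟩
    have hΦn : ∀ y ∈ z₁.support, ∀ t,
        ‖mtP (Phi2 F ρ₀ β₂ β' (y.2.2.2 t)) - mtP (y.2.2.2 t)‖ < ρ := by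
      intro y hy t
      obtain ⟨h1, h2⟩ := hVl ⟨y, hy⟩ β' (hβ'.trans_le hδ2)
      obtain ⟨h3, h4⟩ := h1.lifts t
      obtain ⟨h5, h6⟩ := (hv ⟨y, hy⟩).lifts t
      have h7 : Phi2 F ρ₀ β₂ β' (y.2.2.2 t) =
        Projectivization.mk ℂ (V ⟨y, hy⟩ (res X β', t)) h3 := h4
      have h8 : y.2.2.2 t = Projectivization.mk ℂ (v ⟨y, hy⟩ t) h5 := h6
      rw [h7, mtP_mk, h8, mtP_mk]
      refine (hκ1 _ _ h5 ?_).2
      refine (h2 _ t.2).trans (mul_le_mul_of_nonneg_right ?_ (Real.sqrt_nonneg _))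
      have := hU.le
      linarith
    have hcmp := (compare hM hc hη hρ hβ₂1 hβ'1 hR hW' hz₁ hgood hΦl hΦn).2
    rw [hQv β' hβ' W' hW'] at hcmp
    refine Eq.trans ?_ hcmp
    rw [evc_mapDomain, evc_eq_sum, ← Finset.sum_coe_sort]
    refine Finset.sum_congr rfl fun y _ => ?_
    congr 1
    rw [GI_res (hcoef _ _ (hdeg y) _) β']
    exact hW'.int (plm (conjEqs β' F) η R y.1) (hdeg y) _ (hV'l y β' hβ')
  · intro θ hθ
    refine CA.sum _ fun y _ => CA.mul (CA.const ?_ _) ?_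
    · have h1 : ((z₁ y.1 : ℤ) : ℂ) = (((z₁ y.1 : ℤ) : ℚ) : ℂ) := by push_cast; rfl
      rw [h1]
      exact IsPR.ratCast _
    · obtain ⟨h1, h2⟩ := hV'c y θ hθ
      exact ca_GI (hh.1 _ _ (hdeg y) _) (hcoef _ _ (hdeg y) _) (hV's y) h1 h2

end Pool.Agent.AHE
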