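import Mathlib

/-!
# Holomorphic functions of several variables: Osgood's lemma and smoothness

`osgood`: a continuous, separately holomorphic function is complex differentiable.
`contDiffOn_of_hol`: a complex differentiable function on an open subset of `ℂ^n` is smooth (complex
sense).  (For `ℂ × ℂ` see `Pool/Agent/LSB/COsgood.lean`, the proofs generalise.)

Proof.  Let `g` be continuous on `U` and separately holomorphic.  The partial derivative
`∂_i g (x) = (2 π i)^(-1) ∮ g (update x i ζ) / (ζ - x i)^2 dζ` over a small circle around a fixed centre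
(Cauchy's formula for the derivative: `Complex.deriv_eq_...`, `two_pi_I_inv_smul_circleIntegral...`) is
continuous on `U` and again separately holomorphic (in the variable `i`: the derivative of a holomorphic
function; in a variable `j ≠ i`: a locally uniform limit, or differentiation under the integral sign,
`hasDerivAt_integral_of_dominated_loc_of_deriv_le`; or: difference quotients in direction `i` converge
locally uniformly).  A function with continuous partial derivatives is (strictly) differentiable:
in Mathlib for two factors `hasStrictFDerivAt_of_...` (used in `LSB/COsgood.lean`); for `Fin n → ℂ` directly: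
telescope `g x - g y` over the coordinates and use the mean value inequality in each.  So the class of
continuous separately holomorphic functions is closed under `∂_i`, and each member is `C^1` with
`fderiv ℂ g x v = ∑ i, v i * ∂_i g x`; hence by induction on `k` every member is `C^k`
(`contDiffOn_succ_iff_fderiv_of_isOpen`, the derivative `x ↦ ∑ i, ∂_i g x • proj i` is `C^(k-1)`).
`contDiffOn_infty`.
-/

namespace Pool.Agent.AHE

open Filter
open scoped Topology ContDiff

private lemma Osg_update_mem {n : ℕ} {x y : Fin n → ℂ} {δ : ℝ} (hy : y ∈ Metric.ball x δ) (i : Fin n) {s : ℂ}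
    (hs : s ∈ Metric.ball (x i) δ) : Function.update y i s ∈ Metric.ball x δ := by
  have hδ : 0 < δ := Metric.pos_of_mem_ball hy
  rw [Metric.mem_ball, dist_pi_lt_iff hδ] at hy ⊢
  intro j
  rcases eq_or_ne j i with rfl | hj
  · rw [Function.update_self]
    exact hs
  · rw [Function.update_of_ne hj]
    exact hy j

private lemma Osg_apply_mem {n : ℕ} {x y : Fin n → ℂ} {δ : ℝ} (hy : y ∈ Metric.ball x δ) (i : Fin n) :
    y i ∈ Metric.ball (x i) δ := by
  have hδ : 0 < δ := Metric.pos_of_mem_ball hy
  rw [Metric.mem_ball, dist_pi_lt_iff hδ] at hy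
  exact hy i

/-- The mean value inequality, coordinate by coordinate. -/
private lemma Osg_key {n : ℕ} {x : Fin n → ℂ} {δ ε : ℝ} {g : (Fin n → ℂ) → ℂ} {d : Fin n → (Fin n → ℂ) → ℂ}
    (hd : ∀ y ∈ Metric.ball x δ, ∀ i, HasDerivAt (fun s => g (Function.update y i s)) (d i y) (y i))
    (hε : ∀ y ∈ Metric.ball x δ, ∀ i, ‖d i y - d i x‖ ≤ ε) {y y' : Fin n → ℂ}
    (hy : y ∈ Metric.ball x δ) (hy' : y' ∈ Metric.ball x δ) :
    ‖g y - g y' - ∑ i, (y i - y' i) * d i x‖ ≤ ε * ∑ i, ‖y i - y' i‖ := by
  have hδ : 0 < δ := Metric.pos_of_mem_ball hy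
  set w : ℕ → Fin n → ℂ := fun k j => if (j : ℕ) < k then y j else y' j with hw
  have hw0 : w 0 = y' := by
    funext j
    simp [hw]
  have hwn : w n = y := by
    funext j
    simp [hw, j.2]
  have hwm : ∀ k, w k ∈ Metric.ball x δ := by
    intro k
    rw [Metric.mem_ball, dist_pi_lt_iff hδ]
    intro j
    simp only [hw]
    split_ifs
    · exact Osg_apply_mem hy j
    · exact Osg_apply_mem hy' j
  have hw1 : ∀ i : Fin n, w ((i : ℕ) + 1) = Function.update (w i) i (y i) := by
    intro i
    funext j
    rcases eq_or_ne j i with rfl | hj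
    · simp [hw]
    · rw [Function.update_of_ne hj]
      have hj' : (j : ℕ) ≠ i := fun h => hj (Fin.ext h)
      simp only [hw]
      split_ifs <;> first | rfl | omega
  have hw2 : ∀ i : Fin n, w (i : ℕ) = Function.update (w i) i (y' i) := by
    intro i
    funext j
    rcases eq_or_ne j i with rfl | hj
    · simp [hw]
    · rw [Function.update_of_ne hj]
  have htel : g y - g y' = ∑ i : Fin n, (g (w ((i : ℕ) + 1)) - g (w (i : ℕ))) := by
    rw [Fin.sum_univ_eq_sum_range (fun k => g (w (k + 1)) - g (w k)) n,
      Finset.sum_range_sub (fun k => g (w k)) n, hw0, hwn]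
  rw [htel, ← Finset.sum_sub_distrib, Finset.mul_sum]
  refine (norm_sum_le _ _).trans (Finset.sum_le_sum fun i _ => ?_)
  have h1 := Convex.norm_image_sub_le_of_norm_hasDerivWithin_le (𝕜 := ℂ)
    (f := fun s => g (Function.update (w i) i s) - s * d i x)
    (f' := fun s => d i (Function.update (w i) i s) - d i x) (C := ε) (s := Metric.ball (x i) δ)
    (x := y' i) (y := y i) (fun s hs => by
      have h2 := hd (Function.update (w i) i s) (Osg_update_mem (hwm i) i hs) i
      simp only [Function.update_idem, Function.update_self] at h2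
      have h3 := h2.sub ((hasDerivAt_id s).mul_const (d i x))
      simp only [id, one_mul] at h3
      exact h3.hasDerivWithinAt)
    (fun s hs => hε _ (Osg_update_mem (hwm i) i hs) i) (convex_ball _ _)
    (Osg_apply_mem hy' i) (Osg_apply_mem hy i)
  have h4 : g (w ((i : ℕ) + 1)) - g (w (i : ℕ)) - (y i - y' i) * d i x =
      (g (Function.update (w i) i (y i)) - y i * d i x) -
        (g (Function.update (w i) i (y' i)) - y' i * d i x) := by
    rw [← hw1 i, ← hw2 i]
    ring
  rw [h4]
  exact h1

/-- The partial derivatives. -/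
private noncomputable def OsgD {n : ℕ} (g : (Fin n → ℂ) → ℂ) (i : Fin n) (x : Fin n → ℂ) : ℂ :=
  deriv (fun s => g (Function.update x i s)) (x i)

private lemma Osg_slice {n : ℕ} {U : Set (Fin n → ℂ)} {g : (Fin n → ℂ) → ℂ} {i : Fin n}
    (h : ∀ x ∈ U, DifferentiableAt ℂ (fun s => g (Function.update x i s)) (x i)) {x : Fin n → ℂ} {r : ℝ}
    (hr : Metric.ball x r ⊆ U) {y : Fin n → ℂ} (hy : y ∈ Metric.ball x r) :
    DifferentiableOn ℂ (fun s => g (Function.update y i s)) (Metric.ball (x i) r) := by
  intro z hz
  have h1 := h (Function.update y i z) (hr (Osg_update_mem hy i hz))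
  simp only [Function.update_idem, Function.update_self] at h1
  exact h1.differentiableWithinAt

/-- Continuity of the partial derivatives. -/
private lemma Osg_cont {n : ℕ} {U : Set (Fin n → ℂ)} (hU : IsOpen U) {g : (Fin n → ℂ) → ℂ}
    (hc : ContinuousOn g U) {i : Fin n}
    (h : ∀ x ∈ U, DifferentiableAt ℂ (fun s => g (Function.update x i s)) (x i)) {x : Fin n → ℂ} (hx : x ∈ U) :
    ContinuousAt (OsgD g i) x := by
  obtain ⟨r, hr, hrU⟩ := Metric.isOpen_iff.1 hU x hx
  set s := Metric.ball (x i) r with hs
  set G : (Fin n → ℂ) → ℂ → ℂ := fun y z => g (Function.update y i z) with hG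
  have hd : ∀ᶠ y in 𝓝 x, DifferentiableOn ℂ (G y) s := by
    filter_upwards [Metric.ball_mem_nhds x hr] with y hy
    exact Osg_slice h hrU hy
  have hl : TendstoLocallyUniformlyOn G (G x) (𝓝 x) s := by
    rw [Metric.isOpen_ball.tendstoLocallyUniformlyOn_iff_forall_tendsto]
    intro z hz
    have hz0 : Function.update x i z ∈ U := hrU (Osg_update_mem (Metric.mem_ball_self hr) i hz)
    have hcx := hc.continuousAt (hU.mem_nhds hz0)
    have e1 : Tendsto (fun q : (Fin n → ℂ) × ℂ => Function.update x i q.2) (𝓝 x ×ˢ 𝓝 z)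
        (𝓝 (Function.update x i z)) := by
      have h1 : Continuous (fun q : (Fin n → ℂ) × ℂ => Function.update x i q.2) :=
        Continuous.update continuous_const i continuous_snd
      have h2 := h1.tendsto (x, z)
      rwa [nhds_prod_eq] at h2
    have e2 : Tendsto (fun q : (Fin n → ℂ) × ℂ => Function.update q.1 i q.2) (𝓝 x ×ˢ 𝓝 z)
        (𝓝 (Function.update x i z)) := by
      have h1 : Continuous (fun q : (Fin n → ℂ) × ℂ => Function.update q.1 i q.2) :=
        Continuous.update continuous_fst i continuous_snd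
      have h2 := h1.tendsto (x, z)
      rwa [nhds_prod_eq] at h2
    have e3 := (hcx.tendsto.comp e1).prodMk_nhds (hcx.tendsto.comp e2)
    exact e3.mono_right (nhds_le_uniformity _)
  have hl2 := hl.deriv hd Metric.isOpen_ball
  rw [Metric.isOpen_ball.tendstoLocallyUniformlyOn_iff_forall_tendsto] at hl2
  have h2 := hl2 (x i) (Metric.mem_ball_self hr)
  rw [tendsto_uniformity_iff_dist_tendsto_zero] at h2
  have h3 : DifferentiableOn ℂ (G x) s := hd.self_of_nhds
  have h4 : ContinuousAt (deriv (G x)) (x i) :=
    ((h3.deriv Metric.isOpen_ball).continuousOn).continuousAt (Metric.ball_mem_nhds (x i) hr)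
  have h5 : Tendsto (fun q : (Fin n → ℂ) × ℂ => deriv (G x) q.2) (𝓝 x ×ˢ 𝓝 (x i))
      (𝓝 (deriv (G x) (x i))) := h4.tendsto.comp tendsto_snd
  have h6 := tendsto_of_tendsto_of_dist h5 h2
  have h7 : Tendsto (fun y : Fin n → ℂ => (y, y i)) (𝓝 x) (𝓝 x ×ˢ 𝓝 (x i)) :=
    tendsto_id.prodMk ((continuous_apply i).tendsto x)
  exact h6.comp h7

/-- Continuous and separately holomorphic. -/
private structure OsgH {n : ℕ} (U : Set (Fin n → ℂ)) (g : (Fin n → ℂ) → ℂ) : Prop where
  cont : ContinuousOn g U
  diff : ∀ x ∈ U, ∀ i, DifferentiableAt ℂ (fun s => g (Function.update x i s)) (x i)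

/-- Uniform first order expansion. -/
private lemma Osg_strict {n : ℕ} {U : Set (Fin n → ℂ)} (hU : IsOpen U) {g : (Fin n → ℂ) → ℂ}
    (hg : OsgH U g) {x : Fin n → ℂ} (hx : x ∈ U) {ε : ℝ} (hε : 0 < ε) : ∃ δ > 0, ∀ y ∈ Metric.ball x δ,
    ∀ y' ∈ Metric.ball x δ, ‖g y - g y' - ∑ i, (y i - y' i) * OsgD g i x‖ ≤ ε * ∑ i, ‖y i - y' i‖ := by
  obtain ⟨r, hr, hrU⟩ := Metric.isOpen_iff.1 hU x hx
  have h1 : ∀ᶠ y in 𝓝 x, ∀ i, ‖OsgD g i y - OsgD g i x‖ ≤ ε := by
    rw [Filter.eventually_all]
    intro i
    have h2 := Osg_cont hU hg.cont (i := i) (fun x hx => hg.diff x hx i) hx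
    have h3 := Metric.tendsto_nhds.1 h2.tendsto ε hε
    filter_upwards [h3] with y hy
    rw [← dist_eq_norm]
    exact hy.le
  obtain ⟨δ, hδ, h2⟩ := Metric.eventually_nhds_iff_ball.1 h1
  refine ⟨min r δ, lt_min hr hδ, fun y hy y' hy' => ?_⟩
  refine Osg_key (d := OsgD g) (δ := min r δ) (fun z hz i => ?_) (fun z hz i => ?_) hy hy'
  · exact (hg.diff z (hrU (Metric.ball_subset_ball (min_le_left _ _) hz)) i).hasDerivAt
  · exact h2 z (Metric.ball_subset_ball (min_le_right _ _) hz) i

/-- The Fréchet derivative. -/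
private lemma Osg_fderiv {n : ℕ} {U : Set (Fin n → ℂ)} (hU : IsOpen U) {g : (Fin n → ℂ) → ℂ}
    (hg : OsgH U g) {x : Fin n → ℂ} (hx : x ∈ U) :
    HasFDerivAt g (∑ i, OsgD g i x • (ContinuousLinearMap.proj i : (Fin n → ℂ) →L[ℂ] ℂ)) x := by
  rw [hasFDerivAt_iff_isLittleO, Asymptotics.isLittleO_iff]
  intro c hc
  obtain ⟨δ, hδ, h1⟩ := Osg_strict hU hg hx (ε := c / (n + 1)) (by positivity)
  filter_upwards [Metric.ball_mem_nhds x hδ] with y hy
  have h2 := h1 y hy x (Metric.mem_ball_self hδ)
  have h3 : (∑ i, OsgD g i x • (ContinuousLinearMap.proj i : (Fin n → ℂ) →L[ℂ] ℂ)) (y - x) =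
      ∑ i, (y i - x i) * OsgD g i x := by
    rw [sum_apply]
    refine Finset.sum_congr rfl fun i _ => ?_
    simp only [smul_apply, ContinuousLinearMap.proj_apply, Pi.sub_apply, smul_eq_mul]
    ring
  rw [h3]
  refine h2.trans ?_
  have h4 : ∑ i, ‖y i - x i‖ ≤ n * ‖y - x‖ := by
    calc ∑ i, ‖y i - x i‖ ≤ ∑ _i : Fin n, ‖y - x‖ := Finset.sum_le_sum fun i _ => norm_le_pi_norm (y - x) i
      _ = n * ‖y - x‖ := by rw [Finset.sum_const, Finset.card_univ, Fintype.card_fin, nsmul_eq_mul]
  calc c / (n + 1) * ∑ i, ‖y i - x i‖ ≤ c / (n + 1) * (n * ‖y - x‖) := by gcongr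
    _ = c * (n / (n + 1)) * ‖y - x‖ := by ring
    _ ≤ c * 1 * ‖y - x‖ := by
        gcongr
        rw [div_le_one (by positivity)]
        linarith
    _ = c * ‖y - x‖ := by ring

/-- The partial derivatives are separately holomorphic. -/
private lemma Osg_H {n : ℕ} {U : Set (Fin n → ℂ)} (hU : IsOpen U) {g : (Fin n → ℂ) → ℂ}
    (hg : OsgH U g) (i : Fin n) : OsgH U (OsgD g i) := by
  refine ⟨fun x hx => (Osg_cont hU hg.cont (fun x hx => hg.diff x hx i) hx).continuousWithinAt,
    fun x hx j => ?_⟩
  obtain ⟨r, hr, hrU⟩ := Metric.isOpen_iff.1 hU x hx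
  have hxr := Metric.mem_ball_self (x := x) hr
  rcases eq_or_ne j i with rfl | hji
  · have h1 := Osg_slice (fun x hx => hg.diff x hx j) hrU hxr
    have h2 := (h1.deriv Metric.isOpen_ball).differentiableAt (Metric.ball_mem_nhds (x j) hr)
    have h3 : (fun s => OsgD g j (Function.update x j s)) = deriv (fun s => g (Function.update x j s)) := by
      funext s
      simp only [OsgD, Function.update_idem, Function.update_self]
    rw [h3]
    exact h2
  · set Q : ℂ → ℂ → ℂ := fun h y =>
      (g (Function.update (Function.update x j y) i (x i + h)) - g (Function.update x j y)) / h with hQ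
    have hd : ∀ᶠ h in 𝓝[≠] (0 : ℂ), DifferentiableOn ℂ (Q h) (Metric.ball (x j) r) := by
      have h0 : ∀ᶠ h in 𝓝 (0 : ℂ), x i + h ∈ Metric.ball (x i) r := by
        have h1 : Tendsto (fun h : ℂ => x i + h) (𝓝 0) (𝓝 (x i)) := by
          have h2 : Continuous (fun h : ℂ => x i + h) := by fun_prop
          simpa using h2.tendsto 0
        exact h1.eventually (Metric.ball_mem_nhds (x i) hr)
      filter_upwards [h0.filter_mono nhdsWithin_le_nhds] with h hh
      have e1 : DifferentiableOn ℂ (fun y => g (Function.update (Function.update x i (x i + h)) j y))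
          (Metric.ball (x j) r) :=
        Osg_slice (fun x hx => hg.diff x hx j) hrU (Osg_update_mem hxr i hh)
      have e2 : DifferentiableOn ℂ (fun y => g (Function.update x j y)) (Metric.ball (x j) r) :=
        Osg_slice (fun x hx => hg.diff x hx j) hrU hxr
      have e3 : Q h = fun y => (g (Function.update (Function.update x i (x i + h)) j y) -
          g (Function.update x j y)) / h := by
        funext y
        simp only [hQ]
        rw [Function.update_comm hji]
      rw [e3]
      exact (e1.sub e2).div_const h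
    have hl : TendstoLocallyUniformlyOn Q (fun y => OsgD g i (Function.update x j y)) (𝓝[≠] 0)
        (Metric.ball (x j) r) := by
      rw [Metric.isOpen_ball.tendstoLocallyUniformlyOn_iff_forall_tendsto]
      intro y₀ hy₀
      have hx0 : Function.update x j y₀ ∈ U := hrU (Osg_update_mem hxr j hy₀)
      have hcp := Osg_cont hU hg.cont (i := i) (fun x hx => hg.diff x hx i) hx0
      have e1 : Tendsto (fun q : ℂ × ℂ => Function.update x j q.2) (𝓝[≠] 0 ×ˢ 𝓝 y₀)
          (𝓝 (Function.update x j y₀)) := by
        have h1 : Continuous (fun s : ℂ => Function.update x j s) :=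
          Continuous.update continuous_const j continuous_id
        exact (h1.tendsto y₀).comp tendsto_snd
      have f1 := hcp.tendsto.comp e1
      have e2 : Tendsto (fun q : ℂ × ℂ => Function.update (Function.update x j q.2) i (x i + q.1))
          (𝓝[≠] 0 ×ˢ 𝓝 y₀) (𝓝 (Function.update x j y₀)) := by
        have h0 : Continuous (fun q : ℂ × ℂ => x i + q.1) := by fun_prop
        have h1 : Continuous (fun q : ℂ × ℂ => Function.update (Function.update x j q.2) i (x i + q.1)) :=
          Continuous.update (f := fun q : ℂ × ℂ => Function.update x j q.2)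
            (Continuous.update continuous_const j continuous_snd) i h0
        have h2 := h1.tendsto (0, y₀)
        have h3 : Function.update (Function.update x j y₀) i (x i + 0) = Function.update x j y₀ := by
          rw [add_zero]
          have h4 : (Function.update x j y₀) i = x i := Function.update_of_ne (Ne.symm hji) _ _
          rw [← h4, Function.update_eq_self]
        simp only [h3] at h2
        refine h2.mono_left ?_
        rw [nhds_prod_eq]
        exact Filter.prod_mono nhdsWithin_le_nhds le_rfl
      have f2 : Tendsto (fun q : ℂ × ℂ => Q q.1 q.2) (𝓝[≠] 0 ×ˢ 𝓝 y₀)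
          (𝓝 (OsgD g i (Function.update x j y₀))) := by
        rw [Metric.tendsto_nhds]
        intro ε hε
        obtain ⟨δ, hδ, h1⟩ := Osg_strict hU hg hx0 (half_pos hε)
        have hne : ∀ᶠ q : ℂ × ℂ in 𝓝[≠] 0 ×ˢ 𝓝 y₀, q.1 ≠ 0 := by
          have : ∀ᶠ h : ℂ in 𝓝[≠] 0, h ≠ 0 := self_mem_nhdsWithin
          exact this.prod_inl _
        filter_upwards [e1.eventually (Metric.ball_mem_nhds _ hδ), e2.eventually (Metric.ball_mem_nhds _ hδ),
          hne] with q hq1 hq2 hq0
        have h2 := h1 _ hq2 _ hq1
        have h3 : ∀ k, Function.update (Function.update x j q.2) i (x i + q.1) k - Function.update x j q.2 k =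
            if k = i then q.1 else 0 := by
          intro k
          rcases eq_or_ne k i with rfl | hk
          · rw [Function.update_self, Function.update_of_ne (Ne.symm hji), if_pos rfl, add_sub_cancel_left]
          · rw [Function.update_of_ne hk, if_neg hk, sub_self]
        simp only [h3, ite_mul, zero_mul, Finset.sum_ite_eq', Finset.mem_univ, if_true] at h2
        have h4 : ∑ k, ‖(if k = i then q.1 else 0 : ℂ)‖ = ‖q.1‖ := by
          rw [Finset.sum_eq_single i]
          · rw [if_pos rfl]
          · intro k _ hk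
            rw [if_neg hk, norm_zero]
          · intro hk
            exact absurd (Finset.mem_univ i) hk
        rw [h4] at h2
        have hpos : 0 < ‖q.1‖ := norm_pos_iff.2 hq0
        have h5 : Q q.1 q.2 - OsgD g i (Function.update x j y₀) =
            (g (Function.update (Function.update x j q.2) i (x i + q.1)) - g (Function.update x j q.2) -
              q.1 * OsgD g i (Function.update x j y₀)) / q.1 := by
          simp only [hQ]
          field_simp
        rw [dist_eq_norm, h5, norm_div, div_lt_iff₀ hpos]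
        have h6 : ε / 2 * ‖q.1‖ < ε * ‖q.1‖ := by
          apply mul_lt_mul_of_pos_right _ hpos
          linarith
        exact lt_of_le_of_lt h2 h6
      exact (f1.prodMk_nhds f2).mono_right (nhds_le_uniformity _)
    exact (hl.differentiableOn hd Metric.isOpen_ball).differentiableAt (Metric.ball_mem_nhds _ hr)

theorem osgood {n : ℕ} {U : Set (Fin n → ℂ)} (hU : IsOpen U) {g : (Fin n → ℂ) → ℂ}
    (hc : ContinuousOn g U)
    (h : ∀ x ∈ U, ∀ i, DifferentiableAt ℂ (fun s => g (Function.update x i s)) (x i)) :
    DifferentiableOn ℂ g U := fun _ hx =>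
  (Osg_fderiv hU ⟨hc, h⟩ hx).differentiableAt.differentiableWithinAt

private lemma Osg_nat {n : ℕ} {U : Set (Fin n → ℂ)} (hU : IsOpen U) (k : ℕ) :
    ∀ {g : (Fin n → ℂ) → ℂ}, OsgH U g → ContDiffOn ℂ k g U := by
  induction k with
  | zero =>
    intro g hg
    exact contDiffOn_zero.2 hg.cont
  | succ k ih =>
    intro g hg
    have h1 : ContDiffOn ℂ ((k : ℕ∞ω) + 1) g U := by
      rw [contDiffOn_succ_iff_fderiv_of_isOpen hU]
      refine ⟨fun x hx => (Osg_fderiv hU hg hx).differentiableAt.differentiableWithinAt, ?_, ?_⟩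
      · intro h
        exact absurd h (by simp)
      · have h2 : ContDiffOn ℂ k
            (fun x => ∑ i, OsgD g i x • (ContinuousLinearMap.proj i : (Fin n → ℂ) →L[ℂ] ℂ)) U :=
          ContDiffOn.sum fun i _ => (ih (Osg_H hU hg i)).smul contDiffOn_const
        exact h2.congr fun x hx => (Osg_fderiv hU hg hx).fderiv
    exact_mod_cast h1

theorem contDiffOn_of_hol {n : ℕ} {U : Set (Fin n → ℂ)} (hU : IsOpen U) {g : (Fin n → ℂ) → ℂ}
    (hg : DifferentiableOn ℂ g U) : ContDiffOn ℂ ∞ g U := by
  have hH : OsgH U g := by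
    refine ⟨hg.continuousOn, fun x hx i => ?_⟩
    have h1 : DifferentiableAt ℂ g (Function.update x i (x i)) := by
      rw [Function.update_eq_self]
      exact hg.differentiableAt (hU.mem_nhds hx)
    have h2 : DifferentiableAt ℂ (fun s : ℂ => Function.update x i s) (x i) :=
      (hasDerivAt_update x i (x i)).differentiableAt
    exact h1.comp (x i) h2
  rw [contDiffOn_infty]
  exact fun k => Osg_nat hU k hH

end Pool.Agent.AHE
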