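import Mathlib
import Pool.Agent.AHE.Osg
import Pool.Agent.AHT.Cd

/-!
# Holomorphy from holomorphy on the lines through independent points

`hol_of_lines`.  Proof.  By `osgood` it is enough to treat the coordinate lines through the points
`x ∈ ball t r`.  Let `x`, `i` be given, and choose `ρ > 0` with `x + s e_i ∈ ball t r` for `|s| ≤ 2 ρ`, and
even `closedBall x (3 ρ) ⊆ ball t r` (sup norm; `ℂ^n` is proper).  Choose `y_k → x` with `SeqInd S (y_k)`
(`exists_seqInd_small`), `‖y_k - x‖ < ρ`.  By `h` with `u = ρ • e_i` the functions `s ↦ G (y_k + s ρ e_i)` are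
holomorphic on `ball 0 2`.  `G` is uniformly continuous on the compact set `closedBall x (3 ρ)`, so they converge
uniformly on `ball 0 2` to `s ↦ G (x + s ρ e_i)`, which is therefore holomorphic
(`TendstoLocallyUniformlyOn.differentiableOn`); `Function.update x i s = x + (s - x i) e_i`.
If `n = 0` or the ball is empty there is nothing to prove.

`const_of_small`.  Proof.  Let `B = ball 0 R`.  If `h` is not constant on `B`, its image is open
(`AnalyticOnNhd.is_constant_or_isOpen`, `B` preconnected) and nonempty, so it has cardinality `𝔠`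
(a nonempty open set of `ℂ`: compare `AHT.dense_compl_small`, `AHT.exists_seqInd_small`: the complement of a set of
cardinality `< 𝔠` is dense, so a set of cardinality `< 𝔠` contains no nonempty open set).  But the image is
contained in `A ∪ h '' M`, of cardinality `< 𝔠` (`A` countable).  So `h` is constant: `h s = h 0`.
(Nothing to prove if `R ≤ 0`.)
-/

namespace Pool.Agent.AHE

open Pool.Agent.AHC Pool.Agent.AHI Pool.Agent.AHR Pool.Agent.AHT Filter Cardinal
open scoped Topology

theorem hol_of_lines {S : Set ℂ} (hS : #S < 𝔠) {n : ℕ} {t : Fin n → ℂ} {r : ℝ}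
    {G : (Fin n → ℂ) → ℂ} (hc : ContinuousOn G (Metric.ball t r))
    (h : ∀ y u : Fin n → ℂ, SeqInd S y →
      (∀ s ∈ Metric.ball (0 : ℂ) 2, (fun i => y i + s * u i) ∈ Metric.ball t r) →
      DifferentiableOn ℂ (fun s => G fun i => y i + s * u i) (Metric.ball 0 2)) :
    DifferentiableOn ℂ G (Metric.ball t r) := by
  refine osgood Metric.isOpen_ball hc fun x hx i => ?_
  obtain ⟨ε, hε, hball⟩ := Metric.isOpen_iff.mp Metric.isOpen_ball x hx
  set ρ : ℝ := ε / 4 with hρ
  have hρ0 : 0 < ρ := by positivity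
  have hsub : Metric.closedBall x (3 * ρ) ⊆ Metric.ball t r := by
    refine (Metric.closedBall_subset_ball ?_).trans hball
    rw [hρ]
    linarith
  choose y hy hyx using fun k : ℕ =>
    exists_seqInd_small (n := n) hS (δ := ρ / ((k : ℝ) + 1)) (by positivity) x
  set u : Fin n → ℂ := Pi.single i (ρ : ℂ) with hu
  have hun : ∀ j, ‖u j‖ ≤ ρ := by
    intro j
    by_cases hj : j = i
    · subst hj
      rw [hu, Pi.single_eq_same, Complex.norm_real, Real.norm_of_nonneg hρ0.le]
    · rw [hu, Pi.single_eq_of_ne hj, norm_zero]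
      exact hρ0.le
  have hyρ : ∀ k j, ‖y k j - x j‖ ≤ ρ := by
    intro k j
    refine (hyx k j).le.trans (div_le_self hρ0.le ?_)
    have : (0 : ℝ) ≤ k := Nat.cast_nonneg k
    linarith
  have hmem : ∀ (z : Fin n → ℂ), (∀ j, ‖z j - x j‖ ≤ ρ) → ∀ s ∈ Metric.ball (0 : ℂ) 2,
      (fun j => z j + s * u j) ∈ Metric.closedBall x (3 * ρ) := by
    intro z hz s hs
    rw [mem_closedBall_iff_norm, pi_norm_le_iff_of_nonneg (by positivity)]
    intro j
    have h1 : ‖s‖ < 2 := by simpa using hs
    have h2 : (fun j => z j + s * u j) j - x j = (z j - x j) + s * u j := by ring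
    rw [Pi.sub_apply, h2]
    refine (norm_add_le _ _).trans ?_
    rw [norm_mul]
    have h3 : ‖s‖ * ‖u j‖ ≤ 2 * ρ := mul_le_mul h1.le (hun j) (norm_nonneg _) (by norm_num)
    have h4 := hz j
    linarith
  have huc : UniformContinuousOn G (Metric.closedBall x (3 * ρ)) :=
    (isCompact_closedBall x (3 * ρ)).uniformContinuousOn_of_continuous (hc.mono hsub)
  have hlim : TendstoUniformlyOn (fun (k : ℕ) (s : ℂ) => G fun j => y k j + s * u j)
      (fun s => G fun j => x j + s * u j) atTop (Metric.ball 0 2) := by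
    rw [Metric.tendstoUniformlyOn_iff]
    intro η hη
    obtain ⟨δ, hδ, hG⟩ := Metric.uniformContinuousOn_iff.mp huc η hη
    obtain ⟨N, hN⟩ := exists_nat_gt (ρ / δ)
    filter_upwards [eventually_ge_atTop N] with k hk s hs
    refine hG _ (hmem x (fun j => by rw [sub_self, norm_zero]; exact hρ0.le) s hs) _
      (hmem (y k) (hyρ k) s hs) ?_
    rw [dist_pi_lt_iff hδ]
    intro j
    rw [dist_eq_norm]
    have h1 : x j + s * u j - (y k j + s * u j) = -(y k j - x j) := by ring
    rw [h1, norm_neg]
    refine (hyx k j).trans ?_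
    rw [div_lt_iff₀ (by positivity)]
    have h2 : (N : ℝ) ≤ k := by exact_mod_cast hk
    rw [div_lt_iff₀ hδ] at hN
    nlinarith
  have hd : DifferentiableOn ℂ (fun s : ℂ => G fun j => x j + s * u j) (Metric.ball 0 2) := by
    refine hlim.tendstoLocallyUniformlyOn.differentiableOn (Eventually.of_forall fun k => ?_)
      Metric.isOpen_ball
    exact h (y k) u (hy k) fun s hs => hsub (hmem (y k) (hyρ k) s hs)
  have h0 : DifferentiableAt ℂ (fun s : ℂ => G fun j => x j + s * u j) 0 :=
    (hd 0 (by simp)).differentiableAt (Metric.isOpen_ball.mem_nhds (by simp))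
  have hρC : (ρ : ℂ) ≠ 0 := by exact_mod_cast hρ0.ne'
  have hfun : (fun s => G (Function.update x i s)) =
      (fun s : ℂ => G fun j => x j + s * u j) ∘ fun s => (s - x i) / ρ := by
    funext s
    simp only [Function.comp_apply]
    congr 1
    funext j
    by_cases hj : j = i
    · subst hj
      rw [Function.update_self, hu, Pi.single_eq_same, div_mul_cancel₀ _ hρC]
      ring
    · rw [Function.update_of_ne hj, hu, Pi.single_eq_of_ne hj, mul_zero, add_zero]
  rw [hfun]
  refine DifferentiableAt.comp (x i) ?_ ?_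
  · simpa using h0
  · exact (differentiableAt_id.sub_const _).div_const _

theorem const_of_small {h : ℂ → ℂ} {R : ℝ} (hh : DifferentiableOn ℂ h (Metric.ball 0 R))
    {M A : Set ℂ} (hM : #M < 𝔠) (hA : A.Countable)
    (hv : ∀ s ∈ Metric.ball (0 : ℂ) R, s ∉ M → h s ∈ A) :
    ∀ s ∈ Metric.ball (0 : ℂ) R, h s = h 0 := by
  rcases le_or_gt R 0 with hR | hR
  · intro s hs
    rw [Metric.ball_eq_empty.mpr hR] at hs
    exact absurd hs (Set.notMem_empty s)
  have han : AnalyticOnNhd ℂ h (Metric.ball 0 R) := hh.analyticOnNhd Metric.isOpen_ball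
  rcases han.is_constant_or_isOpen (convex_ball (0 : ℂ) R).isPreconnected with ⟨w, hw⟩ | hop
  · intro s hs
    rw [hw s hs, hw 0 (Metric.mem_ball_self hR)]
  exfalso
  have h1 : IsOpen (h '' Metric.ball 0 R) := hop _ subset_rfl Metric.isOpen_ball
  have h2 : 𝔠 ≤ #(h '' Metric.ball 0 R) :=
    continuum_le_cardinal_of_isOpen ℂ h1 ⟨_, Set.mem_image_of_mem h (Metric.mem_ball_self hR)⟩
  have h3 : h '' Metric.ball 0 R ⊆ A ∪ h '' M := by
    rintro _ ⟨s, hs, rfl⟩
    by_cases hsM : s ∈ M
    · exact Or.inr ⟨s, hsM, rfl⟩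
    · exact Or.inl (hv s hs hsM)
  have h4 : #(↥(A ∪ h '' M)) < 𝔠 := by
    refine (Cardinal.mk_union_le _ _).trans_lt (Cardinal.add_lt_of_lt aleph0_le_continuum ?_ ?_)
    · exact (Cardinal.le_aleph0_iff_set_countable.mpr hA).trans_lt aleph0_lt_continuum
    · exact Cardinal.mk_image_le.trans_lt hM
  exact absurd (h2.trans (Cardinal.mk_le_mk_of_subset h3)) (not_le.2 h4)

end Pool.Agent.AHE
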