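import Mathlib
import Pool.Agent.AHE.ChC
import Pool.Agent.AHE.Sep
import Pool.Agent.AHE.CaA
import Pool.Agent.AHE.GUp
import Pool.Agent.AHE.GUp

/-!
# The period functions in the coordinates of a chart

Proof.  `X, δ` from `up_ca`.  Let `t` with `SeqInd S t` and `X ⊆ cl (S ∪ range t)`, and `η₀ > 0`.
`chart_ca` for `U = ball (inc X) (min δ η₀)` gives `r₁, η₁, φ`; `φ t = inc X` (the third property for
`RingEquiv.refl ℂ`; `inc X = res X (refl)`).  Put `η = min (min η₁ η₀) δ` and choose `r ≤ r₁` with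
`‖φ y - inc X‖ < η` for `y ∈ ball t r` (continuity of `φ` at `t`).  First property: the last property of
`chart_ca`, `res X β = φ y`.  (If `X` is empty all conditions on `X` are void; `dist` on `X → ℂ` is the sup
distance, `dist_pi_lt_iff`.)

Let `β₂ ∈ Fx S` be near (on `X`, and `β₂ ∘ t ∈ ball t r`), `W`, `z` given: `Q, Q'` from `up_ca`
(`dist (res X β₂) (inc X) < δ`).  Put `G = Q' ∘ φ`.

* `CA O G y`: `CA.comp` with `ca_mono (Set.empty_subset O)` and `chart_ca`, as `φ y ∈ ball (inc X) δ`.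
* If `y ∈ ball t r` and `SeqInd S y`, then `G y = Q (φ y)`: `y = β ∘ t` with `res X β = φ y`, and the fourth
  property of `up_ca`.
* `G` is continuous on `ball t r` (`CA` functions are Lipschitz near the point).  By `hol_of_lines` it is
  enough to show holomorphy of `G ∘ ℓ`, `ℓ s = y + s u`, on `ball 0 2` if `SeqInd S y` and `ℓ (ball 0 2) ⊆ ball t r`.
  Put `γ = φ ∘ ℓ`.  The set of `s` with `¬ SeqInd S (ℓ s)` has cardinality `< 𝔠` (`mk_not_seqInd`), so its
  complement is dense (`dense_compl_small`); for `s` in the complement there is `β ∈ Fx S ⊆ GA` with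
  `res X β = γ s`.  So `Q ∘ γ` is holomorphic on `ball 0 2` by `up_ca` (third property; the density in
  `ball 0 2` since the ball is open).  `Q ∘ γ` and `G ∘ ℓ` are continuous on `ball 0 2` and equal on a dense
  subset of it, so they are equal on `ball 0 2`.
* `G (β₂ ∘ t) = Q' (res X β₂) = Q (res X β₂) = evc W z`; and for `β'` near: `G (β' ∘ t) = Q (res X β')` and the
  first property of `up_ca`.
-/

namespace Pool.Agent.AHE

open MvPolynomial Pool.Agent.AHC Pool.Agent.AHI Pool.Agent.AHR Pool.Agent.AHU Pool.Agent.AHT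
  Pool.Agent.EllPR Filter Cardinal
open scoped ContDiff Topology LinearAlgebra.Projectivization

variable {N m : ℕ}

theorem pco {O : Set (ℕ → ℕ)} {S : Set ℂ} (hS : #S < 𝔠) (hSO : ∀ a ∈ S, IsPR O a)
    {F : Fin m → CPoly N} {k : ℕ} {w : FormCochain N} (hsm : IsSmoothProjective F)
    (hh : IsHodgeCochain k w)
    (hcl : ∀ σ : ℂ ≃+* ℂ, ∃ W, IsPer (conjEqs σ F) k (w.conj σ) W) (Y : Finset ℂ) :
    ∃ X : Finset ℂ, Y ⊆ X ∧ ∀ {n : ℕ} (t : Fin n → ℂ), SeqInd S t →
      (X : Set ℂ) ⊆ cl (S ∪ Set.range t) → ∀ η₀ : ℝ, 0 < η₀ →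
      ∃ r η : ℝ, 0 < r ∧ 0 < η ∧ η ≤ η₀ ∧
        (∀ y ∈ Metric.ball t r, SeqInd S y →
          ∃ β ∈ Fx S, (∀ i, β (t i) = y i) ∧ ∀ x ∈ X, ‖β x - x‖ < η) ∧
        ∀ β₂ ∈ Fx S, (fun i => β₂ (t i)) ∈ Metric.ball t r → (∀ x ∈ X, ‖β₂ x - x‖ < η) →
          ∀ W, IsPer (conjEqs β₂ F) k (w.conj β₂) W → ∀ z, IsCyc (conjEqs β₂ F) k z →
          ∃ G : (Fin n → ℂ) → ℂ, DifferentiableOn ℂ G (Metric.ball t r) ∧
            (∀ y ∈ Metric.ball t r, CA O G y) ∧ G (fun i => β₂ (t i)) = evc W z ∧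
            ∀ β' ∈ Fx S, (fun i => β' (t i)) ∈ Metric.ball t r → (∀ x ∈ X, ‖β' x - x‖ < η) →
              ∃ z', IsCyc (conjEqs β' F) k z' ∧ ∀ W', IsPer (conjEqs β' F) k (w.conj β') W' →
                evc W' z' = G fun i => β' (t i) := by
  obtain ⟨X, δ, hYX, hδ, hup⟩ := up_ca hsm hh hcl Y
  refine ⟨X, hYX, fun {n} t ht hXt η₀ hη₀ => ?_⟩
  obtain ⟨r₁, η₁, φ, hr₁, hη₁, hφd, hφU, hφCA, hφβ, hφy⟩ :=
    chart_ca hSO ht X hXt (Metric.ball_mem_nhds (inc X) (lt_min hδ hη₀))
  have hη : 0 < min (min η₁ η₀) δ := lt_min (lt_min hη₁ hη₀) hδ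
  have hφt : φ t = inc X :=
    (hφβ (RingEquiv.refl ℂ) (refl_mem_Fx S) (Metric.mem_ball_self hr₁)
      (fun x _ => by rw [RingEquiv.refl_apply, sub_self, norm_zero]; exact hη₁)).symm
  have hφc : ContinuousOn φ (Metric.ball t r₁) := hφd.continuousOn
  have hcont : ContinuousAt φ t := hφc.continuousAt (Metric.ball_mem_nhds t hr₁)
  have hev : ∀ᶠ y in 𝓝 t, φ y ∈ Metric.ball (inc X) (min (min η₁ η₀) δ) := by
    refine hcont.eventually_mem ?_
    rw [hφt]
    exact Metric.ball_mem_nhds _ hη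
  obtain ⟨r₂, hr₂, hφr₂⟩ := Metric.eventually_nhds_iff_ball.1 hev
  have hsub : Metric.ball t (min r₁ r₂) ⊆ Metric.ball t r₁ :=
    Metric.ball_subset_ball (min_le_left _ _)
  have hφδ : ∀ y ∈ Metric.ball t r₁, dist (φ y) (inc X) < δ := fun y hy =>
    (Metric.mem_ball.1 (hφU y hy)).trans_le (min_le_left _ _)
  -- near the identity on `X`
  have hnear : ∀ β : ℂ ≃+* ℂ, (∀ x ∈ X, ‖β x - x‖ < min (min η₁ η₀) δ) →
      dist (res X β) (inc X) < δ := by
    intro β hβ
    rw [dist_pi_lt_iff hδ]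
    intro x
    rw [dist_eq_norm]
    exact (hβ x x.2).trans_le (min_le_right _ _)
  refine ⟨min r₁ r₂, min (min η₁ η₀) δ, lt_min hr₁ hr₂, hη,
    (min_le_left _ _).trans (min_le_right _ _), fun y hy hyS => ?_,
    fun β₂ hβ₂ hβ₂t hβ₂X W hW z hz => ?_⟩
  · obtain ⟨β, hβ, hβt, hβX⟩ := hφy y (hsub hy) hyS
    refine ⟨β, hβ, hβt, fun x hx => ?_⟩
    have h1 : dist (φ y) (inc X) < min (min η₁ η₀) δ :=
      Metric.mem_ball.1 (hφr₂ y (Metric.ball_subset_ball (min_le_right _ _) hy))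
    rw [← hβX] at h1
    have h2 := (dist_le_pi_dist (res X β) (inc X) ⟨x, hx⟩).trans_lt h1
    rwa [dist_eq_norm] at h2
  · obtain ⟨Q, Q', h1, h2, h3, h4, h5⟩ := hup β₂ (hnear β₂ hβ₂X) W hW z hz
    have hCA : ∀ y ∈ Metric.ball t r₁, CA O (fun y => Q' (φ y)) y := by
      intro y hy
      exact CA.comp (g := Q') (F := fun (x : X) (y : Fin n → ℂ) => φ y x) (b := y)
        (ca_mono (Set.empty_subset O) (h5 (φ y) (hφδ y hy))) fun x => hφCA y hy x
    have hGc : ContinuousOn (fun y => Q' (φ y)) (Metric.ball t (min r₁ r₂)) := fun y hy =>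
      (hCA y (hsub hy)).continuousAt.continuousWithinAt
    -- the value at the automorphisms
    have hval : ∀ β ∈ Fx S, (fun i => β (t i)) ∈ Metric.ball t (min r₁ r₂) →
        (∀ x ∈ X, ‖β x - x‖ < min (min η₁ η₀) δ) →
        Q' (φ fun i => β (t i)) = Q (res X β) := by
      intro β hβ hβt hβX
      rw [← hφβ β hβ (hsub hβt) fun x hx =>
        (hβX x hx).trans_le ((min_le_left _ _).trans (min_le_left _ _))]
      exact h4 β (hnear β hβX)
    refine ⟨fun y => Q' (φ y), hol_of_lines hS hGc fun y u hy hℓ => ?_,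
      fun y hy => hCA y (hsub hy), ?_, fun β' hβ' hβ't hβ'X => ?_⟩
    · -- the line
      have hℓd : Differentiable ℂ fun (s : ℂ) (i : Fin n) => y i + s * u i := by
        rw [differentiable_pi]
        intro i
        exact (differentiable_id.mul_const (u i)).const_add (y i)
      have hγ : DifferentiableOn ℂ (fun s : ℂ => φ fun i => y i + s * u i)
          (Metric.ball 0 2) :=
        hφd.comp hℓd.differentiableOn fun s hs => hsub (hℓ s hs)
      have hM := mk_not_seqInd hS u hy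
      have hdense : Metric.ball (0 : ℂ) 2 ⊆ closure (Metric.ball (0 : ℂ) 2 ∩
          {s : ℂ | ¬ SeqInd S fun i => y i + s * u i}ᶜ) :=
        (dense_compl_small hM).open_subset_closure_inter Metric.isOpen_ball
      have hβs : ∀ s ∈ Metric.ball (0 : ℂ) 2 ∩ {s : ℂ | ¬ SeqInd S fun i => y i + s * u i}ᶜ,
          ∃ β ∈ Fx S, res X β = φ fun i => y i + s * u i := by
        rintro s ⟨hs1, hs2⟩
        have hs3 : SeqInd S fun i => y i + s * u i := not_not.1 hs2
        obtain ⟨β, hβ, -, hβX⟩ := hφy _ (hsub (hℓ s hs1)) hs3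
        exact ⟨β, hβ, hβX⟩
      have hQ : DifferentiableOn ℂ (fun s : ℂ => Q (φ fun i => y i + s * u i))
          (Metric.ball 0 2) := by
        refine h3 (fun s => φ fun i => y i + s * u i) hγ
          (fun s hs => Metric.mem_ball.2 (hφδ _ (hsub (hℓ s hs)))) ?_
        refine hdense.trans (closure_mono ?_)
        intro s hs
        obtain ⟨β, hβ, hβX⟩ := hβs s hs
        exact ⟨hs.1, β, Fx_anti (Set.empty_subset S) hβ, hβX⟩
      have hG : ContinuousOn (fun s : ℂ => Q' (φ fun i => y i + s * u i))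
          (Metric.ball 0 2) :=
        hGc.comp hℓd.continuous.continuousOn fun s hs => hℓ s hs
      have heq : Set.EqOn (fun s : ℂ => Q' (φ fun i => y i + s * u i))
          (fun s : ℂ => Q (φ fun i => y i + s * u i)) (Metric.ball 0 2) := by
        refine Set.EqOn.of_subset_closure ?_ hG hQ.continuousOn Set.inter_subset_left hdense
        intro s hs
        obtain ⟨β, hβ, hβX⟩ := hβs s hs
        show Q' (φ fun i => y i + s * u i) = Q (φ fun i => y i + s * u i)
        rw [← hβX]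
        refine h4 β ?_
        rw [hβX]
        exact hφδ _ (hsub (hℓ s hs.1))
      exact hQ.congr heq
    · show Q' (φ fun i => β₂ (t i)) = evc W z
      rw [hval β₂ hβ₂ hβ₂t hβ₂X, h2]
    · obtain ⟨z', hz', hz'ev⟩ := h1 β' (hnear β' hβ'X)
      refine ⟨z', hz', fun W' hW' => ?_⟩
      show evc W' z' = Q' (φ fun i => β' (t i))
      rw [hval β' hβ' hβ't hβ'X, hz'ev W' hW']

end Pool.Agent.AHE
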