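import Mathlib
import Pool.Agent.AHE.PCo
import Pool.Agent.AHT.Exr
import Pool.Agent.AHT.Up
import Pool.Agent.AHU.Sta

/-!
# The status of the conjugates is locally constant, relative to a small set

`const_of_real`.  Proof.  Let `y ∈ ball t r` and `h s = G (y₁ + s (y - y₁)) / c`, holomorphic on the convex open set
`D = {s : ℂ | y₁ + s (y - y₁) ∈ ball t r}` (it contains `0` and `1`).  The points `y'` with `SeqInd S y'`
are dense (`exists_seqInd_small`), so by continuity of `G` all values of `G / c` on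
`ball t r ∩ ball y₁ δ` are real (`RC` is closed: `AHR.isClosed_RC`).  So `h` has real values near `0`, so it is
constant near `0` (open mapping theorem `AnalyticAt.eventually_constant_or_nhds_le_map_nhds`, or
`AnalyticOnNhd.is_constant_or_isOpen`), and constant on `D` (identity theorem
`AnalyticOnNhd.eqOn_of_preconnected_of_eventuallyEq`); so `h 1 = h 0`.

`loc_rel`.  Proof.  `X₀` from `sta_perIn d`; `X ⊇ X₀` from `pco` with `Y := X₀` (`hcl` is `hd`);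
`exists_basis S X.finite_toSet`: `t : Fin n → ℂ` with `SeqInd S t`, `range t ⊆ X`, `X ⊆ cl (S ∪ range t)`.
`pco` with `η₀ = 1`: `r, η`.  Put `ε = min r η`.  For `β ∈ Fx S` within `ε` of the identity on `X`:
`β ∘ t ∈ ball t r` (sup distance, `dist_pi_lt_iff`) and `‖β x - x‖ < η`.

Let `β₁, X₂, ε₂` be as in the hypothesis and `β₂` near; `W` with `IsPer (conjEqs β₂ F) k (w.conj β₂) W` (`hd`).
We show that `W` works.  Let `z` be a cycle and `G` as in `pco` for `β₂, W, z`.  Put `y₁ = β₁ ∘ t`.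

Claim: there is `δ > 0` such that for all `y ∈ ball t r` with `SeqInd S y`, `‖y - y₁‖ < δ` there is `a ∈ A` with
`G y = (2πi)^k a`.  Let `ε'` be given by `ext_rel hS (X.image β₁) (X₂.image β₁)` for `ε₂`: applied to
`β₁.symm.trans β` it gives: for all `β ∈ Fx S` with `‖β x - β₁ x‖ < ε'` on `X` there is `β₃ ∈ Fx S` with
`β₃ = β` on `X` and `‖β₃ x - β₁ x‖ < ε₂` on `X₂`.  Let `η' = min ε' (η - max_x ‖β₁ x - x‖) > 0`.
`nearby_rel` for `β₁ ∘ t` (`Up_seqInd`) and the set `β₁ '' X ⊆ cl (S ∪ range (β₁ ∘ t))` (`Up_map_mem`) and `η'`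
gives `δ`.  For `y` as in the claim there is `β'' ∈ Fx S` with `β'' (β₁ (t i)) = y i` and
`‖β'' (β₁ x) - β₁ x‖ < η'` on `X`.  `β = β₁.trans β'' ∈ Fx S` satisfies `β ∘ t = y`,
`‖β x - β₁ x‖ < ε'` and `‖β x - x‖ < η` on `X`.  By `pco` there is a cycle `z'` for `β` with
`evc W' z' = G y` for all period functions `W'` for `β`.  The hypothesis gives `PerIn A` for `β₃`, so
`PerIn A` for `β` (`sta_perIn`): so `G y = evc W' z' = (2πi)^k a`.

`y₁` itself satisfies the conditions, so `G y₁ = (2πi)^k a₁`, `a₁ ∈ A`; by `const_of_real` (with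
`c = (2πi)^k`, `A ⊆ RC`) `evc W z = G (β₂ ∘ t) = G y₁`.
-/

namespace Pool.Agent.AHE

open MvPolynomial Pool.Agent.AHC Pool.Agent.AHI Pool.Agent.AHR Pool.Agent.AHU Pool.Agent.AHT
  Pool.Agent.EllPR Filter Cardinal
open scoped ContDiff Topology LinearAlgebra.Projectivization

theorem const_of_real {S : Set ℂ} (hS : #S < 𝔠) {n : ℕ} {t : Fin n → ℂ} {r : ℝ}
    {G : (Fin n → ℂ) → ℂ} (hG : DifferentiableOn ℂ G (Metric.ball t r)) {y₁ : Fin n → ℂ}
    (hy₁ : y₁ ∈ Metric.ball t r) {c : ℂ} (hc : c ≠ 0) {δ : ℝ} (hδ : 0 < δ)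
    (h : ∀ y ∈ Metric.ball t r, SeqInd S y → ‖y - y₁‖ < δ → ∃ a : ℝ, G y = c * a) :
    ∀ y ∈ Metric.ball t r, G y = G y₁ := by
  -- all values near `y₁` are real multiples of `c`
  have hO : IsOpen (Metric.ball t r ∩ Metric.ball y₁ δ) :=
    Metric.isOpen_ball.inter Metric.isOpen_ball
  have hreal : ∀ y ∈ Metric.ball t r ∩ Metric.ball y₁ δ, G y / c ∈ RC := by
    intro y hy
    have hfr : ∃ᶠ y' in 𝓝 y, SeqInd S y' := by
      rw [Metric.nhds_basis_ball.frequently_iff]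
      intro ε hε
      obtain ⟨b, hb, hbn⟩ := exists_seqInd_small hS hε y
      refine ⟨b, ?_, hb⟩
      rw [Metric.mem_ball, dist_pi_lt_iff hε]
      intro i
      rw [dist_eq_norm]
      exact hbn i
    have hev : ∀ᶠ y' in 𝓝 y, y' ∈ Metric.ball t r ∩ Metric.ball y₁ δ := hO.mem_nhds hy
    have hcont : Tendsto (fun y' => G y' / c) (𝓝 y) (𝓝 (G y / c)) := by
      have h1 : ContinuousAt G y :=
        hG.continuousOn.continuousAt (Metric.isOpen_ball.mem_nhds hy.1)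
      exact h1.div_const c
    refine isClosed_RC.mem_of_frequently_of_tendsto
      ((hfr.and_eventually hev).mono fun y' hy' => ?_) hcont
    obtain ⟨a, ha⟩ := h y' hy'.2.1 hy'.1 (by
      have h2 := hy'.2.2
      rwa [Metric.mem_ball, dist_eq_norm] at h2)
    refine ⟨a, ?_⟩
    rw [ha]
    field_simp
  intro y hy
  obtain ⟨u, hu⟩ : ∃ u : Fin n → ℂ, u = y - y₁ := ⟨_, rfl⟩
  have hL : Continuous fun s : ℂ => y₁ + s • u := by fun_prop
  obtain ⟨D, hD⟩ : ∃ D : Set ℂ, D = {s : ℂ | y₁ + s • u ∈ Metric.ball t r} := ⟨_, rfl⟩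
  have hDo : IsOpen D := by
    rw [hD]
    exact Metric.isOpen_ball.preimage hL
  have hDc : Convex ℝ D := by
    rw [hD]
    intro s hs s' hs' a b ha hb hab
    have hab' : (a : ℂ) + b = 1 := by exact_mod_cast hab
    have h1 : y₁ + (a • s + b • s') • u = a • (y₁ + s • u) + b • (y₁ + s' • u) := by
      funext i
      simp only [Pi.add_apply, Pi.smul_apply, Complex.real_smul, smul_eq_mul]
      linear_combination (-(y₁ i)) * hab'
    change y₁ + (a • s + b • s') • u ∈ Metric.ball t r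
    rw [h1]
    exact convex_ball t r hs hs' ha hb hab
  have h0D : (0 : ℂ) ∈ D := by
    rw [hD]
    change y₁ + (0 : ℂ) • u ∈ Metric.ball t r
    rwa [zero_smul, add_zero]
  have h1D : (1 : ℂ) ∈ D := by
    rw [hD]
    change y₁ + (1 : ℂ) • u ∈ Metric.ball t r
    rwa [one_smul, hu, add_sub_cancel]
  obtain ⟨g, hg⟩ : ∃ g : ℂ → ℂ, g = fun s => G (y₁ + s • u) / c := ⟨_, rfl⟩
  have hgd : DifferentiableOn ℂ g D := by
    rw [hg]
    refine DifferentiableOn.div_const ?_ c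
    refine hG.comp (f := fun s : ℂ => y₁ + s • u) ?_ ?_
    · have h2 : Differentiable ℂ fun s : ℂ => y₁ + s • u := by fun_prop
      exact h2.differentiableOn
    · intro s hs
      rw [hD] at hs
      exact hs
  have hD2 : IsOpen (D ∩ {s : ℂ | y₁ + s • u ∈ Metric.ball y₁ δ}) :=
    hDo.inter (Metric.isOpen_ball.preimage hL)
  obtain ⟨r0, hr0, hr0s⟩ := Metric.isOpen_iff.1 hD2 0 ⟨h0D, by
    change y₁ + (0 : ℂ) • u ∈ Metric.ball y₁ δ
    rw [zero_smul, add_zero]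
    exact Metric.mem_ball_self hδ⟩
  have hconst : ∀ s ∈ Metric.ball (0 : ℂ) r0, g s = g 0 := by
    intro s hs
    refine AHR.const_of_real (hgd.mono fun s hs => (hr0s hs).1) (D := Set.univ) ?_ ?_ hs
      (Metric.mem_ball_self hr0)
    · intro s hs
      exact subset_closure ⟨hs, Set.mem_univ _⟩
    · intro s hs _
      obtain ⟨h2, h3⟩ := hr0s hs
      rw [hD] at h2
      obtain ⟨a, ha⟩ := hreal _ ⟨h2, h3⟩
      rw [hg]
      change (G (y₁ + s • u) / c).im = 0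
      rw [← ha]
      exact Complex.ofReal_im a
  have hEq : Set.EqOn g (fun _ => g 0) D := by
    refine (hgd.analyticOnNhd hDo).eqOn_of_preconnected_of_eventuallyEq analyticOnNhd_const
      hDc.isPreconnected h0D ?_
    filter_upwards [Metric.ball_mem_nhds (0 : ℂ) hr0] with s hs
    exact hconst s hs
  have h4 : g 1 = g 0 := hEq h1D
  rw [hg] at h4
  change G (y₁ + (1 : ℂ) • u) / c = G (y₁ + (0 : ℂ) • u) / c at h4
  rw [one_smul, zero_smul, add_zero, hu, add_sub_cancel, div_left_inj' hc] at h4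
  exact h4

theorem loc_rel {O : Set (ℕ → ℕ)} {S : Set ℂ} (hS : #S < 𝔠) (hSO : ∀ a ∈ S, IsPR O a)
    (d : Datum) (hd : AllClosed d) {A : Set ℂ} (hA : A ⊆ RC) :
    ∃ (X : Finset ℂ) (ε : ℝ), 0 < ε ∧ ∀ β₁ ∈ Fx S, (∀ x ∈ X, ‖β₁ x - x‖ < ε) →
      (∃ (X₂ : Finset ℂ) (ε₂ : ℝ), 0 < ε₂ ∧ ∀ β ∈ Fx S, (∀ x ∈ X₂, ‖β x - β₁ x‖ < ε₂) →
        PerIn A (d.conj β).F (d.conj β).k (d.conj β).w) →
      ∀ β₂ ∈ Fx S, (∀ x ∈ X, ‖β₂ x - x‖ < ε) → PerIn A (d.conj β₂).F (d.conj β₂).k (d.conj β₂).w := by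
  classical
  obtain ⟨X₀, hX₀⟩ := sta_perIn d
  obtain ⟨X, hX₀X, hpco⟩ := pco hS hSO d.smooth d.hodge (fun σ => hd σ) X₀
  obtain ⟨n, t, ht1, ht2, ht3⟩ := exists_basis S X.finite_toSet
  obtain ⟨r, η, hr, hη, -, -, hmain⟩ := hpco t ht1 ht3 1 one_pos
  refine ⟨X, min r η, lt_min hr hη, ?_⟩
  have hpos : ∀ β : ℂ ≃+* ℂ, (∀ x ∈ X, ‖β x - x‖ < min r η) →
      (fun i => β (t i)) ∈ Metric.ball t r := by
    intro β hβ
    rw [Metric.mem_ball, dist_pi_lt_iff hr]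
    intro i
    rw [dist_eq_norm]
    exact (hβ (t i) (Finset.mem_coe.1 (ht2 ⟨i, rfl⟩))).trans_le (min_le_left _ _)
  rintro β₁ hβ₁ hβ₁X ⟨X₂, ε₂, hε₂, hH⟩ β₂ hβ₂ hβ₂X
  obtain ⟨W, hW⟩ := hd β₂
  refine ⟨W, hW, fun z hz => ?_⟩
  obtain ⟨G, hG1, -, hG3, hG4⟩ := hmain β₂ hβ₂ (hpos β₂ hβ₂X)
    (fun x hx => (hβ₂X x hx).trans_le (min_le_right _ _)) W hW z hz
  -- the margin
  obtain ⟨μ, hμ, hμ0⟩ : ∃ μ : ℝ, (∀ x ∈ X, ‖β₁ x - x‖ < η - μ) ∧ 0 < μ := by
    have h1 : ∀ᶠ μ : ℝ in 𝓝[>] 0, ∀ x ∈ X, ‖β₁ x - x‖ < η - μ := by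
      rw [Filter.eventually_all_finset]
      intro x hx
      have h2 : Tendsto (fun μ : ℝ => η - μ) (𝓝[>] 0) (𝓝 η) := by
        have h3 : Continuous fun μ : ℝ => η - μ := by fun_prop
        have h4 := h3.tendsto 0
        rw [sub_zero] at h4
        exact h4.mono_left nhdsWithin_le_nhds
      exact h2.eventually (lt_mem_nhds ((hβ₁X x hx).trans_le (min_le_right _ _)))
    obtain ⟨μ, h2, h3⟩ := (h1.and self_mem_nhdsWithin).exists
    exact ⟨μ, h2, h3⟩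
  obtain ⟨ε', hε', hext⟩ := ext_rel hS (X.image β₁) (X₂.image β₁) hε₂
  obtain ⟨δ, hδ, hnear⟩ := nearby_rel (Up_seqInd ht1 hβ₁) (X := β₁ '' (X : Set ℂ))
    (X.finite_toSet.image _) (by
      rintro _ ⟨x, hx, rfl⟩
      exact Up_map_mem hβ₁ (ht3 hx)) (lt_min hε' hμ0)
  have claim : ∀ y ∈ Metric.ball t r, SeqInd S y → ‖y - fun i => β₁ (t i)‖ < δ →
      ∃ a ∈ A, G y = (2 * Real.pi * Complex.I) ^ d.k * a := by
    intro y hy hyS hyn
    obtain ⟨β', hβ', hβ't, hβ'X⟩ := hnear y hyS (fun i =>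
      (norm_le_pi_norm (y - fun i => β₁ (t i)) i).trans_lt hyn)
    have hβF : β₁.trans β' ∈ Fx S := Fx_trans hβ₁ hβ'
    have hβt : (fun i => (β₁.trans β') (t i)) = y := funext hβ't
    have hβX : ∀ x ∈ X, ‖(β₁.trans β') x - x‖ < η := by
      intro x hx
      have h1 := hβ'X (β₁ x) ⟨x, Finset.mem_coe.2 hx, rfl⟩
      have h2 := hμ x hx
      have h3 : (β₁.trans β') x - x = (β' (β₁ x) - β₁ x) + (β₁ x - x) := by
        rw [RingEquiv.trans_apply]
        ring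
      rw [h3]
      have h4 := h1.trans_le (min_le_right ε' μ)
      linarith [norm_add_le (β' (β₁ x) - β₁ x) (β₁ x - x)]
    obtain ⟨z', hz', hzW⟩ := hG4 _ hβF (by rw [hβt]; exact hy) hβX
    obtain ⟨β₃, hβ₃, hβ₃X, hβ₃n⟩ := hext β' hβ' (fun x hx => by
      obtain ⟨x', hx', rfl⟩ := Finset.mem_image.1 hx
      exact (hβ'X _ ⟨x', Finset.mem_coe.2 hx', rfl⟩).trans_le (min_le_left _ _))
    have h5 := hH (β₁.trans β₃) (Fx_trans hβ₁ hβ₃) (fun x hx =>
      hβ₃n _ (Finset.mem_image_of_mem _ hx))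
    obtain ⟨W', hW', hper⟩ := hX₀ A _ (β₁.trans β') (fun x hx =>
      hβ₃X _ (Finset.mem_image_of_mem _ (hX₀X hx))) h5
    obtain ⟨a, ha, hae⟩ := hper z' hz'
    refine ⟨a, ha, ?_⟩
    have h6 := hzW W' hW'
    rw [hβt] at h6
    rw [← h6]
    exact hae
  obtain ⟨a₁, ha₁, ha₁e⟩ := claim _ (hpos β₁ hβ₁X) (Up_seqInd ht1 hβ₁) (by
    rw [sub_self, norm_zero]
    exact hδ)
  refine ⟨a₁, ha₁, ?_⟩
  have hne : (2 * Real.pi * Complex.I : ℂ) ^ d.k ≠ 0 := by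
    refine pow_ne_zero _ ?_
    have h1 : (Real.pi : ℂ) ≠ 0 := by exact_mod_cast Real.pi_ne_zero
    simp [h1, Complex.I_ne_zero]
  have h7 := const_of_real hS hG1 (hpos β₁ hβ₁X) hne hδ (fun y hy hyS hyn => by
    obtain ⟨a, ha, hae⟩ := claim y hy hyS hyn
    obtain ⟨a', ha'⟩ := hA ha
    exact ⟨a', by rw [hae, ← ha']⟩) _ (hpos β₂ hβ₂X)
  exact hG3.symm.trans (h7.trans ha₁e)

end Pool.Agent.AHE
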