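import Mathlib
import Pool.Agent.AHE.RLoc
import Pool.Agent.AHE.RCnn

/-!
# From the automorphisms near the identity to all automorphisms over `cl S`

Proof.  `X₀` from `sta_perIn d`.  For `β ∈ Fx S` let `st β` be the statement: there is `ε > 0` such that for all
`β' ∈ Fx S` with `‖β' x - β x‖ < ε` for all `x ∈ X₀` the property `PerIn A` holds for `d.conj β'`.

(0) For all `β₀ ∈ Fx S`, finite `Y` and `ε₂ > 0` there is `ε > 0` such that for every `β ∈ Fx S` with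
`‖β x - β₀ x‖ < ε` on `X₀` there is `β₃ ∈ Fx S` with `β₃ = β` on `X₀` and `‖β₃ y - β₀ y‖ < ε₂` on `Y`: `ext_rel` for
`X₀.image β₀`, `Y.image β₀`, applied to `β₀.symm.trans β` (and `β₃ = β₀.trans (..)`).

(1) `st` depends only on the restriction to `X₀`: clear.

(2) `st` is locally constant.  Let `β₀ ∈ Fx S`.  If `st β₀` holds with `ε`, then `st β` holds (with `ε / 2`) for
all `β` within `ε / 2` of `β₀` on `X₀`.  Suppose `st β₀` fails; we show that `st β` fails for `β` near `β₀` on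
`X₀`.  `loc_rel` for the datum `d.conj β₀` (all conjugates closed, `Datum.conj_conj`, as in the proof of
`AHU.exists_St`) gives `X, ε₁`.  Let `ε` be as in (0) for `β₀`, `Y = X.image β₀.symm`, `ε₁`.  Suppose `st β` with
`‖β x - β₀ x‖ < ε` on `X₀`.  Then `β₃` as in (0) satisfies `st β₃` by (1), and `β₁ = β₀.symm.trans β₃ ∈ Fx S` is within
`ε₁` of the identity on `X`.  Let `ε₂` be given by `st β₃` and `X₂ = X₀.image β₀`: if `‖γ x - β₁ x‖ < ε₂` on `X₂` then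
`β₀.trans γ` is within `ε₂` of `β₃` on `X₀`, so `PerIn A` holds for `(d.conj β₀).conj γ = d.conj (β₀.trans γ)`.  By
`loc_rel`, `PerIn A` holds for `d.conj (β₀.trans β₂)` for all `β₂ ∈ Fx S` within `ε₁` of the identity on `X`.  By
(0) again: every `β' ∈ Fx S` within `ε` of `β₀` on `X₀` agrees on `X₀` with a `β₃'` such that
`β₀.symm.trans β₃'` is within `ε₁` of the identity on `X`, so `PerIn A` for `d.conj β₃'` and for `d.conj β'`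
(`sta_perIn`).  So `st β₀`, a contradiction.

(3) The hypothesis `h` and (0) for `β₀ = refl`, `Y = X` give `st refl` (and `sta_perIn`).  By `connected_rel`
`st σ` for all `σ ∈ Fx S`, and so `PerIn A` for `d.conj σ`.
-/

namespace Pool.Agent.AHE

open MvPolynomial Pool.Agent.AHC Pool.Agent.AHI Pool.Agent.AHR Pool.Agent.AHU Pool.Agent.AHT
  Pool.Agent.EllPR Filter Cardinal
open scoped ContDiff Topology LinearAlgebra.Projectivization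

private theorem RSt_ext {S : Set ℂ} (hS : #S < 𝔠) (X₀ Y : Finset ℂ) {β₀ : ℂ ≃+* ℂ}
    (hβ₀ : β₀ ∈ Fx S) {ε₂ : ℝ} (hε₂ : 0 < ε₂) :
    ∃ ε > 0, ∀ β ∈ Fx S, (∀ x ∈ X₀, ‖β x - β₀ x‖ < ε) →
      ∃ β₃ ∈ Fx S, (∀ x ∈ X₀, β₃ x = β x) ∧ ∀ y ∈ Y, ‖β₃ y - β₀ y‖ < ε₂ := by
  classical
  obtain ⟨ε, hε, h⟩ := ext_rel hS (X₀.image β₀) (Y.image β₀) hε₂
  refine ⟨ε, hε, fun β hβ hβX => ?_⟩
  obtain ⟨γ, hγ, h1, h2⟩ := h (β₀.symm.trans β) (Fx_trans (Fx_symm hβ₀) hβ) (fun x hx => by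
    obtain ⟨y, hy, rfl⟩ := Finset.mem_image.1 hx
    rw [RingEquiv.trans_apply, RingEquiv.symm_apply_apply]
    exact hβX y hy)
  refine ⟨β₀.trans γ, Fx_trans hβ₀ hγ, fun x hx => ?_, fun y hy => ?_⟩
  · rw [RingEquiv.trans_apply, h1 _ (Finset.mem_image_of_mem _ hx), RingEquiv.trans_apply,
      RingEquiv.symm_apply_apply]
  · rw [RingEquiv.trans_apply]
    exact h2 _ (Finset.mem_image_of_mem _ hy)

theorem rel_global {O : Set (ℕ → ℕ)} {S : Finset ℂ} (hSO : ∀ a ∈ S, IsPR O a)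
    (d : Datum) (hd : AllClosed d) {A : Set ℂ} (hA : A ⊆ RC)
    (h : ∃ (X : Finset ℂ) (ε : ℝ), 0 < ε ∧ ∀ β ∈ Fx (S : Set ℂ), (∀ x ∈ X, ‖β x - x‖ < ε) →
      PerIn A (d.conj β).F (d.conj β).k (d.conj β).w) :
    ∀ σ ∈ Fx (S : Set ℂ), PerIn A (d.conj σ).F (d.conj σ).k (d.conj σ).w := by
  classical
  have hS : #(S : Set ℂ) < 𝔠 := S.finite_toSet.lt_aleph0.trans aleph0_lt_continuum
  obtain ⟨X₀, hX⟩ := sta_perIn d
  obtain ⟨st, hst⟩ : ∃ st : (ℂ ≃+* ℂ) → Prop, ∀ β, st β ↔ ∃ ε > 0, ∀ β' ∈ Fx (S : Set ℂ),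
      (∀ x ∈ X₀, ‖β' x - β x‖ < ε) → PerIn A (d.conj β').F (d.conj β').k (d.conj β').w :=
    ⟨_, fun β => Iff.rfl⟩
  have hdep : ∀ β β' : ℂ ≃+* ℂ, (∀ x ∈ X₀, β x = β' x) → st β → st β' := by
    intro β β' hb h1
    rw [hst] at h1 ⊢
    obtain ⟨ε, hε, h2⟩ := h1
    refine ⟨ε, hε, fun γ hγ hγX => h2 γ hγ fun x hx => ?_⟩
    rw [hb x hx]
    exact hγX x hx
  have hkey : ∀ β₀ ∈ Fx (S : Set ℂ), ∃ ε > 0, ∀ β ∈ Fx (S : Set ℂ),
      (∀ x ∈ X₀, ‖β x - β₀ x‖ < ε) → st β → ∀ β' ∈ Fx (S : Set ℂ),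
      (∀ x ∈ X₀, ‖β' x - β₀ x‖ < ε) → PerIn A (d.conj β').F (d.conj β').k (d.conj β').w := by
    intro β₀ hβ₀
    obtain ⟨X, ε₁, hε₁, H⟩ := loc_rel hS (fun a ha => hSO a (Finset.mem_coe.1 ha)) (d.conj β₀)
      (fun σ => by
        have h1 := hd (β₀.trans σ)
        rw [← Datum.conj_conj] at h1
        exact h1) hA
    obtain ⟨ε, hε, hE⟩ := RSt_ext hS X₀ (X.image β₀.symm) hβ₀ hε₁
    refine ⟨ε, hε, fun β hβ hβX hstβ β' hβ' hβX' => ?_⟩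
    obtain ⟨β₃, h31, h32, h33⟩ := hE β hβ hβX
    obtain ⟨β₄, h41, h42, h43⟩ := hE β' hβ' hβX'
    have hst3 : st β₃ := hdep β β₃ (fun x hx => (h32 x hx).symm) hstβ
    rw [hst] at hst3
    obtain ⟨ε₂, hε₂, h2⟩ := hst3
    have hnr : ∀ γ : ℂ ≃+* ℂ, (∀ y ∈ X.image β₀.symm, ‖γ y - β₀ y‖ < ε₁) →
        ∀ x ∈ X, ‖(β₀.symm.trans γ) x - x‖ < ε₁ := by
      intro γ hγ x hx
      have h3 := hγ (β₀.symm x) (Finset.mem_image_of_mem _ hx)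
      rwa [RingEquiv.apply_symm_apply] at h3
    have h5 := H (β₀.symm.trans β₃) (Fx_trans (Fx_symm hβ₀) h31) (hnr β₃ h33)
      ⟨X₀.image β₀, ε₂, hε₂, fun γ hγ hγX => ?_⟩ (β₀.symm.trans β₄)
      (Fx_trans (Fx_symm hβ₀) h41) (hnr β₄ h43)
    · have h6 : β₀.trans (β₀.symm.trans β₄) = β₄ := by
        ext z
        simp
      rw [Datum.conj_conj, h6] at h5
      exact hX A β₄ β' h42 h5
    · rw [Datum.conj_conj]
      refine h2 _ (Fx_trans hβ₀ hγ) fun x hx => ?_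
      have h6 := hγX (β₀ x) (Finset.mem_image_of_mem _ hx)
      rw [RingEquiv.trans_apply, RingEquiv.symm_apply_apply] at h6
      exact h6
  have hloc : ∀ β₀ ∈ Fx (S : Set ℂ), ∃ ε > 0, ∀ β ∈ Fx (S : Set ℂ),
      (∀ x ∈ X₀, ‖β x - β₀ x‖ < ε) → (st β ↔ st β₀) := by
    intro β₀ hβ₀
    obtain ⟨ε, hε, hk⟩ := hkey β₀ hβ₀
    have h0 : ∀ x ∈ X₀, ‖β₀ x - β₀ x‖ < ε := fun x _ => by
      rw [sub_self, norm_zero]
      exact hε
    have hgo : ∀ β ∈ Fx (S : Set ℂ), (∀ x ∈ X₀, ‖β x - β₀ x‖ < ε) → st β →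
        ∀ γ : ℂ ≃+* ℂ, (∀ x ∈ X₀, ‖γ x - β₀ x‖ < ε) → st γ := by
      intro β hβ hβX hstβ γ hγX
      obtain ⟨ε', hε', h3⟩ : ∃ ε' > 0, ∀ x ∈ X₀, ε' ≤ ε - ‖γ x - β₀ x‖ := by
        obtain ⟨a, ha, h4⟩ := exists_pos_le (fun x : (X₀ : Finset ℂ) =>
          ε - ‖γ x - β₀ x‖) fun x => sub_pos.2 (hγX x x.2)
        exact ⟨a, ha, fun x hx => h4 ⟨x, hx⟩⟩
      rw [hst]
      refine ⟨ε', hε', fun β' hβ' hnear => hk β hβ hβX hstβ β' hβ' fun x hx => ?_⟩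
      have h4 := hnear x hx
      have h5 := h3 x hx
      have h6 : ‖β' x - β₀ x‖ ≤ ‖β' x - γ x‖ + ‖γ x - β₀ x‖ := by
        have h7 : β' x - β₀ x = (β' x - γ x) + (γ x - β₀ x) := by ring
        rw [h7]
        exact norm_add_le _ _
      linarith
    exact ⟨ε, hε, fun β hβ hβX => ⟨fun hs => hgo β hβ hβX hs β₀ h0,
      fun hs => hgo β₀ hβ₀ h0 hs β hβX⟩⟩
  have hrefl : st (RingEquiv.refl ℂ) := by
    obtain ⟨X, ε, hε, hP⟩ := h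
    obtain ⟨ε₀, hε₀, hE⟩ := RSt_ext hS X₀ X (refl_mem_Fx (S : Set ℂ)) hε
    rw [hst]
    refine ⟨ε₀, hε₀, fun β hβ hβX => ?_⟩
    obtain ⟨β₃, h31, h32, h33⟩ := hE β hβ hβX
    exact hX A β₃ β h32 (hP β₃ h31 h33)
  intro σ hσ
  have h1 := connected_rel (X := X₀) (st := st)
    (fun β _ β' _ hb => ⟨hdep β β' hb, hdep β' β fun x hx => (hb x hx).symm⟩) hloc hrefl hσ
  rw [hst] at h1
  obtain ⟨ε, hε, h2⟩ := h1
  refine h2 σ hσ fun x _ => ?_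
  rw [sub_self, norm_zero]
  exact hε

end Pool.Agent.AHE
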