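import Mathlib
import Pool.Agent.AHE.CaImp
import Pool.Agent.AHE.CaDer
import Pool.Agent.AHE.Osg

/-!
# Effectively computable holomorphic functions

`HCA O g b`: `g` is effectively computable at `b` and holomorphic near `b`.

Proofs.  `HCA.comp`: `CA.comp`, composition of differentiable functions (the inner functions are
continuous at `b`: `CA.continuousAt`).  `HCA.near`: `ca_near` and shrinking of balls.
`HCA.snocConst`: composition with `y ↦ sn y s`.  `HCA.dlast`: the derivative in the last variable is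
`fderiv ℂ g v (Pi.single (Fin.last n) 1)`; it is effectively computable by `ca_fderiv_complex` and
holomorphic by `contDiffOn_of_hol` (`ContDiffOn.fderiv_of_isOpen`).  `hca_implicit`: the implicit
function theorem (Mathlib: `HasStrictFDerivAt.to_localInverse`, or `ContDiffAt.implicitFunction...`, see the
use in `Pool/Agent/AHI/Impl.lean`, `Pool/Agent/AHU/Kap.lean` and `Pool/Agent/AHU/Rts.lean`; apply it to
`v ↦ (init v, h v)`, whose derivative at `sn t s` is bijective) gives a continuous `φ` near `t` with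
`φ t = s`, `h (sn y (φ y)) = 0`, differentiable near `t` (at every `y` near `t` the partial derivative of
`h` at `sn y (φ y)` is nonzero, so the theorem applies there too, or `ContDiffAt` version); `φ` is
effectively computable at `t` by `ca_implicit` with `κ = Fin n`, `ι = Unit`,
`G v = h (sn (v ∘ Sum.inl) (v (Sum.inr ())))` (restrict scalars for the real derivative).
-/

namespace Pool.Agent.AHE

open Pool.Agent.EllPR Filter
open scoped Topology ContDiff

variable {O : Set (ℕ → ℕ)}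

/-- append a last coordinate -/
def sn {n : ℕ} (y : Fin n → ℂ) (s : ℂ) : Fin (n + 1) → ℂ := Fin.snoc (α := fun _ => ℂ) y s

/-- forget the last coordinate -/
def ini {n : ℕ} (v : Fin (n + 1) → ℂ) : Fin n → ℂ := fun i => v i.castSucc

theorem sn_castSucc {n : ℕ} (y : Fin n → ℂ) (s : ℂ) (i : Fin n) : sn y s i.castSucc = y i := by
  unfold sn
  rw [Fin.snoc_castSucc]

theorem sn_last {n : ℕ} (y : Fin n → ℂ) (s : ℂ) : sn y s (Fin.last n) = s := by
  unfold sn
  rw [Fin.snoc_last]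

theorem ini_sn {n : ℕ} (y : Fin n → ℂ) (s : ℂ) : ini (sn y s) = y := by
  funext i
  exact sn_castSucc y s i

theorem sn_ini {n : ℕ} (v : Fin (n + 1) → ℂ) : sn (ini v) (v (Fin.last n)) = v := by
  funext i
  refine Fin.lastCases ?_ (fun j => ?_) i
  · rw [sn_last]
  · rw [sn_castSucc]; rfl

/-- effectively computable at `b` and holomorphic near `b` -/
def HCA (O : Set (ℕ → ℕ)) {n : ℕ} (g : (Fin n → ℂ) → ℂ) (b : Fin n → ℂ) : Prop :=
  CA O g b ∧ ∃ r : ℝ, 0 < r ∧ DifferentiableOn ℂ g (Metric.ball b r)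

private theorem Hca_ev {n : ℕ} {g : (Fin n → ℂ) → ℂ} {b : Fin n → ℂ} (hg : HCA O g b) :
    ∀ᶠ x in 𝓝 b, DifferentiableAt ℂ g x := by
  obtain ⟨_, r, hr, h⟩ := hg
  filter_upwards [Metric.ball_mem_nhds b hr] with x hx
  exact (h x hx).differentiableAt (Metric.isOpen_ball.mem_nhds hx)

private theorem Hca_of {n : ℕ} {g : (Fin n → ℂ) → ℂ} {b : Fin n → ℂ} (h1 : CA O g b)
    (h2 : ∀ᶠ x in 𝓝 b, DifferentiableAt ℂ g x) : HCA O g b := by
  obtain ⟨r, hr, h⟩ := Metric.eventually_nhds_iff_ball.1 h2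
  exact ⟨h1, r, hr, fun x hx => (h x hx).differentiableWithinAt⟩

private theorem Hca_cd {n : ℕ} {g : (Fin n → ℂ) → ℂ} {b : Fin n → ℂ} (hg : HCA O g b) :
    ∀ᶠ x in 𝓝 b, ContDiffAt ℂ ∞ g x := by
  obtain ⟨_, r, hr, h⟩ := hg
  have h1 := contDiffOn_of_hol Metric.isOpen_ball h
  filter_upwards [Metric.ball_mem_nhds b hr] with x hx
  exact (h1 x hx).contDiffAt (Metric.isOpen_ball.mem_nhds hx)

theorem HCA.mono {O' : Set (ℕ → ℕ)} (h : O ⊆ O') {n : ℕ} {g : (Fin n → ℂ) → ℂ} {b : Fin n → ℂ}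
    (hg : HCA O g b) : HCA O' g b :=
  ⟨ca_mono h hg.1, hg.2⟩

theorem HCA.comp {n m : ℕ} {g : (Fin m → ℂ) → ℂ} {F : Fin m → (Fin n → ℂ) → ℂ} {b : Fin n → ℂ}
    (hg : HCA O g fun k => F k b) (hF : ∀ k, HCA O (F k) b) :
    HCA O (fun v => g fun k => F k v) b := by
  refine Hca_of (CA.comp hg.1 fun k => (hF k).1) ?_
  have h1 : Tendsto (fun v k => F k v) (𝓝 b) (𝓝 fun k => F k b) :=
    tendsto_pi_nhds.2 fun k => (hF k).1.continuousAt
  have h2 := h1.eventually (Hca_ev hg)
  have h3 : ∀ᶠ x in 𝓝 b, ∀ k, DifferentiableAt ℂ (F k) x := eventually_all.2 fun k => Hca_ev (hF k)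
  filter_upwards [h2, h3] with x h4 h5
  exact DifferentiableAt.comp (f := fun v k => F k v) x h4 (differentiableAt_pi.2 h5)

theorem HCA.near {n : ℕ} {g : (Fin n → ℂ) → ℂ} {b : Fin n → ℂ} (hg : HCA O g b) :
    ∀ᶠ b' in 𝓝 b, HCA O g b' := by
  filter_upwards [ca_near hg.1, eventually_eventually_nhds.2 (Hca_ev hg)] with b' h1 h2
  exact Hca_of h1 h2

theorem HCA.proj {n : ℕ} (k : Fin n) (b : Fin n → ℂ) : HCA O (fun v => v k) b :=
  Hca_of (CA.proj k b) (Eventually.of_forall fun x => differentiableAt_apply k x)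

theorem HCA.const {n : ℕ} {c : ℂ} (hc : IsPR O c) (b : Fin n → ℂ) : HCA O (fun _ => c) b :=
  Hca_of (CA.const hc b) (Eventually.of_forall fun _ => differentiableAt_const c)

theorem HCA.sub {n : ℕ} {f g : (Fin n → ℂ) → ℂ} {b : Fin n → ℂ} (hf : HCA O f b) (hg : HCA O g b) :
    HCA O (fun v => f v - g v) b := by
  refine Hca_of (hf.1.sub hg.1) ?_
  filter_upwards [Hca_ev hf, Hca_ev hg] with x h1 h2
  exact h1.sub h2

theorem HCA.congr {n : ℕ} {f g : (Fin n → ℂ) → ℂ} {b : Fin n → ℂ} (hf : HCA O f b)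
    (h : f =ᶠ[𝓝 b] g) : HCA O g b := by
  refine Hca_of (hf.1.congr' h) ?_
  filter_upwards [Hca_ev hf, eventually_eventually_nhds.2 h] with x h1 h2
  exact h1.congr_of_eventuallyEq (EventuallyEq.symm h2)

theorem HCA.snocConst {n : ℕ} {g : (Fin (n + 1) → ℂ) → ℂ} {t : Fin n → ℂ} {s : ℂ}
    (hg : HCA O g (sn t s)) (hs : IsPR O s) : HCA O (fun y => g (sn y s)) t := by
  refine HCA.comp (g := g) (F := fun k y => sn y s k) hg fun k => ?_
  refine Fin.lastCases ?_ (fun j => ?_) k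
  · simp only [sn_last]
    exact HCA.const hs t
  · simp only [sn_castSucc]
    exact HCA.proj j t

/-- polynomials with coefficients in the field `EF O` -/
theorem HCA.eval {n : ℕ} {P : MvPolynomial (Fin n) ℂ} (hP : ∀ c ∈ P.coeffs, IsPR O c)
    (b : Fin n → ℂ) : HCA O (fun v => MvPolynomial.eval v P) b := by
  refine Hca_of (ca_eval hP (Z := fun l v => v l) fun l => CA.proj l b)
    (Eventually.of_forall fun x => ?_)
  simp only [MvPolynomial.eval_eq']
  fun_prop

private theorem Hca_sn_deriv {n : ℕ} (y : Fin n → ℂ) (s : ℂ) :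
    HasDerivAt (fun s => sn y s) (Pi.single (Fin.last n) (1 : ℂ)) s := by
  rw [hasDerivAt_pi]
  intro i
  refine Fin.lastCases ?_ (fun j => ?_) i
  · simp only [sn_last, Pi.single_eq_same]
    exact hasDerivAt_id' s
  · simp only [sn_castSucc]
    rw [Pi.single_eq_of_ne (Fin.castSucc_lt_last j).ne]
    exact hasDerivAt_const s (y j)

theorem HCA.dlast {n : ℕ} {g : (Fin (n + 1) → ℂ) → ℂ} {b : Fin (n + 1) → ℂ} (hg : HCA O g b) :
    HCA O (fun v => deriv (fun s => g (sn (ini v) s)) (v (Fin.last n))) b := by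
  have h1 := Hca_cd hg
  have h2 : CA O (fun x => fderiv ℂ g x (Pi.single (Fin.last n) (1 : ℂ))) b := by
    refine ca_fderiv_complex hg.1 (h1.self_of_nhds.of_le
      (mod_cast le_top : ((2 : ℕ∞) : WithTop ℕ∞) ≤ ∞)) fun k => ?_
    by_cases hk : k = Fin.last n
    · subst hk
      exact ⟨T.ofNat 1, by rw [T.val_ofNat, Pi.single_eq_same]; norm_num⟩
    · exact ⟨T.ofNat 0, by rw [T.val_ofNat, Pi.single_eq_of_ne hk]; norm_num⟩
  have h3 : HCA O (fun x => fderiv ℂ g x (Pi.single (Fin.last n) (1 : ℂ))) b := by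
    refine Hca_of h2 ?_
    filter_upwards [h1] with x hx
    have h4 : ContDiffAt ℂ 1 (fderiv ℂ g) x := hx.fderiv_right (m := 1) (by norm_cast)
    exact (h4.differentiableAt (by norm_num)).clm_apply (differentiableAt_const _)
  refine h3.congr ?_
  filter_upwards [h1] with x hx
  have h5 : HasFDerivAt g (fderiv ℂ g x) (sn (ini x) (x (Fin.last n))) := by
    rw [sn_ini]
    exact (hx.differentiableAt (by norm_num)).hasFDerivAt
  exact (h5.comp_hasDerivAt (x (Fin.last n)) (Hca_sn_deriv (ini x) (x (Fin.last n)))).deriv.symm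

private theorem Hca_invertible {L : ℂ →L[ℂ] ℂ} (h : ∀ v, L v = 0 → v = 0) : L.IsInvertible := by
  have h0 : (L : ℂ →ₗ[ℂ] ℂ).ker = ⊥ := (LinearMap.ker_eq_bot').2 h
  refine ⟨ContinuousLinearEquiv.ofBijective L h0 ?_, ?_⟩
  · exact LinearMap.ker_eq_bot_iff_range_eq_top.1 h0
  · ext
    rfl

theorem hca_implicit {n : ℕ} {h : (Fin (n + 1) → ℂ) → ℂ} {t : Fin n → ℂ} {s : ℂ}
    (hh : HCA O h (sn t s)) (h0 : h (sn t s) = 0) (h1 : deriv (fun s' => h (sn t s')) s ≠ 0) :
    ∃ φ : (Fin n → ℂ) → ℂ, HCA O φ t ∧ φ t = s := by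
  have hcd : ContDiffAt ℂ 1 h (sn t s) := (Hca_cd hh).self_of_nhds.of_le (by exact_mod_cast le_top)
  have hsn : ContDiff ℂ 1 fun y : (Fin n → ℂ) × ℂ => sn y.1 y.2 := by
    rw [contDiff_pi]
    intro i
    refine Fin.lastCases ?_ (fun j => ?_) i
    · simp only [sn_last]
      exact contDiff_snd
    · simp only [sn_castSucc]
      exact (contDiff_apply ℂ ℂ j).comp contDiff_fst
  set K : (Fin n → ℂ) × ℂ → ℂ := fun y => h (sn y.1 y.2) with hK
  have cdf : ContDiffAt ℂ 1 K (t, s) :=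
    ContDiffAt.comp (f := fun y : (Fin n → ℂ) × ℂ => sn y.1 y.2) (t, s) hcd hsn.contDiffAt
  have pn : (1 : WithTop ℕ∞) ≠ 0 := one_ne_zero
  have hder : HasDerivAt (fun s' => h (sn t s')) (deriv (fun s' => h (sn t s')) s) s := by
    have e1 : HasFDerivAt h (fderiv ℂ h (sn t s)) (sn t s) :=
      (hcd.differentiableAt one_ne_zero).hasFDerivAt
    exact (e1.comp_hasDerivAt s (Hca_sn_deriv t s)).differentiableAt.hasDerivAt
  have hinv : (fderiv ℂ K (t, s) ∘L .inr ℂ (Fin n → ℂ) ℂ).IsInvertible := by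
    have e1 : HasFDerivAt K (fderiv ℂ K (t, s)) (t, s) :=
      (cdf.differentiableAt one_ne_zero).hasFDerivAt
    have e2 : HasFDerivAt (fun y : ℂ => (t, y)) (.inr ℂ (Fin n → ℂ) ℂ) s :=
      hasFDerivAt_prodMk_right t s
    have e3 : HasFDerivAt (fun y : ℂ => K (t, y)) (fderiv ℂ K (t, s) ∘L .inr ℂ (Fin n → ℂ) ℂ) s :=
      HasFDerivAt.comp s e1 e2
    have e5 := e3.hasDerivAt.unique hder
    refine Hca_invertible fun v hv => ?_
    have e6 : (fderiv ℂ K (t, s) ∘L .inr ℂ (Fin n → ℂ) ℂ) v =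
        v * (fderiv ℂ K (t, s) ∘L .inr ℂ (Fin n → ℂ) ℂ) 1 := by
      rw [← smul_eq_mul, ← map_smul, smul_eq_mul, mul_one]
    rw [e6, e5] at hv
    exact (mul_eq_zero.1 hv).resolve_right h1
  have a1 : ∀ᶠ y in 𝓝 t, ContDiffAt ℂ 1 (cdf.implicitFunction pn hinv) y :=
    (cdf.contDiffAt_implicitFunction pn hinv).eventually (by simp)
  have a2 : cdf.implicitFunction pn hinv t = s := cdf.implicitFunction_apply_self pn hinv
  have a3 := cdf.eventually_apply_implicitFunction pn hinv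
  have hK0 : K (t, s) = 0 := h0
  rw [hK0] at a3
  refine ⟨cdf.implicitFunction pn hinv, Hca_of ?_ ?_, a2⟩
  swap
  · filter_upwards [a1] with y hy
    exact hy.differentiableAt one_ne_zero
  set φ := cdf.implicitFunction pn hinv with hφ
  -- the equation with the variables `Fin n ⊕ Unit`
  set G : (Fin n ⊕ Unit → ℂ) → (Unit → ℂ) :=
    fun v _ => h (sn (fun i => v (Sum.inl i)) (v (Sum.inr ()))) with hG
  have hpt : (fun i => (Sum.elim t (fun _ : Unit => φ t) : Fin n ⊕ Unit → ℂ) (Sum.inl i)) = t := rfl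
  have hsn2 : ContDiff ℂ 1 fun v : Fin n ⊕ Unit → ℂ =>
      sn (fun i => v (Sum.inl i)) (v (Sum.inr ())) := by
    rw [contDiff_pi]
    intro i
    refine Fin.lastCases ?_ (fun j => ?_) i
    · simp only [sn_last]
      exact contDiff_apply ℂ ℂ _
    · simp only [sn_castSucc]
      exact contDiff_apply ℂ ℂ _
  have hpt2 : sn (fun i => (Sum.elim t (fun _ : Unit => φ t) : Fin n ⊕ Unit → ℂ) (Sum.inl i))
      ((Sum.elim t (fun _ : Unit => φ t) : Fin n ⊕ Unit → ℂ) (Sum.inr ())) = sn t s := by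
    rw [hpt]
    change sn t (φ t) = sn t s
    rw [a2]
  have hGc : ContDiffAt ℂ 1 G (Sum.elim t (fun _ : Unit => φ t)) := by
    rw [contDiffAt_pi]
    intro k
    refine ContDiffAt.comp (f := fun v : Fin n ⊕ Unit → ℂ =>
      sn (fun i => v (Sum.inl i)) (v (Sum.inr ()))) _ ?_ hsn2.contDiffAt
    rw [hpt2]
    exact hcd
  have hG1 : HasStrictFDerivAt G (fderiv ℂ G (Sum.elim t (fun _ : Unit => φ t)))
      (Sum.elim t (fun _ : Unit => φ t)) := hGc.hasStrictFDerivAt one_ne_zero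
  refine ca_implicit (G := G) (u := fun y _ => φ y) (p0 := t) (fun k => ?_)
    (hG1.restrictScalars ℝ) (fun v hv => ?_) ?_ ?_ ()
  · refine CA.comp (g := h) (F := fun (j : Fin (n + 1)) (v : Fin n ⊕ Unit → ℂ) =>
      sn (fun i => v (Sum.inl i)) (v (Sum.inr ())) j) ?_ fun j => ?_
    · rw [hpt2]
      exact hh.1
    · refine Fin.lastCases ?_ (fun i => ?_) j
      · simp only [sn_last]
        exact CA.proj _ _
      · simp only [sn_castSucc]
        exact CA.proj _ _
  · have b1 : HasDerivAt (fun s' : ℂ => (Sum.elim t (fun _ : Unit => s') : Fin n ⊕ Unit → ℂ))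
        (Sum.elim 0 (fun _ : Unit => (1 : ℂ))) (φ t) := by
      rw [hasDerivAt_pi]
      rintro (i | i)
      · exact hasDerivAt_const _ (t i)
      · exact hasDerivAt_id' _
    have b2 := hG1.hasFDerivAt.comp_hasDerivAt (φ t) b1
    have b3 := (hasDerivAt_pi.1 b2) ()
    have b4 : HasDerivAt (fun s' => h (sn t s'))
        (fderiv ℂ G (Sum.elim t (fun _ : Unit => φ t)) (Sum.elim 0 (fun _ : Unit => (1 : ℂ))) ())
        (φ t) := b3
    rw [a2] at b4
    have b5 := b4.unique hder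
    have b6 : (Sum.elim 0 v : Fin n ⊕ Unit → ℂ) =
        v () • (Sum.elim (0 : Fin n → ℂ) (fun _ : Unit => (1 : ℂ)) : Fin n ⊕ Unit → ℂ) := by
      funext i
      rcases i with i | i
      · simp
      · simp
    have b7 : fderiv ℂ G (Sum.elim t (fun _ : Unit => φ t)) (Sum.elim 0 v) = 0 := hv
    rw [b6, map_smul] at b7
    have b8 := congrFun b7 ()
    rw [Pi.smul_apply, a2, b5, smul_eq_mul, Pi.zero_apply] at b8
    funext i
    exact (mul_eq_zero.1 b8).resolve_right h1
  · exact continuousAt_pi.2 fun _ => a1.self_of_nhds.continuousAt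
  · filter_upwards [a3] with y hy
    funext i
    exact hy

end Pool.Agent.AHE
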