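import Mathlib
import Pool.Agent.AHE.Hca

/-!
# Points which are generic for the effectively computable holomorphic functions

Proofs.

`hca_solve`: the function `s' ↦ g (sn t s')` is holomorphic near `s`, vanishes at `s` and is not
identically zero near `s`, so it has a zero of some order `m ≥ 1` (`AnalyticAt`: some derivative of order
`m ≥ 1` at `s` is nonzero, the lower ones are zero; e.g. `analyticOrderAt`, or Taylor expansion).  Let
`h` be the `(m - 1)`-st derivative of `g` in the last variable (iterate `HCA.dlast`): by induction on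
`j`, `g_j (v) = iteratedDeriv j (fun s => g (sn (ini v) s)) (v last)` satisfies `HCA O g_j (sn t s)`; near
`sn t s` the derivative of `s' ↦ g_j (sn y s')` is `g_(j+1) (sn y s')`.  Apply `hca_implicit` to
`g_(m-1)`.

`Gnr.zero`: induction on `n`.  `n = 0`: `Fin 0 → ℂ` is a point.  Step: let `g` be holomorphic on the ball
of radius `r` around `t` (sup norm, so the ball is the product of the balls around `ini t` and
`t last`) and `g t = 0`; shrink `r` such that `g` is effectively computable on it (`ca_near`).  By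
definition `g (sn (ini t) s) = 0` for `s` near `t last`.  For a Gaussian rational `s = val x` near
`t last` the function `y ↦ g (sn y s)` satisfies `HCA O _ (ini t)` (`HCA.snocConst`, `isPR_val`) and
vanishes at `ini t`; by induction it vanishes near `ini t`, hence on the whole ball of radius `r` around
`ini t` (`zero_on_ball`).  The Gaussian rationals are dense (`T.exists_val_near`) and `g` is continuous on
the ball, so `g = 0` near `t` (for `s` in the small disc where the first step holds).

`zero_on_ball`: for `y` in the ball the function `s ↦ g (t + s (y - t))` is holomorphic on the convex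
(preconnected) open set of the `s` with `t + s (y - t)` in the ball, and vanishes near `0`; so it
vanishes at `s = 1` (`AnalyticOnNhd.eqOn_zero_of_preconnected_of_eventuallyEq_zero`).

`gnr_of_chain`: induction on `n`; let `O'` belong to the last index.  If `HCA O g t`, `g t = 0` and `g` is
not zero in the last variable near `t last`, `hca_solve` (with `sn (ini t) (t last) = t`) gives `φ` with
`HCA O φ (ini t)`, `φ (ini t) = t last`; hence `IsPR O' (t last)` by `CA.isPR` and `ca_mono`.
Contradiction.
-/

namespace Pool.Agent.AHE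

open Pool.Agent.EllPR Filter
open scoped Topology ContDiff

variable {O : Set (ℕ → ℕ)}

private theorem Gnr_norm_sn {n : ℕ} (t y : Fin n → ℂ) (s s' : ℂ) {δ : ℝ} (h1 : ‖y - t‖ < δ)
    (h2 : ‖s' - s‖ < δ) : ‖sn y s' - sn t s‖ < δ := by
  have hδ : 0 < δ := (norm_nonneg _).trans_lt h1
  rw [pi_norm_lt_iff hδ]
  intro i
  refine Fin.lastCases ?_ (fun j => ?_) i
  · rw [Pi.sub_apply, sn_last, sn_last]
    exact h2
  · rw [Pi.sub_apply, sn_castSucc, sn_castSucc]
    exact (norm_le_pi_norm (y - t) j).trans_lt h1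

private theorem Gnr_diff_sn {n : ℕ} (t : Fin n → ℂ) : Differentiable ℂ fun s : ℂ => sn t s := by
  rw [differentiable_pi]
  intro i
  refine Fin.lastCases ?_ (fun j => ?_) i
  · simp only [sn_last]
    exact differentiable_id
  · simp only [sn_castSucc]
    exact differentiable_const _

private theorem Gnr_diff_sn' {n : ℕ} (s : ℂ) : Differentiable ℂ fun y : Fin n → ℂ => sn y s := by
  rw [differentiable_pi]
  intro i
  refine Fin.lastCases ?_ (fun j => ?_) i
  · simp only [sn_last]
    exact differentiable_const _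
  · simp only [sn_castSucc]
    exact differentiable_apply j

/-- successive derivatives in the last variable -/
private noncomputable def Gnr_it {n : ℕ} (g : (Fin (n + 1) → ℂ) → ℂ) : ℕ → (Fin (n + 1) → ℂ) → ℂ
  | 0 => g
  | j + 1 => fun v => deriv (fun s => Gnr_it g j (sn (ini v) s)) (v (Fin.last n))

private theorem Gnr_it_hca {n : ℕ} {g : (Fin (n + 1) → ℂ) → ℂ} {b : Fin (n + 1) → ℂ} (hg : HCA O g b)
    (j : ℕ) : HCA O (Gnr_it g j) b := by
  induction j with
  | zero => exact hg
  | succ j ih => exact ih.dlast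

private theorem Gnr_it_eq {n : ℕ} (g : (Fin (n + 1) → ℂ) → ℂ) (t : Fin n → ℂ) (j : ℕ) :
    iteratedDeriv j (fun s => g (sn t s)) = fun s => Gnr_it g j (sn t s) := by
  induction j with
  | zero => exact iteratedDeriv_zero
  | succ j ih =>
    rw [iteratedDeriv_succ, ih]
    funext s
    change _ = deriv (fun s' => Gnr_it g j (sn (ini (sn t s)) s')) ((sn t s) (Fin.last n))
    rw [ini_sn, sn_last]

theorem hca_solve {n : ℕ} {g : (Fin (n + 1) → ℂ) → ℂ} {t : Fin n → ℂ} {s : ℂ}
    (hg : HCA O g (sn t s)) (h0 : g (sn t s) = 0)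
    (hne : ¬ ∀ᶠ s' in 𝓝 s, g (sn t s') = 0) : ∃ φ : (Fin n → ℂ) → ℂ, HCA O φ t ∧ φ t = s := by
  classical
  obtain ⟨r, hr, hd⟩ := hg.2
  have hA : AnalyticAt ℂ (fun s' => g (sn t s')) s := by
    have h1 : DifferentiableOn ℂ (fun s' => g (sn t s')) (Metric.ball s r) := by
      refine hd.comp (Gnr_diff_sn t).differentiableOn fun s' hs' => ?_
      rw [Metric.mem_ball, dist_eq_norm] at hs' ⊢
      exact Gnr_norm_sn t t s s' (by rw [sub_self, norm_zero]; exact hr) hs'
    exact h1.analyticAt (Metric.ball_mem_nhds s hr)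
  -- some derivative does not vanish
  have hex : ∃ m, iteratedDeriv m (fun s' => g (sn t s')) s ≠ 0 := by
    by_contra hc
    push Not at hc
    apply hne
    rw [← analyticOrderAt_eq_top]
    rw [ENat.eq_top_iff_forall_ge]
    intro m
    exact (natCast_le_analyticOrderAt_iff_iteratedDeriv_eq_zero hA).2 fun i _ => hc i
  obtain ⟨m, hm, hmin⟩ : ∃ m, iteratedDeriv m (fun s' => g (sn t s')) s ≠ 0 ∧
      ∀ k < m, iteratedDeriv k (fun s' => g (sn t s')) s = 0 :=
    ⟨Nat.find hex, Nat.find_spec hex, fun k hk => by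
      have := Nat.find_min hex hk
      push Not at this
      exact this⟩
  have hm0 : m ≠ 0 := by
    rintro rfl
    rw [iteratedDeriv_zero] at hm
    exact hm h0
  obtain ⟨k, rfl⟩ : ∃ k, m = k + 1 := ⟨m - 1, by omega⟩
  refine hca_implicit (Gnr_it_hca hg k) ?_ ?_
  · have h1 := hmin k (Nat.lt_succ_self k)
    rw [Gnr_it_eq] at h1
    exact h1
  · rw [iteratedDeriv_succ, Gnr_it_eq] at hm
    exact hm

theorem zero_on_ball {n : ℕ} {g : (Fin n → ℂ) → ℂ} {t : Fin n → ℂ} {r : ℝ}
    (hg : DifferentiableOn ℂ g (Metric.ball t r)) (h0 : ∀ᶠ y in 𝓝 t, g y = 0) :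
    ∀ y ∈ Metric.ball t r, g y = 0 := by
  intro y hy
  set L : ℂ → (Fin n → ℂ) := fun s => t + s • (y - t) with hL
  have hLd : Differentiable ℂ L := by
    rw [hL]
    exact (differentiable_const _).add (differentiable_id.smul_const _)
  set U : Set ℂ := L ⁻¹' Metric.ball t r with hU
  have hUo : IsOpen U := Metric.isOpen_ball.preimage hLd.continuous
  have hmem : ∀ s, s ∈ U ↔ ‖s‖ * ‖y - t‖ < r := by
    intro s
    rw [hU, Set.mem_preimage, Metric.mem_ball, dist_eq_norm, hL]
    simp only [add_sub_cancel_left, norm_smul]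
  have hUc : IsPreconnected U := by
    apply Convex.isPreconnected
    intro a ha b hb c d hc hd hcd
    rw [hmem] at ha hb ⊢
    have h1 : ‖c • a + d • b‖ ≤ c * ‖a‖ + d * ‖b‖ := by
      refine (norm_add_le _ _).trans ?_
      rw [norm_smul, norm_smul, Real.norm_of_nonneg hc, Real.norm_of_nonneg hd]
    have h2 := mul_le_mul_of_nonneg_right h1 (norm_nonneg (y - t))
    have h3 : (c * ‖a‖ + d * ‖b‖) * ‖y - t‖ = c * (‖a‖ * ‖y - t‖) + d * (‖b‖ * ‖y - t‖) := by ring
    rw [h3] at h2
    refine h2.trans_lt ?_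
    rcases hc.lt_or_eq with h | h
    · have e1 := mul_lt_mul_of_pos_left ha h
      have e2 := mul_le_mul_of_nonneg_left hb.le hd
      have e3 : c * r + d * r = r := by rw [← add_mul, hcd, one_mul]
      linarith
    · rw [← h] at hcd ⊢
      have hd1 : d = 1 := by linarith
      rw [hd1]
      linarith
  have hf : AnalyticOnNhd ℂ (fun s => g (L s)) U := by
    refine DifferentiableOn.analyticOnNhd ?_ hUo
    exact hg.comp hLd.differentiableOn fun s hs => hs
  have hz : (0 : ℂ) ∈ U := by
    rw [hmem, norm_zero, zero_mul]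
    rw [Metric.mem_ball] at hy
    exact dist_nonneg.trans_lt hy
  have h1 : (1 : ℂ) ∈ U := by
    rw [hmem, norm_one, one_mul, ← dist_eq_norm]
    exact hy
  have h2 : (fun s => g (L s)) =ᶠ[𝓝 0] 0 := by
    have h3 : Tendsto L (𝓝 0) (𝓝 t) := by
      have := hLd.continuous.tendsto 0
      simpa [hL] using this
    exact h3.eventually h0
  have h3 := hf.eqOn_zero_of_preconnected_of_eventuallyEq_zero hUc hz h2 h1
  simpa [hL] using h3

/-- `t` is generic for the effectively computable holomorphic functions: if such a function vanishes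
at the first `i + 1` coordinates of `t`, then it vanishes in the direction of the last of them -/
def Gnr (O : Set (ℕ → ℕ)) : ∀ n : ℕ, (Fin n → ℂ) → Prop
  | 0, _ => True
  | n + 1, t => Gnr O n (ini t) ∧ ∀ g : (Fin (n + 1) → ℂ) → ℂ, HCA O g t → g t = 0 →
      ∀ᶠ s in 𝓝 (t (Fin.last n)), g (sn (ini t) s) = 0

theorem Gnr.zero {n : ℕ} {t : Fin n → ℂ} (ht : Gnr O n t) {g : (Fin n → ℂ) → ℂ} (hg : HCA O g t)
    (h0 : g t = 0) : ∀ᶠ y in 𝓝 t, g y = 0 := by
  induction n with
  | zero =>
    refine Eventually.of_forall fun y => ?_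
    rw [Subsingleton.elim y t]
    exact h0
  | succ n ih =>
    obtain ⟨ht1, ht2⟩ := ht
    obtain ⟨r, hr, hd⟩ := hg.2
    have hsn : Tendsto (fun s => sn (ini t) s) (𝓝 (t (Fin.last n))) (𝓝 t) := by
      have h1 := (Gnr_diff_sn (ini t)).continuous.tendsto (t (Fin.last n))
      rwa [sn_ini] at h1
    have hev := (ht2 g hg h0).and (hsn.eventually hg.near)
    obtain ⟨δ, hδ, hδ1⟩ := Metric.eventually_nhds_iff.1 hev
    set ε := min δ r with hε
    have hε0 : 0 < ε := lt_min hδ hr
    -- Gaussian rational last coordinates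
    have key : ∀ x : T, ‖val x - t (Fin.last n)‖ < ε → ∀ y ∈ Metric.ball (ini t) r,
        g (sn y (val x)) = 0 := by
      intro x hx
      have hx1 := hδ1 (y := val x) (by rw [dist_eq_norm]; exact hx.trans_le (min_le_left _ _))
      have h2 : HCA O (fun y => g (sn y (val x))) (ini t) := hx1.2.snocConst (isPR_val x)
      have h3 := ih ht1 h2 hx1.1
      refine zero_on_ball (g := fun y => g (sn y (val x))) ?_ h3
      refine hd.comp (Gnr_diff_sn' (val x)).differentiableOn fun y hy => ?_
      rw [Metric.mem_ball, dist_eq_norm] at hy ⊢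
      have h4 := Gnr_norm_sn (ini t) y (t (Fin.last n)) (val x) hy (hx.trans_le (min_le_right _ _))
      rwa [sn_ini] at h4
    filter_upwards [Metric.ball_mem_nhds t hε0] with v hv
    rw [Metric.mem_ball, dist_eq_norm] at hv
    have hv1 : ‖ini v - ini t‖ < ε := by
      rw [pi_norm_lt_iff hε0]
      intro i
      exact (norm_le_pi_norm (v - t) i.castSucc).trans_lt hv
    have hv2 : ‖v (Fin.last n) - t (Fin.last n)‖ < ε :=
      (norm_le_pi_norm (v - t) (Fin.last n)).trans_lt hv
    -- continuity in the last coordinate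
    by_contra hne
    have hc : ContinuousAt (fun s => g (sn (ini v) s)) (v (Fin.last n)) := by
      have h1 : ContinuousAt g (sn (ini v) (v (Fin.last n))) := by
        rw [sn_ini]
        refine (hd.differentiableAt (Metric.isOpen_ball.mem_nhds ?_)).continuousAt
        rw [Metric.mem_ball, dist_eq_norm]
        exact hv.trans_le (min_le_right _ _)
      exact ContinuousAt.comp (f := fun s => sn (ini v) s) h1 (Gnr_diff_sn (ini v)).continuous.continuousAt
    have hne' : g (sn (ini v) (v (Fin.last n))) ≠ 0 := by rwa [sn_ini]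
    have hev2 := (hc.eventually_ne hne').and
      (Metric.ball_mem_nhds (v (Fin.last n)) (sub_pos.2 hv2))
    obtain ⟨ρ, hρ, hρ1⟩ := Metric.eventually_nhds_iff.1 hev2
    obtain ⟨x, hx⟩ := T.exists_val_near (v (Fin.last n)) hρ
    have hx1 := hρ1 (y := val x) (by rw [dist_eq_norm]; exact hx)
    apply hx1.1
    refine key x ?_ (ini v) ?_
    · have h4 : ‖val x - v (Fin.last n)‖ < ε - ‖v (Fin.last n) - t (Fin.last n)‖ := by
        have := hx1.2
        rwa [dist_eq_norm] at this
      have h5 : val x - t (Fin.last n) = (val x - v (Fin.last n)) + (v (Fin.last n) - t (Fin.last n)) := by ring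
      rw [h5]
      refine (norm_add_le _ _).trans_lt ?_
      linarith
    · rw [Metric.mem_ball, dist_eq_norm]
      exact hv1.trans_le (min_le_right _ _)

theorem gnr_of_chain {n : ℕ} {t : Fin n → ℂ}
    (h : ∀ i, ∃ O' : Set (ℕ → ℕ), O ⊆ O' ∧ (∀ j < i, IsPR O' (t j)) ∧ ¬ IsPR O' (t i)) :
    Gnr O n t := by
  induction n with
  | zero => trivial
  | succ n ih =>
    refine ⟨ih fun i => ?_, fun g hg h0 => ?_⟩
    · obtain ⟨O', h1, h2, h3⟩ := h i.castSucc
      exact ⟨O', h1, fun j hj => h2 j.castSucc (Fin.castSucc_lt_castSucc_iff.2 hj), h3⟩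
    · by_contra hc
      obtain ⟨O', h1, h2, h3⟩ := h (Fin.last n)
      obtain ⟨φ, hφ, hφt⟩ := hca_solve (t := ini t) (s := t (Fin.last n)) (g := g) (O := O)
        (by rwa [sn_ini]) (by rwa [sn_ini]) hc
      apply h3
      rw [← hφt]
      exact (ca_mono h1 hφ.1).isPR fun k => h2 k.castSucc (Fin.castSucc_lt_last k)

end Pool.Agent.AHE
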