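import Mathlib
import Pool.Agent.AHE.PCo
import Pool.Agent.AHE.Gnr
import Pool.Agent.AHE.CaInt
import Pool.Agent.AHT.Fin

/-!
# The periods near a class whose coefficients are generic relative to the primitive recursive
numbers

`perIn_dep`.  Proof: the coefficients of the equations and of the forms in degree `p + q = 2 k`; as `sta_perIn` in
`AHU/Sta.lean` (copy the proof; `exists_coeffs`), the finite set can be chosen in `L` (compare `Fin_dep` in
`AHT/Fin.lean`).

`near_rational`.  Proof.  `chart` (`AHT/Chr.lean`) for `S`, `x`, `Z` and `U = univ` gives `r₀, η₀, φ₀`: every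
`β ∈ Fx S` with `β ∘ x = x` and `‖β z - z‖ < η₀` on `Z` fixes `Z` pointwise (`res Z β = φ₀ x = res Z refl`).

`X ⊇ Z` from `pco` with `Y := Z` (`hcl` is `hd`).  `exists_basis (S ∪ range x) X.finite_toSet` gives
`v : Fin m → ℂ` with `SeqInd (S ∪ range x) v`, `X ⊆ cl (S ∪ range x ∪ range v)`; `t = Fin.append x v`,
`SeqInd S t` (`seqInd_append`).  `pco` for `t` and `η₀`: `r, η`.  The result holds for the finite set
`X ∪ {t i}` and `ε = min r η`.  Let `β ∈ Fx S` be near, `W` a period function for `β` (`hd`), and `z` a cycle: `G`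
as in `pco` for `β₂ := β`.  Let `C = {(2πi)^k q | q ∈ ℚ}`, a countable set.

(1) If `v' : Fin m → ℂ`, `Fin.append x v' ∈ ball t r` and `SeqInd S (Fin.append x v')` then
`G (Fin.append x v') ∈ C`: there is `β' ∈ Fx S` with `β' ∘ t = Fin.append x v'`, `‖β' y - y‖ < η ≤ η₀` on `X ⊇ Z`; it
fixes `x` and so `Z` pointwise; by `hdep` and `h` `PerIn QC` holds for `d.conj β'`; now the last property in `pco`.

(2) `G (Fin.append x v') = G t =: c ∈ C` for all `v' ∈ ball v r`: let `R > 0` and `u = v' - v` with `R > 1` and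
`v + s u ∈ ball v r` for `|s| < R` (`R = r / ‖u‖`; nothing to do if `u = 0`); the function
`s ↦ G (Fin.append x (v + s u))` is holomorphic on `ball 0 R` and has values in `C` except for `s` in a set of
cardinality `< 𝔠` (`mk_not_seqInd hS` for `t` and `Fin.append 0 u`): `const_of_small`.  `c ∈ C` by (1) with `v' = v`.

(3) For `ρ : Fin m → ℂ` with coordinates Gaussian rational (`val` of codes) and `ρ ∈ ball v r`, the function
`g y = G (Fin.append y ρ) - c` of `y ∈ ball x r` is `HCA O` at `x`: `CA.comp` with projections and constants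
(`isPR_val`), `CA.sub`, `c` is primitive recursive relative to `O` (`isPR_pi`, `IsPR.I`, `IsPR.ratCast`, powers and
products).  `g x = 0` by (2).  So `g = 0` near `x` (`Gnr.zero`) and on `ball x r` (`zero_on_ball`).

(4) So `G (Fin.append y ρ) = c` for all `y ∈ ball x r` and a dense set of `ρ ∈ ball v r` (`T.exists_val_near`); by
continuity `G = c` on `ball t r` (sup norm: `Fin.append y v' ∈ ball t r` iff `y ∈ ball x r` and `v' ∈ ball v r`), so
`evc W z = G (β ∘ t) = c ∈ C`.
-/

namespace Pool.Agent.AHE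

open MvPolynomial Pool.Agent.AHC Pool.Agent.AHI Pool.Agent.AHR Pool.Agent.AHU Pool.Agent.AHT
  Pool.Agent.EllPR Filter Cardinal
open scoped ContDiff Topology LinearAlgebra.Projectivization

theorem perIn_dep {d : Datum} {L : Set ℂ} (h : IsDefinedOver d L) : ∃ Z : Finset ℂ,
    (Z : Set ℂ) ⊆ L ∧ ∀ (A : Set ℂ) (σ τ : ℂ ≃+* ℂ), (∀ z ∈ Z, σ z = τ z) →
      PerIn A (d.conj σ).F (d.conj σ).k (d.conj σ).w →
        PerIn A (d.conj τ).F (d.conj τ).k (d.conj τ).w := by
  classical
  obtain ⟨A2, hA2⟩ := exists_coeffs d.k d.w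
  refine ⟨(A2 ∪ Finset.univ.biUnion fun i => (d.F i).coeffs).filter (· ∈ L), fun x hx => ?_, ?_⟩
  · exact (Finset.mem_filter.1 (Finset.mem_coe.1 hx)).2
  intro A σ τ h0 hP
  have hm : ∀ c, c ∈ L → c ∈ A2 ∨ (∃ i, c ∈ (d.F i).coeffs) → σ c = τ c := by
    intro c hc hc'
    refine h0 c (Finset.mem_filter.2 ⟨?_, hc⟩)
    rcases hc' with hc' | ⟨i, hi⟩
    · exact Finset.mem_union_left _ hc'
    · exact Finset.mem_union_right _ (Finset.mem_biUnion.2 ⟨i, Finset.mem_univ _, hi⟩)
  have h1 : conjEqs σ d.F = conjEqs τ d.F := by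
    funext i
    exact map_congr_coeffs fun c hc => hm c (h.1 i c hc) (Or.inr ⟨i, hc⟩)
  have h2 : ∀ p q, p + q = 2 * d.k → ∀ I, d.w.conj σ p q I = d.w.conj τ p q I := by
    intro p q hpq I
    simp only [FormCochain.conj]
    refine List.map_congr_left fun y hy => ?_
    have h3 : y.1.conj σ = y.1.conj τ := by
      simp only [RatFun.conj]
      rw [map_congr_coeffs fun c hc =>
        hm c ((h.2 p q hpq I y hy).1 c hc) (Or.inl ((hA2 p q hpq I y hy).1 hc))]
    have h4 : ∀ b, (y.2 b).conj σ = (y.2 b).conj τ := by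
      intro b
      simp only [RatFun.conj]
      rw [map_congr_coeffs fun c hc =>
        hm c ((h.2 p q hpq I y hy).2 b c hc) (Or.inl ((hA2 p q hpq I y hy).2 b hc))]
    rw [h3]
    simp only [h4]
  change PerIn A (conjEqs τ d.F) d.k (d.w.conj τ)
  have hP' : PerIn A (conjEqs σ d.F) d.k (d.w.conj σ) := hP
  rw [h1] at hP'
  obtain ⟨W, hW, hr⟩ := hP'
  refine ⟨W, ⟨fun x hx v hv => ?_, hW.bd⟩, hr⟩
  rw [← h2 x.1 x.2.1 hx]
  exact hW.int x hx v hv

private theorem XCore_mem_ball {n m : ℕ} {x y : Fin n → ℂ} {v v' : Fin m → ℂ} {r : ℝ} (hr : 0 < r)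
    (hy : y ∈ Metric.ball x r) (hv : v' ∈ Metric.ball v r) :
    Fin.append y v' ∈ Metric.ball (Fin.append x v) r := by
  rw [Metric.mem_ball, dist_pi_lt_iff hr] at hy hv ⊢
  intro i
  induction i using Fin.addCases with
  | left i =>
    rw [Fin.append_left, Fin.append_left]
    exact hy i
  | right i =>
    rw [Fin.append_right, Fin.append_right]
    exact hv i

private theorem XCore_diff_left {n m : ℕ} (v : Fin m → ℂ) :
    Differentiable ℂ fun y : Fin n → ℂ => (Fin.append y v : Fin (n + m) → ℂ) := by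
  rw [differentiable_pi]
  intro i
  induction i using Fin.addCases with
  | left i =>
    simp only [Fin.append_left]
    exact differentiable_apply i
  | right i =>
    simp only [Fin.append_right]
    exact differentiable_const _

private theorem XCore_diff_right {n m : ℕ} (x : Fin n → ℂ) :
    Differentiable ℂ fun v : Fin m → ℂ => (Fin.append x v : Fin (n + m) → ℂ) := by
  rw [differentiable_pi]
  intro i
  induction i using Fin.addCases with
  | left i =>
    simp only [Fin.append_left]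
    exact differentiable_const _
  | right i =>
    simp only [Fin.append_right]
    exact differentiable_apply i

private theorem XCore_hca {O : Set (ℕ → ℕ)} {n m : ℕ} {G : (Fin (n + m) → ℂ) → ℂ} {x : Fin n → ℂ}
    {v : Fin m → ℂ} {r : ℝ} (hr : 0 < r)
    (hGd : DifferentiableOn ℂ G (Metric.ball (Fin.append x v) r))
    (hG : ∀ y ∈ Metric.ball (Fin.append x v) r, CA O G y) {ρ : Fin m → ℂ}
    (hρ : ρ ∈ Metric.ball v r) (hρO : ∀ j, IsPR O (ρ j)) {c : ℂ} (hc : IsPR O c) :
    HCA O (fun y => G (Fin.append y ρ) - c) x := by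
  refine HCA.sub ?_ (HCA.const hc x)
  have hmem : Fin.append x ρ ∈ Metric.ball (Fin.append x v) r :=
    XCore_mem_ball hr (Metric.mem_ball_self hr) hρ
  obtain ⟨s, hs, hs'⟩ := Metric.isOpen_iff.1 Metric.isOpen_ball _ hmem
  have h1 : HCA O G (Fin.append x ρ) := ⟨hG _ hmem, s, hs, hGd.mono hs'⟩
  have h2 := HCA.comp (O := O) (g := G) (b := x)
    (F := fun (k : Fin (n + m)) (y : Fin n → ℂ) => (Fin.append y ρ : Fin (n + m) → ℂ) k) h1
    (fun k => by
      induction k using Fin.addCases with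
      | left i =>
        simp only [Fin.append_left]
        exact HCA.proj i x
      | right i =>
        simp only [Fin.append_right]
        exact HCA.const (hρO i) x)
  exact h2

private theorem XCore_const {O : Set (ℕ → ℕ)} {n m : ℕ} {G : (Fin (n + m) → ℂ) → ℂ} {x : Fin n → ℂ}
    (hx : Gnr O n x) {v : Fin m → ℂ} {r : ℝ} (hr : 0 < r)
    (hGd : DifferentiableOn ℂ G (Metric.ball (Fin.append x v) r))
    (hG : ∀ y ∈ Metric.ball (Fin.append x v) r, CA O G y) {c : ℂ} (hc : IsPR O c)
    (h2 : ∀ v' ∈ Metric.ball v r, G (Fin.append x v') = c) :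
    ∀ y ∈ Metric.ball x r, ∀ v' ∈ Metric.ball v r, G (Fin.append y v') = c := by
  -- Gaussian rational points
  have h3 : ∀ ρ ∈ Metric.ball v r, (∀ j, IsPR O (ρ j)) → ∀ y ∈ Metric.ball x r,
      G (Fin.append y ρ) = c := by
    intro ρ hρ hρO y hy
    have h4 : HCA O (fun y => G (Fin.append y ρ) - c) x := XCore_hca hr hGd hG hρ hρO hc
    have h5 := hx.zero h4 (by rw [h2 ρ hρ, sub_self])
    have h6 : DifferentiableOn ℂ (fun y => G (Fin.append y ρ) - c) (Metric.ball x r) := by
      refine DifferentiableOn.sub ?_ (differentiableOn_const _)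
      refine hGd.comp (XCore_diff_left ρ).differentiableOn fun y' hy' => ?_
      exact XCore_mem_ball hr hy' hρ
    exact sub_eq_zero.1 (zero_on_ball h6 h5 y hy)
  intro y hy v' hv'
  by_contra hne
  have hcont : ContinuousAt (fun w : Fin m → ℂ => G (Fin.append y w)) v' := by
    have h7 : DifferentiableOn ℂ (fun w : Fin m → ℂ => G (Fin.append y w)) (Metric.ball v r) := by
      refine hGd.comp (XCore_diff_right y).differentiableOn fun w hw => ?_
      exact XCore_mem_ball hr hy hw
    exact h7.continuousOn.continuousAt (Metric.isOpen_ball.mem_nhds hv')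
  have hev := (hcont.eventually_ne hne).and (Metric.isOpen_ball.mem_nhds hv')
  obtain ⟨δ, hδ, hδ'⟩ := Metric.eventually_nhds_iff.1 hev
  choose q hq using fun j => T.exists_val_near (v' j) hδ
  have h8 : dist (fun j => val (q j)) v' < δ := by
    rw [dist_pi_lt_iff hδ]
    intro j
    rw [dist_eq_norm]
    exact hq j
  obtain ⟨h9, h10⟩ := hδ' h8
  exact h9 (h3 _ h10 (fun j => isPR_val (q j)) y hy)

theorem near_rational {O : Set (ℕ → ℕ)} {S : Set ℂ} (hS : #S < 𝔠) (hSO : ∀ a ∈ S, IsPR O a)
    {n : ℕ} {x : Fin n → ℂ} (hx : Gnr O n x) (hxS : SeqInd S x) (d : Datum) (hd : AllClosed d)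
    {Z : Finset ℂ} (hZ : (Z : Set ℂ) ⊆ cl (S ∪ Set.range x))
    (hdep : ∀ (A : Set ℂ) (σ τ : ℂ ≃+* ℂ), (∀ z ∈ Z, σ z = τ z) →
      PerIn A (d.conj σ).F (d.conj σ).k (d.conj σ).w →
        PerIn A (d.conj τ).F (d.conj τ).k (d.conj τ).w)
    (h : PerIn QC d.F d.k d.w) :
    ∃ (X : Finset ℂ) (ε : ℝ), 0 < ε ∧ ∀ β ∈ Fx S, (∀ y ∈ X, ‖β y - y‖ < ε) →
      PerIn QC (d.conj β).F (d.conj β).k (d.conj β).w := by
  classical
  obtain ⟨r₀, η₀, φ₀, hr₀, hη₀, -, -, hφ₀, -⟩ := chart hxS Z hZ (U := Set.univ) univ_mem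
  obtain ⟨X, hZX, hX⟩ := pco hS hSO d.smooth d.hodge hd Z
  obtain ⟨m, v, hv1, -, hv3⟩ := exists_basis (S ∪ Set.range x) X.finite_toSet
  have ht : SeqInd S (Fin.append x v) := seqInd_append hxS hv1
  have hXt : (X : Set ℂ) ⊆ cl (S ∪ Set.range (Fin.append x v)) := by
    intro y hy
    refine cl_mono ?_ (hv3 hy)
    rintro z ((hz | ⟨i, rfl⟩) | ⟨j, rfl⟩)
    · exact Or.inl hz
    · exact Or.inr ⟨Fin.castAdd m i, Fin.append_left _ _ _⟩
    · exact Or.inr ⟨Fin.natAdd n j, Fin.append_right _ _ _⟩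
  obtain ⟨r, η, hr, hη, hηη₀, h1, h2⟩ := hX (Fin.append x v) ht hXt η₀ hη₀
  refine ⟨X ∪ Finset.univ.image (Fin.append x v), min r η, lt_min hr hη, fun β hβ hnear => ?_⟩
  have hβX : ∀ y ∈ X, ‖β y - y‖ < η := fun y hy =>
    (hnear y (Finset.mem_union_left _ hy)).trans_le (min_le_right _ _)
  have hβt : ∀ i, ‖β (Fin.append x v i) - Fin.append x v i‖ < r := fun i =>
    (hnear _ (Finset.mem_union_right _ (Finset.mem_image_of_mem _ (Finset.mem_univ i)))).trans_le
      (min_le_left _ _)
  have hβb : (fun i => β (Fin.append x v i)) ∈ Metric.ball (Fin.append x v) r := by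
    rw [Metric.mem_ball, dist_pi_lt_iff hr]
    intro i
    rw [dist_eq_norm]
    exact hβt i
  obtain ⟨W, hW⟩ := hd β
  refine ⟨W, hW, fun z hz => ?_⟩
  obtain ⟨G, hGd, hGC, hGβ, hG⟩ := h2 β hβ hβb hβX W hW z hz
  -- the countable set of the possible values
  let C : Set ℂ := (fun a : ℂ => (2 * Real.pi * Complex.I) ^ d.k * a) '' QC
  have hCc : C.Countable := (Set.countable_range _).image _
  have hCpr : ∀ c ∈ C, IsPR O c := by
    rintro _ ⟨_, ⟨q, rfl⟩, rfl⟩
    rw [← mem_EF]
    have e1 : (2 : ℂ) ∈ EF O := by simp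
    exact (EF O).mul_mem ((EF O).pow_mem ((EF O).mul_mem ((EF O).mul_mem e1 (mem_EF.2 (isPR_pi O)))
      (mem_EF.2 IsPR.I)) _) (mem_EF.2 (IsPR.ratCast q))
  -- (1)
  have s1 : ∀ v' : Fin m → ℂ, Fin.append x v' ∈ Metric.ball (Fin.append x v) r →
      SeqInd S (Fin.append x v') → G (Fin.append x v') ∈ C := by
    intro v' hv' hind
    obtain ⟨β', hβ'S, hβ't, hβ'X⟩ := h1 _ hv' hind
    have e1 : ∀ i, β' (x i) = x i := by
      intro i
      have := hβ't (Fin.castAdd m i)
      rwa [Fin.append_left, Fin.append_left] at this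
    have e2 : (fun i => β' (Fin.append x v i)) = Fin.append x v' := funext hβ't
    have e3 : res Z β' = res Z (RingEquiv.refl ℂ) := by
      rw [hφ₀ β' hβ'S (by
        have : (fun i => β' (x i)) = x := funext e1
        rw [this]
        exact Metric.mem_ball_self hr₀) fun y hy => (hβ'X y (hZX hy)).trans_le hηη₀]
      rw [hφ₀ (RingEquiv.refl ℂ) (refl_mem_Fx S) (by
        change x ∈ _
        exact Metric.mem_ball_self hr₀) fun y _ => by simpa using hη₀]
      congr 1
      funext i
      exact e1 i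
    have e4 : ∀ y ∈ Z, (RingEquiv.refl ℂ) y = β' y := fun y hy =>
      (congrFun e3 ⟨y, hy⟩).symm
    have e5 := hdep QC (RingEquiv.refl ℂ) β' e4 (by rw [Datum.conj_refl]; exact h)
    obtain ⟨W', hW', hP⟩ := e5
    obtain ⟨z', hz', hz''⟩ := hG β' hβ'S (by rw [e2]; exact hv') hβ'X
    obtain ⟨a, ha, ha'⟩ := hP z' hz'
    refine ⟨a, ha, ?_⟩
    have e6 := hz'' W' hW'
    rw [e2] at e6
    exact ha'.symm.trans e6
  -- the value at the point
  have hcC : G (Fin.append x v) ∈ C := s1 v (Metric.mem_ball_self hr) ht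
  -- (2)
  have s2 : ∀ v' ∈ Metric.ball v r, G (Fin.append x v') = G (Fin.append x v) := by
    intro v' hv'
    have hu : ‖v' - v‖ < r := by rwa [Metric.mem_ball, dist_eq_norm] at hv'
    obtain ⟨R, hR1, hR2⟩ : ∃ R : ℝ, 1 < R ∧ R * ‖v' - v‖ < r := by
      refine ⟨1 + (r - ‖v' - v‖) / (2 * r), ?_, ?_⟩
      · have : 0 < (r - ‖v' - v‖) / (2 * r) := div_pos (by linarith) (by linarith)
        linarith
      · have e1 : (r - ‖v' - v‖) / (2 * r) * ‖v' - v‖ ≤ (r - ‖v' - v‖) / 2 := by
          rw [div_mul_eq_mul_div, div_le_iff₀ (by linarith)]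
          have : (r - ‖v' - v‖) * ‖v' - v‖ ≤ (r - ‖v' - v‖) * r :=
            mul_le_mul_of_nonneg_left hu.le (by linarith)
          linarith
        linarith
    let u : Fin (n + m) → ℂ := Fin.append (0 : Fin n → ℂ) (v' - v)
    have hline : ∀ s : ℂ, (fun i => Fin.append x v i + s * u i) =
        Fin.append x (v + s • (v' - v)) := by
      intro s
      funext i
      induction i using Fin.addCases with
      | left i => simp [u]
      | right i => simp [u]
    have hball : ∀ s ∈ Metric.ball (0 : ℂ) R, v + s • (v' - v) ∈ Metric.ball v r := by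
      intro s hs
      rw [mem_ball_zero_iff] at hs
      rw [Metric.mem_ball, dist_eq_norm, add_sub_cancel_left, norm_smul]
      exact (mul_le_mul_of_nonneg_right hs.le (norm_nonneg _)).trans_lt hR2
    have hdiff : DifferentiableOn ℂ (fun s : ℂ => G (Fin.append x (v + s • (v' - v))))
        (Metric.ball 0 R) := by
      refine hGd.comp (((XCore_diff_right x).comp ((differentiable_const v).add
        (differentiable_id.smul_const (v' - v)))).differentiableOn) fun s hs => ?_
      exact XCore_mem_ball hr (Metric.mem_ball_self hr) (hball s hs)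
    have e2 := const_of_small hdiff (mk_not_seqInd hS u ht) hCc (fun s hs hs' => by
      have e3 : SeqInd S fun i => Fin.append x v i + s * u i := not_not.1 hs'
      rw [hline] at e3
      exact s1 _ (XCore_mem_ball hr (Metric.mem_ball_self hr) (hball s hs)) e3) 1
      (by rw [mem_ball_zero_iff, norm_one]; exact hR1)
    simpa using e2
  -- (3), (4)
  have s3 := XCore_const hx hr hGd hGC (hCpr _ hcC) s2
  have e1 : (fun i => β (Fin.append x v i)) =
      Fin.append (fun i => β (x i)) fun j => β (v j) := by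
    funext i
    induction i using Fin.addCases with
    | left i => rw [Fin.append_left, Fin.append_left]
    | right i => rw [Fin.append_right, Fin.append_right]
  have e2 : G (fun i => β (Fin.append x v i)) = G (Fin.append x v) := by
    rw [e1]
    refine s3 _ ?_ _ ?_
    · rw [Metric.mem_ball, dist_pi_lt_iff hr]
      intro i
      rw [dist_eq_norm]
      have := hβt (Fin.castAdd m i)
      rwa [Fin.append_left] at this
    · rw [Metric.mem_ball, dist_pi_lt_iff hr]
      intro j
      rw [dist_eq_norm]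
      have := hβt (Fin.natAdd n j)
      rwa [Fin.append_right] at this
  obtain ⟨a, ha, ha'⟩ := hcC
  exact ⟨a, ha, hGβ.symm.trans (e2.trans ha'.symm)⟩

end Pool.Agent.AHE
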