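import Mathlib
import Pool.Agent.AHE.RSt
import Pool.Agent.AHE.XCore

/-!
# Classes whose coefficients are generic relative to the primitive recursive numbers

Proof.  `Gnr O n x` by `gnr_of_chain`.  `perIn_dep` gives a finite `Z ⊆ cl (S ∪ range x)`.  There is a finite
`S₀ ⊆ S` with `Z ⊆ cl (S₀ ∪ range x)` (`exists_finite_of_mem_cl` for each `z ∈ Z`).

`SeqInd S₀ x`: let `O'` be as in `hx i`.  The set `S₀ ∪ {x j | j < i}` is contained in the field `EF O'` (`IsPR` is
monotone in the oracle: from the definition `IsPR`, `PR.mono`), which is algebraically closed in `ℂ`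
(`isPR_of_algebraic`), so `cl (S₀ ∪ {x j | j < i}) ⊆ EF O'` and `x i` is not in it.

`AllClosed d`: `allClosed_of_isRational` (with `RingEquiv.refl ℂ`, `Datum.conj_refl`).
`PerIn QC d.F d.k d.w`: `perIn_of_isRationalClass`.  By `near_rational` (for `S₀`, which is finite) and `rel_global`
(with `A = QC`, `QC_subset_RC`): `PerIn QC` holds for `d.conj σ'` for all `σ' ∈ Fx S₀`, so `(d.conj σ').IsRational`
(`isRationalClass_of_perIn`) for all `σ' ∈ Fx S ⊆ Fx S₀`.

Let `σ` fix the real elements of `cl S`.  `cl S` is closed under complex conjugation `cc` (`hSc`; `image_cl` or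
`map_mem_cl`), so as in the private lemma `Fin_two` of `AHT/Fin.lean` (with `cl S` instead of `cl ∅`): `σ ∈ Fx S` or
`σ.trans cc ∈ Fx S`.  In the second case `(d.conj (σ.trans cc)).IsRational` implies `(d.conj σ).IsRational` as in the
private lemma `Fin_rat_cc'` of the same file (`Datum.IsRational.cc`, `cc_cc`).
-/

namespace Pool.Agent.AHE

open MvPolynomial Pool.Agent.AHC Pool.Agent.AHI Pool.Agent.AHR Pool.Agent.AHU Pool.Agent.AHT
  Pool.Agent.EllPR Filter Cardinal

/-- the numbers algebraic over primitive recursive ones are primitive recursive -/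
private theorem FinX_cl_pr {O : Set (ℕ → ℕ)} {S : Set ℂ} (h : ∀ a ∈ S, IsPR O a) {z : ℂ}
    (hz : z ∈ cl S) : IsPR O z := by
  refine isPR_of_algebraic ?_
  have h1 : ∀ x ∈ Algebra.adjoin ℚ S, x ∈ EF O := by
    intro x hx
    induction hx using Algebra.adjoin_induction with
    | mem x hx => exact h x hx
    | algebraMap r => exact IsPR.ratCast r
    | add x y _ _ hx hy => exact (EF O).add_mem hx hy
    | mul x y _ _ hx hy => exact (EF O).mul_mem hx hy
  let f : Algebra.adjoin ℚ S →+* EF O :=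
    ((Algebra.adjoin ℚ S).val : Algebra.adjoin ℚ S →+* ℂ).codRestrict (EF O) fun x => h1 x.1 x.2
  refine IsAlgebraic.ringHom_of_comp_eq (S := EF O) f (RingHom.id ℂ) hz ?_ ?_
  · intro x y hxy
    have h3 : (f x : ℂ) = f y := congrArg Subtype.val hxy
    exact Subtype.ext h3
  · rfl

private theorem FinX_rat_cc' (d : Datum) {σ : ℂ ≃+* ℂ} (h : (d.conj (σ.trans cc)).IsRational) :
    (d.conj σ).IsRational := by
  have h1 : (d.conj ((σ.trans cc).trans cc)).IsRational := by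
    rw [← Datum.conj_conj]
    exact h.cc
  have h2 : (σ.trans cc).trans cc = σ := by
    ext z
    exact cc_cc (σ z)
  rwa [h2] at h1

/-- an automorphism which fixes the real elements of `cl S` fixes `cl S`, or is
complex conjugation on it -/
private theorem FinX_two {S : Set ℂ} (hSc : ∀ a ∈ S, (starRingEnd ℂ) a ∈ S) {σ : ℂ ≃+* ℂ}
    (h : ∀ z ∈ cl S, z.im = 0 → σ z = z) : σ ∈ Fx S ∨ σ.trans cc ∈ Fx S := by
  have hI2 : σ Complex.I * σ Complex.I = -1 := by
    rw [← map_mul, Complex.I_mul_I, map_neg, map_one]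
  have hI : σ Complex.I = Complex.I ∨ σ Complex.I = -Complex.I := by
    have h1 : (σ Complex.I - Complex.I) * (σ Complex.I + Complex.I) = 0 := by
      have h2 := Complex.I_mul_I
      linear_combination hI2 - h2
    rcases mul_eq_zero.1 h1 with h2 | h2
    · exact Or.inl (sub_eq_zero.1 h2)
    · exact Or.inr (eq_neg_of_add_eq_zero_left h2)
  have hIalg : Complex.I ∈ cl S :=
    cl_mono (Set.empty_subset S) (mem_cl_empty Complex.isIntegral_rat_I.isAlgebraic)
  have hcc : ∀ z ∈ cl S, cc z ∈ cl S := by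
    intro z hz
    refine cl_mono ?_ (map_mem_cl cc hz)
    rintro _ ⟨a, ha, rfl⟩
    exact hSc a ha
  -- the real and imaginary parts
  have key : ∀ z ∈ cl S, ∃ a b : ℂ, z = a + b * Complex.I ∧ a.im = 0 ∧ b.im = 0 ∧
      σ a = a ∧ σ b = b := by
    intro z hz
    have hc : cc z ∈ cl S := hcc z hz
    have h2 : (2 : ℂ)⁻¹ ∈ clF S := (clF S).inv_mem ((clF S).natCast_mem 2)
    have ha : (2 : ℂ)⁻¹ * (z + cc z) ∈ clF S := (clF S).mul_mem h2 ((clF S).add_mem hz hc)
    have hb : (2 : ℂ)⁻¹ * ((cc z - z) * Complex.I) ∈ clF S :=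
      (clF S).mul_mem h2 ((clF S).mul_mem ((clF S).sub_mem hc hz) hIalg)
    have ha' : (2 : ℂ)⁻¹ * (z + cc z) = (z.re : ℂ) := by
      rw [cc_apply, Complex.add_conj]
      push_cast
      ring
    have hb' : (2 : ℂ)⁻¹ * ((cc z - z) * Complex.I) = (z.im : ℂ) := by
      have h3 : cc z - z = -(2 * z.im * Complex.I) := by
        rw [cc_apply, ← neg_sub, Complex.sub_conj]
        push_cast
        ring
      rw [h3]
      linear_combination (-(z.im : ℂ)) * Complex.I_mul_I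
    refine ⟨z.re, z.im, (Complex.re_add_im z).symm, Complex.ofReal_im _, Complex.ofReal_im _,
      h _ ?_ (Complex.ofReal_im _), h _ ?_ (Complex.ofReal_im _)⟩
    · rw [← ha']
      exact ha
    · rw [← hb']
      exact hb
  rcases hI with hI | hI
  · left
    intro z hz
    obtain ⟨a, b, rfl, -, -, h1, h2⟩ := key z hz
    rw [map_add, map_mul, h1, h2, hI]
  · right
    intro z hz
    obtain ⟨a, b, rfl, ha, hb, h1, h2⟩ := key z hz
    rw [RingEquiv.trans_apply, map_add, map_mul, h1, h2, hI, map_add, map_mul,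
      cc_eq_self_iff.2 ha, cc_eq_self_iff.2 hb, map_neg, cc_apply, Complex.conj_I, neg_neg]

/-- a finite part of `S` suffices -/
private theorem FinX_fin {S R : Set ℂ} {Z : Finset ℂ} (hZ : (Z : Set ℂ) ⊆ cl (S ∪ R)) :
    ∃ S₀ : Finset ℂ, (S₀ : Set ℂ) ⊆ S ∧ (Z : Set ℂ) ⊆ cl (S₀ ∪ R) := by
  classical
  have h1 : ∀ z ∈ Z, ∃ I : Finset ℂ, (I : Set ℂ) ⊆ S ∧ z ∈ cl (I ∪ R) := by
    intro z hz
    obtain ⟨I, hI, hfin, -, hzI⟩ := exists_finite_of_mem_cl (hZ (Finset.mem_coe.2 hz))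
    refine ⟨hfin.toFinset.filter (· ∈ S), fun y hy => ?_, cl_mono (fun y hy => ?_) hzI⟩
    · exact (Finset.mem_filter.1 (Finset.mem_coe.1 hy)).2
    · by_cases hyS : y ∈ S
      · exact Or.inl (Finset.mem_coe.2 (Finset.mem_filter.2 ⟨hfin.mem_toFinset.2 hy, hyS⟩))
      · exact Or.inr ((hI hy).resolve_left hyS)
  choose! I hI hzI using h1
  refine ⟨Z.biUnion I, fun y hy => ?_, fun z hz => ?_⟩
  · obtain ⟨z, hz, hyz⟩ := Finset.mem_biUnion.1 (Finset.mem_coe.1 hy)
    exact hI z hz (Finset.mem_coe.2 hyz)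
  · refine cl_mono (Set.union_subset_union_left _ fun y hy => ?_) (hzI z (Finset.mem_coe.1 hz))
    exact Finset.mem_coe.2 (Finset.mem_biUnion.2 ⟨z, Finset.mem_coe.1 hz, Finset.mem_coe.1 hy⟩)

theorem law_x {O : Set (ℕ → ℕ)} {S : Set ℂ} (hSO : ∀ a ∈ S, IsPR O a)
    (hSc : ∀ a ∈ S, (starRingEnd ℂ) a ∈ S) {n : ℕ} {x : Fin n → ℂ}
    (hx : ∀ i, ∃ O' : Set (ℕ → ℕ), O ⊆ O' ∧ (∀ j < i, IsPR O' (x j)) ∧ ¬ IsPR O' (x i))
    (d : Datum) (hd : IsDefinedOver d (cl (S ∪ Set.range x))) (h : d.IsRational) {σ : ℂ ≃+* ℂ}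
    (hσ : ∀ z ∈ cl S, z.im = 0 → σ z = z) : (d.conj σ).IsRational := by
  classical
  obtain ⟨Z, hZ, hdep⟩ := perIn_dep hd
  obtain ⟨S₀, hS₀, hZ₀⟩ := FinX_fin hZ
  have hSO₀ : ∀ a ∈ S₀, IsPR O a := fun a ha => hSO a (hS₀ (Finset.mem_coe.2 ha))
  have hgnr : Gnr O n x := gnr_of_chain hx
  have hseq : SeqInd (S₀ : Set ℂ) x := by
    intro i hi
    obtain ⟨O', hO', h1, h2⟩ := hx i
    refine h2 (FinX_cl_pr ?_ hi)
    rintro a (ha | ⟨j, hj, rfl⟩)
    · exact (hSO₀ a (Finset.mem_coe.1 ha)).mono hO'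
    · exact h1 j hj
  have hcl : AllClosed d := allClosed_of_isRational d (σ := RingEquiv.refl ℂ)
    (by rw [Datum.conj_refl]; exact h)
  have hcard : #(S₀ : Set ℂ) < 𝔠 :=
    (Cardinal.lt_aleph0_iff_set_finite.2 S₀.finite_toSet).trans aleph0_lt_continuum
  have hnear := near_rational hcard (fun a ha => hSO₀ a (Finset.mem_coe.1 ha)) hgnr hseq d hcl hZ₀
    hdep (perIn_of_isRationalClass h)
  have hall := rel_global hSO₀ d hcl QC_subset_RC hnear
  have hrat : ∀ τ ∈ Fx S, (d.conj τ).IsRational := fun τ hτ =>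
    isRationalClass_of_perIn (hall τ (Fx_anti hS₀ hτ))
  rcases FinX_two hSc hσ with h1 | h1
  · exact hrat σ h1
  · exact FinX_rat_cc' d (hrat _ h1)

end Pool.Agent.AHE
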