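import Mathlib
import Pool.Agent.AHE.Gnr

/-!
# Every point lies on an effectively computable germ through which it is generic

Proof.  Induction on `n`.  `n = 0`: `r = 0`, nothing to do.  Step: let `r, t, ψ` be given for the first
`n` coordinates `ini x` and put `s = x last`.  If `sn t s` is generic (`Gnr O (r + 1) (sn t s)`), use
`r + 1`, `sn t s`, the functions `v ↦ ψ j (ini v)` and `v ↦ v last` (`HCA.comp`, `HCA.proj`).  Otherwise, since
`Gnr O r t`, there is `g` with `HCA O g (sn t s)`, `g (sn t s) = 0` and not `g (sn t s') = 0` for all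
`s'` near `s`; `hca_solve` gives `φ` with `HCA O φ t`, `φ t = s`: keep `r, t` and add `φ` to the `ψ j`
(`Fin.snoc`).
-/

namespace Pool.Agent.AHE

open Pool.Agent.EllPR Filter
open scoped Topology

theorem greedy (O : Set (ℕ → ℕ)) {n : ℕ} (x : Fin n → ℂ) :
    ∃ (r : ℕ) (t : Fin r → ℂ) (ψ : Fin n → (Fin r → ℂ) → ℂ), Gnr O r t ∧
      (∀ j, HCA O (ψ j) t) ∧ ∀ j, ψ j t = x j := by
  classical
  induction n with
  | zero => exact ⟨0, fun j => j.elim0, fun j => j.elim0, trivial, fun j => j.elim0, fun j => j.elim0⟩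
  | succ n ih =>
    obtain ⟨r, t, ψ, h1, h2, h3⟩ := ih (ini x)
    by_cases hG : Gnr O (r + 1) (sn t (x (Fin.last n)))
    · let Ψ : Fin (n + 1) → (Fin (r + 1) → ℂ) → ℂ :=
        Fin.snoc (α := fun _ => (Fin (r + 1) → ℂ) → ℂ) (fun j v => ψ j (ini v))
          (fun v => v (Fin.last r))
      have e1 : ∀ j : Fin n, Ψ j.castSucc = fun v => ψ j (ini v) := fun j =>
        Fin.snoc_castSucc (α := fun _ => (Fin (r + 1) → ℂ) → ℂ) _ _ j
      have e2 : Ψ (Fin.last n) = fun v => v (Fin.last r) :=
        Fin.snoc_last (α := fun _ => (Fin (r + 1) → ℂ) → ℂ) _ _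
      refine ⟨r + 1, sn t (x (Fin.last n)), Ψ, hG, fun j => ?_, fun j => ?_⟩
      · refine Fin.lastCases ?_ (fun j => ?_) j
        · rw [e2]
          exact HCA.proj _ _
        · rw [e1]
          have h4 : HCA O (ψ j) fun k => (sn t (x (Fin.last n))) (Fin.castSucc k) := by
            have h5 : (fun k => (sn t (x (Fin.last n))) (Fin.castSucc k)) = t :=
              ini_sn t (x (Fin.last n))
            rw [h5]
            exact h2 j
          exact HCA.comp (F := fun k v => v (Fin.castSucc k)) h4 fun k => HCA.proj _ _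
      · refine Fin.lastCases ?_ (fun j => ?_) j
        · rw [e2]
          exact sn_last t (x (Fin.last n))
        · rw [e1]
          change ψ j (ini (sn t (x (Fin.last n)))) = x j.castSucc
          rw [ini_sn, h3 j]
          rfl
    · have hex : ∃ g : (Fin (r + 1) → ℂ) → ℂ, HCA O g (sn t (x (Fin.last n))) ∧
          g (sn t (x (Fin.last n))) = 0 ∧ ¬ ∀ᶠ s in 𝓝 (x (Fin.last n)), g (sn t s) = 0 := by
        by_contra hc
        push Not at hc
        apply hG
        refine ⟨?_, fun g hg h0 => ?_⟩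
        · rw [ini_sn]
          exact h1
        · rw [ini_sn, sn_last]
          exact hc g hg h0
      obtain ⟨g, hg, h0, hne⟩ := hex
      obtain ⟨φ, hφ, hφt⟩ := hca_solve hg h0 hne
      let Ψ : Fin (n + 1) → (Fin r → ℂ) → ℂ :=
        Fin.snoc (α := fun _ => (Fin r → ℂ) → ℂ) ψ φ
      have e1 : ∀ j : Fin n, Ψ j.castSucc = ψ j := fun j =>
        Fin.snoc_castSucc (α := fun _ => (Fin r → ℂ) → ℂ) _ _ j
      have e2 : Ψ (Fin.last n) = φ := Fin.snoc_last (α := fun _ => (Fin r → ℂ) → ℂ) _ _
      refine ⟨r, t, Ψ, h1, fun j => ?_, fun j => ?_⟩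
      · refine Fin.lastCases ?_ (fun j => ?_) j
        · rw [e2]
          exact hφ
        · rw [e1]
          exact h2 j
      · refine Fin.lastCases ?_ (fun j => ?_) j
        · rw [e2]
          exact hφt
        · rw [e1, h3 j]
          rfl

end Pool.Agent.AHE
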