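import Mathlib
import Pool.Agent.AHE.PCo
import Pool.Agent.AHE.Grd
import Pool.Agent.AHE.CmB
import Pool.Agent.AHT.Fin

/-!
# Every Hodge class has a conjugate Hodge class with computable coefficients

`exists_defined`: the coefficients of the equations and of the forms in degree `p + q = 2 k`
(`exists_coeffs`, see `sta_perIn` in `AHU/Sta.lean`).

`law_y`.  Proof (for `Y = ∅`, `ε = 1`; in general take `Z ∪ Y` instead of `Z` and `η₀ = ε` in `pco`).  `Z` from `exists_defined`; `AllClosed d` from `allClosed_of_isRational`.  `X ⊇ Z` from `pco` with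
`S = ∅`, `O = ∅`, `Y := Z`.  `exists_basis ∅ X.finite_toSet`: `x : Fin m → ℂ` with `SeqInd ∅ x`,
`X ⊆ cl (range x)`.  `pco` with `η₀ = 1`: `r, η`.  `greedy ∅ x`: `t : Fin k → ℂ`, `ψ` with `Gnr ∅ k t`,
`HCA ∅ (ψ j) t`, `ψ j t = x j`.  Choose `ρ₀ > 0` such that on `ball t ρ₀` all `ψ j` are holomorphic, `HCA ∅`
(`HCA.near`) and `y ↦ (ψ j y)_j` has values in `ball x r`.  `exists_chain t` (with `ε = ρ₀ / 2`) gives
`t' ∈ ball t (ρ₀ / 2)` (sup norm; if `k = 0` everything is trivial) and `O'`, a finite set of computable functions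
with `IsPR O' (t' i)`; `Gnr ∅ k t'` by `gnr_of_chain`.  Let `p j = ψ j t'`.

`SeqInd ∅ p`: otherwise there is a nonzero polynomial `P` over `ℚ` with `P (p) = 0` (`SeqInd ∅` is algebraic
independence over `ℚ`: private lemma `seqInd_iff` in `AHR/Cnt.lean`).  `g = P ∘ ψ` is `HCA ∅` at `t'` (`HCA.eval`
for the polynomial mapped to `ℂ`, `IsPR.ratCast`, `HCA.comp`) and `g t' = 0`, so `g = 0` near `t'` (`Gnr.zero`), and
on `ball t' (ρ₀ / 2) ⊆ ball t ρ₀` (`zero_on_ball`), which contains `t`: `P (x) = 0`, a contradiction.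

By `pco` there is `ρ ∈ Fx ∅ = GA` with `ρ (x j) = p j` and `‖ρ y - y‖ < η` on `X`.

`(d.conj ρ).IsRational` (`isRationalClass_of_perIn`): let `W` be a period function for `ρ` (`AllClosed`), `z` a
cycle, and `G` from `pco` for `β₂ := ρ`.  By the last property with `β' = refl` (`x ∈ ball x r`) there is a cycle `z'`
of `Y` with `evc W' z' = G x` for all period functions `W'` of `d` (`Datum.conj_refl`, `conjEqs` and `w.conj` are
the components of `d.conj`), and `PerIn QC` for `d` (`perIn_of_isRationalClass`) gives `G x = (2πi)^k q =: c`, `q ∈ ℚ`.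
`g y = G (ψ y) - c` is `HCA ∅` at `t` (`HCA.comp`, `HCA.sub`, `HCA.const`, `isPR_pi`), holomorphic on `ball t ρ₀`, and
`g t = 0`; so `g = 0` near `t` (`Gnr.zero`) and on `ball t ρ₀` (`zero_on_ball`).  So
`evc W z = G (ρ ∘ x) = G p = G (ψ t') = c`.

The coefficients of `d.conj ρ` are the `ρ c`, `c` a coefficient of `d` (`MvPolynomial.coeff_map`).
`c ∈ Z ⊆ cl (range x)`, so `ρ c ∈ cl (range p)` (`map_mem_cl`).  `p j` is primitive recursive relative to `O'`
(`CA.isPR`, `ca_mono`), so `cl (range p) ⊆ EF O'` (`isPR_of_algebraic`), and `isCompNum_of_isPR`.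
-/

namespace Pool.Agent.AHE

open MvPolynomial Pool.Agent.AHC Pool.Agent.AHI Pool.Agent.AHR Pool.Agent.AHU Pool.Agent.AHT
  Pool.Agent.EllPR Filter Cardinal
open scoped Topology

theorem exists_defined (d : Datum) : ∃ Z : Finset ℂ, IsDefinedOver d (Z : Set ℂ) := by
  classical
  obtain ⟨A2, hA2⟩ := exists_coeffs d.k d.w
  refine ⟨A2 ∪ Finset.univ.biUnion fun i => (d.F i).coeffs, fun i c hc => ?_,
    fun p q hpq I y hy => ⟨fun c hc => ?_, fun b c hc => ?_⟩⟩
  · exact Finset.mem_coe.2 (Finset.mem_union_right _ (Finset.mem_biUnion.2 ⟨i, Finset.mem_univ _, hc⟩))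
  · exact Finset.mem_coe.2 (Finset.mem_union_left _ ((hA2 p q hpq I y hy).1 hc))
  · exact Finset.mem_coe.2 (Finset.mem_union_left _ ((hA2 p q hpq I y hy).2 b hc))

/-- `SeqInd ∅` is algebraic independence over `ℚ` -/
private theorem FinY_seqInd_iff {n : ℕ} {b : Fin n → ℂ} :
    SeqInd ∅ b ↔ AlgebraicIndependent ℚ b := by
  constructor
  · intro h
    obtain ⟨h1, -⟩ := h.indep MC.empty_indep
    rw [Set.empty_union, AlgebraicIndependent.matroid_indep_iff] at h1
    exact AlgebraicIndependent.of_subtype_range h.injective h1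
  · intro h
    refine SeqInd.of_indep h.injective ?_ (by simp)
    rw [Set.empty_union, AlgebraicIndependent.matroid_indep_iff]
    exact h.to_subtype_range

/-- numbers which are algebraic over primitive recursive numbers -/
private theorem FinY_cl {O : Set (ℕ → ℕ)} {S : Set ℂ} (hS : ∀ s ∈ S, IsPR O s) {z : ℂ}
    (hz : z ∈ cl S) : IsPR O z := by
  have h1 : ∀ y ∈ Algebra.adjoin ℚ S, y ∈ EF O := by
    intro y hy
    induction hy using Algebra.adjoin_induction with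
    | mem y hy => exact hS y hy
    | algebraMap q => exact SubfieldClass.ratCast_mem (EF O) q
    | add y w _ _ h1 h2 => exact add_mem h1 h2
    | mul y w _ _ h1 h2 => exact mul_mem h1 h2
  let f : Algebra.adjoin ℚ S →+* EF O :=
    ((Algebra.adjoin ℚ S).val : Algebra.adjoin ℚ S →+* ℂ).codRestrict (EF O) fun x => h1 x.1 x.2
  refine isPR_of_algebraic (IsAlgebraic.ringHom_of_comp_eq f (RingHom.id ℂ) hz ?_ ?_)
  · intro x y hxy
    have h3 : (f x).1 = (f y).1 := congrArg Subtype.val hxy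
    exact Subtype.ext h3
  · rfl

/-- the coefficients of the image of a polynomial -/
private theorem FinY_coeffs {n : ℕ} (P : MvPolynomial (Fin n) ℂ) (σ : ℂ ≃+* ℂ) {c : ℂ}
    (hc : c ∈ (map (σ : ℂ →+* ℂ) P).coeffs) : ∃ c₀ ∈ P.coeffs, c = σ c₀ := by
  rw [MvPolynomial.mem_coeffs_iff] at hc
  obtain ⟨u, hu, rfl⟩ := hc
  rw [mem_support_iff, coeff_map] at hu
  refine ⟨coeff u P, ?_, coeff_map _ _ _⟩
  rw [MvPolynomial.mem_coeffs_iff]
  refine ⟨u, ?_, rfl⟩
  rw [mem_support_iff]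
  intro h0
  rw [h0, map_zero] at hu
  exact hu rfl

/-- the coefficients of the conjugate datum -/
private theorem FinY_def (d : Datum) {Z : Finset ℂ} (hZ : IsDefinedOver d (Z : Set ℂ)) {σ : ℂ ≃+* ℂ}
    {L : Set ℂ} (hL : ∀ z ∈ Z, σ z ∈ L) : IsDefinedOver (d.conj σ) L := by
  refine ⟨fun i c hc => ?_, fun p q hpq I y hy => ?_⟩
  · obtain ⟨c₀, h1, rfl⟩ := FinY_coeffs (d.F i) σ hc
    exact hL c₀ (hZ.1 i c₀ h1)
  · have hy' : y ∈ (d.w p q I).map fun x => (x.1.conj σ, fun b => (x.2 b).conj σ) := hy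
    obtain ⟨x, hx, rfl⟩ := List.mem_map.1 hy'
    refine ⟨fun c hc => ?_, fun b c hc => ?_⟩
    · obtain ⟨c₀, h1, rfl⟩ := FinY_coeffs x.1.num σ hc
      exact hL c₀ ((hZ.2 p q hpq I x hx).1 c₀ h1)
    · obtain ⟨c₀, h1, rfl⟩ := FinY_coeffs (x.2 b).num σ hc
      exact hL c₀ ((hZ.2 p q hpq I x hx).2 b c₀ h1)

/-- a rational relation between the functions at a generic point holds on the ball -/
private theorem FinY_ind {m k : ℕ} {ψ : Fin m → (Fin k → ℂ) → ℂ} {t t' : Fin k → ℂ} {ρ₀ : ℝ}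
    (hρ₀ : 0 < ρ₀) (hca : ∀ y ∈ Metric.ball t ρ₀, ∀ j, HCA ∅ (ψ j) y)
    (ht' : t' ∈ Metric.ball t (ρ₀ / 2)) (hg : Gnr ∅ k t')
    (hx : SeqInd ∅ fun j => ψ j t) : SeqInd ∅ fun j => ψ j t' := by
  rw [FinY_seqInd_iff] at hx ⊢
  by_contra hcon
  rw [algebraicIndependent_iff] at hcon
  push Not at hcon
  obtain ⟨P, hP1, hP2⟩ := hcon
  obtain ⟨Q, hQ⟩ : ∃ Q : MvPolynomial (Fin m) ℂ, Q = map (algebraMap ℚ ℂ) P := ⟨_, rfl⟩
  have hQc : ∀ c ∈ Q.coeffs, IsPR ∅ c := by
    intro c hc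
    rw [MvPolynomial.mem_coeffs_iff] at hc
    obtain ⟨u, -, rfl⟩ := hc
    rw [hQ, coeff_map]
    exact IsPR.ratCast _
  have hQe : ∀ v : Fin m → ℂ, eval v Q = aeval v P := by
    intro v
    rw [hQ, eval_map, aeval_def]
  have hsub : Metric.ball t' (ρ₀ / 2) ⊆ Metric.ball t ρ₀ := by
    intro y hy
    rw [Metric.mem_ball] at hy ht' ⊢
    have := dist_triangle y t' t
    linarith
  have hH : ∀ y ∈ Metric.ball t ρ₀, HCA ∅ (fun v => eval (fun j => ψ j v) Q) y := fun y hy =>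
    HCA.comp (g := fun v => eval v Q) (HCA.eval hQc _) (hca y hy)
  have hd : DifferentiableOn ℂ (fun v => eval (fun j => ψ j v) Q) (Metric.ball t' (ρ₀ / 2)) := by
    intro y hy
    obtain ⟨r, hr, h1⟩ := (hH y (hsub hy)).2
    exact (h1.differentiableAt (Metric.ball_mem_nhds y hr)).differentiableWithinAt
  have h0 : eval (fun j => ψ j t') Q = 0 := by rw [hQe]; exact hP1
  have h2 := zero_on_ball hd (hg.zero (hH t' (hsub (Metric.mem_ball_self (half_pos hρ₀)))) h0) t (by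
    rw [Metric.mem_ball, dist_comm]
    exact ht')
  have h3 : eval (fun j => ψ j t) Q = 0 := h2
  rw [hQe] at h3
  exact hP2 ((algebraicIndependent_iff.1 hx) P h3)

theorem law_y (d : Datum) (h : d.IsRational) (Y : Finset ℂ) {ε : ℝ} (hε : 0 < ε) :
    ∃ ρ ∈ GA, (∀ y ∈ Y, ‖ρ y - y‖ < ε) ∧ (d.conj ρ).IsRational ∧
      IsDefinedOver (d.conj ρ) {z | IsCompNum z} := by
  classical
  obtain ⟨Z, hZ⟩ := exists_defined d
  have hrefl : (d.conj (RingEquiv.refl ℂ)).IsRational := by rw [Datum.conj_refl]; exact h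
  have hall : AllClosed d := allClosed_of_isRational d hrefl
  obtain ⟨X, hZX, hX⟩ := pco (O := ∅) (S := ∅)
    (by rw [Cardinal.mk_eq_zero]; exact Cardinal.continuum_pos)
    (fun a ha => absurd ha (Set.notMem_empty a)) d.smooth d.hodge hall (Z ∪ Y)
  obtain ⟨m, x, hx1, -, hx3⟩ := exists_basis ∅ X.finite_toSet
  obtain ⟨r, η, hr, hη, hηε, hb, hG⟩ := hX x hx1 hx3 ε hε
  obtain ⟨k, t, ψ, ht, hψ, hψt⟩ := greedy ∅ x
  have hψt' : (fun j => ψ j t) = x := funext hψt
  -- the ball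
  have hev : ∀ᶠ y in 𝓝 t, (∀ j, HCA ∅ (ψ j) y) ∧ (fun j => ψ j y) ∈ Metric.ball x r := by
    refine (eventually_all.2 fun j => (hψ j).near).and ?_
    have h1 : Tendsto (fun y j => ψ j y) (𝓝 t) (𝓝 fun j => ψ j t) :=
      tendsto_pi_nhds.2 fun j => (hψ j).1.continuousAt
    rw [hψt'] at h1
    exact h1.eventually (Metric.ball_mem_nhds x hr)
  obtain ⟨ρ₀, hρ₀, hball⟩ := Metric.eventually_nhds_iff_ball.1 hev
  have hψd : ∀ j, DifferentiableOn ℂ (ψ j) (Metric.ball t ρ₀) := by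
    intro j y hy
    obtain ⟨r', hr', h1⟩ := ((hball y hy).1 j).2
    exact (h1.differentiableAt (Metric.ball_mem_nhds y hr')).differentiableWithinAt
  obtain ⟨t', O', -, hO'c, hO't, hnear, hchain⟩ := exists_chain t (half_pos hρ₀)
  have ht' : t' ∈ Metric.ball t (ρ₀ / 2) := by
    rw [Metric.mem_ball, dist_pi_lt_iff (half_pos hρ₀)]
    intro i
    rw [dist_eq_norm]
    exact hnear i
  have ht'2 : t' ∈ Metric.ball t ρ₀ := Metric.ball_subset_ball (by linarith) ht'
  have hg' : Gnr ∅ k t' := gnr_of_chain fun i => by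
    obtain ⟨O₂, h1, h2⟩ := hchain i
    exact ⟨O₂, Set.empty_subset _, h1, h2⟩
  obtain ⟨p, hp⟩ : ∃ p : Fin m → ℂ, p = fun j => ψ j t' := ⟨_, rfl⟩
  have hpball : p ∈ Metric.ball x r := by rw [hp]; exact (hball t' ht'2).2
  have hpind : SeqInd ∅ p := by
    rw [hp]
    refine FinY_ind hρ₀ (fun y hy => (hball y hy).1) ht' hg' ?_
    rw [hψt']
    exact hx1
  obtain ⟨ρ, hρ, hρx, hρn⟩ := hb p hpball hpind
  have hρp : (fun i => ρ (x i)) = p := funext hρx
  refine ⟨ρ, hρ, fun y hy => (hρn y (hZX (Finset.mem_union_right _ hy))).trans_le hηε, ?_, ?_⟩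
  · -- rationality
    refine isRationalClass_of_perIn ?_
    obtain ⟨W, hW⟩ := hall ρ
    refine ⟨W, hW, fun z hz => ?_⟩
    obtain ⟨G, hGd, hGca, hGe, hGr⟩ := hG ρ hρ (by rw [hρp]; exact hpball) hρn W hW z hz
    obtain ⟨z', hz', hzW⟩ := hGr (RingEquiv.refl ℂ) (refl_mem_Fx ∅) (Metric.mem_ball_self hr)
      (fun y _ => by rw [RingEquiv.refl_apply, sub_self, norm_zero]; exact hη)
    obtain ⟨W', hW', hc⟩ := perIn_of_isRationalClass hrefl
    obtain ⟨a, ha, hac⟩ := hc z' hz'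
    have hGx : G x = (2 * Real.pi * Complex.I) ^ d.k * a := (hzW W' hW').symm.trans hac
    obtain ⟨c, hcd⟩ : ∃ c : ℂ, c = (2 * Real.pi * Complex.I) ^ d.k * a := ⟨_, rfl⟩
    rw [hρp] at hGe
    refine ⟨a, ha, hGe.symm.trans ?_⟩
    change G p = (2 * Real.pi * Complex.I) ^ d.k * a
    rw [← hcd]
    have hcPR : IsPR ∅ c := by
      rw [← mem_EF, hcd]
      obtain ⟨q, rfl⟩ := ha
      have h2 : (2 : ℂ) ∈ EF ∅ := by
        have := natCast_mem (EF ∅) 2
        exact_mod_cast this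
      exact mul_mem (pow_mem (mul_mem (mul_mem h2 (isPR_pi ∅)) IsPR.I) _)
        (SubfieldClass.ratCast_mem (EF ∅) q)
    have hGH : HCA ∅ G fun j => ψ j t := by
      rw [hψt']
      exact ⟨hGca x (Metric.mem_ball_self hr), r, hr, hGd⟩
    have hH : HCA ∅ (fun y => (G fun j => ψ j y) - c) t :=
      HCA.sub (HCA.comp hGH hψ) (HCA.const hcPR t)
    have hd : DifferentiableOn ℂ (fun y => (G fun j => ψ j y) - c) (Metric.ball t ρ₀) := by
      refine DifferentiableOn.sub_const ?_ c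
      refine hGd.comp (differentiableOn_pi.2 hψd) fun y hy => (hball y hy).2
    have h0 : (G fun j => ψ j t) - c = 0 := by rw [hψt', hGx, hcd, sub_self]
    have h1 := zero_on_ball hd (ht.zero hH h0) t' ht'2
    have h2 : (G fun j => ψ j t') - c = 0 := h1
    rw [hp]
    exact sub_eq_zero.1 h2
  · -- the coefficients
    refine FinY_def d hZ fun z hz => ?_
    have h1 : z ∈ cl (∅ ∪ Set.range x) :=
      hx3 (Finset.mem_coe.2 (hZX (Finset.mem_union_left _ hz)))
    have h2 := map_mem_cl ρ h1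
    refine isCompNum_of_isPR hO'c (FinY_cl ?_ h2)
    rintro _ ⟨y, hy | ⟨j, rfl⟩, rfl⟩
    · exact absurd hy (Set.notMem_empty y)
    · rw [hρx j, hp]
      exact (ca_mono (Set.empty_subset O') ((hball t' ht'2).1 j).1).isPR hO't

end Pool.Agent.AHE
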