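import Mathlib
import Pool.Agent.AHE.FinY
import Pool.Agent.AHT.Up
import Pool.Agent.AHR.Pt

/-!
# A conjugate which is not a Hodge class can be moved to one with computable coefficients

Proof.  `Z` from `exists_defined d`.  `rational_of_dense` (file `AHR/Pt.lean`) for `β := σ`, `X := ∅`, `ε := 1`: as
`d.conj σ` is not rational, there are `γ` with `FixesAlg γ`, a finite set `Y` and `δ > 0` such that `d.conj σ'` is not
rational for all `σ'` with `‖σ' y - γ (σ y)‖ < δ` for all `y ∈ Y`.  Let `σ₁ = σ.trans γ` and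
`X = (Y ∪ Z).image σ₁`; `exists_basis ∅ X.finite_toSet` gives `x : Fin m → ℂ` with `SeqInd ∅ x`,
`X ⊆ cl (range x)`.  `nearby_rel` (with `S = ∅`, `η = δ`) gives `δ'`.  `exists_chain x` (`ε = δ'`) gives
computable `x'` with `‖x' i - x i‖ < δ'` and `O'` (finite, all functions computable, `IsPR O' (x' i)`).
`SeqInd ∅ x'`: `x' i` is not in the algebraically closed field `EF O''`, which contains the `x' j`, `j < i`
(`isPR_of_algebraic`: `cl {x' j | j < i} ⊆ EF O''`).  So there is `ρ ∈ Fx ∅ = GA` with `ρ (x i) = x' i` and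
`‖ρ y - y‖ < δ` on `X`.  `σ' = σ₁.trans ρ` satisfies `‖σ' y - γ (σ y)‖ < δ` on `Y`, so `d.conj σ'` is not rational.
Its coefficients are the `ρ (σ₁ c)`, `c ∈ Z` a coefficient of `d`; `σ₁ c ∈ X ⊆ cl (range x)`, so
`ρ (σ₁ c) ∈ cl (range x') ⊆ EF O'` (`map_mem_cl`), and `isCompNum_of_isPR` (as at the end of the proof of
`law_y`).
-/

namespace Pool.Agent.AHE

open MvPolynomial Pool.Agent.AHC Pool.Agent.AHI Pool.Agent.AHR Pool.Agent.AHU Pool.Agent.AHT
  Pool.Agent.EllPR Filter Cardinal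
open scoped Topology

/-- the field of the primitive recursive numbers is algebraically closed -/
private theorem FinZ_cl {O : Set (ℕ → ℕ)} {S : Set ℂ} (hS : ∀ a ∈ S, IsPR O a) {z : ℂ}
    (hz : z ∈ cl S) : IsPR O z := by
  let A : Subalgebra ℚ ℂ :=
    { (EF O).toSubring with
      algebraMap_mem' := fun q => by
        change IsPR O ((algebraMap ℚ ℂ) q)
        rw [eq_ratCast]
        exact IsPR.ratCast q }
  have hA : Algebra.adjoin ℚ S ≤ A := Algebra.adjoin_le fun a ha => hS a ha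
  let f : Algebra.adjoin ℚ S →+* EF O :=
    RingHom.codRestrict ((Algebra.adjoin ℚ S).val : Algebra.adjoin ℚ S →+* ℂ) (EF O)
      fun x => hA x.2
  have h : IsAlgebraic (Algebra.adjoin ℚ S) z := hz
  refine isPR_of_algebraic ?_
  refine IsAlgebraic.ringHom_of_comp_eq (S := EF O) f (RingHom.id ℂ) h ?_ ?_
  · intro x y hxy
    have h3 : x.1 = y.1 := congrArg (fun w : EF O => (w : ℂ)) hxy
    exact Subtype.ext h3
  · rfl

private theorem FinZ_coeffs {n : ℕ} {P : MvPolynomial (Fin n) ℂ} {σ : ℂ ≃+* ℂ} {c : ℂ}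
    (hc : c ∈ (map (σ : ℂ →+* ℂ) P).coeffs) : ∃ c₀ ∈ P.coeffs, c = σ c₀ := by
  rw [mem_coeffs_iff] at hc
  obtain ⟨u, hu, hcu⟩ := hc
  refine ⟨coeff u P, ?_, ?_⟩
  · rw [mem_coeffs_iff]
    refine ⟨u, ?_, rfl⟩
    rw [mem_support_iff] at hu ⊢
    intro h0
    rw [coeff_map, h0, map_zero] at hu
    exact hu rfl
  · rw [hcu, coeff_map]
    rfl

private theorem FinZ_def {d : Datum} {Z : Set ℂ} (hZ : IsDefinedOver d Z) {σ : ℂ ≃+* ℂ}
    {L : Set ℂ} (h : ∀ c ∈ Z, σ c ∈ L) : IsDefinedOver (d.conj σ) L := by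
  constructor
  · intro i c hc
    obtain ⟨c₀, h1, rfl⟩ := FinZ_coeffs (P := d.F i) hc
    exact h _ (hZ.1 i c₀ h1)
  · intro p q hpq I y hy
    obtain ⟨x, hx, rfl⟩ := List.mem_map.1 (show y ∈ (d.w p q I).map fun x =>
      (x.1.conj σ, fun b => (x.2 b).conj σ) from hy)
    obtain ⟨h1, h2⟩ := hZ.2 p q hpq I x hx
    refine ⟨fun c hc => ?_, fun b c hc => ?_⟩
    · obtain ⟨c₀, h3, rfl⟩ := FinZ_coeffs (P := x.1.num) hc
      exact h _ (h1 c₀ h3)
    · obtain ⟨c₀, h3, rfl⟩ := FinZ_coeffs (P := (x.2 b).num) hc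
      exact h _ (h2 b c₀ h3)

theorem law_z (d : Datum) {σ : ℂ ≃+* ℂ} (h : ¬ (d.conj σ).IsRational) (Y₀ : Finset ℂ) {ε : ℝ}
    (hε : 0 < ε) : ∃ σ' : ℂ ≃+* ℂ,
    (∀ z ∈ cl ∅, σ' z = σ z) ∧ (∀ y ∈ Y₀, ‖σ' y - σ y‖ < ε) ∧ ¬ (d.conj σ').IsRational ∧
      IsDefinedOver (d.conj σ') {z | IsCompNum z} := by
  classical
  obtain ⟨Z, hZ⟩ := exists_defined d
  by_contra hcon
  refine h (rational_of_dense (X := Y₀) (half_pos hε) fun γ hγ hγY Y δ₀ hδ₀ => ?_)
  by_contra hno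
  refine hcon ?_
  have hδ : 0 < min δ₀ (ε / 2) := lt_min hδ₀ (half_pos hε)
  obtain ⟨m, x, hx1, hx2, hx3⟩ :=
    exists_basis ∅ ((Y ∪ (Z ∪ Y₀)).image (σ.trans γ)).finite_toSet
  obtain ⟨δ', hδ', hnear⟩ :=
    nearby_rel hx1 ((Y ∪ (Z ∪ Y₀)).image (σ.trans γ)).finite_toSet hx3 hδ
  obtain ⟨x', O', -, hOc, h1, h2, h3⟩ := exists_chain x hδ'
  have hseq : SeqInd ∅ x' := by
    intro i hi
    obtain ⟨O'', h4, h5⟩ := h3 i
    refine h5 (FinZ_cl ?_ hi)
    rintro a (ha | ⟨j, hj, rfl⟩)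
    · exact absurd ha (Set.notMem_empty a)
    · exact h4 j hj
  obtain ⟨ρ, hρ, hρx, hρX⟩ := hnear x' hseq h2
  have hXX : ∀ y ∈ Y ∪ (Z ∪ Y₀),
      (σ.trans γ) y ∈ (((Y ∪ (Z ∪ Y₀)).image (σ.trans γ) : Finset ℂ) : Set ℂ) := by
    intro y hy
    exact Finset.mem_coe.2 (Finset.mem_image_of_mem _ hy)
  refine ⟨(σ.trans γ).trans ρ, ?_, fun y hy => ?_, ?_, ?_⟩
  · intro z hz
    have h4 : σ z ∈ cl ∅ := map_cl_empty σ hz
    rw [RingEquiv.trans_apply, RingEquiv.trans_apply, (fixesAlg_iff.1 hγ) _ h4, hρ _ h4]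
  · have h5 := (hρX _ (hXX y (Finset.mem_union_right _ (Finset.mem_union_right _ hy)))).trans_le
      (min_le_right _ _)
    have h6 := hγY y hy
    have h7 : ((σ.trans γ).trans ρ) y - σ y =
        (ρ ((σ.trans γ) y) - (σ.trans γ) y) + (γ (σ y) - σ y) := by
      rw [RingEquiv.trans_apply, RingEquiv.trans_apply]
      ring
    rw [h7]
    refine (norm_add_le _ _).trans_lt ?_
    linarith
  · intro hr
    refine hno ⟨_, hr, fun y hy => ?_⟩
    exact (hρX _ (hXX y (Finset.mem_union_left _ hy))).trans_le (min_le_left _ _)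
  · refine FinZ_def hZ fun c hc => ?_
    have h4 := map_mem_cl ρ (hx3 (hXX c (Finset.mem_union_right _ (Finset.mem_union_left _ hc))))
    refine isCompNum_of_isPR hOc (FinZ_cl ?_ h4)
    rintro a ⟨b, hb, rfl⟩
    rcases hb with hb | ⟨i, rfl⟩
    · exact absurd hb (Set.notMem_empty b)
    · rw [hρx i]
      exact h1 i

/-- near every automorphism there is one for which the conjugate has computable coefficients and is
a Hodge class exactly if the given conjugate is -/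
theorem law_yz (d : Datum) (σ : ℂ ≃+* ℂ) (Y : Finset ℂ) {ε : ℝ} (hε : 0 < ε) :
    ∃ σ' : ℂ ≃+* ℂ, (∀ z ∈ cl ∅, σ' z = σ z) ∧ (∀ y ∈ Y, ‖σ' y - σ y‖ < ε) ∧
      IsDefinedOver (d.conj σ') {z | IsCompNum z} ∧
      ((d.conj σ').IsRational ↔ (d.conj σ).IsRational) := by
  classical
  by_cases h : (d.conj σ).IsRational
  · obtain ⟨ρ, h1, h2, h3, h4⟩ := law_y (d.conj σ) h (Y.image σ) hε
    rw [Datum.conj_conj] at h3 h4
    refine ⟨σ.trans ρ, fun z hz => ?_, fun y hy => ?_, h4, iff_of_true h3 h⟩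
    · rw [RingEquiv.trans_apply]
      exact h1 _ (map_cl_empty σ hz)
    · rw [RingEquiv.trans_apply]
      exact h2 _ (Finset.mem_image_of_mem _ hy)
  · obtain ⟨σ', h1, h2, h3, h4⟩ := law_z d h Y hε
    exact ⟨σ', h1, h2, h4, iff_of_false h3 h⟩

end Pool.Agent.AHE
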