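import Mathlib
import Pool.Agent.AHE.FinX

/-!
# The explicit law in terms of the real numbers of the field of primitive recursive numbers

The corollary for data over the algebraic closure of `E (x)`, `x` one complex number.
-/

namespace Pool.Agent.AHE

open Pool.Agent.AHC Pool.Agent.AHR Pool.Agent.AHU Pool.Agent.AHT Pool.Agent.EllPR

/-- the field of the numbers which are primitive recursive relative to `O` is algebraically closed
in `ℂ` -/
theorem cl_EF {O : Set (ℕ → ℕ)} {z : ℂ} (h : z ∈ cl {a | IsPR O a}) : IsPR O z := by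
  have h1 : (Algebra.adjoin ℚ {a | IsPR O a} : Subalgebra ℚ ℂ).toSubring ≤ (EF O).toSubring := by
    intro y hy
    have hy' : y ∈ Algebra.adjoin ℚ {a | IsPR O a} := hy
    change y ∈ EF O
    induction hy' using Algebra.adjoin_induction with
    | mem x hx => exact hx
    | algebraMap q =>
      have : (algebraMap ℚ ℂ q) = (q : ℂ) := rfl
      rw [this]
      exact SubfieldClass.ratCast_mem (EF O) q
    | add x y _ _ h1 h2 => exact add_mem (h1 (by assumption)) (h2 (by assumption))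
    | mul x y _ _ h1 h2 => exact mul_mem (h1 (by assumption)) (h2 (by assumption))
  refine isPR_of_algebraic ?_
  obtain ⟨p, hp0, hp⟩ := h
  let f : (Algebra.adjoin ℚ {a | IsPR O a} : Subalgebra ℚ ℂ) →+* EF O :=
    Subring.inclusion h1
  have hf : Function.Injective f := fun a b hab => by
    apply Subtype.ext
    exact congrArg (fun x : EF O => (x : ℂ)) hab
  refine ⟨p.map f, (Polynomial.map_ne_zero_iff hf).2 hp0, ?_⟩
  rw [Polynomial.aeval_def, Polynomial.eval₂_map]
  rw [Polynomial.aeval_def] at hp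
  exact hp

/-- a component of a function with values in the codes -/
private theorem ResX_comp {O : Set (ℕ → ℕ)} {A : ℕ → T} (hA : PR O A) {π : T → ℕ}
    (hπ : Primrec π) : PRIn O fun n => π (A n) :=
  pr_nat_iff.1 ((PR.of_primrec hπ).comp hA)

/-- `IsPR` in terms of functions `ℕ → ℕ` -/
theorem isPR_iff_exists {O : Set (ℕ → ℕ)} {z : ℂ} : IsPR O z ↔ ∃ p q r s t : ℕ → ℕ,
    PRIn O p ∧ PRIn O q ∧ PRIn O r ∧ PRIn O s ∧ PRIn O t ∧ ∀ n : ℕ,
      ‖z - (((p n : ℂ) - q n) + ((r n : ℂ) - s n) * Complex.I) / ((t n : ℂ) + 1)‖ ≤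
        1 / ((n : ℝ) + 1) := by
  constructor
  · rintro ⟨A, hA, h⟩
    exact ⟨_, _, _, _, _, ResX_comp hA T.pr1, ResX_comp hA T.pr2, ResX_comp hA T.pr3,
      ResX_comp hA T.pr4, ResX_comp hA T.pr5, h⟩
  · rintro ⟨p, q, r, s, t, hp, hq, hr, hs, ht, h⟩
    exact ⟨fun n => (p n, q n, r n, s n, t n), (pr_nat_iff.2 hp).pair ((pr_nat_iff.2 hq).pair
      ((pr_nat_iff.2 hr).pair ((pr_nat_iff.2 hs).pair (pr_nat_iff.2 ht)))), h⟩

theorem law_x1 {O : Set (ℕ → ℕ)} (x : ℂ) (d : Datum)
    (hd : IsDefinedOver d (cl ({a | IsPR O a} ∪ {x}))) (h : d.IsRational) {σ : ℂ ≃+* ℂ}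
    (hσ : ∀ z, IsPR O z → z.im = 0 → σ z = z) : (d.conj σ).IsRational := by
  have hc : ∀ a ∈ {a | IsPR O a}, (starRingEnd ℂ) a ∈ {a | IsPR O a} := by
    intro a ha
    exact (ca_conj (O := O) (ι := Fin 0) (b := fun _ => 0) (CA.const ha _)).isPR fun k => k.elim0
  by_cases hx : IsPR O x
  · refine law_x (n := 0) (x := Fin.elim0) (fun a ha => ha) hc (fun i => i.elim0) d ?_ h
      (fun z hz => hσ z (cl_EF hz))
    have e : ({a | IsPR O a} : Set ℂ) ∪ {x} = {a | IsPR O a} ∪ Set.range (Fin.elim0 : Fin 0 → ℂ) := by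
      rw [Set.range_eq_empty, Set.union_empty, Set.union_eq_left]
      rintro y rfl
      exact hx
    rwa [e] at hd
  · refine law_x (n := 1) (x := fun _ => x) (fun a ha => ha) hc
      (fun i => ⟨O, subset_rfl, fun j hj => ?_, hx⟩) d ?_ h (fun z hz => hσ z (cl_EF hz))
    · exact absurd hj (by simp [Subsingleton.elim j i])
    · rwa [Set.range_const]

end Pool.Agent.AHE
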